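import Mathlib

set_option autoImplicit false

/-!
# Lattice of a monic quadratic polynomial and unimodular pairs

For `F(T) = T^2 + B T + C` we use the lattice `ℤ ω + ℤ` coded as `ℤ × ℤ`.
-/

namespace Pool.Agent.FareyParity

/-- the norm form `x^2 + B x y + C y^2` -/
def nf (B C : ℤ) (v : ℤ × ℤ) : ℤ := v.1 ^ 2 + B * v.1 * v.2 + C * v.2 ^ 2

/-- determinant of two lattice vectors -/
def dt (v w : ℤ × ℤ) : ℤ := v.1 * w.2 - w.1 * v.2

/-- the integer `n` with `conj v * w = n + ω * dt v w` -/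
def ip (B C : ℤ) (v w : ℤ × ℤ) : ℤ := v.1 * w.1 + B * w.1 * v.2 + C * v.2 * w.2

/-- multiplication in `ℤ[ω]` -/
def mulv (B C : ℤ) (v w : ℤ × ℤ) : ℤ × ℤ :=
  (v.1 * w.1 - C * v.2 * w.2, v.1 * w.2 + w.1 * v.2 + B * v.2 * w.2)

/-- conjugation in `ℤ[ω]` -/
def cj (B : ℤ) (v : ℤ × ℤ) : ℤ × ℤ := (v.1 + B * v.2, -v.2)

theorem nf_mulv (B C : ℤ) (v w : ℤ × ℤ) : nf B C (mulv B C v w) = nf B C v * nf B C w := by
  simp only [nf, mulv]; ring

theorem nf_cj (B C : ℤ) (v : ℤ × ℤ) : nf B C (cj B v) = nf B C v := by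
  simp only [nf, cj]; ring

theorem nf_mul_nf (B C : ℤ) (v w : ℤ × ℤ) :
    nf B C v * nf B C w = nf B C (ip B C v w, dt v w) := by
  simp only [nf, ip, dt]; ring

theorem dt_swap (v w : ℤ × ℤ) : dt w v = - dt v w := by
  simp only [dt]; ring

theorem four_nf (B C : ℤ) (v : ℤ × ℤ) :
    4 * nf B C v = (2 * v.1 + B * v.2) ^ 2 + (4 * C - B ^ 2) * v.2 ^ 2 := by
  simp only [nf]; ring

theorem nf_pos {B C : ℤ} (hD : B ^ 2 < 4 * C) {v : ℤ × ℤ} (hv : v ≠ 0) : 0 < nf B C v := by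
  have h4 := four_nf B C v
  have hD' : 0 < 4 * C - B ^ 2 := by linarith
  by_cases h2 : v.2 = 0
  · have h1 : v.1 ≠ 0 := by
      intro h1; apply hv; ext <;> simp [h1, h2]
    have : 0 < v.1 ^ 2 := by positivity
    simp only [nf, h2]; nlinarith
  · have : 0 < v.2 ^ 2 := by positivity
    have h5 : 0 < (4 * C - B ^ 2) * v.2 ^ 2 := mul_pos hD' this
    nlinarith [sq_nonneg (2 * v.1 + B * v.2)]

theorem nf_smul (B C k : ℤ) (v : ℤ × ℤ) : nf B C (k • v) = k ^ 2 * nf B C v := by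
  simp only [nf, Prod.smul_fst, Prod.smul_snd, smul_eq_mul]; ring

/-- completely multiplicative functions with values `±1` -/
structure IsSign (f : ℕ → ℤ) : Prop where
  /-- complete multiplicativity -/
  mul : ∀ m n, f (m * n) = f m * f n
  /-- values at positive integers -/
  val : ∀ n, n ≠ 0 → f n = 1 ∨ f n = -1

/-- the colour of a lattice vector -/
def col (f : ℕ → ℤ) (B C : ℤ) (v : ℤ × ℤ) : ℤ := f (nf B C v).natAbs

section col
variable {f : ℕ → ℤ} (hf : IsSign f) {B C : ℤ} (hD : B ^ 2 < 4 * C)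

include hf in
theorem sign_one : f 1 = 1 := by
  have h := hf.mul 1 1
  rcases hf.val 1 one_ne_zero with h1 | h1 <;> simp_all

include hf in
theorem sign_sq {n : ℕ} (hn : n ≠ 0) : f (n * n) = 1 := by
  rw [hf.mul]; rcases hf.val n hn with h | h <;> simp [h]

include hf hD in
theorem col_val {v : ℤ × ℤ} (hv : v ≠ 0) : col f B C v = 1 ∨ col f B C v = -1 := by
  apply hf.val
  have := nf_pos hD hv
  omega

include hf in
theorem col_mulv (v w : ℤ × ℤ) : col f B C (mulv B C v w) = col f B C v * col f B C w := by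
  simp only [col]; rw [nf_mulv, Int.natAbs_mul, hf.mul]

theorem col_cj (f : ℕ → ℤ) (B C : ℤ) (v : ℤ × ℤ) : col f B C (cj B v) = col f B C v := by
  simp only [col, nf_cj]

include hf in
theorem col_smul {k : ℤ} (hk : k ≠ 0) (v : ℤ × ℤ) : col f B C (k • v) = col f B C v := by
  simp only [col]
  rw [nf_smul, Int.natAbs_mul, hf.mul, pow_two, Int.natAbs_mul, sign_sq hf (by omega), one_mul]

include hf in
/-- unimodular pairs give values of the polynomial -/
theorem col_mul_col {v w : ℤ × ℤ} (h : dt v w = 1) :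
    col f B C v * col f B C w = f (nf B C (ip B C v w, 1)).natAbs := by
  simp only [col]; rw [← hf.mul, ← Int.natAbs_mul, nf_mul_nf, h]

end col

/-- A set of lattice vectors closed under taking lattice points of triangles with vertex `0`. -/
def TriClosed (S : Set (ℤ × ℤ)) : Prop :=
  ∀ P ∈ S, ∀ Q ∈ S, ∀ v : ℤ × ℤ, v ≠ 0 → ∀ D s t : ℤ, 0 < D → 0 ≤ s → 0 ≤ t → s + t ≤ D →
    D • v = s • P + t • Q → v ∈ S

theorem exists_primitive {v : ℤ × ℤ} (hv : v ≠ 0) :
    ∃ (k : ℤ) (v0 : ℤ × ℤ), 0 < k ∧ v = k • v0 ∧ IsCoprime v0.1 v0.2 := by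
  have hg : 0 < Int.gcd v.1 v.2 := by
    rcases Nat.eq_zero_or_pos (Int.gcd v.1 v.2) with h | h
    · rw [Int.gcd_eq_zero_iff] at h
      exact absurd (Prod.ext h.1 h.2) hv
    · exact h
  obtain ⟨a, ha⟩ : ((Int.gcd v.1 v.2 : ℕ) : ℤ) ∣ v.1 := Int.gcd_dvd_left ..
  obtain ⟨b, hb⟩ : ((Int.gcd v.1 v.2 : ℕ) : ℤ) ∣ v.2 := Int.gcd_dvd_right ..
  refine ⟨Int.gcd v.1 v.2, (a, b), by exact_mod_cast hg, ?_, ?_⟩
  · ext
    · simpa using ha
    · simpa using hb
  · have hbz := Int.gcd_eq_gcd_ab v.1 v.2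
    refine ⟨Int.gcdA v.1 v.2, Int.gcdB v.1 v.2, ?_⟩
    have hg' : ((Int.gcd v.1 v.2 : ℕ) : ℤ) ≠ 0 := by positivity
    apply mul_left_cancel₀ hg'
    calc ((Int.gcd v.1 v.2 : ℕ) : ℤ) * (Int.gcdA v.1 v.2 * a + Int.gcdB v.1 v.2 * b)
        = ((Int.gcd v.1 v.2 : ℕ) : ℤ) * a * Int.gcdA v.1 v.2
          + ((Int.gcd v.1 v.2 : ℕ) : ℤ) * b * Int.gcdB v.1 v.2 := by ring
      _ = v.1 * Int.gcdA v.1 v.2 + v.2 * Int.gcdB v.1 v.2 := by rw [← ha, ← hb]
      _ = ((Int.gcd v.1 v.2 : ℕ) : ℤ) * 1 := by rw [mul_one, hbz]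

/-- a primitive vector has a unimodular partner -/
theorem exists_partner {P : ℤ × ℤ} (hP : IsCoprime P.1 P.2) : ∃ w : ℤ × ℤ, dt P w = 1 := by
  obtain ⟨a, b, h⟩ := hP
  exact ⟨(-b, a), by simp only [dt]; linarith⟩

/-- if `dt P Q = 0` and `P` is primitive then `Q` is a multiple of `P` -/
theorem eq_smul_of_dt_eq_zero {P Q : ℤ × ℤ} (hP : IsCoprime P.1 P.2) (h : dt P Q = 0) :
    ∃ e : ℤ, Q = e • P := by
  obtain ⟨a, b, hab⟩ := hP
  simp only [dt] at h
  refine ⟨a * Q.1 + b * Q.2, ?_⟩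
  ext
  · simp only [Prod.smul_fst, smul_eq_mul]
    calc Q.1 = Q.1 * (a * P.1 + b * P.2) := by rw [hab]; ring
      _ = a * Q.1 * P.1 + b * (Q.1 * P.2) := by ring
      _ = a * Q.1 * P.1 + b * (P.1 * Q.2) := by
          rw [show Q.1 * P.2 = P.1 * Q.2 by linarith]
      _ = (a * Q.1 + b * Q.2) * P.1 := by ring
  · simp only [Prod.smul_snd, smul_eq_mul]
    calc Q.2 = Q.2 * (a * P.1 + b * P.2) := by rw [hab]; ring
      _ = a * (P.1 * Q.2) + b * Q.2 * P.2 := by ring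
      _ = a * (Q.1 * P.2) + b * Q.2 * P.2 := by
          rw [show P.1 * Q.2 = Q.1 * P.2 by linarith]
      _ = (a * Q.1 + b * Q.2) * P.2 := by ring

/-- If two vectors of a triangle-closed set have different colours, there is a unimodular
bicoloured pair in the set. -/
theorem exists_bad_pair {S : Set (ℤ × ℤ)} (hS : TriClosed S) {g : ℤ × ℤ → ℤ}
    (hg : ∀ (k : ℤ) (v : ℤ × ℤ), k ≠ 0 → g (k • v) = g v) :
    ∀ (n : ℕ) (P Q : ℤ × ℤ), P ∈ S → Q ∈ S → P ≠ 0 → Q ≠ 0 → g P ≠ g Q → dt P Q = n →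
      ∃ z ∈ S, ∃ w ∈ S, z ≠ 0 ∧ w ≠ 0 ∧ dt z w = 1 ∧ g z ≠ g w := by
  intro n
  induction n using Nat.strong_induction_on with
  | _ n ih =>
    intro P Q hPS hQS hP hQ hne hdt
    obtain ⟨k, P0, hk, hPk, hP0⟩ := exists_primitive hP
    obtain ⟨l, Q0, hl, hQl, hQ0⟩ := exists_primitive hQ
    have hP00 : P0 ≠ 0 := by rintro rfl; simp [hPk] at hP
    have hQ00 : Q0 ≠ 0 := by rintro rfl; simp [hQl] at hQ
    have hP0S : P0 ∈ S := hS P hPS P hPS P0 hP00 k 1 0 hk (by norm_num) le_rfl (by omega)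
      (by simp [← hPk])
    have hQ0S : Q0 ∈ S := hS Q hQS Q hQS Q0 hQ00 l 1 0 hl (by norm_num) le_rfl (by omega)
      (by simp [← hQl])
    have hne0 : g P0 ≠ g Q0 := by
      rw [hPk, hQl, hg k _ hk.ne', hg l _ hl.ne'] at hne; exact hne
    have hdt0 : dt P Q = k * l * dt P0 Q0 := by
      rw [hPk, hQl]; simp only [dt, Prod.smul_fst, Prod.smul_snd, smul_eq_mul]; ring
    have hd0 : 0 ≤ dt P0 Q0 := by
      by_contra hneg
      push Not at hneg
      have : k * l * dt P0 Q0 < 0 := mul_neg_of_pos_of_neg (mul_pos hk hl) hneg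
      omega
    have hdle : dt P0 Q0 ≤ n := by
      rw [← hdt, hdt0]
      have : 1 ≤ k * l := by nlinarith
      nlinarith
    have hd1 : dt P0 Q0 ≠ 0 := by
      intro h0
      obtain ⟨e, he⟩ := eq_smul_of_dt_eq_zero hP0 h0
      have he0 : e ≠ 0 := by rintro rfl; simp at he; exact hQ00 he
      rw [he, hg e _ he0] at hne0
      exact hne0 rfl
    obtain ⟨w0, hw0⟩ := exists_partner hP0
    obtain ⟨D, hD⟩ : ∃ D : ℤ, D = dt P0 Q0 := ⟨_, rfl⟩
    have hDpos : 0 < D := by omega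
    rcases eq_or_lt_of_le (show (1 : ℤ) ≤ D by omega) with h1 | h1
    · exact ⟨P0, hP0S, Q0, hQ0S, hP00, hQ00, by omega, hne0⟩
    · obtain ⟨e, he⟩ : ∃ e : ℤ, Q0 - D • w0 = e • P0 := by
        apply eq_smul_of_dt_eq_zero hP0
        have : dt P0 (Q0 - D • w0) = dt P0 Q0 - D * dt P0 w0 := by
          simp only [dt, Prod.fst_sub, Prod.snd_sub, Prod.smul_fst, Prod.smul_snd, smul_eq_mul]
          ring
        rw [this, hw0, hD]; ring
      have hQe : Q0 = e • P0 + D • w0 := by rw [← he]; abel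
      obtain ⟨e0, he0⟩ : ∃ e0 : ℤ, e0 = e % D := ⟨_, rfl⟩
      have he0n : 0 ≤ e0 := by rw [he0]; exact Int.emod_nonneg _ hDpos.ne'
      have he0l : e0 < D := by rw [he0]; exact Int.emod_lt_of_pos _ hDpos
      obtain ⟨w1, hw1⟩ : ∃ w1 : ℤ × ℤ, w1 = w0 + (e / D) • P0 := ⟨_, rfl⟩
      have hediv : e = e0 + D * (e / D) := by rw [he0]; exact (Int.emod_add_mul_ediv e D).symm
      have hQ1 : Q0 = e0 • P0 + D • w1 := by
        rw [hw1, hQe, smul_add, smul_smul]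
        nth_rewrite 1 [hediv]
        rw [add_smul]; abel
      have he0pos : e0 ≠ 0 := by
        intro h0
        rw [h0, zero_smul, zero_add] at hQ1
        obtain ⟨a, b, hab⟩ := hQ0
        rw [hQ1] at hab
        simp only [Prod.smul_fst, Prod.smul_snd, smul_eq_mul] at hab
        have : D ∣ 1 := ⟨a * w1.1 + b * w1.2, by linarith⟩
        have := Int.le_of_dvd one_pos this
        omega
      obtain ⟨v, hv⟩ : ∃ v : ℤ × ℤ, v = w1 + P0 := ⟨_, rfl⟩
      have hDv : D • v = (D - e0) • P0 + (1 : ℤ) • Q0 := by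
        rw [hv, hQ1, smul_add, sub_smul, one_smul]; abel
      have hdPw1 : dt P0 w1 = 1 := by
        rw [hw1]
        have : dt P0 (w0 + (e / D) • P0) = dt P0 w0 := by
          simp only [dt, Prod.fst_add, Prod.snd_add, Prod.smul_fst, Prod.smul_snd, smul_eq_mul]
          ring
        rw [this, hw0]
      have hdPv : dt P0 v = 1 := by
        rw [hv]
        have : dt P0 (w1 + P0) = dt P0 w1 := by
          simp only [dt, Prod.fst_add, Prod.snd_add]; ring
        rw [this, hdPw1]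
      have hdvQ : dt v Q0 = D - e0 := by
        have h : dt v Q0 = D * dt P0 w1 - e0 * dt P0 w1 := by
          rw [hv, hQ1]
          simp only [dt, Prod.fst_add, Prod.snd_add, Prod.smul_fst, Prod.smul_snd, smul_eq_mul]
          ring
        rw [h, hdPw1]; ring
      have hv0 : v ≠ 0 := by rintro rfl; simp [dt] at hdPv
      have hvS : v ∈ S := hS P0 hP0S Q0 hQ0S v hv0 D (D - e0) 1 hDpos (by omega) (by norm_num)
        (by omega) hDv
      by_cases hgv : g P0 = g v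
      · have hgv' : g v ≠ g Q0 := by rw [← hgv]; exact hne0
        have hlt : (D - e0).toNat < n := by omega
        exact ih _ hlt v Q0 hvS hQ0S hv0 hQ00 hgv' (by rw [hdvQ]; omega)
      · exact ⟨P0, hP0S, v, hvS, hP00, hv0, hdPv, hgv⟩

end Pool.Agent.FareyParity
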