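import Mathlib
import Pool.Agent.FareyParity.Basic

set_option autoImplicit false

/-!
# Complex embedding and narrow cones
-/

namespace Pool.Agent.FareyParity

open Complex ComplexConjugate

/-- imaginary part of `ω` -/
noncomputable def bt (B C : ℤ) : ℝ := √(4 * (C : ℝ) - (B : ℝ) ^ 2) / 2

/-- the complex embedding of the lattice -/
noncomputable def cv (B C : ℤ) (v : ℤ × ℤ) : ℂ := ⟨v.1 + B / 2 * v.2, bt B C * v.2⟩

variable {B C : ℤ}

theorem bt_pos (hD : B ^ 2 < 4 * C) : 0 < bt B C := by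
  have : (0 : ℝ) < 4 * (C : ℝ) - (B : ℝ) ^ 2 := by
    have : ((B ^ 2 : ℤ) : ℝ) < ((4 * C : ℤ) : ℝ) := by exact_mod_cast hD
    push_cast at this; linarith
  unfold bt; positivity

theorem bt_sq (hD : B ^ 2 < 4 * C) : bt B C ^ 2 = C - (B : ℝ) ^ 2 / 4 := by
  have : (0 : ℝ) < 4 * (C : ℝ) - (B : ℝ) ^ 2 := by
    have : ((B ^ 2 : ℤ) : ℝ) < ((4 * C : ℤ) : ℝ) := by exact_mod_cast hD
    push_cast at this; linarith
  unfold bt; rw [div_pow, Real.sq_sqrt this.le]; ring

@[simp] theorem cv_re (v : ℤ × ℤ) : (cv B C v).re = v.1 + B / 2 * v.2 := rfl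
@[simp] theorem cv_im (v : ℤ × ℤ) : (cv B C v).im = bt B C * v.2 := rfl

theorem cv_add (v w : ℤ × ℤ) : cv B C (v + w) = cv B C v + cv B C w := by
  apply Complex.ext <;> simp
  all_goals ring

theorem cv_smul (k : ℤ) (v : ℤ × ℤ) : cv B C (k • v) = (k : ℂ) * cv B C v := by
  apply Complex.ext <;> simp
  all_goals ring

theorem cv_neg (v : ℤ × ℤ) : cv B C (-v) = - cv B C v := by
  apply Complex.ext <;> simp
  all_goals ring

theorem cv_mulv (hD : B ^ 2 < 4 * C) (v w : ℤ × ℤ) :
    cv B C (mulv B C v w) = cv B C v * cv B C w := by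
  have h := bt_sq hD
  apply Complex.ext
  · simp only [cv_re, mulv, mul_re, cv_im]
    push_cast
    linear_combination ((v.2 : ℝ) * w.2) * h
  · simp only [cv_re, mulv, mul_im, cv_im]
    push_cast
    ring

theorem cv_cj (v : ℤ × ℤ) : cv B C (cj B v) = conj (cv B C v) := by
  apply Complex.ext
  · simp only [cv_re, cj, conj_re]; push_cast; ring
  · simp only [cv_im, cj, conj_im]; push_cast; ring

theorem conj_cv_mul (hD : B ^ 2 < 4 * C) (v w : ℤ × ℤ) :
    conj (cv B C v) * cv B C w = cv B C (ip B C v w, dt v w) := by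
  have h := bt_sq hD
  apply Complex.ext
  · simp only [cv_re, ip, dt, mul_re, cv_im, conj_re, conj_im]
    push_cast
    linear_combination ((v.2 : ℝ) * w.2) * h
  · simp only [cv_re, ip, dt, mul_im, cv_im, conj_re, conj_im]
    push_cast
    ring

theorem normSq_cv (hD : B ^ 2 < 4 * C) (v : ℤ × ℤ) : normSq (cv B C v) = nf B C v := by
  have h := bt_sq hD
  rw [normSq_apply]
  simp only [cv_re, cv_im, nf]
  push_cast
  linear_combination ((v.2 : ℝ) ^ 2) * h

theorem norm_cv_sq (hD : B ^ 2 < 4 * C) (v : ℤ × ℤ) : ‖cv B C v‖ ^ 2 = nf B C v := by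
  rw [← normSq_cv hD, normSq_eq_norm_sq]

theorem one_le_norm_cv (hD : B ^ 2 < 4 * C) {v : ℤ × ℤ} (hv : v ≠ 0) : 1 ≤ ‖cv B C v‖ := by
  have h := norm_cv_sq hD v
  have h1 : (1 : ℝ) ≤ nf B C v := by exact_mod_cast nf_pos hD hv
  have h2 : (1 : ℝ) ^ 2 ≤ ‖cv B C v‖ ^ 2 := by rw [h]; simpa using h1
  exact (pow_le_pow_iff_left₀ (by norm_num) (norm_nonneg _) two_ne_zero).1 h2

theorem cv_ne_zero (hD : B ^ 2 < 4 * C) {v : ℤ × ℤ} (hv : v ≠ 0) : cv B C v ≠ 0 := by
  intro h
  have := one_le_norm_cv hD hv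
  rw [h, norm_zero] at this
  linarith

/-- lattice vectors of norm at most `R` in the narrow cone of slope `s` around `p` -/
def NearSet (B C : ℤ) (p : ℂ) (s R : ℝ) : Set (ℤ × ℤ) :=
  {v | ‖cv B C v‖ ≤ R ∧ |(conj p * cv B C v).im| ≤ s * (conj p * cv B C v).re}

theorem nearSet_mono {p : ℂ} {s R R' : ℝ} (h : R ≤ R') :
    NearSet B C p s R ⊆ NearSet B C p s R' := fun _ hv => ⟨hv.1.trans h, hv.2⟩

theorem triClosed_nearSet (p : ℂ) {s R : ℝ} (hR : 0 ≤ R) :
    TriClosed (NearSet B C p s R) := by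
  intro P hP Q hQ v hv D a b hD ha hb hab heq
  have hD' : (0 : ℝ) < D := by exact_mod_cast hD
  have ha' : (0 : ℝ) ≤ a := by exact_mod_cast ha
  have hb' : (0 : ℝ) ≤ b := by exact_mod_cast hb
  have hab' : (a : ℝ) + b ≤ D := by exact_mod_cast hab
  have hc : (D : ℂ) * cv B C v = a * cv B C P + b * cv B C Q := by
    rw [← cv_smul, ← cv_smul, ← cv_smul, ← cv_add, heq]
  constructor
  · have h1 : (D : ℝ) * ‖cv B C v‖ ≤ a * ‖cv B C P‖ + b * ‖cv B C Q‖ := by
      have : ‖(D : ℂ) * cv B C v‖ ≤ ‖(a : ℂ) * cv B C P‖ + ‖(b : ℂ) * cv B C Q‖ := by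
        rw [hc]; exact norm_add_le _ _
      rw [norm_mul, norm_mul, norm_mul] at this
      have e1 : ‖(D : ℂ)‖ = D := by
        rw [Complex.norm_intCast]; exact abs_of_pos hD'
      have e2 : ‖(a : ℂ)‖ = a := by
        rw [Complex.norm_intCast]; exact abs_of_nonneg ha'
      have e3 : ‖(b : ℂ)‖ = b := by
        rw [Complex.norm_intCast]; exact abs_of_nonneg hb'
      rwa [e1, e2, e3] at this
    have h2 : (D : ℝ) * ‖cv B C v‖ ≤ D * R := by
      calc (D : ℝ) * ‖cv B C v‖ ≤ a * ‖cv B C P‖ + b * ‖cv B C Q‖ := h1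
        _ ≤ a * R + b * R := by gcongr; exacts [hP.1, hQ.1]
        _ = (a + b) * R := by ring
        _ ≤ D * R := by gcongr
    exact le_of_mul_le_mul_left h2 hD'
  · have hre : (D : ℝ) * (conj p * cv B C v).re
        = a * (conj p * cv B C P).re + b * (conj p * cv B C Q).re := by
      have : (conj p * ((D : ℂ) * cv B C v)).re
          = (conj p * ((a : ℂ) * cv B C P + b * cv B C Q)).re := by rw [hc]
      have e : conj p * ((D : ℂ) * cv B C v) = (D : ℂ) * (conj p * cv B C v) := by ring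
      have e' : conj p * ((a : ℂ) * cv B C P + b * cv B C Q)
          = (a : ℂ) * (conj p * cv B C P) + (b : ℂ) * (conj p * cv B C Q) := by ring
      rw [e, e'] at this
      simpa using this
    have him : (D : ℝ) * (conj p * cv B C v).im
        = a * (conj p * cv B C P).im + b * (conj p * cv B C Q).im := by
      have : (conj p * ((D : ℂ) * cv B C v)).im
          = (conj p * ((a : ℂ) * cv B C P + b * cv B C Q)).im := by rw [hc]
      have e : conj p * ((D : ℂ) * cv B C v) = (D : ℂ) * (conj p * cv B C v) := by ring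
      have e' : conj p * ((a : ℂ) * cv B C P + b * cv B C Q)
          = (a : ℂ) * (conj p * cv B C P) + (b : ℂ) * (conj p * cv B C Q) := by ring
      rw [e, e'] at this
      simpa using this
    have key : (D : ℝ) * |(conj p * cv B C v).im| ≤ D * (s * (conj p * cv B C v).re) := by
      calc (D : ℝ) * |(conj p * cv B C v).im| = |(D : ℝ) * (conj p * cv B C v).im| := by
            rw [abs_mul, abs_of_pos hD']
        _ = |a * (conj p * cv B C P).im + b * (conj p * cv B C Q).im| := by rw [him]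
        _ ≤ |a * (conj p * cv B C P).im| + |b * (conj p * cv B C Q).im| := abs_add_le _ _
        _ = a * |(conj p * cv B C P).im| + b * |(conj p * cv B C Q).im| := by
            rw [abs_mul, abs_mul, abs_of_nonneg ha', abs_of_nonneg hb']
        _ ≤ a * (s * (conj p * cv B C P).re) + b * (s * (conj p * cv B C Q).re) := by
            gcongr; exacts [hP.2, hQ.2]
        _ = s * (a * (conj p * cv B C P).re + b * (conj p * cv B C Q).re) := by ring
        _ = D * (s * (conj p * cv B C v).re) := by rw [← hre]; ring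
    exact le_of_mul_le_mul_left key hD'

/-- unit complex number in the direction of a lattice vector -/
noncomputable def un (B C : ℤ) (v : ℤ × ℤ) : ℂ := cv B C v / ‖cv B C v‖

theorem norm_un (hD : B ^ 2 < 4 * C) {v : ℤ × ℤ} (hv : v ≠ 0) : ‖un B C v‖ = 1 := by
  have := one_le_norm_cv hD hv
  have h0 : ‖cv B C v‖ ≠ 0 := by positivity
  simp [un, h0]

/-- rotation by `α` maps the narrow cone around `p` to the one around `p * un α`. -/
theorem mulv_mem_nearSet (hD : B ^ 2 < 4 * C) {p : ℂ} {s ρ A R : ℝ} {α u : ℤ × ℤ}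
    (hα : α ≠ 0) (hαA : ‖cv B C α‖ ≤ A) (hR : A * ρ ≤ R)
    (hu : u ∈ NearSet B C p s ρ) : mulv B C α u ∈ NearSet B C (p * un B C α) s R := by
  have h1 := one_le_norm_cv hD hα
  have hpos : 0 < ‖cv B C α‖ := by linarith
  constructor
  · rw [cv_mulv hD, norm_mul]
    calc ‖cv B C α‖ * ‖cv B C u‖ ≤ A * ρ := by
          apply mul_le_mul hαA hu.1 (norm_nonneg _) (by linarith)
      _ ≤ R := hR
  · have e : conj (p * un B C α) * cv B C (mulv B C α u)
        = (‖cv B C α‖ : ℂ) * (conj p * cv B C u) := by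
      rw [cv_mulv hD, map_mul]
      have e1 : conj (un B C α) * cv B C α = (‖cv B C α‖ : ℂ) := by
        rw [un, map_div₀, conj_ofReal, div_mul_eq_mul_div, mul_comm (conj _), mul_conj,
          normSq_eq_norm_sq]
        have : (‖cv B C α‖ : ℂ) ≠ 0 := by exact_mod_cast hpos.ne'
        push_cast
        field_simp
      calc conj p * conj (un B C α) * (cv B C α * cv B C u)
          = (conj (un B C α) * cv B C α) * (conj p * cv B C u) := by ring
        _ = _ := by rw [e1]
    rw [e, re_ofReal_mul, im_ofReal_mul, abs_mul, abs_of_pos hpos]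
    calc ‖cv B C α‖ * |(conj p * cv B C u).im|
        ≤ ‖cv B C α‖ * (s * (conj p * cv B C u).re) := by gcongr; exact hu.2
      _ = _ := by ring

/-- turning the axis of the cone by a small angle -/
theorem nearSet_turn {p : ℂ} {η s R : ℝ} (h0 : 0 < s) (hs : s ≤ 1 / 4) (hη : |η| ≤ s) {u : ℤ × ℤ}
    (hu : u ∈ NearSet B C (p * exp (η * I)) s R) : u ∈ NearSet B C p (4 * s) R := by
  refine ⟨hu.1, ?_⟩
  have hs0 : 0 ≤ s := h0.le
  obtain ⟨w, hw⟩ : ∃ w : ℂ, w = conj (p * exp (η * I)) * cv B C u := ⟨_, rfl⟩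
  have hw2 : |w.im| ≤ s * w.re := by rw [hw]; exact hu.2
  have e : conj p * cv B C u = exp (η * I) * w := by
    rw [hw, map_mul]
    have : exp (η * I) * conj (exp (η * I)) = 1 := by
      rw [mul_conj, normSq_eq_norm_sq, norm_exp_ofReal_mul_I]; norm_num
    calc conj p * cv B C u = (exp (η * I) * conj (exp (η * I))) * (conj p * cv B C u) := by
          rw [this, one_mul]
      _ = _ := by ring
  have hwre : 0 ≤ w.re := by
    by_contra hneg
    push Not at hneg
    have h1 := abs_nonneg w.im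
    nlinarith
  rw [e]
  have hc : Real.cos η ≤ 1 := Real.cos_le_one η
  have hc2 : 1 - η ^ 2 / 2 ≤ Real.cos η := Real.one_sub_sq_div_two_le_cos
  have hsin : |Real.sin η| ≤ |η| := Real.abs_sin_le_abs
  have hre : (exp (η * I) * w).re = Real.cos η * w.re - Real.sin η * w.im := by
    rw [mul_re, exp_ofReal_mul_I_re, exp_ofReal_mul_I_im]
  have him : (exp (η * I) * w).im = Real.cos η * w.im + Real.sin η * w.re := by
    rw [mul_im, exp_ofReal_mul_I_re, exp_ofReal_mul_I_im]
  rw [hre, him]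
  have hη1 : |η| ≤ 1 / 4 := hη.trans hs
  have hηsq : η ^ 2 ≤ 1 / 16 := by
    rw [← sq_abs]; nlinarith [abs_nonneg η]
  have hcpos : 31 / 32 ≤ Real.cos η := by linarith
  have a1 : |Real.cos η * w.im + Real.sin η * w.re| ≤ 2 * s * w.re := by
    calc |Real.cos η * w.im + Real.sin η * w.re|
        ≤ |Real.cos η * w.im| + |Real.sin η * w.re| := abs_add_le _ _
      _ = |Real.cos η| * |w.im| + |Real.sin η| * |w.re| := by rw [abs_mul, abs_mul]
      _ ≤ 1 * (s * w.re) + s * w.re := by
          rw [abs_of_nonneg hwre]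
          gcongr
          · exact Real.abs_cos_le_one η
          · exact hsin.trans hη
      _ = 2 * s * w.re := by ring
  have a2 : w.re / 2 ≤ Real.cos η * w.re - Real.sin η * w.im := by
    have b1 : Real.sin η * w.im ≤ |η| * (s * w.re) := by
      calc Real.sin η * w.im ≤ |Real.sin η * w.im| := le_abs_self _
        _ = |Real.sin η| * |w.im| := abs_mul _ _
        _ ≤ |η| * (s * w.re) := by gcongr
    have b2 : |η| * (s * w.re) ≤ 1 / 16 * w.re := by
      have : |η| * s ≤ 1 / 16 := by nlinarith [abs_nonneg η]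
      nlinarith
    nlinarith
  calc |Real.cos η * w.im + Real.sin η * w.re| ≤ 2 * s * w.re := a1
    _ = 4 * s * (w.re / 2) := by ring
    _ ≤ 4 * s * (Real.cos η * w.re - Real.sin η * w.im) := by gcongr

end Pool.Agent.FareyParity
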