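import Mathlib
import Pool.Agent.FareyParity.Near

set_option autoImplicit false

/-!
# Chains of rotations
-/

namespace Pool.Agent.FareyParity

open Complex ComplexConjugate

variable {B C : ℤ}

/-- there is a lattice vector of norm `≤ ρ` in the cone -/
def Good (B C : ℤ) (p : ℂ) (s ρ : ℝ) : Prop := ∃ u : ℤ × ℤ, u ≠ 0 ∧ u ∈ NearSet B C p s ρ

/-- there is a bicoloured unimodular pair in the cone -/
def HasBad (f : ℕ → ℤ) (B C : ℤ) (p : ℂ) (s R : ℝ) : Prop :=
  ∃ z ∈ NearSet B C p s R, ∃ w ∈ NearSet B C p s R, z ≠ 0 ∧ w ≠ 0 ∧ dt z w = 1 ∧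
    col f B C z ≠ col f B C w

theorem nearSet_slope {p : ℂ} {s R : ℝ} (hs : 0 < s) :
    NearSet B C p s R ⊆ NearSet B C p (4 * s) R := by
  intro v hv
  refine ⟨hv.1, hv.2.trans ?_⟩
  have h := (abs_nonneg _).trans hv.2
  have : 4 * s * (conj p * cv B C v).re = 4 * (s * (conj p * cv B C v).re) := by ring
  rw [this]; linarith

/-- without a bicoloured unimodular pair the cone is monochromatic -/
theorem mono_of_not_hasBad {f : ℕ → ℤ} (hf : IsSign f) {p : ℂ} {s R : ℝ} (hR : 0 ≤ R)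
    (h : ¬ HasBad f B C p s R) {P Q : ℤ × ℤ} (hP : P ∈ NearSet B C p s R)
    (hQ : Q ∈ NearSet B C p s R) (hP0 : P ≠ 0) (hQ0 : Q ≠ 0) : col f B C P = col f B C Q := by
  by_contra hne
  apply h
  have hg : ∀ (k : ℤ) (v : ℤ × ℤ), k ≠ 0 → col f B C (k • v) = col f B C v :=
    fun k v hk => col_smul hf hk v
  rcases le_total 0 (dt P Q) with h1 | h1
  · obtain ⟨z, hz, w, hw, hz0, hw0, hd, hc⟩ :=
      exists_bad_pair (triClosed_nearSet p hR) hg (dt P Q).toNat P Q hP hQ hP0 hQ0 hne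
        (by omega)
    exact ⟨z, hz, w, hw, hz0, hw0, hd, hc⟩
  · obtain ⟨z, hz, w, hw, hz0, hw0, hd, hc⟩ :=
      exists_bad_pair (triClosed_nearSet p hR) hg (dt Q P).toNat Q P hQ hP hQ0 hP0
        (fun h => hne h.symm) (by rw [dt_swap]; omega)
    exact ⟨z, hz, w, hw, hz0, hw0, hd, hc⟩

/-- the partial products of the directions of a list of vectors -/
noncomputable def offs (B C : ℤ) : List (ℤ × ℤ) → List ℂ
  | [] => [1]
  | v :: l => 1 :: (offs B C l).map (fun q => un B C v * q)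

theorem length_offs (l : List (ℤ × ℤ)) : (offs B C l).length = l.length + 1 := by
  induction l with
  | nil => rfl
  | cons v l ih => simp [offs, ih]

theorem one_mem_offs (l : List (ℤ × ℤ)) : (1 : ℂ) ∈ offs B C l := by
  cases l <;> simp [offs]

theorem norm_offs (hD : B ^ 2 < 4 * C) (l : List (ℤ × ℤ)) (hl : ∀ v ∈ l, v ≠ 0) :
    ∀ q ∈ offs B C l, ‖q‖ = 1 := by
  induction l with
  | nil => intro q hq; simp [offs] at hq; simp [hq]
  | cons v l ih =>
    intro q hq
    simp only [offs, List.mem_cons, List.mem_map] at hq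
    rcases hq with rfl | ⟨q', hq', rfl⟩
    · simp
    · rw [norm_mul, norm_un hD (hl v (by simp)), ih (fun w hw => hl w (by simp [hw])) q' hq',
        one_mul]

theorem chain (hD : B ^ 2 < 4 * C) {f : ℕ → ℤ} (hf : IsSign f) {s ρ A R : ℝ}
    (hAρ : A * ρ ≤ R) (hρ : 0 ≤ ρ) (hρR : ρ ≤ R) :
    ∀ (L : List (ℤ × ℤ)), (∀ v ∈ L, v ≠ 0 ∧ ‖cv B C v‖ ≤ A) → ∀ p : ℂ,
      (∀ q ∈ offs B C L, Good B C (p * q) s ρ ∧ ¬ HasBad f B C (p * q) s R) →
      ∀ u ∈ NearSet B C p s ρ, u ≠ 0 →
      ∀ u' ∈ NearSet B C (p * (L.map (un B C)).prod) s R, u' ≠ 0 →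
        col f B C u' = col f B C u * (L.map (col f B C)).prod := by
  intro L
  induction L with
  | nil =>
    intro _ p hq u hu hu0 u' hu' hu0'
    have h1 := hq 1 (by simp [offs])
    rw [mul_one] at h1
    simp only [List.map_nil, List.prod_nil, mul_one] at hu' ⊢
    exact mono_of_not_hasBad hf (hρ.trans hρR) h1.2 hu' (nearSet_mono hρR hu) hu0' hu0
  | cons α L ih =>
    intro hL p hq u hu hu0 u' hu' hu0'
    have hα := hL α (by simp)
    have h1 := hq (un B C α) (by
      simp only [offs, List.mem_cons, List.mem_map]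
      exact Or.inr ⟨1, one_mem_offs L, by rw [mul_one]⟩)
    obtain ⟨u1, hu10, hu1⟩ := h1.1
    have hα0 : mulv B C α u ≠ 0 := by
      intro h0
      have := nf_mulv B C α u
      rw [h0] at this
      have h2 := nf_pos hD hα.1
      have h3 := nf_pos hD hu0
      have h4 : nf B C 0 = 0 := by simp [nf]
      rw [h4] at this
      have := mul_pos h2 h3
      omega
    have hm := mono_of_not_hasBad hf (hρ.trans hρR) h1.2 (nearSet_mono hρR hu1)
      (mulv_mem_nearSet hD hα.1 hα.2 hAρ hu) hu10 hα0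
    have := ih (fun v hv => hL v (by simp [hv])) (p * un B C α) (by
        intro q hq'
        rw [mul_assoc]
        apply hq
        simp only [offs, List.mem_cons, List.mem_map]
        exact Or.inr ⟨q, hq', rfl⟩) u1 hu1 hu10 u' (by
        rw [mul_assoc]; simpa using hu') hu0'
    rw [this, hm, col_mulv hf]
    simp only [List.map_cons, List.prod_cons]
    ring

/-- Main local statement: near one of the rotated directions either there is no short lattice
vector or there is a bicoloured unimodular pair. -/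
theorem exists_off (hD : B ^ 2 < 4 * C) {f : ℕ → ℤ} (hf : IsSign f) {s ρ A R η : ℝ}
    (hs : 0 < s) (hs4 : s ≤ 1 / 4) (hη : |η| ≤ s)
    (hAρ : A * ρ ≤ R) (hρ : 0 ≤ ρ) (hρR : ρ ≤ R) {L : List (ℤ × ℤ)}
    (hL : ∀ v ∈ L, v ≠ 0 ∧ ‖cv B C v‖ ≤ A) (hprod : (L.map (un B C)).prod = exp (η * I))
    (hcol : (L.map (col f B C)).prod = -1) (p : ℂ) :
    ∃ q ∈ offs B C L, ¬ Good B C (p * q) s ρ ∨ HasBad f B C (p * q) (4 * s) R := by
  by_contra hcon
  push Not at hcon
  have hnb : ∀ q ∈ offs B C L, Good B C (p * q) s ρ ∧ ¬ HasBad f B C (p * q) s R := by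
    intro q hq
    refine ⟨(hcon q hq).1, fun ⟨z, hz, w, hw, h⟩ => (hcon q hq).2
      ⟨z, nearSet_slope hs hz, w, nearSet_slope hs hw, h⟩⟩
  obtain ⟨u, hu0, hu⟩ := (hcon 1 (one_mem_offs L)).1
  rw [mul_one] at hu
  -- good vector at the end
  have hend : (L.map (un B C)).prod ∈ offs B C L := by
    clear hnb hcon hcol hprod hL
    induction L with
    | nil => simp [offs]
    | cons v l ih =>
      simp only [offs, List.map_cons, List.prod_cons, List.mem_cons, List.mem_map]
      exact Or.inr ⟨_, ih, rfl⟩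
  obtain ⟨u', hu0', hu'⟩ := (hcon _ hend).1
  have h1 := chain hD hf hAρ hρ hρR L hL p hnb u hu hu0 u' (nearSet_mono hρR hu') hu0'
  rw [hprod] at hu'
  have h2 : u' ∈ NearSet B C p (4 * s) R := nearSet_turn hs hs4 hη (nearSet_mono hρR hu')
  have h3 := hcon 1 (one_mem_offs L)
  rw [mul_one] at h3
  have h4 := mono_of_not_hasBad hf (hρ.trans hρR) h3.2 h2
    (nearSet_slope hs (nearSet_mono hρR hu)) hu0' hu0
  rw [hcol, h4] at h1
  rcases col_val hf hD hu0 with h | h <;> rw [h] at h1 <;> norm_num at h1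

end Pool.Agent.FareyParity
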