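import Mathlib
import Pool.Agent.FareyParity.Chain

set_option autoImplicit false

/-!
# Geometry of numbers and measure estimates
-/

namespace Pool.Agent.FareyParity

open Complex ComplexConjugate MeasureTheory

variable {B C : ℤ}

/-- Dirichlet's approximation theorem for a linear form in two variables -/
theorem dirichlet_two (a b : ℝ) {n : ℕ} (hn : 0 < n) :
    ∃ v : ℤ × ℤ, v ≠ 0 ∧ |(v.1 : ℝ)| ≤ n ∧ |(v.2 : ℝ)| ≤ n ∧
      |a * v.1 + b * v.2| ≤ (|a| + |b|) / (n + 1) := by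
  have key : ∀ a b : ℝ, |b| ≤ |a| → ∃ x y : ℤ, y ≠ 0 ∧ |(x : ℝ)| ≤ n ∧ |(y : ℝ)| ≤ n ∧
      |a * x + b * y| ≤ (|a| + |b|) / (n + 1) := by
    intro a b hab
    rcases eq_or_ne a 0 with ha | ha
    · have hb : b = 0 := by
        rw [ha, abs_zero] at hab
        exact abs_nonpos_iff.1 hab
      refine ⟨0, 1, one_ne_zero, by simp, ?_, by simp [ha, hb]⟩
      have : (1 : ℝ) ≤ n := by exact_mod_cast hn
      simpa using this
    · obtain ⟨j, k, hk0, hkn, hjk⟩ := Real.exists_int_int_abs_mul_sub_le (b / a) hn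
      have hk0' : (0 : ℝ) < k := by exact_mod_cast hk0
      have hkn' : (k : ℝ) ≤ n := by exact_mod_cast hkn
      have hξ : |b / a| ≤ 1 := by
        rw [abs_div]; exact div_le_one_of_le₀ hab (abs_nonneg _)
      refine ⟨-j, k, hk0.ne', ?_, ?_, ?_⟩
      · have h1 : |(j : ℝ)| < n + 1 := by
          calc |(j : ℝ)| = |(k * (b / a)) - (k * (b / a) - j)| := by ring_nf
            _ ≤ |k * (b / a)| + |k * (b / a) - j| := abs_sub _ _
            _ ≤ n * 1 + 1 / (n + 1) := by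
                rw [abs_mul, abs_of_pos hk0']
                gcongr
            _ < n + 1 := by
                have : (1 : ℝ) / (n + 1) < 1 := by
                  rw [div_lt_one (by positivity)]
                  have : (1 : ℝ) ≤ n := by exact_mod_cast hn
                  linarith
                linarith
        have h2 : |j| < n + 1 := by exact_mod_cast h1
        have h3 : |j| ≤ n := by omega
        push_cast
        rw [abs_neg]
        exact_mod_cast h3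
      · rw [abs_of_pos hk0']; exact hkn'
      · have e : a * ((-j : ℤ) : ℝ) + b * k = a * (k * (b / a) - j) := by
          push_cast; field_simp; ring
        rw [e, abs_mul]
        calc |a| * |k * (b / a) - j| ≤ |a| * (1 / (n + 1)) := by gcongr
          _ = |a| / (n + 1) := by ring
          _ ≤ (|a| + |b|) / (n + 1) := by
              gcongr; linarith [abs_nonneg b]
  rcases le_total |b| |a| with h | h
  · obtain ⟨x, y, hy, h1, h2, h3⟩ := key a b h
    exact ⟨(x, y), by intro h0; exact hy (congrArg Prod.snd h0), h1, h2, h3⟩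
  · obtain ⟨x, y, hy, h1, h2, h3⟩ := key b a h
    refine ⟨(y, x), by intro h0; exact hy (congrArg Prod.fst h0), h2, h1, ?_⟩
    rw [add_comm, add_comm |a|]; exact h3

/-- geometric constant -/
noncomputable def cB (B C : ℤ) : ℝ := 1 + |(B : ℝ)| / 2 + bt B C

theorem cB_ge (hD : B ^ 2 < 4 * C) : 1 ≤ cB B C := by
  have := bt_pos hD
  have h2 := abs_nonneg (B : ℝ)
  unfold cB; linarith

theorem norm_cv_le (hD : B ^ 2 < 4 * C) (v : ℤ × ℤ) {n : ℝ} (h1 : |(v.1 : ℝ)| ≤ n)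
    (h2 : |(v.2 : ℝ)| ≤ n) : ‖cv B C v‖ ≤ n * cB B C := by
  have hb := bt_pos hD
  calc ‖cv B C v‖ ≤ |(cv B C v).re| + |(cv B C v).im| := norm_le_abs_re_add_abs_im _
    _ = |(v.1 : ℝ) + B / 2 * v.2| + |bt B C * v.2| := by rw [cv_re, cv_im]
    _ ≤ (|(v.1 : ℝ)| + |(B : ℝ) / 2 * v.2|) + |bt B C * v.2| := by
        gcongr; exact abs_add_le _ _
    _ = |(v.1 : ℝ)| + |(B : ℝ)| / 2 * |(v.2 : ℝ)| + bt B C * |(v.2 : ℝ)| := by
        rw [abs_mul, abs_mul, abs_div, abs_of_pos hb]; norm_num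
    _ ≤ n + |(B : ℝ)| / 2 * n + bt B C * n := by gcongr
    _ = n * cB B C := by unfold cB; ring

/-- short lattice vectors close to a given direction -/
theorem dirichlet_dir (hD : B ^ 2 < 4 * C) {p : ℂ} (hp : ‖p‖ = 1) {ρ : ℝ} (hρ : cB B C ≤ ρ) :
    ∃ v : ℤ × ℤ, v ≠ 0 ∧ ‖cv B C v‖ ≤ ρ ∧ |(conj p * cv B C v).im| ≤ cB B C ^ 2 / ρ ∧
      0 ≤ (conj p * cv B C v).re := by
  have hc := cB_ge hD
  have hc0 : 0 < cB B C := by linarith
  have hρ0 : 0 < ρ := by linarith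
  have hb := bt_pos hD
  obtain ⟨n, hn⟩ : ∃ n : ℕ, n = ⌊ρ / cB B C⌋₊ := ⟨_, rfl⟩
  have hn1 : 0 < n := by
    rw [hn]; apply Nat.floor_pos.2; rw [le_div_iff₀ hc0]; linarith
  have hnle : (n : ℝ) ≤ ρ / cB B C := by rw [hn]; exact Nat.floor_le (by positivity)
  have hnlt : ρ / cB B C < n + 1 := by rw [hn]; exact Nat.lt_floor_add_one _
  obtain ⟨v, hv0, hv1, hv2, hv3⟩ :=
    dirichlet_two (-p.im) (bt B C * p.re - B / 2 * p.im) hn1
  have him : (conj p * cv B C v).im = -p.im * v.1 + (bt B C * p.re - B / 2 * p.im) * v.2 := by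
    rw [mul_im, conj_re, conj_im, cv_re, cv_im]; ring
  have hpre : |p.re| ≤ 1 := by rw [← hp]; exact abs_re_le_norm p
  have hpim : |p.im| ≤ 1 := by rw [← hp]; exact abs_im_le_norm p
  have hcoef : |-p.im| + |bt B C * p.re - B / 2 * p.im| ≤ cB B C := by
    have h1 : |bt B C * p.re - B / 2 * p.im| ≤ bt B C + |(B : ℝ)| / 2 := by
      calc |bt B C * p.re - B / 2 * p.im| ≤ |bt B C * p.re| + |B / 2 * p.im| := abs_sub _ _
        _ = bt B C * |p.re| + |(B : ℝ)| / 2 * |p.im| := by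
            rw [abs_mul, abs_mul, abs_div, abs_of_pos hb]; norm_num
        _ ≤ bt B C * 1 + |(B : ℝ)| / 2 * 1 := by gcongr
        _ = _ := by ring
    rw [abs_neg]; unfold cB; linarith
  have hbound : |(conj p * cv B C v).im| ≤ cB B C ^ 2 / ρ := by
    rw [him]
    calc _ ≤ (|-p.im| + |bt B C * p.re - B / 2 * p.im|) / (n + 1) := hv3
      _ ≤ cB B C / (ρ / cB B C) := by
          apply div_le_div₀ hc0.le hcoef (by positivity) hnlt.le
      _ = cB B C ^ 2 / ρ := by field_simp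
  have hnorm : ‖cv B C v‖ ≤ ρ := by
    calc ‖cv B C v‖ ≤ n * cB B C := norm_cv_le hD v hv1 hv2
      _ ≤ ρ / cB B C * cB B C := by gcongr
      _ = ρ := by field_simp
  rcases le_total 0 (conj p * cv B C v).re with h | h
  · exact ⟨v, hv0, hnorm, hbound, h⟩
  · refine ⟨-v, neg_ne_zero.2 hv0, ?_, ?_, ?_⟩
    · rw [cv_neg, norm_neg]; exact hnorm
    · rw [cv_neg, mul_neg, neg_im, abs_neg]; exact hbound
    · rw [cv_neg, mul_neg, neg_re]; linarith

/-- a direction is good unless it is very close to a very short vector -/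
theorem good_or_short (hD : B ^ 2 < 4 * C) {p : ℂ} (hp : ‖p‖ = 1) {ρ K : ℝ} (hρ : cB B C ≤ ρ)
    (hK : 1 ≤ K) (hρK : 2 * cB B C ^ 2 * K ≤ ρ ^ 2) :
    Good B C p (2 * cB B C ^ 2 * K / ρ ^ 2) ρ ∨
      ∃ v : ℤ × ℤ, v ≠ 0 ∧ ‖cv B C v‖ < ρ / K ∧
        |(conj p * cv B C v).im| ≤ cB B C ^ 2 / ρ := by
  obtain ⟨v, hv0, hvn, hvi, hvr⟩ := dirichlet_dir hD hp hρ
  have hc := cB_ge hD
  have hρ0 : 0 < ρ := by linarith
  by_cases hlt : ‖cv B C v‖ < ρ / K
  · exact Or.inr ⟨v, hv0, hlt, hvi⟩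
  · left
    refine ⟨v, hv0, hvn, ?_⟩
    push Not at hlt
    have hsq : (conj p * cv B C v).re ^ 2 + (conj p * cv B C v).im ^ 2 = ‖cv B C v‖ ^ 2 := by
      have h1 : ‖conj p * cv B C v‖ = ‖cv B C v‖ := by
        rw [norm_mul, norm_conj, hp, one_mul]
      rw [← h1, ← normSq_eq_norm_sq, normSq_apply]; ring
    have h2 : (ρ / K) ^ 2 ≤ ‖cv B C v‖ ^ 2 := by gcongr
    have h3 : (conj p * cv B C v).im ^ 2 ≤ (cB B C ^ 2 / ρ) ^ 2 := by
      rw [← sq_abs]; gcongr
    have h4 : (cB B C ^ 2 / ρ) ^ 2 ≤ (ρ / K) ^ 2 / 4 := by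
      have : cB B C ^ 2 / ρ ≤ ρ / K / 2 := by
        rw [div_div, div_le_div_iff₀ hρ0 (by positivity)]; nlinarith
      calc (cB B C ^ 2 / ρ) ^ 2 ≤ (ρ / K / 2) ^ 2 := by gcongr
        _ = _ := by ring
    have h5 : (ρ / K / 2) ^ 2 ≤ (conj p * cv B C v).re ^ 2 := by nlinarith [sq_nonneg (ρ / K)]
    have h6 : ρ / K / 2 ≤ (conj p * cv B C v).re :=
      (pow_le_pow_iff_left₀ (by positivity) hvr two_ne_zero).1 h5
    calc |(conj p * cv B C v).im| ≤ cB B C ^ 2 / ρ := hvi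
      _ = 2 * cB B C ^ 2 * K / ρ ^ 2 * (ρ / K / 2) := by field_simp
      _ ≤ 2 * cB B C ^ 2 * K / ρ ^ 2 * (conj p * cv B C v).re := by gcongr

/-- The set of angles at which the direction is close to that of `u`. -/
theorem volume_close (u : ℂ) (hu : u ≠ 0) {δ : ℝ} (_hδ : 0 ≤ δ) :
    volume {θ : ℝ | θ ∈ Set.Icc 0 (2 * Real.pi) ∧
      |(conj (exp (θ * I)) * u).im| ≤ δ * ‖u‖} ≤ ENNReal.ofReal (5 * Real.pi * δ) := by
  obtain ⟨ψ, hψ⟩ : ∃ ψ : ℝ, ψ = arg u := ⟨_, rfl⟩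
  have hu' : 0 < ‖u‖ := norm_pos_iff.2 hu
  have hπ := Real.pi_pos
  have him : ∀ θ : ℝ, (conj (exp (θ * I)) * u).im = ‖u‖ * Real.sin (ψ - θ) := by
    intro θ
    have h1 : u = ‖u‖ * exp (ψ * I) := by rw [hψ]; exact (norm_mul_exp_arg_mul_I u).symm
    have h2 : conj (exp (θ * I)) = exp ((-θ : ℝ) * I) := by
      rw [← exp_conj, map_mul, conj_I, conj_ofReal]; push_cast; ring_nf
    rw [h1, h2, ← mul_assoc, mul_comm _ (‖u‖ : ℂ), mul_assoc, ← Complex.exp_add, ← add_mul,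
      ← ofReal_add, im_ofReal_mul, exp_ofReal_mul_I_im]
    congr 2
    ring
  have hsub : {θ : ℝ | θ ∈ Set.Icc 0 (2 * Real.pi) ∧
      |(conj (exp (θ * I)) * u).im| ≤ δ * ‖u‖} ⊆
      ⋃ k ∈ Finset.Icc (-3 : ℤ) 1,
        Set.Icc (ψ - k * Real.pi - Real.pi / 2 * δ) (ψ - k * Real.pi + Real.pi / 2 * δ) := by
    intro θ hθ
    obtain ⟨hθ1, hθ2⟩ := hθ
    rw [him, abs_mul, abs_of_pos hu', mul_comm δ, mul_le_mul_iff_right₀ hu'] at hθ2
    obtain ⟨k, hk⟩ : ∃ k : ℤ, k = round ((ψ - θ) / Real.pi) := ⟨_, rfl⟩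
    have hround := abs_sub_round ((ψ - θ) / Real.pi)
    rw [← hk] at hround
    have habs : |(ψ - θ) - k * Real.pi| ≤ Real.pi / 2 := by
      have : (ψ - θ) - k * Real.pi = Real.pi * ((ψ - θ) / Real.pi - k) := by
        field_simp
      rw [this, abs_mul, abs_of_pos hπ]
      calc Real.pi * |(ψ - θ) / Real.pi - k| ≤ Real.pi * (1 / 2) := by gcongr
        _ = Real.pi / 2 := by ring
    have hsin : |Real.sin ((ψ - θ) - k * Real.pi)| = |Real.sin (ψ - θ)| := by
      rw [Real.sin_sub_int_mul_pi, abs_mul, abs_zpow, abs_neg, abs_one, one_zpow, one_mul]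
    have h3 := Real.mul_abs_le_abs_sin habs
    rw [hsin] at h3
    have h4 : |(ψ - θ) - k * Real.pi| ≤ Real.pi / 2 * δ := by
      have : |(ψ - θ) - k * Real.pi| = Real.pi / 2 * (2 / Real.pi * |(ψ - θ) - k * Real.pi|) := by
        field_simp
      rw [this]; gcongr; exact h3.trans hθ2
    have hψ1 : -Real.pi < ψ := by rw [hψ]; exact neg_pi_lt_arg u
    have hψ2 : ψ ≤ Real.pi := by rw [hψ]; exact arg_le_pi u
    rw [abs_le] at h4 habs
    have hk1 : -3 ≤ k := by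
      have : (-4 : ℝ) < k := by
        by_contra hcon
        push Not at hcon
        have : (k : ℝ) * Real.pi ≤ -4 * Real.pi := by gcongr
        linarith [hθ1.2, habs.2]
      have : (-4 : ℤ) < k := by exact_mod_cast this
      omega
    have hk2 : k ≤ 1 := by
      have : (k : ℝ) < 2 := by
        by_contra hcon
        push Not at hcon
        have : 2 * Real.pi ≤ (k : ℝ) * Real.pi := by gcongr
        linarith [hθ1.1, habs.1]
      have : k < (2 : ℤ) := by exact_mod_cast this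
      omega
    simp only [Set.mem_iUnion]
    refine ⟨k, Finset.mem_Icc.2 ⟨hk1, hk2⟩, ?_, ?_⟩
    · linarith [h4.2]
    · linarith [h4.1]
  calc volume {θ : ℝ | θ ∈ Set.Icc 0 (2 * Real.pi) ∧
      |(conj (exp (θ * I)) * u).im| ≤ δ * ‖u‖}
      ≤ volume (⋃ k ∈ Finset.Icc (-3 : ℤ) 1,
        Set.Icc (ψ - k * Real.pi - Real.pi / 2 * δ) (ψ - k * Real.pi + Real.pi / 2 * δ)) :=
        measure_mono hsub
    _ ≤ ∑ k ∈ Finset.Icc (-3 : ℤ) 1, volume
        (Set.Icc (ψ - k * Real.pi - Real.pi / 2 * δ) (ψ - k * Real.pi + Real.pi / 2 * δ)) :=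
        measure_biUnion_finset_le _ _
    _ = ∑ k ∈ Finset.Icc (-3 : ℤ) 1, ENNReal.ofReal (Real.pi * δ) := by
        apply Finset.sum_congr rfl
        intro k _
        rw [Real.volume_Icc]; congr 1; ring
    _ = ENNReal.ofReal (5 * Real.pi * δ) := by
        rw [Finset.sum_const, Int.card_Icc]
        norm_num
        rw [mul_assoc, ENNReal.ofReal_mul (by norm_num : (0:ℝ) ≤ 5)]
        have : (((5 : ℤ).toNat : ℕ) : ENNReal) = ENNReal.ofReal 5 := by
          have : (5 : ℤ).toNat = 5 := rfl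
          rw [this]; norm_num
        rw [this]

/-- constant comparing the max norm and the norm form -/
noncomputable def mB (B C : ℤ) : ℝ := 1 + |(B : ℝ)| / (2 * bt B C) + 1 / bt B C

theorem mB_ge (hD : B ^ 2 < 4 * C) : 1 ≤ mB B C := by
  have := bt_pos hD
  have h2 : 0 ≤ |(B : ℝ)| / (2 * bt B C) := by positivity
  have h3 : 0 ≤ 1 / bt B C := by positivity
  unfold mB; linarith

theorem abs_snd_le (hD : B ^ 2 < 4 * C) (v : ℤ × ℤ) :
    |(v.2 : ℝ)| ≤ 1 / bt B C * ‖cv B C v‖ := by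
  have hb := bt_pos hD
  have h := abs_im_le_norm (cv B C v)
  rw [cv_im, abs_mul, abs_of_pos hb] at h
  rw [one_div, ← div_eq_inv_mul, le_div_iff₀ hb, mul_comm]; exact h

theorem max_le_mB (hD : B ^ 2 < 4 * C) (v : ℤ × ℤ) :
    max |(v.1 : ℝ)| |(v.2 : ℝ)| ≤ mB B C * ‖cv B C v‖ := by
  have hb := bt_pos hD
  have h2 := abs_snd_le hD v
  have h1 := abs_re_le_norm (cv B C v)
  rw [cv_re] at h1
  have hn := norm_nonneg (cv B C v)
  have e : mB B C * ‖cv B C v‖ = ‖cv B C v‖ + |(B : ℝ)| / (2 * bt B C) * ‖cv B C v‖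
      + 1 / bt B C * ‖cv B C v‖ := by unfold mB; ring
  have h4 : 0 ≤ |(B : ℝ)| / (2 * bt B C) * ‖cv B C v‖ := by positivity
  have h5 : 0 ≤ 1 / bt B C * ‖cv B C v‖ := by positivity
  apply max_le
  · calc |(v.1 : ℝ)| = |((v.1 : ℝ) + B / 2 * v.2) - B / 2 * v.2| := by ring_nf
      _ ≤ |(v.1 : ℝ) + B / 2 * v.2| + |(B : ℝ) / 2 * v.2| := abs_sub _ _
      _ = |(v.1 : ℝ) + B / 2 * v.2| + |(B : ℝ)| / 2 * |(v.2 : ℝ)| := by
          rw [abs_mul, abs_div]; norm_num
      _ ≤ ‖cv B C v‖ + |(B : ℝ)| / 2 * (1 / bt B C * ‖cv B C v‖) := by gcongr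
      _ = ‖cv B C v‖ + |(B : ℝ)| / (2 * bt B C) * ‖cv B C v‖ := by field_simp
      _ ≤ _ := by rw [e]; linarith
  · calc |(v.2 : ℝ)| ≤ 1 / bt B C * ‖cv B C v‖ := h2
      _ ≤ _ := by rw [e]; linarith

/-- the lattice vectors of norm at most `V`, as a finset -/
noncomputable def ballF (B C : ℤ) (V : ℝ) : Finset (ℤ × ℤ) :=
  (Finset.Icc (1 : ℕ) ⌊mB B C * V⌋₊).biUnion (fun n => (Finset.box n : Finset (ℤ × ℤ)))

theorem mem_ballF (hD : B ^ 2 < 4 * C) {V : ℝ} {v : ℤ × ℤ} (hv : v ≠ 0)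
    (h : ‖cv B C v‖ ≤ V) : v ∈ ballF B C V := by
  have h1 := max_le_mB hD v
  have hm := mB_ge hD
  simp only [ballF, Finset.mem_biUnion]
  refine ⟨max v.1.natAbs v.2.natAbs, ?_, Int.mem_box.2 rfl⟩
  rw [Finset.mem_Icc]
  constructor
  · rw [Nat.one_le_iff_ne_zero]
    intro h0
    apply hv
    have h1 : v.1.natAbs = 0 := by omega
    have h2 : v.2.natAbs = 0 := by omega
    exact Prod.ext (Int.natAbs_eq_zero.1 h1) (Int.natAbs_eq_zero.1 h2)
  · apply Nat.le_floor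
    have e : ((max v.1.natAbs v.2.natAbs : ℕ) : ℝ) = max |(v.1 : ℝ)| |(v.2 : ℝ)| := by
      rw [Nat.cast_max, Nat.cast_natAbs, Nat.cast_natAbs]
      push_cast; rfl
    rw [e]
    calc _ ≤ mB B C * ‖cv B C v‖ := h1
      _ ≤ mB B C * V := by gcongr

theorem sum_ballF (hD : B ^ 2 < 4 * C) {V : ℝ} (hV : 0 ≤ V) :
    ∑ v ∈ ballF B C V, 1 / ‖cv B C v‖ ≤ 8 * mB B C ^ 2 * V := by
  have hm := mB_ge hD
  have hm0 : 0 < mB B C := by linarith
  have hdisj : Set.PairwiseDisjoint (↑(Finset.Icc (1 : ℕ) ⌊mB B C * V⌋₊))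
      (fun n => (Finset.box n : Finset (ℤ × ℤ))) := by
    intro a _ b _ hab
    simp only [Function.onFun]
    rw [Finset.disjoint_left]
    intro x hx hx'
    rw [Int.mem_box] at hx hx'
    exact hab (hx.symm.trans hx')
  rw [ballF, Finset.sum_biUnion hdisj]
  calc ∑ n ∈ Finset.Icc (1 : ℕ) ⌊mB B C * V⌋₊, ∑ v ∈ (Finset.box n : Finset (ℤ × ℤ)),
        1 / ‖cv B C v‖
      ≤ ∑ n ∈ Finset.Icc (1 : ℕ) ⌊mB B C * V⌋₊, ∑ v ∈ (Finset.box n : Finset (ℤ × ℤ)),
        mB B C / n := by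
        apply Finset.sum_le_sum
        intro n hn
        apply Finset.sum_le_sum
        intro v hv
        rw [Finset.mem_Icc] at hn
        rw [Int.mem_box] at hv
        have hn' : (0 : ℝ) < n := by exact_mod_cast hn.1
        have e : (n : ℝ) = max |(v.1 : ℝ)| |(v.2 : ℝ)| := by
          rw [← hv, Nat.cast_max, Nat.cast_natAbs, Nat.cast_natAbs]
          push_cast; rfl
        have h1 := max_le_mB hD v
        rw [← e] at h1
        have hpos : 0 < ‖cv B C v‖ := by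
          by_contra hcon
          push Not at hcon
          have : ‖cv B C v‖ = 0 := le_antisymm hcon (norm_nonneg _)
          rw [this, mul_zero] at h1
          linarith
        rw [div_le_div_iff₀ hpos hn', one_mul]; exact h1
    _ = ∑ n ∈ Finset.Icc (1 : ℕ) ⌊mB B C * V⌋₊, 8 * mB B C := by
        apply Finset.sum_congr rfl
        intro n hn
        rw [Finset.mem_Icc] at hn
        have hn' : (n : ℝ) ≠ 0 := by
          have : n ≠ 0 := by omega
          exact_mod_cast this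
        rw [Finset.sum_const, Int.card_box (by omega), nsmul_eq_mul]
        push_cast
        field_simp
    _ = ⌊mB B C * V⌋₊ * (8 * mB B C) := by
        rw [Finset.sum_const, Nat.card_Icc, nsmul_eq_mul]; simp
    _ ≤ (mB B C * V) * (8 * mB B C) := by
        gcongr; exact Nat.floor_le (by positivity)
    _ = 8 * mB B C ^ 2 * V := by ring

end Pool.Agent.FareyParity
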