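import Mathlib
import Pool.Agent.FareyParity.Geom

set_option autoImplicit false

/-!
# Covering argument
-/

namespace Pool.Agent.FareyParity

open Complex ComplexConjugate MeasureTheory

variable {B C : ℤ}

theorem ne_zero_of_mem_ballF {V : ℝ} {v : ℤ × ℤ} (h : v ∈ ballF B C V) : v ≠ 0 := by
  simp only [ballF, Finset.mem_biUnion, Finset.mem_Icc] at h
  obtain ⟨n, hn, hv⟩ := h
  rw [Int.mem_box] at hv
  rintro rfl
  simp at hv
  omega

/-- first members of unimodular pairs of norm `≤ R` whose colours have product `e` -/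
noncomputable def pairF (f : ℕ → ℤ) (B C : ℤ) (R : ℝ) (e : ℤ) : Finset (ℤ × ℤ) := by
  classical
  exact (ballF B C R).filter (fun z => ‖cv B C z‖ ≤ R ∧
    ∃ w : ℤ × ℤ, w ≠ 0 ∧ ‖cv B C w‖ ≤ R ∧ dt z w = 1 ∧ col f B C z * col f B C w = e)

theorem real_of_measure_cover {ι κ : Type*} (Q : Finset ι) (V Z : Finset κ)
    (E1 E2 : ι → κ → Set ℝ) (a : κ → ℝ) (b : ℝ) (ha : ∀ v ∈ V, 0 ≤ a v) (hb : 0 ≤ b)
    (h1 : ∀ q ∈ Q, ∀ v ∈ V, volume (E1 q v) ≤ ENNReal.ofReal (a v))
    (h2 : ∀ q ∈ Q, ∀ z ∈ Z, volume (E2 q z) ≤ ENNReal.ofReal b)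
    (hcov : Set.Icc 0 (2 * Real.pi) ⊆ ⋃ q ∈ Q, ((⋃ v ∈ V, E1 q v) ∪ ⋃ z ∈ Z, E2 q z)) :
    2 * Real.pi ≤ Q.card * (∑ v ∈ V, a v + Z.card * b) := by
  have hS : 0 ≤ ∑ v ∈ V, a v := Finset.sum_nonneg ha
  have h3 : ∀ q ∈ Q, volume ((⋃ v ∈ V, E1 q v) ∪ ⋃ z ∈ Z, E2 q z) ≤
      ENNReal.ofReal (∑ v ∈ V, a v + Z.card * b) := by
    intro q hq
    calc volume ((⋃ v ∈ V, E1 q v) ∪ ⋃ z ∈ Z, E2 q z)
        ≤ volume (⋃ v ∈ V, E1 q v) + volume (⋃ z ∈ Z, E2 q z) := measure_union_le _ _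
      _ ≤ ∑ v ∈ V, volume (E1 q v) + ∑ z ∈ Z, volume (E2 q z) := by
          gcongr <;> exact measure_biUnion_finset_le _ _
      _ ≤ ∑ v ∈ V, ENNReal.ofReal (a v) + ∑ z ∈ Z, ENNReal.ofReal b := by
          gcongr with v hv z hz
          · exact h1 q hq v hv
          · exact h2 q hq z hz
      _ = ENNReal.ofReal (∑ v ∈ V, a v + Z.card * b) := by
          rw [← ENNReal.ofReal_sum_of_nonneg ha, Finset.sum_const, nsmul_eq_mul,
            ENNReal.ofReal_add hS (by positivity), ENNReal.ofReal_mul (by positivity),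
            ENNReal.ofReal_natCast]
  have h4 : ENNReal.ofReal (2 * Real.pi) ≤
      ENNReal.ofReal (Q.card * (∑ v ∈ V, a v + Z.card * b)) := by
    calc ENNReal.ofReal (2 * Real.pi) = volume (Set.Icc 0 (2 * Real.pi)) := by
          rw [Real.volume_Icc, sub_zero]
      _ ≤ volume (⋃ q ∈ Q, ((⋃ v ∈ V, E1 q v) ∪ ⋃ z ∈ Z, E2 q z)) := measure_mono hcov
      _ ≤ ∑ q ∈ Q, volume ((⋃ v ∈ V, E1 q v) ∪ ⋃ z ∈ Z, E2 q z) :=
          measure_biUnion_finset_le _ _
      _ ≤ ∑ q ∈ Q, ENNReal.ofReal (∑ v ∈ V, a v + Z.card * b) := Finset.sum_le_sum h3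
      _ = ENNReal.ofReal (Q.card * (∑ v ∈ V, a v + Z.card * b)) := by
          rw [Finset.sum_const, nsmul_eq_mul, ENNReal.ofReal_mul (by positivity),
            ENNReal.ofReal_natCast]
  exact (ENNReal.ofReal_le_ofReal_iff (by positivity)).1 h4

/-- The covering bound: many bicoloured unimodular pairs. -/
theorem many_bad (hD : B ^ 2 < 4 * C) {f : ℕ → ℤ} (hf : IsSign f) {s ρ A R K η : ℝ}
    {L : List (ℤ × ℤ)} (hρ : cB B C ≤ ρ) (hK : 1 ≤ K) (hρK : 2 * cB B C ^ 2 * K ≤ ρ ^ 2)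
    (hsdef : s = 2 * cB B C ^ 2 * K / ρ ^ 2) (hs4 : s ≤ 1 / 4) (hη : |η| ≤ s)
    (hAρ : A * ρ ≤ R) (hρR : ρ ≤ R)
    (hL : ∀ v ∈ L, v ≠ 0 ∧ ‖cv B C v‖ ≤ A) (hprod : (L.map (un B C)).prod = exp (η * I))
    (hcol : (L.map (col f B C)).prod = -1)
    (hKL : (L.length + 1) * (40 * cB B C ^ 2 * mB B C ^ 2) ≤ K) :
    1 ≤ (L.length + 1) * (20 * s) * (pairF f B C R (-1)).card := by
  classical
  have hc := cB_ge hD
  have hm := mB_ge hD
  have hρ0 : 0 < ρ := by linarith
  have hs : 0 < s := by rw [hsdef]; positivity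
  have hπ := Real.pi_pos
  obtain ⟨Q, hQ⟩ : ∃ Q : Finset ℂ, Q = (offs B C L).toFinset := ⟨_, rfl⟩
  have hQcard : (Q.card : ℝ) ≤ L.length + 1 := by
    have : Q.card ≤ (offs B C L).length := by rw [hQ]; exact List.toFinset_card_le _
    rw [length_offs] at this
    exact_mod_cast this
  have hQn : ∀ q ∈ Q, ‖q‖ = 1 := by
    intro q hq
    rw [hQ, List.mem_toFinset] at hq
    exact norm_offs hD L (fun v hv => (hL v hv).1) q hq
  obtain ⟨V, hV⟩ : ∃ V : Finset (ℤ × ℤ), V = ballF B C (ρ / K) := ⟨_, rfl⟩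
  have hmul : ∀ (θ : ℝ) (q : ℂ) (v : ℤ × ℤ), conj (exp (θ * I) * q) * cv B C v
      = conj (exp (θ * I)) * (conj q * cv B C v) := by
    intro θ q v; rw [map_mul]; ring
  have hnq : ∀ q ∈ Q, ∀ v : ℤ × ℤ, ‖conj q * cv B C v‖ = ‖cv B C v‖ := by
    intro q hq v; rw [norm_mul, norm_conj, hQn q hq, one_mul]
  have main := real_of_measure_cover Q V (pairF f B C R (-1))
    (fun q v => {θ : ℝ | θ ∈ Set.Icc 0 (2 * Real.pi) ∧
      |(conj (exp (θ * I)) * (conj q * cv B C v)).im| ≤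
        (cB B C ^ 2 / ρ / ‖cv B C v‖) * ‖conj q * cv B C v‖})
    (fun q z => {θ : ℝ | θ ∈ Set.Icc 0 (2 * Real.pi) ∧
      |(conj (exp (θ * I)) * (conj q * cv B C z)).im| ≤ (4 * s) * ‖conj q * cv B C z‖})
    (fun v => 5 * Real.pi * (cB B C ^ 2 / ρ / ‖cv B C v‖)) (5 * Real.pi * (4 * s))
    (by intro v _; positivity) (by positivity)
    (by
      intro q hq v hv
      rw [hV] at hv
      have hv0 := ne_zero_of_mem_ballF hv
      apply volume_close
      · intro h0
        have := hnq q hq v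
        rw [h0, norm_zero] at this
        have := one_le_norm_cv hD hv0
        linarith
      · positivity)
    (by
      intro q hq z hz
      simp only [pairF, Finset.mem_filter] at hz
      have hv0 := ne_zero_of_mem_ballF hz.1
      apply volume_close
      · intro h0
        have := hnq q hq z
        rw [h0, norm_zero] at this
        have := one_le_norm_cv hD hv0
        linarith
      · positivity)
    (by
      intro θ hθ
      have hp : ‖exp ((θ : ℂ) * I)‖ = 1 := norm_exp_ofReal_mul_I θ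
      obtain ⟨q, hq, hcase⟩ := exists_off hD hf hs hs4 hη hAρ hρ0.le hρR hL hprod hcol
        (exp (θ * I))
      have hqQ : q ∈ Q := by rw [hQ, List.mem_toFinset]; exact hq
      simp only [Set.mem_iUnion]
      refine ⟨q, hqQ, ?_⟩
      rcases hcase with hbad | hbad
      · left
        have hpq : ‖exp ((θ : ℂ) * I) * q‖ = 1 := by rw [norm_mul, hp, hQn q hqQ, one_mul]
        rcases good_or_short hD hpq hρ hK hρK with hg | ⟨v, hv0, hvn, hvi⟩
        · exfalso; apply hbad; rw [hsdef]; exact hg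
        · simp only [Set.mem_iUnion]
          refine ⟨v, by rw [hV]; exact mem_ballF hD hv0 hvn.le, hθ, ?_⟩
          rw [hnq q hqQ, ← hmul]
          have h1 := one_le_norm_cv hD hv0
          calc |(conj (exp (θ * I) * q) * cv B C v).im| ≤ cB B C ^ 2 / ρ := hvi
            _ = _ := by
                have : ‖cv B C v‖ ≠ 0 := by positivity
                field_simp
      · right
        obtain ⟨z, hz, w, hw, hz0, hw0, hdt, hne⟩ := hbad
        simp only [Set.mem_iUnion]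
        refine ⟨z, ?_, hθ, ?_⟩
        · simp only [pairF, Finset.mem_filter]
          refine ⟨mem_ballF hD hz0 hz.1, hz.1, w, hw0, hw.1, hdt, ?_⟩
          rcases col_val hf hD hz0 with h | h <;> rcases col_val hf hD hw0 with h' | h' <;>
            rw [h, h'] at hne ⊢ <;> simp_all
        · rw [hnq q hqQ, ← hmul]
          calc |(conj (exp (θ * I) * q) * cv B C z).im|
              ≤ 4 * s * (conj (exp (θ * I) * q) * cv B C z).re := hz.2
            _ ≤ 4 * s * ‖conj (exp (θ * I) * q) * cv B C z‖ := by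
                gcongr; exact re_le_norm _
            _ = 4 * s * ‖cv B C z‖ := by
                rw [norm_mul, norm_conj, norm_mul, hp, hQn q hqQ]; ring)
  have hsum : ∑ v ∈ V, 5 * Real.pi * (cB B C ^ 2 / ρ / ‖cv B C v‖)
      ≤ 5 * Real.pi * (cB B C ^ 2 / ρ) * (8 * mB B C ^ 2 * (ρ / K)) := by
    have : ∑ v ∈ V, 5 * Real.pi * (cB B C ^ 2 / ρ / ‖cv B C v‖)
        = 5 * Real.pi * (cB B C ^ 2 / ρ) * ∑ v ∈ V, 1 / ‖cv B C v‖ := by
      rw [Finset.mul_sum]; apply Finset.sum_congr rfl; intro v _; ring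
    rw [this, hV]
    have h := sum_ballF hD (V := ρ / K) (by positivity)
    gcongr
  have hK0 : 0 < K := by linarith
  have e1 : 5 * Real.pi * (cB B C ^ 2 / ρ) * (8 * mB B C ^ 2 * (ρ / K))
      = Real.pi * (40 * cB B C ^ 2 * mB B C ^ 2 / K) := by field_simp; ring
  rw [e1] at hsum
  have h5 : (L.length + 1 : ℝ) * (Real.pi * (40 * cB B C ^ 2 * mB B C ^ 2 / K)) ≤ Real.pi := by
    calc (L.length + 1 : ℝ) * (Real.pi * (40 * cB B C ^ 2 * mB B C ^ 2 / K))
        = Real.pi * (((L.length + 1) * (40 * cB B C ^ 2 * mB B C ^ 2)) / K) := by ring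
      _ ≤ Real.pi * 1 := by
          gcongr; rw [div_le_one hK0]; exact hKL
      _ = Real.pi := mul_one _
  have h6 : 2 * Real.pi ≤ (L.length + 1) * (Real.pi * (40 * cB B C ^ 2 * mB B C ^ 2 / K)
      + (pairF f B C R (-1)).card * (5 * Real.pi * (4 * s))) := by
    calc 2 * Real.pi ≤ _ := main
      _ ≤ (L.length + 1) * (Real.pi * (40 * cB B C ^ 2 * mB B C ^ 2 / K)
          + (pairF f B C R (-1)).card * (5 * Real.pi * (4 * s))) := by
          gcongr
  have h7 : Real.pi * 1 ≤ Real.pi * ((L.length + 1) * (20 * s) * (pairF f B C R (-1)).card) := by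
    have e2 : (L.length + 1 : ℝ) * (Real.pi * (40 * cB B C ^ 2 * mB B C ^ 2 / K)
      + (pairF f B C R (-1)).card * (5 * Real.pi * (4 * s)))
      = (L.length + 1 : ℝ) * (Real.pi * (40 * cB B C ^ 2 * mB B C ^ 2 / K))
        + Real.pi * ((L.length + 1) * (20 * s) * (pairF f B C R (-1)).card) := by ring
    rw [e2] at h6
    linarith
  exact le_of_mul_le_mul_left h7 hπ

end Pool.Agent.FareyParity
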