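import Mathlib
import Pool.Agent.FareyParity.Cover

set_option autoImplicit false

/-!
# Multiplicities and the divisor bound
-/

namespace Pool.Agent.FareyParity

open Complex ComplexConjugate

variable {B C : ℤ}

theorem mulv_ip (B C : ℤ) (z w : ℤ × ℤ) :
    mulv B C z (ip B C z w, dt z w) = nf B C z • w := by
  ext
  · simp only [mulv, ip, dt, nf, Prod.smul_fst, smul_eq_mul]; ring
  · simp only [mulv, ip, dt, nf, Prod.smul_snd, smul_eq_mul]; ring

/-- congruences satisfied by the first member of a unimodular pair -/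
theorem pair_dvd {z w : ℤ × ℤ} {n : ℤ} (h1 : dt z w = 1) (h2 : ip B C z w = n) :
    nf B C z ∣ z.1 + (n + B) * z.2 ∧ nf B C z ∣ n ^ 2 + B * n + C := by
  constructor
  · have h := congrArg Prod.snd (mulv_ip B C z w)
    rw [h1, h2] at h
    simp only [mulv, Prod.smul_snd, smul_eq_mul] at h
    exact ⟨w.2, by linarith⟩
  · have h := nf_mul_nf B C z w
    rw [h1, h2] at h
    refine ⟨nf B C w, ?_⟩
    rw [h]; simp only [nf]; ring

theorem fiber_card (hD : B ^ 2 < 4 * C) (n u : ℤ) (S : Finset (ℤ × ℤ))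
    (hS : ∀ z ∈ S, z ≠ 0 ∧ nf B C z = u ∧ ∃ w, dt z w = 1 ∧ ip B C z w = n) :
    S.card ≤ 15 := by
  classical
  rcases S.eq_empty_or_nonempty with h0 | ⟨z1, hz1⟩
  · rw [h0]; simp
  obtain ⟨hz10, hz1u, w1, hw1, hw1n⟩ := hS z1 hz1
  have hu : 0 < u := by rw [← hz1u]; exact nf_pos hD hz10
  have h15 : ((Finset.Icc (-1 : ℤ) 1) ×ˢ (Finset.Icc (-2 : ℤ) 2)).card = 15 := by decide
  rw [← h15]
  have hdiv : ∀ z ∈ S, u ∣ dt z1 z ∧ u ∣ 2 * ip B C z1 z + B * dt z1 z := by
    intro z hz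
    obtain ⟨hz0, hzu, w, hw, hwn⟩ := hS z hz
    obtain ⟨a1, ha1⟩ := (pair_dvd hw1 hw1n).1
    obtain ⟨a, ha⟩ := (pair_dvd hw hwn).1
    obtain ⟨b, hb⟩ := (pair_dvd hw1 hw1n).2
    rw [hz1u] at ha1 hb
    rw [hzu] at ha
    have e1 : z1.1 = u * a1 - (n + B) * z1.2 := by linarith
    have e2 : z.1 = u * a - (n + B) * z.2 := by linarith
    have hd : u ∣ dt z1 z := by
      refine ⟨a1 * z.2 - a * z1.2, ?_⟩
      simp only [dt]; rw [e1, e2]; ring
    have hi : u ∣ ip B C z1 z := by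
      refine ⟨u * a1 * a - a1 * (n + B) * z.2 - a * (n + B) * z1.2 + B * a * z1.2
        + b * z1.2 * z.2, ?_⟩
      simp only [ip]; rw [e1, e2]
      have : u * b = n ^ 2 + B * n + C := hb.symm
      linear_combination (-(z1.2 * z.2)) * this
    exact ⟨hd, Dvd.dvd.linear_comb hi hd 2 B⟩
  apply Finset.card_le_card_of_injOn
    (fun z => (dt z1 z / u, (2 * ip B C z1 z + B * dt z1 z) / u))
  · intro z hz
    obtain ⟨hz0, hzu, w, hw, hwn⟩ := hS z hz
    obtain ⟨⟨a, ha⟩, ⟨b, hb⟩⟩ := hdiv z hz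
    have h4 := four_nf B C (ip B C z1 z, dt z1 z)
    rw [← nf_mul_nf, hz1u, hzu] at h4
    simp only at h4
    rw [hb, ha] at h4
    have hu2 : 0 < u ^ 2 := by positivity
    have h5 : 4 = b ^ 2 + (4 * C - B ^ 2) * a ^ 2 := by
      apply mul_left_cancel₀ hu2.ne'
      linear_combination h4
    have hD3 : 3 ≤ 4 * C - B ^ 2 := by
      -- `4C - B^2` is `0` or `3` mod `4`
      have : (4 * C - B ^ 2) % 4 = 0 ∨ (4 * C - B ^ 2) % 4 = 3 := by
        rcases Int.even_or_odd B with ⟨m, hm⟩ | ⟨m, hm⟩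
        · left; rw [hm]; ring_nf; omega
        · right; rw [hm]; ring_nf; omega
      omega
    have ha2 : a ^ 2 ≤ 1 := by nlinarith [sq_nonneg b, sq_nonneg a]
    have hb2 : b ^ 2 ≤ 4 := by nlinarith [sq_nonneg a]
    have ha3 := abs_le_of_sq_le_sq' (show a ^ 2 ≤ 1 ^ 2 by linarith) (by norm_num)
    have hb3 := abs_le_of_sq_le_sq' (show b ^ 2 ≤ 2 ^ 2 by linarith) (by norm_num)
    simp only [Finset.coe_product, Set.mem_prod, Finset.mem_coe, Finset.mem_Icc]
    rw [hb, ha, Int.mul_ediv_cancel_left _ hu.ne', Int.mul_ediv_cancel_left _ hu.ne']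
    exact ⟨⟨ha3.1, ha3.2⟩, ⟨hb3.1, hb3.2⟩⟩
  · intro z hz z' hz' heq
    obtain ⟨⟨a, ha⟩, ⟨b, hb⟩⟩ := hdiv z hz
    obtain ⟨⟨a', ha'⟩, ⟨b', hb'⟩⟩ := hdiv z' hz'
    simp only [Prod.mk.injEq] at heq
    rw [hb, hb', ha, ha', Int.mul_ediv_cancel_left _ hu.ne', Int.mul_ediv_cancel_left _ hu.ne',
      Int.mul_ediv_cancel_left _ hu.ne', Int.mul_ediv_cancel_left _ hu.ne'] at heq
    obtain ⟨h1, h2⟩ := heq
    have hd : dt z1 z = dt z1 z' := by rw [ha, ha', h1]
    have hi : ip B C z1 z = ip B C z1 z' := by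
      have : 2 * ip B C z1 z + B * dt z1 z = 2 * ip B C z1 z' + B * dt z1 z' := by
        rw [hb, hb', h2]
      rw [hd] at this
      linarith
    have h3 := mulv_ip B C z1 z
    have h4 := mulv_ip B C z1 z'
    rw [hd, hi, h4, hz1u] at h3
    have e1 := congrArg Prod.fst h3
    have e2 := congrArg Prod.snd h3
    simp only [Prod.smul_fst, Prod.smul_snd, smul_eq_mul] at e1 e2
    exact Prod.ext (mul_left_cancel₀ hu.ne' e1).symm (mul_left_cancel₀ hu.ne' e2).symm

/-- number of first members of unimodular pairs with given `n` -/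
theorem mult_card (hD : B ^ 2 < 4 * C) (n : ℤ) (S : Finset (ℤ × ℤ))
    (hS : ∀ z ∈ S, z ≠ 0 ∧ ∃ w, dt z w = 1 ∧ ip B C z w = n) :
    S.card ≤ 15 * (n ^ 2 + B * n + C).natAbs.divisors.card := by
  classical
  have hF : n ^ 2 + B * n + C ≠ 0 := by
    have := nf_pos hD (v := (n, 1)) (by intro h; simpa using congrArg Prod.snd h)
    simp only [nf] at this
    intro h; linarith
  apply Finset.card_le_mul_card_image_of_maps_to (f := fun z => (nf B C z).natAbs)
  · intro z hz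
    obtain ⟨hz0, w, hw, hwn⟩ := hS z hz
    rw [Nat.mem_divisors]
    exact ⟨Int.natAbs_dvd_natAbs.2 (pair_dvd hw hwn).2, Int.natAbs_ne_zero.2 hF⟩
  · intro u _
    apply fiber_card hD n u
    intro z hz
    rw [Finset.mem_filter] at hz
    obtain ⟨hz0, h⟩ := hS z hz.1
    refine ⟨hz0, ?_, h⟩
    have := nf_pos hD hz0
    omega

/-- the divisor bound -/
theorem divisor_bound {ε : ℝ} (hε : 0 < ε) : ∃ c : ℝ, 0 < c ∧ ∀ m : ℕ, m ≠ 0 →
    (m.divisors.card : ℝ) ≤ c * (m : ℝ) ^ ε := by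
  classical
  have hl2 : 0 < Real.log 2 := Real.log_pos (by norm_num)
  obtain ⟨E, hE⟩ : ∃ E : ℝ, E = 1 + 1 / (ε * Real.log 2) := ⟨_, rfl⟩
  have hE1 : 1 ≤ E := by
    have : 0 < 1 / (ε * Real.log 2) := by positivity
    linarith
  obtain ⟨P, hP⟩ : ∃ P : ℕ, P = ⌈(2 : ℝ) ^ (1 / ε)⌉₊ := ⟨_, rfl⟩
  refine ⟨E ^ P, by positivity, ?_⟩
  intro m hm
  have hEv : ∀ v : ℕ, (v : ℝ) + 1 ≤ E * (2 : ℝ) ^ (ε * v) := by
    intro v
    have h1 : 1 + ε * Real.log 2 * v ≤ (2 : ℝ) ^ (ε * v) := by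
      rw [Real.rpow_def_of_pos (by norm_num)]
      have := Real.add_one_le_exp (Real.log 2 * (ε * v))
      linarith
    calc (v : ℝ) + 1 ≤ E * (1 + ε * Real.log 2 * v) := by
          rw [hE]
          have h2 : (1 + 1 / (ε * Real.log 2)) * (1 + ε * Real.log 2 * v)
              = 1 + v + (ε * Real.log 2 * v + 1 / (ε * Real.log 2)) := by
            field_simp; ring
          rw [h2]
          have : 0 ≤ ε * Real.log 2 * v + 1 / (ε * Real.log 2) := by positivity
          linarith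
      _ ≤ E * (2 : ℝ) ^ (ε * v) := by gcongr
  have hprime : ∀ p ∈ m.primeFactors, ((m.factorization p : ℕ) : ℝ) + 1
      ≤ (if p < P then E else 1) * ((p : ℝ) ^ (m.factorization p)) ^ ε := by
    intro p hp
    have hpp := Nat.prime_of_mem_primeFactors hp
    have hp2 : (2 : ℝ) ≤ p := by exact_mod_cast hpp.two_le
    have e1 : ((p : ℝ) ^ (m.factorization p)) ^ ε = (p : ℝ) ^ (ε * (m.factorization p : ℕ)) := by
      rw [← Real.rpow_natCast, ← Real.rpow_mul (by positivity)]; ring_nf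
    rw [e1]
    split_ifs with hlt
    · calc ((m.factorization p : ℕ) : ℝ) + 1 ≤ E * (2 : ℝ) ^ (ε * (m.factorization p : ℕ)) :=
            hEv _
        _ ≤ E * (p : ℝ) ^ (ε * (m.factorization p : ℕ)) := by gcongr
    · push Not at hlt
      have h1 : (2 : ℝ) ^ (1 / ε) ≤ p := by
        calc (2 : ℝ) ^ (1 / ε) ≤ P := by rw [hP]; exact Nat.le_ceil _
          _ ≤ p := by exact_mod_cast hlt
      have h2 : (2 : ℝ) ≤ (p : ℝ) ^ ε := by
        calc (2 : ℝ) = ((2 : ℝ) ^ (1 / ε)) ^ ε := by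
              rw [← Real.rpow_mul (by norm_num), one_div, inv_mul_cancel₀ hε.ne', Real.rpow_one]
          _ ≤ (p : ℝ) ^ ε := by gcongr
      rw [Real.rpow_mul (by positivity), Real.rpow_natCast, one_mul]
      calc ((m.factorization p : ℕ) : ℝ) + 1 ≤ 2 ^ (m.factorization p) := by
            have : m.factorization p + 1 ≤ 2 ^ (m.factorization p) := Nat.lt_two_pow_self
            exact_mod_cast this
        _ ≤ ((p : ℝ) ^ ε) ^ (m.factorization p) := by gcongr
  have hmprod : ((m : ℝ)) ^ ε = ∏ p ∈ m.primeFactors, ((p : ℝ) ^ (m.factorization p)) ^ ε := by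
    rw [Real.finsetProd_rpow _ _ (fun p _ => by positivity)]
    congr 1
    have := Nat.prod_factorization_pow_eq_self hm
    nth_rewrite 1 [← this]
    rw [Finsupp.prod, Nat.support_factorization]
    push_cast; rfl
  rw [Nat.card_divisors hm]
  push_cast
  calc ∏ p ∈ m.primeFactors, (((m.factorization p : ℕ) : ℝ) + 1)
      ≤ ∏ p ∈ m.primeFactors, (if p < P then E else 1) * ((p : ℝ) ^ (m.factorization p)) ^ ε :=
        Finset.prod_le_prod (fun p _ => by positivity) hprime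
    _ = (∏ p ∈ m.primeFactors, (if p < P then E else 1)) * (m : ℝ) ^ ε := by
        rw [Finset.prod_mul_distrib, hmprod]
    _ ≤ E ^ P * (m : ℝ) ^ ε := by
        gcongr
        rw [Finset.prod_ite, Finset.prod_const, Finset.prod_const_one, mul_one]
        apply pow_le_pow_right₀ hE1
        calc (m.primeFactors.filter (fun p => p < P)).card ≤ (Finset.range P).card := by
              apply Finset.card_le_card
              intro p hp
              rw [Finset.mem_filter] at hp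
              exact Finset.mem_range.2 hp.2
          _ = P := Finset.card_range P

/-- the set of `n`, `|n| ≤ X`, with `f (F n) = e` -/
noncomputable def valF (f : ℕ → ℤ) (B C : ℤ) (X : ℕ) (e : ℤ) : Finset ℤ :=
  (Finset.Icc (-(X : ℤ)) X).filter (fun n => f (n ^ 2 + B * n + C).natAbs = e)

theorem abs_ip_le (hD : B ^ 2 < 4 * C) {z w : ℤ × ℤ} (h : dt z w = 1) :
    |(ip B C z w : ℝ)| ≤ ‖cv B C z‖ * ‖cv B C w‖ + |(B : ℝ)| := by
  have h1 := conj_cv_mul hD z w
  rw [h] at h1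
  have h2 := congrArg Complex.re h1
  rw [cv_re] at h2
  simp only [Int.cast_one, mul_one] at h2
  have h3 : |(conj (cv B C z) * cv B C w).re| ≤ ‖cv B C z‖ * ‖cv B C w‖ := by
    calc _ ≤ ‖conj (cv B C z) * cv B C w‖ := abs_re_le_norm _
      _ = _ := by rw [norm_mul, norm_conj]
  calc |(ip B C z w : ℝ)| = |((ip B C z w : ℝ) + B / 2) - B / 2| := by ring_nf
    _ ≤ |(ip B C z w : ℝ) + B / 2| + |(B : ℝ) / 2| := abs_sub _ _
    _ ≤ ‖cv B C z‖ * ‖cv B C w‖ + |(B : ℝ)| := by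
        rw [← h2, abs_div]
        have := abs_nonneg (B : ℝ)
        have h5 : |(B : ℝ)| / |(2 : ℝ)| ≤ |(B : ℝ)| := by
          rw [abs_of_pos (by norm_num : (0 : ℝ) < 2)]; linarith
        linarith

/-- from pairs to values of the polynomial -/
theorem pair_to_val (hD : B ^ 2 < 4 * C) {f : ℕ → ℤ} (hf : IsSign f) {R : ℝ} {X D : ℕ} {e : ℤ}
    (hR0 : 0 ≤ R) (hR : R ^ 2 + |(B : ℝ)| ≤ X)
    (hDiv : ∀ n : ℤ, |n| ≤ X → (n ^ 2 + B * n + C).natAbs.divisors.card ≤ D) :
    (pairF f B C R e).card ≤ 15 * D * (valF f B C X e).card := by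
  classical
  have hex : ∀ z : ℤ × ℤ, ∃ w : ℤ × ℤ, z ∈ pairF f B C R e → (w ≠ 0 ∧ ‖cv B C w‖ ≤ R ∧
      dt z w = 1 ∧ col f B C z * col f B C w = e) := by
    intro z
    by_cases hz : z ∈ pairF f B C R e
    · have hz' := hz
      simp only [pairF, Finset.mem_filter] at hz'
      obtain ⟨-, -, w, hw⟩ := hz'
      exact ⟨w, fun _ => hw⟩
    · exact ⟨0, fun h => absurd h hz⟩
  choose W hW using hex
  have hbound : ∀ z ∈ pairF f B C R e, |ip B C z (W z)| ≤ X := by
    intro z hz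
    obtain ⟨hw0, hwR, hdt, hc⟩ := hW z hz
    have hz' := hz
    simp only [pairF, Finset.mem_filter] at hz'
    have h1 := abs_ip_le (B := B) (C := C) hD hdt
    have h2 : |(ip B C z (W z) : ℝ)| ≤ X := by
      calc _ ≤ ‖cv B C z‖ * ‖cv B C (W z)‖ + |(B : ℝ)| := h1
        _ ≤ R * R + |(B : ℝ)| := by
            have := mul_le_mul hz'.2.1 hwR (norm_nonneg _) hR0
            linarith
        _ = R ^ 2 + |(B : ℝ)| := by ring
        _ ≤ X := hR
    exact_mod_cast h2
  apply Finset.card_le_mul_card_image_of_maps_to (f := fun z => ip B C z (W z))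
  · intro z hz
    obtain ⟨hw0, hwR, hdt, hc⟩ := hW z hz
    rw [valF, Finset.mem_filter, Finset.mem_Icc]
    refine ⟨abs_le.1 (hbound z hz), ?_⟩
    rw [← hc, col_mul_col hf hdt]
    congr 2
    simp only [nf]; ring
  · intro n hn
    rw [valF, Finset.mem_filter, Finset.mem_Icc] at hn
    calc _ ≤ 15 * (n ^ 2 + B * n + C).natAbs.divisors.card := by
          apply mult_card hD n
          intro z hz
          rw [Finset.mem_filter] at hz
          obtain ⟨hw0, hwR, hdt, hc⟩ := hW z hz.1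
          have hz' := hz.1
          simp only [pairF, Finset.mem_filter] at hz'
          exact ⟨ne_zero_of_mem_ballF hz'.1, W z, hdt, hz.2⟩
      _ ≤ 15 * D := by
          have := hDiv n (abs_le.2 hn.1)
          omega

end Pool.Agent.FareyParity
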