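import Mathlib
import Pool.Agent.FareyParity.Geom

set_option autoImplicit false

/-!
# Approximation of angles by products of boundedly many short vectors
-/

namespace Pool.Agent.FareyParity

open Complex ComplexConjugate

variable {B C : ℤ}

/-! ### finite differences -/

/-- alternating finite difference -/
def fd : ℕ → (ℝ → ℝ) → ℝ → ℝ
  | 0, F => F
  | m + 1, F => fun t => fd m F t - fd m F (t + 1)

/-- `arctan (β / t)` and its successive negated derivatives -/
noncomputable def aF (β : ℝ) : ℕ → ℝ → ℝ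
  | 0 => fun t => Real.arctan (β / t)
  | s + 1 => fun t => -((s.factorial : ℂ) * (((t : ℂ) + β * I) ^ (s + 1))⁻¹).im

theorem aF_one (β : ℝ) (t : ℝ) : aF β 1 t = β / (t ^ 2 + β ^ 2) := by
  show -(((0 : ℕ).factorial : ℂ) * (((t : ℂ) + β * I) ^ (0 + 1))⁻¹).im = _
  rw [Nat.factorial_zero, Nat.cast_one, one_mul, zero_add, pow_one, inv_im, normSq_apply]
  simp
  ring

theorem aF_hasDerivAt {β : ℝ} (s : ℕ) {t : ℝ} (ht : 0 < t) :
    HasDerivAt (aF β s) (-(aF β (s + 1) t)) t := by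
  have hz : (t : ℂ) + β * I ≠ 0 := by
    intro h
    have := congrArg Complex.re h
    simp at this
    linarith
  cases s with
  | zero =>
    have h1 : HasDerivAt (fun x : ℝ => β / x) (-(β / t ^ 2)) t := by
      have := (hasDerivAt_inv ht.ne').const_mul β
      refine this.congr_deriv ?_
      ring
    have h2 := h1.arctan
    refine h2.congr_deriv ?_
    rw [aF_one]
    have h4 : t ^ 2 + β ^ 2 ≠ 0 := by positivity
    have h3 : 1 + (β / t) ^ 2 = (t ^ 2 + β ^ 2) / t ^ 2 := by field_simp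
    rw [h3]
    field_simp
  | succ s =>
    have h0 : HasDerivAt (fun x : ℝ => (x : ℂ) + β * I) 1 t := by
      have := (Complex.ofRealCLM.hasDerivAt (x := t)).add_const ((β : ℂ) * I)
      simpa using this
    have h2 : HasDerivAt (fun x : ℝ => (s.factorial : ℂ) * (((x : ℂ) + β * I) ^ (s + 1))⁻¹)
        (-(((s + 1).factorial : ℂ) * (((t : ℂ) + β * I) ^ (s + 2))⁻¹)) t := by
      have := ((h0.pow (s + 1)).inv (pow_ne_zero _ hz)).const_mul (s.factorial : ℂ)
      refine this.congr_deriv ?_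
      rw [Nat.factorial_succ]
      push_cast
      have hz1 := pow_ne_zero (s + 1) hz
      have hz2 := pow_ne_zero (s + 2) hz
      simp only [Pi.pow_apply]
      field_simp
      ring
    have h3 : HasDerivAt (fun x : ℝ => imCLM ((s.factorial : ℂ) * (((x : ℂ) + β * I) ^ (s + 1))⁻¹))
        (imCLM (-(((s + 1).factorial : ℂ) * (((t : ℂ) + β * I) ^ (s + 2))⁻¹))) t :=
      imCLM.hasFDerivAt.comp_hasDerivAt t h2
    have h4 := h3.neg
    refine h4.congr_deriv ?_
    show -(-(((s + 1).factorial : ℂ) * (((t : ℂ) + β * I) ^ (s + 2))⁻¹)).im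
      = -(-(((s + 1).factorial : ℂ) * (((t : ℂ) + β * I) ^ (s + 1 + 1))⁻¹).im)
    rw [neg_im]

theorem fd_hasDerivAt {β : ℝ} (m : ℕ) : ∀ (s : ℕ) {t : ℝ}, 0 < t →
    HasDerivAt (fd m (aF β s)) (-(fd m (aF β (s + 1)) t)) t := by
  induction m with
  | zero => intro s t ht; exact aF_hasDerivAt s ht
  | succ m ih =>
    intro s t ht
    have h1 := ih s ht
    have h2 : HasDerivAt (fun x => fd m (aF β s) (x + 1)) (-(fd m (aF β (s + 1)) (t + 1))) t :=
      (ih s (t := t + 1) (by linarith)).comp_add_const t 1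
    have h3 := h1.sub h2
    refine h3.congr_deriv ?_
    show _ = -(fd m (aF β (s + 1)) t - fd m (aF β (s + 1)) (t + 1))
    ring

theorem fd_eq {β : ℝ} (m : ℕ) : ∀ (s : ℕ) {t : ℝ}, 0 < t →
    ∃ ξ, t ≤ ξ ∧ ξ ≤ t + m ∧ fd m (aF β s) t = aF β (s + m) ξ := by
  induction m with
  | zero => intro s t _; exact ⟨t, le_rfl, by simp, rfl⟩
  | succ m ih =>
    intro s t ht
    obtain ⟨η, hη, hη2⟩ := exists_hasDerivAt_eq_slope (fd m (aF β s))
      (fun x => -(fd m (aF β (s + 1)) x)) (show t < t + 1 by linarith)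
      (fun x hx => (fd_hasDerivAt m s (by linarith [hx.1])).continuousAt.continuousWithinAt)
      (fun x hx => fd_hasDerivAt m s (by linarith [hx.1]))
    obtain ⟨ξ, hξ1, hξ2, hξ3⟩ := ih (s + 1) (t := η) (by linarith [hη.1])
    refine ⟨ξ, by linarith [hη.1], by push_cast; linarith [hη.2], ?_⟩
    have e : fd (m + 1) (aF β s) t = fd m (aF β s) t - fd m (aF β s) (t + 1) := rfl
    rw [e, show s + (m + 1) = s + 1 + m by ring, ← hξ3]
    have : (t + 1 - t : ℝ) = 1 := by ring
    rw [this, div_one] at hη2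
    linarith

/-- real and imaginary parts of powers of `t + iβ` -/
theorem pow_bounds {β t : ℝ} (hβ : 0 < β) (n : ℕ) (ht : 2 * n * β ≤ t) (ht0 : 0 < t) :
    ∀ j ≤ n, (((t : ℂ) + β * I) ^ j).re ≤ t ^ j ∧
      t ^ j * (1 - (j : ℝ) ^ 2 * β ^ 2 / t ^ 2) ≤ (((t : ℂ) + β * I) ^ j).re ∧
      (j : ℝ) * β * t ^ j / t / 2 ≤ (((t : ℂ) + β * I) ^ j).im ∧
      (((t : ℂ) + β * I) ^ j).im ≤ (j : ℝ) * β * t ^ j / t := by
  intro j
  induction j with
  | zero => intro _; simp
  | succ j ih =>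
    intro hj
    obtain ⟨h1, h2, h3, h4⟩ := ih (by omega)
    have hre : (((t : ℂ) + β * I) ^ (j + 1)).re
        = t * (((t : ℂ) + β * I) ^ j).re - β * (((t : ℂ) + β * I) ^ j).im := by
      rw [pow_succ, mul_re]
      simp
      ring
    have him : (((t : ℂ) + β * I) ^ (j + 1)).im
        = t * (((t : ℂ) + β * I) ^ j).im + β * (((t : ℂ) + β * I) ^ j).re := by
      rw [pow_succ, mul_im]
      simp
      ring
    obtain ⟨a, ha⟩ : ∃ a, a = (((t : ℂ) + β * I) ^ j).re := ⟨_, rfl⟩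
    obtain ⟨b, hb⟩ : ∃ b, b = (((t : ℂ) + β * I) ^ j).im := ⟨_, rfl⟩
    rw [← ha] at h1 h2 hre him
    rw [← hb] at h3 h4 hre him
    rw [hre, him]
    have htj : 0 < t ^ j := by positivity
    have hb0 : 0 ≤ b := le_trans (by positivity) h3
    have hjn : (j : ℝ) ≤ n := by
      have : j ≤ n := by omega
      exact_mod_cast this
    have hsmall : (j : ℝ) ^ 2 * β ^ 2 / t ^ 2 ≤ 1 / 4 := by
      rw [div_le_iff₀ (by positivity)]
      have : (2 * j * β) ^ 2 ≤ t ^ 2 := by
        apply pow_le_pow_left₀ (by positivity)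
        calc 2 * (j : ℝ) * β ≤ 2 * n * β := by gcongr
          _ ≤ t := ht
      nlinarith
    push_cast
    refine ⟨?_, ?_, ?_, ?_⟩
    · calc t * a - β * b ≤ t * a := by nlinarith
        _ ≤ t * t ^ j := by gcongr
        _ = t ^ (j + 1) := by ring
    · have e1 : t ^ (j + 1) * (1 - ((j : ℝ) + 1) ^ 2 * β ^ 2 / t ^ 2)
          = t * (t ^ j * (1 - (j : ℝ) ^ 2 * β ^ 2 / t ^ 2))
            - (2 * j + 1) * β ^ 2 * t ^ j / t := by
        field_simp; ring
      rw [e1]
      have e2 : β * b ≤ (2 * j + 1) * β ^ 2 * t ^ j / t := by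
        calc β * b ≤ β * ((j : ℝ) * β * t ^ j / t) := by gcongr
          _ = (j : ℝ) * β ^ 2 * t ^ j / t := by ring
          _ ≤ (2 * j + 1) * β ^ 2 * t ^ j / t := by
              gcongr
              have : (0 : ℝ) ≤ j := by positivity
              linarith
      have e3 : t * (t ^ j * (1 - (j : ℝ) ^ 2 * β ^ 2 / t ^ 2)) ≤ t * a := by gcongr
      linarith
    · have e1 : ((j : ℝ) + 1) * β * t ^ (j + 1) / t / 2
          = t * ((j : ℝ) * β * t ^ j / t / 2) + β * (t ^ j / 2) := by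
        field_simp; ring
      rw [e1]
      have e2 : t ^ j / 2 ≤ a := by
        calc t ^ j / 2 ≤ t ^ j * (1 - (j : ℝ) ^ 2 * β ^ 2 / t ^ 2) := by nlinarith
          _ ≤ a := h2
      gcongr
    · have e1 : ((j : ℝ) + 1) * β * t ^ (j + 1) / t
          = t * ((j : ℝ) * β * t ^ j / t) + β * t ^ j := by
        field_simp; ring
      rw [e1]
      gcongr

/-- size of `aF` -/
theorem aF_bounds {β : ℝ} (hβ : 0 < β) (s : ℕ) : ∃ c c' T : ℝ, 0 < c ∧ 0 < c' ∧ 0 < T ∧
    ∀ t, T ≤ t → c / t ^ (s + 2) ≤ aF β (s + 1) t ∧ aF β (s + 1) t ≤ c' / t ^ (s + 2) := by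
  refine ⟨(s + 1).factorial * β / 2 ^ (s + 2), (s + 1).factorial * β,
    2 * (s + 1 : ℕ) * β, by positivity, by positivity, by positivity, ?_⟩
  intro t ht
  have ht0 : 0 < t := lt_of_lt_of_le (by positivity) ht
  have hβt : β ≤ t := by
    have : β ≤ 2 * (s + 1 : ℕ) * β := by
      push_cast
      have : (0 : ℝ) ≤ s := by positivity
      nlinarith
    linarith
  obtain ⟨-, -, h3, h4⟩ := pow_bounds hβ (s + 1) ht ht0 (s + 1) le_rfl
  have hval : aF β (s + 1) t = s.factorial * (((t : ℂ) + β * I) ^ (s + 1)).im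
      / (t ^ 2 + β ^ 2) ^ (s + 1) := by
    simp only [aF]
    have h5 : ((s.factorial : ℂ) * (((t : ℂ) + β * I) ^ (s + 1))⁻¹).im
        = s.factorial * ((((t : ℂ) + β * I) ^ (s + 1))⁻¹).im := by
      have : (s.factorial : ℂ) = ((s.factorial : ℝ) : ℂ) := by push_cast; rfl
      rw [this, im_ofReal_mul]
    rw [h5, inv_im, map_pow, normSq_apply]
    have h6 : ((t : ℂ) + β * I).re * ((t : ℂ) + β * I).re
        + ((t : ℂ) + β * I).im * ((t : ℂ) + β * I).im = t ^ 2 + β ^ 2 := by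
      simp; ring
    rw [h6]; ring
  rw [hval]
  have hfac : (((s + 1).factorial : ℕ) : ℝ) = (s + 1) * s.factorial := by
    rw [Nat.factorial_succ]; push_cast; ring
  constructor
  · calc ((s + 1).factorial : ℝ) * β / 2 ^ (s + 2) / t ^ (s + 2)
        = s.factorial * (((s + 1 : ℕ) : ℝ) * β * t ^ (s + 1) / t / 2)
          / (2 * t ^ 2) ^ (s + 1) := by
          rw [hfac, mul_pow, ← pow_mul]
          push_cast
          field_simp
          ring
      _ ≤ s.factorial * (((t : ℂ) + β * I) ^ (s + 1)).im / (2 * t ^ 2) ^ (s + 1) := by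
          gcongr
      _ ≤ s.factorial * (((t : ℂ) + β * I) ^ (s + 1)).im / (t ^ 2 + β ^ 2) ^ (s + 1) := by
          have h7 : 0 ≤ (((t : ℂ) + β * I) ^ (s + 1)).im := le_trans (by positivity) h3
          have h8 : β ^ 2 ≤ t ^ 2 := by gcongr
          gcongr
          linarith
  · calc s.factorial * (((t : ℂ) + β * I) ^ (s + 1)).im / (t ^ 2 + β ^ 2) ^ (s + 1)
        ≤ s.factorial * (((s + 1 : ℕ) : ℝ) * β * t ^ (s + 1) / t) / (t ^ 2) ^ (s + 1) := by
          have h7 : 0 ≤ (((t : ℂ) + β * I) ^ (s + 1)).im := le_trans (by positivity) h3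
          gcongr
          nlinarith [sq_nonneg β]
      _ = (s + 1).factorial * β / t ^ (s + 2) := by
          rw [hfac, ← pow_mul]
          push_cast
          field_simp
          ring

end Pool.Agent.FareyParity
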