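import Mathlib
import Pool.Agent.FareyParity.Angle

set_option autoImplicit false

/-!
# Approximation of angles
-/

namespace Pool.Agent.FareyParity

open Complex ComplexConjugate

variable {B C : ℤ}

/-- `ψ` is the angle of a product of at most `k` nonzero lattice vectors of norm `≤ A`. -/
def IsAng (B C : ℤ) (A : ℝ) (k : ℕ) (ψ : ℝ) : Prop :=
  ∃ l : List (ℤ × ℤ), l.length ≤ k ∧ (∀ v ∈ l, v ≠ 0 ∧ ‖cv B C v‖ ≤ A) ∧
    (l.map (un B C)).prod = exp (ψ * I)

theorem IsAng.mono {A : ℝ} {k k' : ℕ} {ψ : ℝ} (h : IsAng B C A k ψ) (hk : k ≤ k') :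
    IsAng B C A k' ψ := by
  obtain ⟨l, h1, h2, h3⟩ := h
  exact ⟨l, h1.trans hk, h2, h3⟩

theorem IsAng.zero (A : ℝ) : IsAng B C A 0 0 := ⟨[], by simp, by simp, by simp⟩

theorem IsAng.add {A : ℝ} {k k' : ℕ} {ψ ψ' : ℝ} (h : IsAng B C A k ψ)
    (h' : IsAng B C A k' ψ') : IsAng B C A (k + k') (ψ + ψ') := by
  obtain ⟨l, h1, h2, h3⟩ := h
  obtain ⟨l', h1', h2', h3'⟩ := h'
  refine ⟨l ++ l', by rw [List.length_append]; omega, ?_, ?_⟩
  · intro v hv
    rcases List.mem_append.1 hv with h | h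
    · exact h2 v h
    · exact h2' v h
  · rw [List.map_append, List.prod_append, h3, h3', ← Complex.exp_add]
    congr 1; push_cast; ring

theorem cj_ne_zero {v : ℤ × ℤ} (hv : v ≠ 0) : cj B v ≠ 0 := by
  intro h
  apply hv
  have h2 : v.2 = 0 := by
    have := congrArg Prod.snd h
    simpa [cj] using this
  have h1 : v.1 = 0 := by
    have := congrArg Prod.fst h
    simpa [cj, h2] using this
  exact Prod.ext h1 h2

theorem IsAng.neg {A : ℝ} {k : ℕ} {ψ : ℝ} (h : IsAng B C A k ψ) : IsAng B C A k (-ψ) := by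
  obtain ⟨l, h1, h2, h3⟩ := h
  refine ⟨l.map (cj B), by simpa using h1, ?_, ?_⟩
  · intro v hv
    rw [List.mem_map] at hv
    obtain ⟨w, hw, rfl⟩ := hv
    refine ⟨cj_ne_zero (h2 w hw).1, ?_⟩
    rw [cv_cj, norm_conj]; exact (h2 w hw).2
  · have : (l.map (cj B)).map (un B C) = (l.map (un B C)).map conj := by
      rw [List.map_map, List.map_map]
      apply List.map_congr_left
      intro v _
      simp only [Function.comp, un, cv_cj, norm_conj, map_div₀, conj_ofReal]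
    rw [this, List.prod_hom, h3, ← exp_conj, map_mul, conj_I, conj_ofReal]
    push_cast; ring_nf

theorem IsAng.sub {A : ℝ} {k k' : ℕ} {ψ ψ' : ℝ} (h : IsAng B C A k ψ)
    (h' : IsAng B C A k' ψ') : IsAng B C A (k + k') (ψ - ψ') := by
  rw [sub_eq_add_neg]; exact h.add h'.neg

theorem IsAng.nsmul {A : ℝ} {k : ℕ} {ψ : ℝ} (h : IsAng B C A k ψ) (n : ℕ) :
    IsAng B C A (n * k) (n * ψ) := by
  induction n with
  | zero => simpa using IsAng.zero A
  | succ n ih =>
    have := ih.add h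
    have e1 : (n + 1) * k = n * k + k := by ring
    have e2 : ((n + 1 : ℕ) : ℝ) * ψ = n * ψ + ψ := by push_cast; ring
    rw [e1, e2]; exact this

/-- the vector `(n, 1)` has direction `arctan (β / (n + B / 2))` -/
theorem isAng_single (hD : B ^ 2 < 4 * C) {A : ℝ} {n : ℤ} (hn : (0 : ℝ) < n + B / 2)
    (hA : ‖cv B C (n, 1)‖ ≤ A) : IsAng B C A 1 (aF (bt B C) 0 ((n : ℝ) + B / 2)) := by
  have hb := bt_pos hD
  refine ⟨[(n, 1)], by simp, ?_, ?_⟩
  · intro v hv
    rw [List.mem_singleton] at hv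
    subst hv
    exact ⟨by intro h; simpa using congrArg Prod.snd h, hA⟩
  · simp only [List.map_cons, List.map_nil, List.prod_cons, List.prod_nil, mul_one]
    obtain ⟨t, ht⟩ : ∃ t : ℝ, t = n + B / 2 := ⟨_, rfl⟩
    have ht0 : 0 < t := by rw [ht]; exact hn
    show un B C (n, 1) = exp ((Real.arctan (bt B C / ((n : ℝ) + B / 2)) : ℝ) * I)
    rw [← ht]
    have hcv : cv B C (n, 1) = ⟨t, bt B C⟩ := by
      apply Complex.ext
      · rw [cv_re, ht]; push_cast; ring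
      · rw [cv_im]; push_cast; ring
    have hnorm : ‖cv B C (n, 1)‖ = √(t ^ 2 + bt B C ^ 2) := by
      rw [hcv, norm_def, normSq_apply]; congr 1; ring
    have hsq : 0 < t ^ 2 + bt B C ^ 2 := by positivity
    have hsqrt : √(1 + (bt B C / t) ^ 2) = √(t ^ 2 + bt B C ^ 2) / t := by
      rw [eq_div_iff ht0.ne']
      nth_rewrite 2 [← Real.sqrt_sq ht0.le]
      rw [← Real.sqrt_mul (by positivity)]
      congr 1
      field_simp
    have hs0 : √(t ^ 2 + bt B C ^ 2) ≠ 0 := (Real.sqrt_pos.2 hsq).ne'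
    apply Complex.ext
    · rw [exp_ofReal_mul_I_re, Real.cos_arctan, hsqrt, un, hnorm, hcv, div_ofReal_re]
      field_simp
    · rw [exp_ofReal_mul_I_im, Real.sin_arctan, hsqrt, un, hnorm, hcv, div_ofReal_im]
      field_simp

theorem isAng_fd (hD : B ^ 2 < 4 * C) {A : ℝ} (m : ℕ) : ∀ {n : ℤ}, (0 : ℝ) < n + B / 2 →
    (n : ℝ) + B / 2 + m + bt B C ≤ A →
    IsAng B C A (2 ^ m) (fd m (aF (bt B C) 0) ((n : ℝ) + B / 2)) := by
  have hb := bt_pos hD
  induction m with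
  | zero =>
    intro n hn hA
    rw [pow_zero]
    apply isAng_single hD hn
    calc ‖cv B C (n, 1)‖ ≤ |(cv B C (n, 1)).re| + |(cv B C (n, 1)).im| :=
          norm_le_abs_re_add_abs_im _
      _ = (n + B / 2) + bt B C := by
          rw [cv_re, cv_im]; push_cast
          rw [mul_one, mul_one, abs_of_pos hn, abs_of_pos hb]
      _ ≤ A := by simpa using hA
  | succ m ih =>
    intro n hn hA
    have h1 := ih hn (by push_cast at hA; linarith)
    have h2 := ih (n := n + 1) (by push_cast; linarith) (by push_cast at hA ⊢; linarith)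
    have h3 := h1.sub h2
    have e : fd (m + 1) (aF (bt B C) 0) ((n : ℝ) + B / 2)
        = fd m (aF (bt B C) 0) ((n : ℝ) + B / 2)
          - fd m (aF (bt B C) 0) (((n + 1 : ℤ) : ℝ) + B / 2) := by
      simp only [fd]; push_cast; ring_nf
    rw [e]
    exact h3.mono (by rw [pow_succ]; omega)

/-- discrete intermediate value -/
theorem exists_step (h : ℕ → ℝ) (h0 : h 0 = 0) (N : ℕ) (e δ : ℝ) (he : 0 ≤ e) (heN : e ≤ h N)
    (hδ : 0 ≤ δ) (hstep : ∀ j < N, h (j + 1) - h j ≤ δ) : ∃ j ≤ N, |e - h j| ≤ δ := by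
  classical
  obtain ⟨j, hj⟩ : ∃ j, j = Nat.findGreatest (fun j => h j ≤ e) N := ⟨_, rfl⟩
  have hjN : j ≤ N := by rw [hj]; exact Nat.findGreatest_le N
  have hPj : h j ≤ e := by
    rw [hj]
    exact Nat.findGreatest_spec (P := fun j => h j ≤ e) (Nat.zero_le N) (by rw [h0]; exact he)
  refine ⟨j, hjN, ?_⟩
  rw [abs_of_nonneg (by linarith)]
  rcases eq_or_lt_of_le hjN with h1 | h1
  · rw [h1] at hPj ⊢; linarith
  · have h2 : ¬ h (j + 1) ≤ e := by
      have := Nat.findGreatest_is_greatest (P := fun j => h j ≤ e) (n := N) (k := j + 1)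
        (by rw [← hj]; omega) (by omega)
      exact this
    push Not at h2
    have := hstep j h1
    linarith

/-- one level of the net: every small angle of size up to `c / A^(m+1)` is approximated up to
`c' / A^(m+2)`. -/
theorem net_level (hD : B ^ 2 < 4 * C) (m : ℕ) : ∃ c c' A0 : ℝ, 0 < c ∧ 0 < c' ∧ 1 ≤ A0 ∧
    ∀ A, A0 ≤ A → ∀ e, 0 ≤ e → e ≤ c / A ^ (m + 1) →
      ∃ ψ, IsAng B C A (2 ^ m + 2 ^ m) ψ ∧ |e - ψ| ≤ c' / A ^ (m + 2) := by
  have hb := bt_pos hD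
  obtain ⟨c, c', T, hc, hc', hT, hbd⟩ := aF_bounds hb m
  refine ⟨c / 8, c' * 8 ^ (m + 2), 8 * T + 8 * |(B : ℝ)| + 8 * m + 8 * bt B C + 32,
    by positivity, by positivity, ?_, ?_⟩
  · have := abs_nonneg (B : ℝ)
    have : (0 : ℝ) ≤ m := by positivity
    linarith
  intro A hA e he0 he
  have hB0 := abs_nonneg (B : ℝ)
  have hBle := le_abs_self (B : ℝ)
  have hBge := neg_abs_le (B : ℝ)
  have hm0 : (0 : ℝ) ≤ m := by positivity
  have hA0 : 0 < A := by linarith
  obtain ⟨N, hN⟩ : ∃ N : ℕ, N = ⌊A / 4⌋₊ := ⟨_, rfl⟩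
  have hN1 : (N : ℝ) ≤ A / 4 := by rw [hN]; exact Nat.floor_le (by positivity)
  have hN2 : A / 4 < N + 1 := by rw [hN]; exact Nat.lt_floor_add_one _
  -- the values
  obtain ⟨H, hH⟩ : ∃ H : ℕ → ℝ, ∀ j, H j
      = fd m (aF (bt B C) 0) (((N : ℤ) : ℝ) + B / 2)
        - fd m (aF (bt B C) 0) (((N + j : ℤ) : ℝ) + B / 2) := ⟨fun j => _, fun j => rfl⟩
  have hH0 : H 0 = 0 := by rw [hH]; simp
  have hstep : ∀ j < N, c / A ^ (m + 2) ≤ H (j + 1) - H j ∧
      H (j + 1) - H j ≤ c' * 8 ^ (m + 2) / A ^ (m + 2) := by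
    intro j hj
    have hjN : (j : ℝ) + 1 ≤ N := by exact_mod_cast hj
    have hj0 : (0 : ℝ) ≤ j := by positivity
    have e1 : H (j + 1) - H j = fd (m + 1) (aF (bt B C) 0) (((N + j : ℤ) : ℝ) + B / 2) := by
      rw [hH, hH]
      simp only [fd]
      push_cast
      ring_nf
    have ht0 : (0 : ℝ) < ((N + j : ℤ) : ℝ) + B / 2 := by push_cast; linarith
    obtain ⟨ξ, hξ1, hξ2, hξ3⟩ := fd_eq (β := bt B C) (m + 1) 0 ht0
    rw [e1, hξ3, zero_add]
    push_cast at hξ1 hξ2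
    have hξT : T ≤ ξ := by linarith
    have hξ8 : A / 8 ≤ ξ := by linarith
    have hξA : ξ ≤ A := by linarith
    have hξ0 : 0 < ξ := by linarith
    obtain ⟨b1, b2⟩ := hbd ξ hξT
    constructor
    · calc c / A ^ (m + 2) ≤ c / ξ ^ (m + 2) := by gcongr
        _ ≤ _ := b1
    · calc aF (bt B C) (m + 1) ξ ≤ c' / ξ ^ (m + 2) := b2
        _ ≤ c' / (A / 8) ^ (m + 2) := by gcongr
        _ = c' * 8 ^ (m + 2) / A ^ (m + 2) := by rw [div_pow]; field_simp
  have hHN : ∀ j ≤ N, (j : ℝ) * (c / A ^ (m + 2)) ≤ H j := by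
    intro j
    induction j with
    | zero => intro _; rw [hH0]; simp
    | succ j ih =>
      intro hj
      have h1 := ih (by omega)
      have h2 := (hstep j (by omega)).1
      push_cast
      linarith
  have heN : e ≤ H N := by
    calc e ≤ c / 8 / A ^ (m + 1) := he
      _ = (A / 8) * (c / A ^ (m + 2)) := by rw [pow_succ A (m + 1)]; field_simp
      _ ≤ N * (c / A ^ (m + 2)) := by
          gcongr; linarith
      _ ≤ H N := hHN N le_rfl
  obtain ⟨j, hjN, hj⟩ := exists_step H hH0 N e (c' * 8 ^ (m + 2) / A ^ (m + 2)) he0 heN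
    (by positivity) (fun j hj => (hstep j hj).2)
  refine ⟨H j, ?_, hj⟩
  rw [hH]
  have hjN' : (j : ℝ) ≤ N := by exact_mod_cast hjN
  have hj0 : (0 : ℝ) ≤ j := by positivity
  apply IsAng.sub
  · apply isAng_fd hD
    · push_cast; linarith
    · push_cast; linarith
  · apply isAng_fd hD
    · push_cast; linarith
    · push_cast; linarith

theorem approx_base (hD : B ^ 2 < 4 * C) : ∃ c A0 : ℝ, 0 < c ∧ 1 ≤ A0 ∧
    ∀ A, A0 ≤ A → ∀ φ : ℝ, ∃ ψ, IsAng B C A 1 ψ ∧ |φ - ψ| ≤ c / A := by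
  have hc := cB_ge hD
  refine ⟨Real.pi / 2 * cB B C ^ 2, cB B C, by positivity, hc, ?_⟩
  intro A hA φ
  have hp : ‖exp ((φ : ℂ) * I)‖ = 1 := norm_exp_ofReal_mul_I φ
  have hA0 : 0 < A := by linarith
  obtain ⟨v, hv0, hvn, hvi, hvr⟩ := dirichlet_dir hD hp hA
  obtain ⟨w, hw⟩ : ∃ w : ℂ, w = conj (exp (φ * I)) * cv B C v := ⟨_, rfl⟩
  rw [← hw] at hvi hvr
  have hwn : ‖w‖ = ‖cv B C v‖ := by rw [hw, norm_mul, norm_conj, hp, one_mul]
  have h1 := one_le_norm_cv hD hv0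
  refine ⟨φ + arg w, ⟨[v], by simp, ?_, ?_⟩, ?_⟩
  · intro u hu
    rw [List.mem_singleton] at hu
    subst hu
    exact ⟨hv0, hvn⟩
  · simp only [List.map_cons, List.map_nil, List.prod_cons, List.prod_nil, mul_one]
    have h2 : cv B C v = exp (φ * I) * w := by
      rw [hw, ← mul_assoc, mul_conj, normSq_eq_norm_sq, hp]; simp
    rw [un, ← hwn, h2]
    push_cast
    rw [add_mul, Complex.exp_add]
    have h3 := norm_mul_exp_arg_mul_I w
    have h4 : (‖w‖ : ℂ) ≠ 0 := by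
      rw [hwn]
      have : ‖cv B C v‖ ≠ 0 := by positivity
      exact_mod_cast this
    nth_rewrite 1 [← h3]
    field_simp
  · have h5 : |arg w| ≤ Real.pi / 2 * |w.im / ‖w‖| := by
      rw [arg_of_re_nonneg hvr]
      have hx : |Real.arcsin (w.im / ‖w‖)| ≤ Real.pi / 2 := by
        rw [abs_le]
        exact ⟨by have := Real.neg_pi_div_two_le_arcsin (w.im / ‖w‖); linarith,
          Real.arcsin_le_pi_div_two _⟩
      have h6 := Real.mul_abs_le_abs_sin hx
      have h7 : |w.im / ‖w‖| ≤ 1 := by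
        rw [abs_div, abs_norm]; exact div_le_one_of_le₀ (abs_im_le_norm w) (norm_nonneg _)
      rw [abs_le] at h7
      rw [Real.sin_arcsin h7.1 h7.2] at h6
      calc |Real.arcsin (w.im / ‖w‖)|
          = Real.pi / 2 * (2 / Real.pi * |Real.arcsin (w.im / ‖w‖)|) := by
            field_simp
        _ ≤ Real.pi / 2 * |w.im / ‖w‖| := by gcongr
    have e : φ - (φ + arg w) = - arg w := by ring
    rw [e, abs_neg]
    calc |arg w| ≤ Real.pi / 2 * |w.im / ‖w‖| := h5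
      _ ≤ Real.pi / 2 * (cB B C ^ 2 / A) := by
          gcongr
          rw [abs_div, abs_norm, hwn]
          calc |w.im| / ‖cv B C v‖ ≤ |w.im| / 1 := by gcongr
            _ ≤ _ := by rw [div_one]; exact hvi
      _ = _ := by ring

/-- every angle is approximated within `c / A^(r+1)` by the angle of a product of `k`
vectors of norm at most `A`; `k` and `c` depend on `r` only. -/
theorem approx (hD : B ^ 2 < 4 * C) (r : ℕ) : ∃ (k : ℕ) (c A0 : ℝ), 0 < c ∧ 1 ≤ A0 ∧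
    ∀ A, A0 ≤ A → ∀ φ : ℝ, ∃ ψ, IsAng B C A k ψ ∧ |φ - ψ| ≤ c / A ^ (r + 1) := by
  induction r with
  | zero =>
    obtain ⟨c, A0, hc, hA0, h⟩ := approx_base hD
    refine ⟨1, c, A0, hc, hA0, fun A hA φ => ?_⟩
    obtain ⟨ψ, h1, h2⟩ := h A hA φ
    exact ⟨ψ, h1, by simpa using h2⟩
  | succ r ih =>
    obtain ⟨k, c, A0, hc, hA0, h⟩ := ih
    obtain ⟨a, a', A1, ha, ha', hA1, h'⟩ := net_level hD r
    obtain ⟨M, hM⟩ : ∃ M : ℕ, M = ⌈c / a⌉₊ := ⟨_, rfl⟩
    have hMge : c / a ≤ M := by rw [hM]; exact Nat.le_ceil _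
    have hM0 : (0 : ℝ) < M := lt_of_lt_of_le (by positivity) hMge
    refine ⟨k + M * (2 ^ r + 2 ^ r), M * a', max A0 A1, by positivity, le_max_of_le_left hA0, ?_⟩
    intro A hA φ
    have hA0' : 0 < A := by linarith [le_max_left A0 A1]
    obtain ⟨ψ, h1, h2⟩ := h A ((le_max_left _ _).trans hA) φ
    obtain ⟨ψ', h3, h4⟩ := h' A ((le_max_right _ _).trans hA) (|φ - ψ| / M) (by positivity) (by
      rw [div_le_iff₀ hM0]
      calc |φ - ψ| ≤ c / A ^ (r + 1) := h2
        _ = a / A ^ (r + 1) * (c / a) := by field_simp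
        _ ≤ a / A ^ (r + 1) * M := by gcongr)
    have h5 : |(|φ - ψ|) - M * ψ'| ≤ M * a' / A ^ (r + 1 + 1) := by
      have : |φ - ψ| - M * ψ' = M * (|φ - ψ| / M - ψ') := by field_simp
      rw [this, abs_mul, abs_of_pos hM0]
      calc M * |(|φ - ψ|) / M - ψ'| ≤ M * (a' / A ^ (r + 2)) := by gcongr
        _ = _ := by ring
    rcases le_total 0 (φ - ψ) with h0 | h0
    · rw [abs_of_nonneg h0] at h5
      refine ⟨ψ + M * ψ', h1.add (h3.nsmul M), ?_⟩
      have : φ - (ψ + M * ψ') = φ - ψ - M * ψ' := by ring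
      rw [this]; exact h5
    · rw [abs_of_nonpos h0] at h5
      refine ⟨ψ - M * ψ', h1.sub (h3.nsmul M), ?_⟩
      have : φ - (ψ - M * ψ') = -(-(φ - ψ) - M * ψ') := by ring
      rw [this, abs_neg]; exact h5

end Pool.Agent.FareyParity
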