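import Mathlib

set_option autoImplicit false

/-!
# Divisor sums over Gaussian integers
-/

namespace Pool.Agent.FareyParity

open Finset

/-- nonzero Gaussian integers of norm at most `T` -/
noncomputable def gball (T : ℕ) : Finset GaussianInt := by
  classical
  exact ((Finset.Icc (-(T : ℤ)) T ×ˢ Finset.Icc (-(T : ℤ)) T).image
    (fun v => (⟨v.1, v.2⟩ : GaussianInt))).filter (fun z => z ≠ 0 ∧ z.norm ≤ T)

theorem gnorm_eq (z : GaussianInt) : z.norm = z.re ^ 2 + z.im ^ 2 := by
  rw [Zsqrtd.norm_def]; ring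

theorem gnorm_pos {z : GaussianInt} (hz : z ≠ 0) : 0 < z.norm := GaussianInt.norm_pos.2 hz

theorem mem_gball {T : ℕ} {z : GaussianInt} : z ∈ gball T ↔ z ≠ 0 ∧ z.norm ≤ T := by
  classical
  simp only [gball, Finset.mem_filter, Finset.mem_image, Finset.mem_product, Finset.mem_Icc]
  constructor
  · rintro ⟨_, h⟩; exact h
  · intro h
    refine ⟨⟨(z.re, z.im), ?_, rfl⟩, h⟩
    have h1 := gnorm_eq z
    have h2 : z.re ^ 2 ≤ T := by nlinarith [sq_nonneg z.im, h.2]
    have h3 : z.im ^ 2 ≤ T := by nlinarith [sq_nonneg z.re, h.2]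
    have key : ∀ x : ℤ, x ^ 2 ≤ T → -(T : ℤ) ≤ x ∧ x ≤ T := by
      intro x hx
      constructor <;> nlinarith [sq_nonneg (x - 1), sq_nonneg (x + 1)]
    exact ⟨key _ h2, key _ h3⟩

/-- the divisors of a Gaussian integer -/
noncomputable def gdivs (z : GaussianInt) : Finset GaussianInt := by
  classical
  exact (gball z.norm.toNat).filter (fun d => d ∣ z)

theorem mem_gdivs {z d : GaussianInt} (hz : z ≠ 0) : d ∈ gdivs z ↔ d ∣ z := by
  classical
  rw [gdivs, Finset.mem_filter, mem_gball]
  constructor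
  · exact fun h => h.2
  · intro h
    have hd : d ≠ 0 := by rintro rfl; exact hz (zero_dvd_iff.1 h)
    refine ⟨⟨hd, ?_⟩, h⟩
    have h1 := gnorm_pos hz
    have h2 : d.norm ∣ z.norm := by
      obtain ⟨e, he⟩ := h
      rw [he, Zsqrtd.norm_mul]; exact Dvd.intro _ rfl
    have := Int.le_of_dvd h1 h2
    rw [Int.toNat_of_nonneg h1.le]; exact this

/-- number of divisors in the Gaussian integers (all associates counted) -/
noncomputable def gD (z : GaussianInt) : ℝ := (gdivs z).card

theorem gD_nonneg (z : GaussianInt) : 0 ≤ gD z := by unfold gD; positivity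

theorem gD_mul {a b : GaussianInt} (ha : a ≠ 0) (hb : b ≠ 0) : gD (a * b) ≤ gD a * gD b := by
  classical
  have hsub : gdivs (a * b) ⊆ Finset.image₂ (· * ·) (gdivs a) (gdivs b) := by
    intro d hd
    rw [mem_gdivs (mul_ne_zero ha hb)] at hd
    obtain ⟨d1, d2, h1, h2, h3⟩ := exists_dvd_and_dvd_of_dvd_mul hd
    rw [Finset.mem_image₂]
    exact ⟨d1, (mem_gdivs ha).2 h1, d2, (mem_gdivs hb).2 h2, h3.symm⟩
  have h := (Finset.card_le_card hsub).trans (Finset.card_image₂_le _ _ _)
  unfold gD
  exact_mod_cast h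

/-- the recursion for divisor sums -/
theorem sum_gD_le (T : ℕ) (h : GaussianInt → ℝ) (h0 : ∀ z, 0 ≤ h z)
    (hm : ∀ a b : GaussianInt, a ≠ 0 → b ≠ 0 → h (a * b) ≤ h a * h b) :
    ∑ z ∈ gball T, h z * gD z / z.norm ≤ (∑ z ∈ gball T, h z / z.norm) ^ 2 := by
  classical
  have hpos : ∀ z ∈ gball T, (0 : ℝ) < (z.norm : ℤ) := by
    intro z hz
    exact_mod_cast gnorm_pos (mem_gball.1 hz).1
  calc ∑ z ∈ gball T, h z * gD z / z.norm
      = ∑ z ∈ gball T, ∑ d ∈ (gball T).filter (fun d => d ∣ z), h z / z.norm := by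
        apply Finset.sum_congr rfl
        intro z hz
        rw [Finset.sum_const, nsmul_eq_mul]
        have : gdivs z = (gball T).filter (fun d => d ∣ z) := by
          ext d
          rw [mem_gdivs (mem_gball.1 hz).1, Finset.mem_filter, mem_gball]
          constructor
          · intro hd
            have h1 := (mem_gdivs (mem_gball.1 hz).1).2 hd
            rw [gdivs, Finset.mem_filter, mem_gball] at h1
            refine ⟨⟨h1.1.1, h1.1.2.trans ?_⟩, hd⟩
            rw [Int.toNat_of_nonneg (gnorm_pos (mem_gball.1 hz).1).le]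
            exact (mem_gball.1 hz).2
          · exact fun h => h.2
        unfold gD
        rw [this]; ring
    _ = ∑ d ∈ gball T, ∑ z ∈ (gball T).filter (fun z => d ∣ z), h z / z.norm := by
        simp only [Finset.sum_filter]
        exact Finset.sum_comm
    _ ≤ ∑ d ∈ gball T, ∑ e ∈ gball T, h (d * e) / (d * e).norm := by
        apply Finset.sum_le_sum
        intro d hd
        have hd0 := (mem_gball.1 hd).1
        calc ∑ z ∈ (gball T).filter (fun z => d ∣ z), h z / z.norm
            ≤ ∑ z ∈ (gball T).image (fun e => d * e), h z / z.norm := by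
              apply Finset.sum_le_sum_of_subset_of_nonneg
              · intro z hz
                rw [Finset.mem_filter, mem_gball] at hz
                obtain ⟨⟨hz0, hzT⟩, e, he⟩ := hz
                rw [Finset.mem_image]
                have he0 : e ≠ 0 := by rintro rfl; simp at he; exact hz0 he
                refine ⟨e, mem_gball.2 ⟨he0, ?_⟩, he.symm⟩
                have h1 := gnorm_pos hd0
                have h2 := gnorm_pos he0
                rw [he, Zsqrtd.norm_mul] at hzT
                nlinarith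
              · intro z _ _
                apply div_nonneg (h0 z)
                exact_mod_cast GaussianInt.norm_nonneg z
          _ = ∑ e ∈ gball T, h (d * e) / (d * e).norm := by
              apply Finset.sum_image
              intro a _ b _ hab
              exact mul_left_cancel₀ hd0 hab
    _ ≤ ∑ d ∈ gball T, ∑ e ∈ gball T, (h d / d.norm) * (h e / e.norm) := by
        apply Finset.sum_le_sum
        intro d hd
        apply Finset.sum_le_sum
        intro e he
        have h1 := hpos d hd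
        have h2 := hpos e he
        rw [Zsqrtd.norm_mul]
        push_cast
        rw [div_mul_div_comm]
        gcongr
        exact hm d e (mem_gball.1 hd).1 (mem_gball.1 he).1
    _ = (∑ z ∈ gball T, h z / z.norm) ^ 2 := by
        rw [pow_two, Finset.sum_mul_sum]

theorem sum_inv_norm_le {T : ℕ} (hT : 1 ≤ T) :
    ∑ z ∈ gball T, (1 : ℝ) / z.norm ≤ 8 * (1 + Real.log T) := by
  classical
  obtain ⟨N, hN⟩ : ∃ N : ℕ, N = Nat.sqrt T := ⟨_, rfl⟩
  have hN1 : 1 ≤ N := by rw [hN]; exact Nat.sqrt_pos.2 hT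
  have hNT : N ≤ T := by rw [hN]; exact Nat.sqrt_le_self T
  have hsub : gball T ⊆ ((Finset.Icc 1 N).biUnion (fun n => (Finset.box n : Finset (ℤ × ℤ)))).image
      (fun v => (⟨v.1, v.2⟩ : GaussianInt)) := by
    intro z hz
    rw [mem_gball, gnorm_eq] at hz
    rw [Finset.mem_image]
    refine ⟨(z.re, z.im), ?_, rfl⟩
    rw [Finset.mem_biUnion]
    refine ⟨max z.re.natAbs z.im.natAbs, ?_, Int.mem_box.2 rfl⟩
    rw [Finset.mem_Icc]
    constructor
    · rw [Nat.one_le_iff_ne_zero]
      intro h0
      apply hz.1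
      have h1 : z.re.natAbs = 0 := by omega
      have h2 : z.im.natAbs = 0 := by omega
      exact Zsqrtd.ext (Int.natAbs_eq_zero.1 h1) (Int.natAbs_eq_zero.1 h2)
    · rw [hN, Nat.le_sqrt']
      have h1 : (z.re.natAbs : ℤ) ^ 2 ≤ T := by
        rw [Int.natCast_natAbs, sq_abs]; nlinarith [sq_nonneg z.im, hz.2]
      have h2 : (z.im.natAbs : ℤ) ^ 2 ≤ T := by
        rw [Int.natCast_natAbs, sq_abs]; nlinarith [sq_nonneg z.re, hz.2]
      rcases max_choice z.re.natAbs z.im.natAbs with h | h <;> rw [h]
      · exact_mod_cast h1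
      · exact_mod_cast h2
  calc ∑ z ∈ gball T, (1 : ℝ) / z.norm
      ≤ ∑ z ∈ (((Finset.Icc 1 N).biUnion (fun n => (Finset.box n : Finset (ℤ × ℤ)))).image
          (fun v => (⟨v.1, v.2⟩ : GaussianInt))), (1 : ℝ) / z.norm := by
        apply Finset.sum_le_sum_of_subset_of_nonneg hsub
        intro z _ _
        have : (0 : ℝ) ≤ (z.norm : ℤ) := by exact_mod_cast GaussianInt.norm_nonneg z
        positivity
    _ = ∑ v ∈ (Finset.Icc 1 N).biUnion (fun n => (Finset.box n : Finset (ℤ × ℤ))),
        (1 : ℝ) / ((⟨v.1, v.2⟩ : GaussianInt).norm : ℤ) := by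
        apply Finset.sum_image
        intro a _ b _ hab
        have h1 := congrArg Zsqrtd.re hab
        have h2 := congrArg Zsqrtd.im hab
        exact Prod.ext h1 h2
    _ = ∑ n ∈ Finset.Icc 1 N, ∑ v ∈ (Finset.box n : Finset (ℤ × ℤ)),
        (1 : ℝ) / ((⟨v.1, v.2⟩ : GaussianInt).norm : ℤ) := by
        apply Finset.sum_biUnion
        intro a _ b _ hab
        simp only [Function.onFun]
        rw [Finset.disjoint_left]
        intro x hx hx'
        rw [Int.mem_box] at hx hx'
        exact hab (hx.symm.trans hx')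
    _ ≤ ∑ n ∈ Finset.Icc 1 N, ∑ v ∈ (Finset.box n : Finset (ℤ × ℤ)), (1 : ℝ) / (n : ℝ) ^ 2 := by
        apply Finset.sum_le_sum
        intro n hn
        apply Finset.sum_le_sum
        intro v hv
        rw [Finset.mem_Icc] at hn
        rw [Int.mem_box] at hv
        have hn0 : (0 : ℝ) < (n : ℝ) ^ 2 := by
          have : (0 : ℝ) < n := by exact_mod_cast hn.1
          positivity
        have h1 : (n : ℤ) ^ 2 ≤ (⟨v.1, v.2⟩ : GaussianInt).norm := by
          rw [gnorm_eq]
          simp only
          rcases max_choice v.1.natAbs v.2.natAbs with h | h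
          · rw [h] at hv
            rw [← hv, Int.natCast_natAbs, sq_abs]; nlinarith [sq_nonneg v.2]
          · rw [h] at hv
            rw [← hv, Int.natCast_natAbs, sq_abs]; nlinarith [sq_nonneg v.1]
        have h2 : (n : ℝ) ^ 2 ≤ ((⟨v.1, v.2⟩ : GaussianInt).norm : ℤ) := by exact_mod_cast h1
        gcongr
    _ = ∑ n ∈ Finset.Icc 1 N, 8 * ((n : ℝ))⁻¹ := by
        apply Finset.sum_congr rfl
        intro n hn
        rw [Finset.mem_Icc] at hn
        have hn' : (n : ℝ) ≠ 0 := by
          have : n ≠ 0 := by omega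
          exact_mod_cast this
        rw [Finset.sum_const, Int.card_box (by omega), nsmul_eq_mul]
        push_cast
        field_simp
    _ = 8 * (harmonic N : ℝ) := by
        rw [← Finset.mul_sum, harmonic_eq_sum_Icc]; push_cast; rfl
    _ ≤ 8 * (1 + Real.log N) := by
        gcongr; exact harmonic_le_one_add_log N
    _ ≤ 8 * (1 + Real.log T) := by
        have h1 : (0 : ℝ) < N := by exact_mod_cast hN1
        have h2 : (N : ℝ) ≤ T := by exact_mod_cast hNT
        gcongr

/-- the second moment of the divisor function -/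
theorem sum_gD_sq_le {T : ℕ} (hT : 1 ≤ T) :
    ∑ z ∈ gball T, gD z ^ 2 / z.norm ≤ (8 * (1 + Real.log T)) ^ 4 := by
  have h1 := sum_gD_le T gD gD_nonneg (fun a b ha hb => gD_mul ha hb)
  have h2 := sum_gD_le T (fun _ => 1) (fun _ => zero_le_one) (fun a b _ _ => by norm_num)
  have h3 := sum_inv_norm_le hT
  simp only [one_mul] at h2
  have h0 : 0 ≤ ∑ z ∈ gball T, (1 : ℝ) / z.norm := by
    apply Finset.sum_nonneg
    intro z _
    have : (0 : ℝ) ≤ (z.norm : ℤ) := by exact_mod_cast GaussianInt.norm_nonneg z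
    positivity
  have h4 : 0 ≤ ∑ z ∈ gball T, gD z / z.norm := by
    apply Finset.sum_nonneg
    intro z _
    have : (0 : ℝ) ≤ (z.norm : ℤ) := by exact_mod_cast GaussianInt.norm_nonneg z
    have := gD_nonneg z
    positivity
  calc ∑ z ∈ gball T, gD z ^ 2 / z.norm = ∑ z ∈ gball T, gD z * gD z / z.norm := by
        apply Finset.sum_congr rfl; intro z _; ring
    _ ≤ (∑ z ∈ gball T, gD z / z.norm) ^ 2 := h1
    _ ≤ ((∑ z ∈ gball T, (1 : ℝ) / z.norm) ^ 2) ^ 2 := by gcongr
    _ ≤ ((8 * (1 + Real.log T)) ^ 2) ^ 2 := by gcongr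
    _ = _ := by ring

end Pool.Agent.FareyParity
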