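import Mathlib
import Pool.Agent.FareyParity.Count
import Pool.Agent.FareyParity.Approx

set_option autoImplicit false

/-!
# The value `-1` is taken often
-/

namespace Pool.Agent.FareyParity

open Complex ComplexConjugate Filter

variable {B C : ℤ}

theorem prod_col_sq {f : ℕ → ℤ} (hf : IsSign f) (hD : B ^ 2 < 4 * C) (l : List (ℤ × ℤ))
    (hl : ∀ v ∈ l, v ≠ 0) : (l.map (col f B C)).prod * (l.map (col f B C)).prod = 1 := by
  induction l with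
  | nil => simp
  | cons v l ih =>
    have h1 := ih (fun w hw => hl w (by simp [hw]))
    have h2 := col_val hf hD (hl v (by simp))
    simp only [List.map_cons, List.prod_cons]
    have e : col f B C v * (List.map (col f B C) l).prod * (col f B C v *
      (List.map (col f B C) l).prod) = (col f B C v * col f B C v) *
      ((List.map (col f B C) l).prod * (List.map (col f B C) l).prod) := by ring
    rw [e, h1, mul_one]
    rcases h2 with h | h <;> rw [h] <;> norm_num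

/-- a short list with odd colour and tiny total angle -/
theorem exists_list (hD : B ^ 2 < 4 * C) (r : ℕ) : ∃ (k : ℕ) (c A0 : ℝ), 0 < c ∧ 1 ≤ A0 ∧
    ∀ A, A0 ≤ A → ∀ f, IsSign f → ∀ γ : ℤ × ℤ, γ ≠ 0 → ‖cv B C γ‖ ≤ A → col f B C γ = -1 →
      ∃ (L : List (ℤ × ℤ)) (η : ℝ), L.length ≤ 2 * k + 1 ∧ (∀ v ∈ L, v ≠ 0 ∧ ‖cv B C v‖ ≤ A) ∧
        (L.map (un B C)).prod = exp (η * I) ∧ (L.map (col f B C)).prod = -1 ∧
        |η| ≤ c / A ^ (r + 1) := by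
  obtain ⟨k, c, A0, hc, hA0, h⟩ := approx hD r
  refine ⟨k, 2 * c, A0, by positivity, hA0, ?_⟩
  intro A hA f hf γ hγ0 hγA hγ
  obtain ⟨ψ, ⟨l, hlk, hl, hlp⟩, hψ⟩ := h A hA (-(arg (cv B C γ)) / 2)
  have hunγ : un B C γ = exp ((arg (cv B C γ) : ℝ) * I) := by
    have h1 := norm_mul_exp_arg_mul_I (cv B C γ)
    have h2 : (‖cv B C γ‖ : ℂ) ≠ 0 := by
      have := one_le_norm_cv hD hγ0
      have : ‖cv B C γ‖ ≠ 0 := by positivity
      exact_mod_cast this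
    rw [un]
    nth_rewrite 1 [← h1]
    field_simp
  refine ⟨γ :: (l ++ l), arg (cv B C γ) + 2 * ψ, ?_, ?_, ?_, ?_, ?_⟩
  · simp only [List.length_cons, List.length_append]; omega
  · intro v hv
    simp only [List.mem_cons, List.mem_append, or_self] at hv
    rcases hv with rfl | hv
    · exact ⟨hγ0, hγA⟩
    · exact hl v hv
  · simp only [List.map_cons, List.map_append, List.prod_cons, List.prod_append]
    rw [hlp, hunγ, ← Complex.exp_add, ← Complex.exp_add]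
    congr 1; push_cast; ring
  · simp only [List.map_cons, List.map_append, List.prod_cons, List.prod_append]
    rw [prod_col_sq hf hD l (fun v hv => (hl v hv).1), hγ]; norm_num
  · have e : arg (cv B C γ) + 2 * ψ = -2 * (-(arg (cv B C γ)) / 2 - ψ) := by ring
    rw [e, abs_mul]
    calc |(-2 : ℝ)| * |-(arg (cv B C γ)) / 2 - ψ| ≤ 2 * (c / A ^ (r + 1)) := by
          have : |(-2 : ℝ)| = 2 := by norm_num
          rw [this]; gcongr
      _ = _ := by ring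

theorem natAbs_F_le (B C : ℤ) {X : ℕ} (hX : 1 ≤ X) {n : ℤ} (hn : |n| ≤ X) :
    ((n ^ 2 + B * n + C).natAbs : ℝ) ≤ (1 + |(B : ℝ)| + |(C : ℝ)|) * (X : ℝ) ^ 2 := by
  have hn' : |(n : ℝ)| ≤ X := by exact_mod_cast hn
  have hX' : (1 : ℝ) ≤ X := by exact_mod_cast hX
  rw [Nat.cast_natAbs]
  push_cast
  calc |(n : ℝ) ^ 2 + B * n + C| ≤ |(n : ℝ) ^ 2 + B * n| + |(C : ℝ)| := abs_add_le _ _
    _ ≤ |(n : ℝ) ^ 2| + |(B : ℝ) * n| + |(C : ℝ)| := by gcongr; exact abs_add_le _ _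
    _ = |(n : ℝ)| ^ 2 + |(B : ℝ)| * |(n : ℝ)| + |(C : ℝ)| := by rw [abs_pow, abs_mul]
    _ ≤ (X : ℝ) ^ 2 + |(B : ℝ)| * (X : ℝ) ^ 2 + |(C : ℝ)| * (X : ℝ) ^ 2 := by
        gcongr
        · nlinarith
        · exact le_mul_of_one_le_right (abs_nonneg _) (one_le_pow₀ hX')
    _ = _ := by ring

/-- divisor bound on the values of the polynomial -/
theorem div_F_le (B C : ℤ) {ε : ℝ} (hε : 0 < ε) : ∃ c : ℝ, 0 < c ∧ ∀ X : ℕ, 1 ≤ X →
    ∀ n : ℤ, |n| ≤ X → (n ^ 2 + B * n + C).natAbs.divisors.card ≤ ⌊c * (X : ℝ) ^ (2 * ε)⌋₊ := by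
  obtain ⟨c, hc, h⟩ := divisor_bound hε
  refine ⟨c * (1 + |(B : ℝ)| + |(C : ℝ)|) ^ ε, by positivity, ?_⟩
  intro X hX n hn
  apply Nat.le_floor
  rcases Nat.eq_zero_or_pos (n ^ 2 + B * n + C).natAbs with h0 | h0
  · rw [h0]; simp; positivity
  calc ((n ^ 2 + B * n + C).natAbs.divisors.card : ℝ)
      ≤ c * ((n ^ 2 + B * n + C).natAbs : ℝ) ^ ε := h _ h0.ne'
    _ ≤ c * ((1 + |(B : ℝ)| + |(C : ℝ)|) * (X : ℝ) ^ 2) ^ ε := by
        gcongr; exact natAbs_F_le B C hX hn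
    _ = c * (1 + |(B : ℝ)| + |(C : ℝ)|) ^ ε * (X : ℝ) ^ (2 * ε) := by
        rw [Real.mul_rpow (by positivity) (by positivity), ← Real.rpow_natCast,
          ← Real.rpow_mul (by positivity)]
        push_cast; ring

theorem eventually_rpow_ge (c : ℝ) {e : ℝ} (he : 0 < e) :
    ∀ᶠ X : ℕ in atTop, c ≤ (X : ℝ) ^ e :=
  ((tendsto_rpow_atTop he).comp tendsto_natCast_atTop_atTop).eventually_ge_atTop c

theorem minus_side_aux (hD : B ^ 2 < 4 * C) {ε : ℝ} (hε : 0 < ε) (hε1 : ε ≤ 1) :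
    ∀ᶠ X : ℕ in atTop, ∀ f : ℕ → ℤ, IsSign f →
      (∃ v : ℤ × ℤ, v ≠ 0 ∧ ‖cv B C v‖ ≤ (X : ℝ) ^ (ε / 8) ∧ col f B C v = -1) →
      (X : ℝ) ^ (1 - ε) ≤ (valF f B C X (-1)).card := by
  obtain ⟨r, hr⟩ : ∃ r : ℕ, r = ⌈16 / ε⌉₊ := ⟨_, rfl⟩
  have hr1 : 16 / ε ≤ r := by rw [hr]; exact Nat.le_ceil _
  obtain ⟨k, c, A0, hc, hA0, hlist⟩ := exists_list hD r
  obtain ⟨cτ, hcτ, hτ⟩ := div_F_le B C (show 0 < ε / 8 by positivity)
  have hcB := cB_ge hD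
  have hmB := mB_ge hD
  obtain ⟨K, hK⟩ : ∃ K : ℝ, K = (2 * k + 2) * (40 * cB B C ^ 2 * mB B C ^ 2) := ⟨_, rfl⟩
  have hK1 : 1 ≤ K := by
    have h1 : (1 : ℝ) ≤ cB B C ^ 2 := one_le_pow₀ hcB
    have h2 : (1 : ℝ) ≤ mB B C ^ 2 := one_le_pow₀ hmB
    have h3 : (1 : ℝ) ≤ cB B C ^ 2 * mB B C ^ 2 := one_le_mul_of_one_le_of_one_le h1 h2
    have h4 : (0 : ℝ) ≤ k := by positivity
    rw [hK]; nlinarith
  obtain ⟨M, hM⟩ : ∃ M : ℝ, M = (2 * k + 2) * (20 * (8 * cB B C ^ 2 * K)) * (15 * cτ) := ⟨_, rfl⟩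
  have hM0 : 0 < M := by rw [hM]; positivity
  filter_upwards [eventually_rpow_ge A0 (show 0 < ε / 8 by positivity),
    eventually_rpow_ge (32 * cB B C ^ 2 * K) (show 0 < 1 - ε / 4 by linarith),
    eventually_rpow_ge M (show 0 < ε / 2 by positivity),
    eventually_rpow_ge (max c (max 1 (2 * |(B : ℝ)|))) (show (0 : ℝ) < 1 by norm_num)]
    with X h1 h2 h3 h4
  intro f hf ⟨γ, hγ0, hγA, hγ⟩
  rw [Real.rpow_one] at h4
  have hXc : c ≤ X := (le_max_left _ _).trans h4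
  have hX1 : (1 : ℝ) ≤ X := (le_max_left _ _).trans ((le_max_right _ _).trans h4)
  have hXB : 2 * |(B : ℝ)| ≤ X := (le_max_right _ _).trans ((le_max_right _ _).trans h4)
  have hX1' : 1 ≤ X := by exact_mod_cast hX1
  have hX0 : (0 : ℝ) < X := by linarith
  obtain ⟨A, hA⟩ : ∃ A : ℝ, A = (X : ℝ) ^ (ε / 8) := ⟨_, rfl⟩
  have hA1 : 1 ≤ A := by rw [hA]; linarith
  have hApos : 0 < A := by linarith
  have hA2 : A ^ 2 = (X : ℝ) ^ (ε / 4) := by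
    rw [hA, ← Real.rpow_natCast, ← Real.rpow_mul hX0.le]; push_cast; ring_nf
  have hAr : (X : ℝ) ^ 2 ≤ A ^ (r + 1) := by
    rw [hA, ← Real.rpow_natCast ((X : ℝ) ^ (ε / 8)), ← Real.rpow_mul hX0.le, ← Real.rpow_natCast]
    apply Real.rpow_le_rpow_of_exponent_le hX1
    push_cast
    rw [div_le_iff₀ hε] at hr1
    nlinarith
  obtain ⟨L, η, hLk, hL, hprod, hcol, hη⟩ := hlist A (by rw [hA]; exact h1) f hf γ hγ0
    (by rw [hA]; exact hγA) hγ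
  obtain ⟨R, hR⟩ : ∃ R : ℝ, R = √X / 2 := ⟨_, rfl⟩
  have hR0 : 0 < R := by rw [hR]; positivity
  have hR2 : R ^ 2 = X / 4 := by rw [hR, div_pow, Real.sq_sqrt hX0.le]; norm_num
  obtain ⟨ρ, hρ⟩ : ∃ ρ : ℝ, ρ = R / A := ⟨_, rfl⟩
  have hρ0 : 0 < ρ := by rw [hρ]; positivity
  have hρ2 : ρ ^ 2 = X / (4 * A ^ 2) := by rw [hρ, div_pow, hR2]; field_simp
  obtain ⟨s, hs⟩ : ∃ s : ℝ, s = 2 * cB B C ^ 2 * K / ρ ^ 2 := ⟨_, rfl⟩
  have hs' : s = 8 * cB B C ^ 2 * K * A ^ 2 / X := by rw [hs, hρ2]; field_simp; ring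
  have hK0 : 0 < K := by linarith
  have hcB0 : 0 < cB B C := by linarith
  have hs4 : s ≤ 1 / 4 := by
    rw [hs', div_le_iff₀ hX0, hA2]
    have h5 : (X : ℝ) = (X : ℝ) ^ (1 - ε / 4) * (X : ℝ) ^ (ε / 4) := by
      rw [← Real.rpow_add hX0]; ring_nf; rw [Real.rpow_one]
    have h6 : 32 * cB B C ^ 2 * K * (X : ℝ) ^ (ε / 4) ≤ X := by
      nth_rewrite 2 [h5]; gcongr
    linarith
  have hρK : 8 * cB B C ^ 2 * K ≤ ρ ^ 2 := by
    have : 2 * cB B C ^ 2 * K ≤ 1 / 4 * ρ ^ 2 := by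
      rw [hs, div_le_iff₀ (by positivity)] at hs4; exact hs4
    linarith
  have hcρ : cB B C ≤ ρ := by
    have h7 : cB B C ^ 2 ≤ ρ ^ 2 := by nlinarith [sq_nonneg (cB B C)]
    exact (pow_le_pow_iff_left₀ hcB0.le hρ0.le two_ne_zero).1 h7
  have hηs : |η| ≤ s := by
    have h8 : 1 ≤ cB B C ^ 2 := one_le_pow₀ hcB
    have h9 : 1 ≤ A ^ 2 := one_le_pow₀ hA1
    calc |η| ≤ c / A ^ (r + 1) := hη
      _ ≤ X / (X : ℝ) ^ 2 := by gcongr
      _ = 1 / X := by field_simp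
      _ ≤ 8 * cB B C ^ 2 * K * A ^ 2 / X := by
          gcongr
          have h10 : 1 ≤ cB B C ^ 2 * K := one_le_mul_of_one_le_of_one_le h8 hK1
          have h11 : 1 ≤ cB B C ^ 2 * K * A ^ 2 := one_le_mul_of_one_le_of_one_le h10 h9
          nlinarith
      _ = s := hs'.symm
  have hAρ : A * ρ ≤ R := by rw [hρ]; field_simp; exact le_rfl
  have hρR : ρ ≤ R := by rw [hρ]; exact div_le_self hR0.le hA1
  have hLlen : (L.length + 1 : ℝ) ≤ 2 * k + 2 := by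
    have : L.length + 1 ≤ 2 * k + 2 := by omega
    exact_mod_cast this
  have hmany := many_bad hD hf hcρ hK1 (by nlinarith) hs hs4 hηs hAρ hρR hL hprod hcol
    (by rw [hK]; gcongr)
  have hpair := pair_to_val hD hf (R := R) (X := X) (D := ⌊cτ * (X : ℝ) ^ (2 * (ε / 8))⌋₊)
    (e := -1) hR0.le (by rw [hR2]; linarith) (hτ X hX1')
  have hs0 : 0 < s := by rw [hs]; positivity
  have hpair' : ((pairF f B C R (-1)).card : ℝ) ≤
      15 * (cτ * (X : ℝ) ^ (ε / 4)) * (valF f B C X (-1)).card := by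
    have hfl : ((⌊cτ * (X : ℝ) ^ (2 * (ε / 8))⌋₊ : ℕ) : ℝ) ≤ cτ * (X : ℝ) ^ (ε / 4) := by
      calc _ ≤ cτ * (X : ℝ) ^ (2 * (ε / 8)) := Nat.floor_le (by positivity)
        _ = _ := by ring_nf
    calc ((pairF f B C R (-1)).card : ℝ)
        ≤ ((15 * ⌊cτ * (X : ℝ) ^ (2 * (ε / 8))⌋₊ * (valF f B C X (-1)).card : ℕ) : ℝ) := by
          exact_mod_cast hpair
      _ ≤ _ := by push_cast; gcongr
  have hfin : 1 ≤ M * (X : ℝ) ^ (ε / 2) / X * (valF f B C X (-1)).card := by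
    calc (1 : ℝ) ≤ (L.length + 1) * (20 * s) * (pairF f B C R (-1)).card := hmany
      _ ≤ (2 * k + 2) * (20 * s) *
          (15 * (cτ * (X : ℝ) ^ (ε / 4)) * (valF f B C X (-1)).card) := by gcongr
      _ = M * ((X : ℝ) ^ (ε / 4) * (X : ℝ) ^ (ε / 4)) / X * (valF f B C X (-1)).card := by
          rw [hs', hA2, hM]; ring
      _ = M * (X : ℝ) ^ (ε / 2) / X * (valF f B C X (-1)).card := by
          rw [← Real.rpow_add hX0]; ring_nf
  have hfin2 : (X : ℝ) / (X : ℝ) ^ (ε / 2) ≤ M * (valF f B C X (-1)).card := by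
    rw [div_le_iff₀ (by positivity)]
    have h12 : (X : ℝ) * 1 ≤ X * (M * (X : ℝ) ^ (ε / 2) / X * (valF f B C X (-1)).card) := by
      gcongr
    calc (X : ℝ) = X * 1 := by ring
      _ ≤ _ := h12
      _ = _ := by field_simp
  have h13 : (X : ℝ) ^ (1 - ε) * M ≤ (X : ℝ) / (X : ℝ) ^ (ε / 2) := by
    calc (X : ℝ) ^ (1 - ε) * M ≤ (X : ℝ) ^ (1 - ε) * (X : ℝ) ^ (ε / 2) := by gcongr
      _ = (X : ℝ) ^ (1 - ε / 2) := by rw [← Real.rpow_add hX0]; ring_nf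
      _ = (X : ℝ) / (X : ℝ) ^ (ε / 2) := by rw [Real.rpow_sub hX0, Real.rpow_one]
  have h14 : M * (X : ℝ) ^ (1 - ε) ≤ M * (valF f B C X (-1)).card := by
    linarith
  exact le_of_mul_le_mul_left h14 hM0

/-- the value `-1` is taken often, uniformly in `f` -/
theorem minus_side (hD : B ^ 2 < 4 * C) {ε : ℝ} (hε : 0 < ε) : ∃ δ : ℝ, 0 < δ ∧
    ∀ᶠ X : ℕ in atTop, ∀ f : ℕ → ℤ, IsSign f →
      (∃ n : ℤ, |(n : ℝ)| ≤ (X : ℝ) ^ δ ∧ f (n ^ 2 + B * n + C).natAbs = -1) →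
      (X : ℝ) ^ (1 - ε) ≤ (valF f B C X (-1)).card := by
  obtain ⟨ε', hε'⟩ : ∃ ε', ε' = min ε 1 := ⟨_, rfl⟩
  have h1 : 0 < ε' := by rw [hε']; positivity
  have hcB := cB_ge hD
  refine ⟨ε' / 16, by positivity, ?_⟩
  filter_upwards [minus_side_aux hD h1 (by rw [hε']; exact min_le_right _ _),
    eventually_rpow_ge (cB B C) (show 0 < ε' / 16 by positivity),
    eventually_ge_atTop 1] with X hX h2 hX1
  intro f hf ⟨n, hn, hfn⟩
  have hX1' : (1 : ℝ) ≤ X := by exact_mod_cast hX1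
  have hX0 : (0 : ℝ) < X := by linarith
  have h3 := hX f hf ⟨(n, 1), by intro h; simpa using congrArg Prod.snd h, ?_, ?_⟩
  · calc (X : ℝ) ^ (1 - ε) ≤ (X : ℝ) ^ (1 - ε') := by
          apply Real.rpow_le_rpow_of_exponent_le hX1'
          have : ε' ≤ ε := by rw [hε']; exact min_le_left _ _
          linarith
      _ ≤ _ := h3
  · have h4 : (1 : ℝ) ≤ (X : ℝ) ^ (ε' / 16) := Real.one_le_rpow hX1' (by positivity)
    calc ‖cv B C (n, 1)‖ ≤ (X : ℝ) ^ (ε' / 16) * cB B C :=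
          norm_cv_le hD (n, 1) hn (by simpa using h4)
      _ ≤ (X : ℝ) ^ (ε' / 16) * (X : ℝ) ^ (ε' / 16) := by gcongr
      _ = (X : ℝ) ^ (ε' / 8) := by rw [← Real.rpow_add hX0]; ring_nf
  · rw [col]; rw [← hfn]; congr 2; simp only [nf]; ring

end Pool.Agent.FareyParity
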