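import Mathlib
import Pool.Agent.FareyParity.Basic

set_option autoImplicit false

/-!
# Colourings with values in `ZMod 3` without edges of sum `0`
-/

namespace Pool.Agent.FareyParity

/-- closed under lattice points of segments -/
def SegClosed (S : Set (ℤ × ℤ)) : Prop :=
  ∀ (z v : ℤ × ℤ) (k : ℕ), z ∈ S → z + (k : ℤ) • v ∈ S → ∀ i : ℕ, i ≤ k → z + (i : ℤ) • v ∈ S

theorem coprime_of_dt {P v : ℤ × ℤ} (h : dt P v = 1) : IsCoprime v.1 v.2 := by
  simp only [dt] at h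
  exact ⟨-P.2, P.1, by linarith⟩

theorem coprime_of_dt' {P v : ℤ × ℤ} (h : dt P v = 1) : IsCoprime P.1 P.2 := by
  simp only [dt] at h
  exact ⟨v.2, -v.1, by linarith⟩

theorem dt_self (v : ℤ × ℤ) : dt v v = 0 := by simp only [dt]; ring

theorem dt_add_smul_left (z v w : ℤ × ℤ) (k : ℤ) : dt (z + k • v) w = dt z w + k * dt v w := by
  simp only [dt, Prod.fst_add, Prod.snd_add, Prod.smul_fst, Prod.smul_snd, smul_eq_mul]; ring

theorem dt_add_smul_right (z v w : ℤ × ℤ) (k : ℤ) : dt w (z + k • v) = dt w z + k * dt w v := by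
  simp only [dt, Prod.fst_add, Prod.snd_add, Prod.smul_fst, Prod.smul_snd, smul_eq_mul]; ring

theorem zmod3_eq : ∀ a b : ZMod 3, a ≠ 0 → b ≠ 0 → a + b ≠ 0 → a = b := by decide

/-- next vertex of the boundary of the convex hull -/
theorem exists_hull {S : Set (ℤ × ℤ)} (hS : TriClosed S) {P Q : ℤ × ℤ} (hPS : P ∈ S) (hQS : Q ∈ S)
    (hP : IsCoprime P.1 P.2) (hQ : IsCoprime Q.1 Q.2) (hD : 1 < dt P Q) :
    ∃ v ∈ S, dt P v = 1 ∧ 0 < dt v Q ∧ dt v Q < dt P Q := by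
  obtain ⟨w0, hw0⟩ := exists_partner hP
  obtain ⟨D, hDD⟩ : ∃ D : ℤ, D = dt P Q := ⟨_, rfl⟩
  have hDpos : 0 < D := by omega
  obtain ⟨e, he⟩ : ∃ e : ℤ, Q - D • w0 = e • P := by
    apply eq_smul_of_dt_eq_zero hP
    have : dt P (Q - D • w0) = dt P Q - D * dt P w0 := by
      simp only [dt, Prod.fst_sub, Prod.snd_sub, Prod.smul_fst, Prod.smul_snd, smul_eq_mul]
      ring
    rw [this, hw0, hDD]; ring
  have hQe : Q = e • P + D • w0 := by rw [← he]; abel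
  obtain ⟨e0, he0⟩ : ∃ e0 : ℤ, e0 = e % D := ⟨_, rfl⟩
  have he0n : 0 ≤ e0 := by rw [he0]; exact Int.emod_nonneg _ hDpos.ne'
  have he0l : e0 < D := by rw [he0]; exact Int.emod_lt_of_pos _ hDpos
  obtain ⟨w1, hw1⟩ : ∃ w1 : ℤ × ℤ, w1 = w0 + (e / D) • P := ⟨_, rfl⟩
  have hediv : e = e0 + D * (e / D) := by rw [he0]; exact (Int.emod_add_mul_ediv e D).symm
  have hQ1 : Q = e0 • P + D • w1 := by
    rw [hw1, hQe, smul_add, smul_smul]
    nth_rewrite 1 [hediv]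
    rw [add_smul]; abel
  have he0pos : e0 ≠ 0 := by
    intro h0
    rw [h0, zero_smul, zero_add] at hQ1
    obtain ⟨a, b, hab⟩ := hQ
    rw [hQ1] at hab
    simp only [Prod.smul_fst, Prod.smul_snd, smul_eq_mul] at hab
    have : D ∣ 1 := ⟨a * w1.1 + b * w1.2, by linarith⟩
    have := Int.le_of_dvd one_pos this
    omega
  obtain ⟨v, hv⟩ : ∃ v : ℤ × ℤ, v = w1 + P := ⟨_, rfl⟩
  have hDv : D • v = (D - e0) • P + (1 : ℤ) • Q := by
    rw [hv, hQ1, smul_add, sub_smul, one_smul]; abel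
  have hdPw1 : dt P w1 = 1 := by
    rw [hw1, dt_add_smul_right, hw0, dt_self]; ring
  have hdPv : dt P v = 1 := by
    rw [hv]
    have : dt P (w1 + P) = dt P w1 := by
      simp only [dt, Prod.fst_add, Prod.snd_add]; ring
    rw [this, hdPw1]
  have hdvQ : dt v Q = D - e0 := by
    have h : dt v Q = D * dt P w1 - e0 * dt P w1 := by
      rw [hv, hQ1]
      simp only [dt, Prod.fst_add, Prod.snd_add, Prod.smul_fst, Prod.smul_snd, smul_eq_mul]
      ring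
    rw [h, hdPw1]; ring
  have hv0 : v ≠ 0 := by rintro rfl; simp [dt] at hdPv
  have hvS : v ∈ S := hS P hPS Q hQS v hv0 D (D - e0) 1 hDpos (by omega) (by norm_num)
    (by omega) hDv
  exact ⟨v, hvS, hdPv, by omega, by omega⟩

section
variable {S1 : Set (ℤ × ℤ)} {d : ℤ × ℤ → ZMod 3}

theorem chain_eq (hS1 : SegClosed S1)
    (hno : ∀ z ∈ S1, ∀ w ∈ S1, dt z w = 1 → d z + d w ≠ 0) {v : ℤ × ℤ} (hv : v ∈ S1)
    (hdv : d v = 0) {z : ℤ × ℤ} (hz : z ∈ S1) (hzv : dt z v = 1 ∨ dt z v = -1) (k : ℕ)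
    (hk : z + (k : ℤ) • v ∈ S1) : d (z + (k : ℤ) • v) = d z := by
  have hno' : ∀ z ∈ S1, ∀ w ∈ S1, (dt z w = 1 ∨ dt z w = -1) → d z + d w ≠ 0 := by
    intro z hz w hw h
    rcases h with h | h
    · exact hno z hz w hw h
    · rw [add_comm]; exact hno w hw z hz (by rw [dt_swap, h]; norm_num)
  have hall : ∀ i : ℕ, i ≤ k → z + (i : ℤ) • v ∈ S1 := hS1 z v k hz hk
  have hne : ∀ i : ℕ, i ≤ k → d (z + (i : ℤ) • v) ≠ 0 := by
    intro i hi h0
    refine hno' _ (hall i hi) v hv ?_ ?_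
    · rw [dt_add_smul_left, dt_self, mul_zero, add_zero]; exact hzv
    · rw [h0, hdv, add_zero]
  have key : ∀ i : ℕ, i ≤ k → d (z + (i : ℤ) • v) = d z := by
    intro i
    induction i with
    | zero => intro _; simp
    | succ i ih =>
      intro hi
      rw [← ih (by omega)]
      apply zmod3_eq _ _ (hne _ hi) (hne _ (by omega))
      apply hno' _ (hall _ hi) _ (hall _ (by omega))
      rw [dt_add_smul_left, dt_add_smul_right, dt_add_smul_right, dt_self, dt_self, dt_swap z v]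
      push_cast
      rcases hzv with h | h <;> rw [h]
      · right; ring
      · left; ring
  exact key k le_rfl

theorem nbr_eq (hS1 : SegClosed S1)
    (hno : ∀ z ∈ S1, ∀ w ∈ S1, dt z w = 1 → d z + d w ≠ 0) {v : ℤ × ℤ} (hv : v ∈ S1)
    (hvc : IsCoprime v.1 v.2)
    (hdv : d v = 0) {z z' : ℤ × ℤ} (hz : z ∈ S1) (hz' : z' ∈ S1)
    (h : (dt z v = 1 ∧ dt z' v = 1) ∨ (dt z v = -1 ∧ dt z' v = -1)) : d z = d z' := by
  obtain ⟨e, he⟩ : ∃ e : ℤ, z' - z = e • v := by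
    apply eq_smul_of_dt_eq_zero hvc
    have : dt v (z' - z) = dt z v - dt z' v := by
      simp only [dt, Prod.fst_sub, Prod.snd_sub]; ring
    rw [this]
    rcases h with ⟨h1, h2⟩ | ⟨h1, h2⟩ <;> rw [h1, h2] <;> ring
  have hzv : dt z v = 1 ∨ dt z v = -1 := h.imp And.left And.left
  have hzv' : dt z' v = 1 ∨ dt z' v = -1 := h.imp And.right And.right
  rcases le_total 0 e with h0 | h0
  · obtain ⟨k, rfl⟩ := Int.eq_ofNat_of_zero_le h0
    have e1 : z' = z + (k : ℤ) • v := by rw [← he]; abel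
    rw [e1] at hz' ⊢
    exact (chain_eq hS1 hno hv hdv hz hzv k hz').symm
  · obtain ⟨k, hk⟩ := Int.eq_ofNat_of_zero_le (show 0 ≤ -e by omega)
    have e1 : z = z' + (k : ℤ) • v := by
      rw [← hk, neg_smul, ← he]; abel
    rw [e1] at hz ⊢
    exact chain_eq hS1 hno hv hdv hz' hzv' k hz

theorem type_aux {S0 : Set (ℤ × ℤ)} (hS0 : TriClosed S0) (h01 : S0 ⊆ S1) (hS1 : SegClosed S1)
    (hno : ∀ z ∈ S1, ∀ w ∈ S1, dt z w = 1 → d z + d w ≠ 0)
    (hneg : ∀ v, d (-v) = d v)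
    (hpar : ∀ v ∈ S0, IsCoprime v.1 v.2 → ∃ x ∈ S1, ∃ y ∈ S1,
      dt x v = 1 ∧ dt v y = 1 ∧ dt x y = 1) :
    ∀ (n : ℕ) (P Q : ℤ × ℤ), P ∈ S0 → Q ∈ S0 → IsCoprime P.1 P.2 → IsCoprime Q.1 Q.2 →
      d P ≠ 0 → d Q ≠ 0 → dt P Q = n → d P = d Q := by
  intro n
  induction n using Nat.strong_induction_on with
  | _ n ih =>
    intro P Q hP hQ hPc hQc hdP hdQ hdt
    rcases Nat.lt_trichotomy n 1 with hn | hn | hn
    · have h0 : dt P Q = 0 := by rw [hdt]; omega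
      obtain ⟨e, he⟩ := eq_smul_of_dt_eq_zero hPc h0
      obtain ⟨a, b, hab⟩ := hQc
      have he1 : e ∣ 1 := ⟨a * P.1 + b * P.2, by
        rw [he] at hab
        simp only [Prod.smul_fst, Prod.smul_snd, smul_eq_mul] at hab
        linarith⟩
      rcases Int.isUnit_iff.1 (isUnit_of_dvd_one he1) with h | h
      · rw [he, h, one_smul]
      · rw [he, h, neg_one_smul, hneg]
    · exact zmod3_eq _ _ hdP hdQ (hno P (h01 hP) Q (h01 hQ) (by rw [hdt, hn]; norm_num))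
    · obtain ⟨v, hv, hPv, hvQ, hlt⟩ := exists_hull hS0 hP hQ hPc hQc (by rw [hdt]; omega)
      have hvc := coprime_of_dt hPv
      obtain ⟨m, hm⟩ := Int.eq_ofNat_of_zero_le hvQ.le
      by_cases hdv : d v = 0
      · obtain ⟨x, hx, y, hy, hxv, hvy, hxy⟩ := hpar v hv hvc
        have hx0 : d x ≠ 0 := by
          intro h; exact hno x hx v (h01 hv) hxv (by rw [h, hdv, add_zero])
        have hy0 : d y ≠ 0 := by
          intro h; exact hno v (h01 hv) y hy hvy (by rw [h, hdv, add_zero])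
        have h1 : d P = d x := nbr_eq hS1 hno (h01 hv) hvc hdv (h01 hP) hx (Or.inl ⟨hPv, hxv⟩)
        have h2 : d x = d y := zmod3_eq _ _ hx0 hy0 (hno x hx y hy hxy)
        obtain ⟨v', hv', hvv', hv'Q⟩ : ∃ v' ∈ S0, dt v v' = 1 ∧
            (v' = Q ∨ (0 < dt v' Q ∧ dt v' Q < dt v Q)) := by
          rcases eq_or_lt_of_le (show (1 : ℤ) ≤ dt v Q by omega) with h | h
          · exact ⟨Q, hQ, h.symm, Or.inl rfl⟩
          · obtain ⟨v', h1, h2, h3, h4⟩ := exists_hull hS0 hv hQ hvc hQc h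
            exact ⟨v', h1, h2, Or.inr ⟨h3, h4⟩⟩
        have h3 : d y = d v' := nbr_eq hS1 hno (h01 hv) hvc hdv hy (h01 hv')
          (Or.inr ⟨by rw [dt_swap, hvy], by rw [dt_swap, hvv']⟩)
        rcases hv'Q with rfl | ⟨h4, h5⟩
        · rw [h1, h2, h3]
        · obtain ⟨m', hm'⟩ := Int.eq_ofNat_of_zero_le h4.le
          have h6 : d P = d v' := by rw [h1, h2, h3]
          rw [h6]
          refine ih m' (by omega) v' Q hv' hQ (coprime_of_dt hvv') hQc ?_ hdQ hm'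
          rw [← h6]; exact hdP
      · have h1 : d P = d v := zmod3_eq _ _ hdP hdv (hno P (h01 hP) v (h01 hv) hPv)
        rw [h1]
        exact ih m (by omega) v Q hv hQ hvc hQc hdv hdQ hm

/-- All primitive vectors of `S0` with nonzero colour have the same colour. -/
theorem type_eq {S0 : Set (ℤ × ℤ)} (hS0 : TriClosed S0) (h01 : S0 ⊆ S1) (hS1 : SegClosed S1)
    (hno : ∀ z ∈ S1, ∀ w ∈ S1, dt z w = 1 → d z + d w ≠ 0)
    (hneg : ∀ v, d (-v) = d v)
    (hpar : ∀ v ∈ S0, IsCoprime v.1 v.2 → ∃ x ∈ S1, ∃ y ∈ S1,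
      dt x v = 1 ∧ dt v y = 1 ∧ dt x y = 1) {P Q : ℤ × ℤ} (hP : P ∈ S0) (hQ : Q ∈ S0)
    (hPc : IsCoprime P.1 P.2) (hQc : IsCoprime Q.1 Q.2) (hdP : d P ≠ 0) (hdQ : d Q ≠ 0) :
    d P = d Q := by
  rcases le_total 0 (dt P Q) with h | h
  · obtain ⟨n, hn⟩ := Int.eq_ofNat_of_zero_le h
    exact type_aux hS0 h01 hS1 hno hneg hpar n P Q hP hQ hPc hQc hdP hdQ hn
  · have h' : 0 ≤ dt Q P := by rw [dt_swap]; omega
    obtain ⟨n, hn⟩ := Int.eq_ofNat_of_zero_le h'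
    exact (type_aux hS0 h01 hS1 hno hneg hpar n Q P hQ hP hQc hPc hdQ hdP hn).symm

end

theorem rel_one : ∀ τ a b : ZMod 3, τ ≠ 0 → (a + τ = 0 ∨ a + τ = b) → ¬ (a = τ ∧ b = τ) := by
  decide

theorem rel_two : ∀ τ a b : ZMod 3, τ ≠ 0 → (a + 2 * τ = 0 ∨ a + 2 * τ = b) →
    ¬ (a = -τ ∧ b = -τ) := by
  decide

theorem eq_or_neg : ∀ τ a : ZMod 3, τ ≠ 0 → a ≠ 0 → a = τ ∨ a = -τ := by decide

/-- The finite contradiction. -/
theorem five_types {τ : ZMod 3} (hτ : τ ≠ 0) (t : ℕ → ZMod 3) (ht : ∀ i, i < 5 → t i ≠ 0)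
    (h1 : ∀ i, i < 4 → t i + τ = 0 ∨ t i + τ = t (i + 1))
    (h2 : ∀ i, i < 3 → t i + 2 * τ = 0 ∨ t i + 2 * τ = t (i + 2)) : False := by
  have e : ∀ i, i < 5 → t i = τ ∨ t i = -τ := fun i hi => eq_or_neg τ (t i) hτ (ht i hi)
  have a : ∀ i, i < 4 → ¬ (t i = τ ∧ t (i + 1) = τ) := fun i hi => rel_one τ _ _ hτ (h1 i hi)
  have b : ∀ i, i < 3 → ¬ (t i = -τ ∧ t (i + 2) = -τ) := fun i hi => rel_two τ _ _ hτ (h2 i hi)
  have e0 := e 0 (by norm_num)
  have e1 := e 1 (by norm_num)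
  have e2 := e 2 (by norm_num)
  have e3 := e 3 (by norm_num)
  have e4 := e 4 (by norm_num)
  have a1 := a 1 (by norm_num)
  have a2 := a 2 (by norm_num)
  have b0 := b 0 (by norm_num)
  have b1 := b 1 (by norm_num)
  have b2 := b 2 (by norm_num)
  have a0 := a 0 (by norm_num)
  have a3 := a 3 (by norm_num)
  norm_num at a0 a1 a2 a3 b0 b1 b2
  rcases e2 with e2 | e2
  · rcases e1 with e1 | e1
    · exact a1 e1 e2
    · rcases e3 with e3 | e3
      · exact a2 e2 e3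
      · exact b1 e1 e3
  · rcases e0 with e0 | e0
    · rcases e1 with e1 | e1
      · exact a0 e0 e1
      · rcases e3 with e3 | e3
        · rcases e4 with e4 | e4
          · exact a3 e3 e4
          · exact b2 e2 e4
        · exact b1 e1 e3
    · exact b0 e0 e2

end Pool.Agent.FareyParity
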