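import Mathlib
import Pool.Agent.FareyParity.Near
import Pool.Agent.FareyParity.Mod3Type

set_option autoImplicit false

/-!
# Multiplication by an element of prime norm and primitivity; additive colours mod 3
-/

namespace Pool.Agent.FareyParity

variable {B C : ℤ}

/-- `q` divides both coordinates -/
def Dv2 (q : ℤ) (v : ℤ × ℤ) : Prop := q ∣ v.1 ∧ q ∣ v.2

theorem dt_mulv (u z w : ℤ × ℤ) : dt (mulv B C u z) (mulv B C u w) = nf B C u * dt z w := by
  simp only [dt, mulv, nf]; ring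

theorem mulv_mulv (u z : ℤ × ℤ) : mulv B C u (mulv B C u z)
    = (2 * u.1 + B * u.2) • mulv B C u z - nf B C u • z := by
  ext
  · simp only [mulv, nf, Prod.fst_sub, Prod.smul_fst, smul_eq_mul]; ring
  · simp only [mulv, nf, Prod.snd_sub, Prod.smul_snd, smul_eq_mul]; ring

theorem mulv_cj_mulv (u z : ℤ × ℤ) : mulv B C (cj B u) (mulv B C u z) = nf B C u • z := by
  ext
  · simp only [mulv, nf, cj, Prod.smul_fst, smul_eq_mul]; ring
  · simp only [mulv, nf, cj, Prod.smul_snd, smul_eq_mul]; ring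

/-- primitivity of the product -/
theorem coprime_mulv {u z : ℤ × ℤ} {p : ℕ} (hp : p.Prime) (hu : nf B C u = p)
    (hz : IsCoprime z.1 z.2) (hn : ¬ Dv2 p (mulv B C u z)) :
    IsCoprime (mulv B C u z).1 (mulv B C u z).2 := by
  obtain ⟨y, hy⟩ : ∃ y, y = mulv B C u z := ⟨_, rfl⟩
  rw [← hy] at hn ⊢
  rw [Int.isCoprime_iff_gcd_eq_one]
  obtain ⟨g, hg⟩ : ∃ g : ℕ, g = Int.gcd y.1 y.2 := ⟨_, rfl⟩
  have h1 : (g : ℤ) ∣ y.1 := by rw [hg]; exact Int.gcd_dvd_left ..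
  have h2 : (g : ℤ) ∣ y.2 := by rw [hg]; exact Int.gcd_dvd_right ..
  have h3 : (g : ℤ) ∣ p := by
    have e := mulv_cj_mulv (B := B) (C := C) u z
    rw [← hy, hu] at e
    obtain ⟨a, b, hab⟩ := hz
    have e1 := congrArg Prod.fst e
    have e2 := congrArg Prod.snd e
    simp only [Prod.smul_fst, Prod.smul_snd, smul_eq_mul] at e1 e2
    have h4 : (g : ℤ) ∣ (mulv B C (cj B u) y).1 := by
      simp only [mulv]
      exact dvd_sub (h1.mul_left _) (h2.mul_left _)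
    have h5 : (g : ℤ) ∣ (mulv B C (cj B u) y).2 := by
      simp only [mulv]
      exact dvd_add (dvd_add (h2.mul_left _) (Dvd.dvd.mul_right h1 _)) (h2.mul_left _)
    rw [e1] at h4
    rw [e2] at h5
    have e3 : (p : ℤ) = a * (p * z.1) + b * (p * z.2) := by
      calc (p : ℤ) = p * (a * z.1 + b * z.2) := by rw [hab, mul_one]
        _ = _ := by ring
    rw [e3]
    exact dvd_add (h4.mul_left _) (h5.mul_left _)
  have h6 : g ∣ p := by exact_mod_cast h3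
  rcases (Nat.dvd_prime hp).1 h6 with h | h
  · rw [← hg]; exact h
  · exfalso; apply hn
    rw [h] at h1 h2
    exact ⟨h1, h2⟩

/-- non-divisibility persists -/
theorem ndvd_mulv {u z : ℤ × ℤ} {p : ℕ} (hp : p.Prime) (hu : nf B C u = p)
    (htr : ¬ (p : ℤ) ∣ 2 * u.1 + B * u.2) (hn : ¬ Dv2 p (mulv B C u z)) :
    ¬ Dv2 p (mulv B C u (mulv B C u z)) := by
  intro h
  apply hn
  rw [mulv_mulv, hu] at h
  obtain ⟨h1, h2⟩ := h
  simp only [Prod.fst_sub, Prod.snd_sub, Prod.smul_fst, Prod.smul_snd, smul_eq_mul] at h1 h2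
  have hp' : Prime (p : ℤ) := Nat.prime_iff_prime_int.1 hp
  have h3 : (p : ℤ) ∣ (2 * u.1 + B * u.2) * (mulv B C u z).1 := by
    have := dvd_add h1 (Dvd.intro z.1 (rfl : (p : ℤ) * z.1 = _))
    simpa using this
  have h4 : (p : ℤ) ∣ (2 * u.1 + B * u.2) * (mulv B C u z).2 := by
    have := dvd_add h2 (Dvd.intro z.2 (rfl : (p : ℤ) * z.2 = _))
    simpa using this
  exact ⟨(hp'.dvd_or_dvd h3).resolve_left htr, (hp'.dvd_or_dvd h4).resolve_left htr⟩

/-- one end of a unimodular pair stays primitive -/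
theorem ndvd_or {u z w : ℤ × ℤ} {p : ℕ} (hp : p.Prime) (hu : nf B C u = p) (hzw : dt z w = 1) :
    ¬ Dv2 p (mulv B C u z) ∨ ¬ Dv2 p (mulv B C u w) := by
  by_contra hcon
  push Not at hcon
  obtain ⟨⟨⟨a, ha⟩, ⟨b, hb⟩⟩, ⟨⟨a', ha'⟩, ⟨b', hb'⟩⟩⟩ := hcon
  have h := dt_mulv (B := B) (C := C) u z w
  rw [hzw, hu] at h
  simp only [dt] at h
  rw [ha, hb, ha', hb'] at h
  have hp0 : (p : ℤ) ≠ 0 := by exact_mod_cast hp.ne_zero
  have h2 : (p : ℤ) * (a * b' - a' * b) = 1 := by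
    apply mul_left_cancel₀ hp0
    linear_combination h
  have h3 : (p : ℤ) ∣ 1 := Dvd.intro _ h2
  have h4 : p ∣ 1 := by exact_mod_cast h3
  exact hp.one_lt.ne' (Nat.dvd_one.1 h4)

/-- completely additive functions with values in `ZMod 3` -/
def IsAdd3 (g : ℕ → ZMod 3) : Prop := ∀ m n : ℕ, m ≠ 0 → n ≠ 0 → g (m * n) = g m + g n

/-- the colour, shifted by `r` -/
def dcol (g : ℕ → ZMod 3) (B C : ℤ) (r : ZMod 3) (v : ℤ × ℤ) : ZMod 3 :=
  g (nf B C v).natAbs + r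

theorem dcol_neg (g : ℕ → ZMod 3) (r : ZMod 3) (v : ℤ × ℤ) :
    dcol g B C r (-v) = dcol g B C r v := by
  simp only [dcol]
  congr 3
  simp only [nf, Prod.fst_neg, Prod.snd_neg]; ring

theorem natAbs_nf_ne (hD : B ^ 2 < 4 * C) {v : ℤ × ℤ} (hv : v ≠ 0) : (nf B C v).natAbs ≠ 0 := by
  have := nf_pos hD hv
  omega

theorem dcol_mulv (hD : B ^ 2 < 4 * C) {g : ℕ → ZMod 3} (hg : IsAdd3 g) {r : ZMod 3}
    {u v : ℤ × ℤ} (hu : u ≠ 0) (hv : v ≠ 0) :
    dcol g B C r (mulv B C u v) = dcol g B C r v + g (nf B C u).natAbs := by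
  simp only [dcol]
  rw [nf_mulv, Int.natAbs_mul, hg _ _ (natAbs_nf_ne hD hu) (natAbs_nf_ne hD hv)]
  ring

theorem dcol_edge (hD : B ^ 2 < 4 * C) {g : ℕ → ZMod 3} (hg : IsAdd3 g) {r : ZMod 3}
    {z w : ℤ × ℤ} (hz : z ≠ 0) (hw : w ≠ 0) (h : dt z w = 1) :
    g (nf B C (ip B C z w, 1)).natAbs = dcol g B C r z + dcol g B C r w + r := by
  rw [← h, ← nf_mul_nf, Int.natAbs_mul, hg _ _ (natAbs_nf_ne hD hz) (natAbs_nf_ne hD hw)]
  simp only [dcol]
  have h3 : (3 : ZMod 3) = 0 := by decide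
  linear_combination (-r) * h3

end Pool.Agent.FareyParity
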