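import Mathlib
import Pool.Agent.FareyParity.Cover
import Pool.Agent.FareyParity.Mod3Mult

set_option autoImplicit false

/-!
# Geometry of typical directions
-/

namespace Pool.Agent.FareyParity

open Complex ComplexConjugate MeasureTheory

variable {B C : ℤ}

/-- there is a short vector close to the direction `p` -/
def Short (B C : ℤ) (p : ℂ) (V μ : ℝ) : Prop :=
  ∃ v : ℤ × ℤ, v ≠ 0 ∧ ‖cv B C v‖ ≤ V ∧ |(conj p * cv B C v).im| ≤ μ

theorem nearSet_seg (p : ℂ) {s R : ℝ} (hR : 0 ≤ R) : SegClosed (NearSet B C p s R) := by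
  intro z v k hz hk i hi
  rcases Nat.eq_zero_or_pos k with h0 | h0
  · have : i = 0 := by omega
    subst this; simpa using hz
  by_cases hv : z + (i : ℤ) • v = 0
  · rw [hv]
    refine ⟨?_, ?_⟩
    · have : cv B C 0 = 0 := by apply Complex.ext <;> simp
      rw [this, norm_zero]; exact hR
    · have : cv B C 0 = 0 := by apply Complex.ext <;> simp
      rw [this]; simp
  · refine triClosed_nearSet p hR z hz (z + (k : ℤ) • v) hk _ hv k (k - i) i (by omega) (by omega)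
      (by omega) (by omega) ?_
    simp only [smul_add, smul_smul, sub_smul]
    rw [mul_comm (i : ℤ) (k : ℤ)]
    abel

theorem norm_le_re_im {p : ℂ} (hp : ‖p‖ = 1) (x : ℂ) :
    ‖x‖ ≤ |(conj p * x).re| + |(conj p * x).im| := by
  calc ‖x‖ = ‖conj p * x‖ := by rw [norm_mul, norm_conj, hp, one_mul]
    _ ≤ _ := norm_le_abs_re_add_abs_im _

theorem re_le_norm' {p : ℂ} (hp : ‖p‖ = 1) (x : ℂ) : (conj p * x).re ≤ ‖x‖ := by
  calc (conj p * x).re ≤ ‖conj p * x‖ := re_le_norm _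
    _ = ‖x‖ := by rw [norm_mul, norm_conj, hp, one_mul]

/-- change of base point -/
theorem frame (p v x : ℂ) :
    ‖v‖ ^ 2 * (conj p * x).re
      = (conj p * v).re * (conj v * x).re - (conj p * v).im * (conj v * x).im ∧
    ‖v‖ ^ 2 * (conj p * x).im
      = (conj p * v).im * (conj v * x).re + (conj p * v).re * (conj v * x).im := by
  rw [← normSq_eq_norm_sq, normSq_apply]
  constructor
  · simp only [mul_re, conj_re, conj_im, mul_im]; ring
  · simp only [mul_re, conj_re, conj_im, mul_im]; ring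

theorem im_conj_mul (hD : B ^ 2 < 4 * C) (v x : ℤ × ℤ) :
    (conj (cv B C v) * cv B C x).im = bt B C * dt v x := by
  rw [conj_cv_mul hD, cv_im]

theorem ne_zero_of_dt {v x : ℤ × ℤ} (hx : dt v x = 1 ∨ dt v x = -1) : x ≠ 0 := by
  rintro rfl
  simp [dt] at hx

theorem parent_mem (hD : B ^ 2 < 4 * C) {p : ℂ} (hp : ‖p‖ = 1) {s0 s1 ρ R0 R1 : ℝ}
    (hs0 : 0 < s0) (h01 : 2 * s0 ≤ s1) (hs1 : s1 ≤ 1) (hρ : 0 < ρ) {v x : ℤ × ℤ}
    (hv : v ∈ NearSet B C p s0 R0) (hvρ : ρ ≤ ‖cv B C v‖) (hx : dt v x = 1 ∨ dt v x = -1)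
    (ht0 : 0 ≤ (conj (cv B C v) * cv B C x).re)
    (ht1 : (conj (cv B C v) * cv B C x).re ≤ ‖cv B C v‖ ^ 2)
    (hR : R0 + bt B C / ρ ≤ R1)
    (hns : ¬ Short B C p (8 * bt B C / (s1 * ρ)) (3 * bt B C / ρ)) :
    x ∈ NearSet B C p s1 R1 := by
  obtain ⟨hf1, hf2⟩ := frame p (cv B C v) (cv B C x)
  have hβ := bt_pos hD
  obtain ⟨hvR, hvc⟩ := hv
  have him := im_conj_mul hD v x
  have hnx := norm_le_re_im hp (cv B C x)
  have han := re_le_norm' hp (cv B C v)
  have hnt : ‖cv B C v‖ * ‖cv B C x‖ ≤ (conj (cv B C v) * cv B C x).re + bt B C := by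
    calc ‖cv B C v‖ * ‖cv B C x‖ = ‖conj (cv B C v) * cv B C x‖ := by
          rw [norm_mul, norm_conj]
      _ ≤ |(conj (cv B C v) * cv B C x).re| + |(conj (cv B C v) * cv B C x).im| :=
          norm_le_abs_re_add_abs_im _
      _ = _ := by
          rw [abs_of_nonneg ht0, him, abs_mul, abs_of_pos hβ]
          rcases hx with h | h <;> rw [h] <;> norm_num
  have habs : |(conj (cv B C v) * cv B C x).im| = bt B C := by
    rw [him, abs_mul, abs_of_pos hβ]
    rcases hx with h | h <;> rw [h] <;> norm_num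
  obtain ⟨n, hn⟩ : ∃ n : ℝ, n = ‖cv B C v‖ := ⟨_, rfl⟩
  obtain ⟨N, hN⟩ : ∃ N : ℝ, N = ‖cv B C x‖ := ⟨_, rfl⟩
  obtain ⟨t, ht⟩ : ∃ t : ℝ, t = (conj (cv B C v) * cv B C x).re := ⟨_, rfl⟩
  obtain ⟨y, hy⟩ : ∃ y : ℝ, y = (conj (cv B C v) * cv B C x).im := ⟨_, rfl⟩
  obtain ⟨a, ha⟩ : ∃ a : ℝ, a = (conj p * cv B C v).re := ⟨_, rfl⟩
  obtain ⟨b, hb⟩ : ∃ b : ℝ, b = (conj p * cv B C v).im := ⟨_, rfl⟩
  obtain ⟨X, hX⟩ : ∃ X : ℝ, X = (conj p * cv B C x).re := ⟨_, rfl⟩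
  obtain ⟨Y, hY⟩ : ∃ Y : ℝ, Y = (conj p * cv B C x).im := ⟨_, rfl⟩
  obtain ⟨β, hβe⟩ : ∃ β : ℝ, β = bt B C := ⟨_, rfl⟩
  rw [← hβe] at hβ hR hns hnt habs
  rw [← hn] at hf1 hf2 hvρ hvR han ht1 hnt
  rw [← hN] at hnx hnt
  rw [← ht] at ht0 ht1 hnt hf1 hf2
  rw [← hy] at habs hf1 hf2
  rw [← ha, ← hb] at hvc
  rw [← ha] at han
  rw [← ha, ← hb, ← hX] at hf1
  rw [← ha, ← hb, ← hY] at hf2
  rw [← hX, ← hY] at hnx
  have hn0 : 0 < n := by linarith
  have hs1' : 0 < s1 := by linarith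
  have ha0 : 0 ≤ a := by
    by_contra hneg
    push Not at hneg
    have := abs_nonneg b
    nlinarith
  refine ⟨?_, ?_⟩
  · rw [← hN]
    have h1 : n * N ≤ n * (n + β / n) := by
      have : n * (n + β / n) = n ^ 2 + β := by field_simp
      rw [this]; linarith
    have h2 := le_of_mul_le_mul_left h1 hn0
    calc N ≤ n + β / n := h2
      _ ≤ R0 + β / ρ := by gcongr
      _ ≤ R1 := hR
  · rw [← hX, ← hY]
    by_contra hcon
    push Not at hcon
    apply hns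
    have hby : |b * y| ≤ s0 * a * β := by
      rw [abs_mul, habs]; gcongr
    have hbt : |b * t| ≤ s0 * a * t := by
      rw [abs_mul, abs_of_nonneg ht0]; gcongr
    have hay : |a * y| = a * β := by rw [abs_mul, habs, abs_of_nonneg ha0]
    have hY1 : n ^ 2 * |Y| ≤ s0 * (a * t) + a * β := by
      calc n ^ 2 * |Y| = |n ^ 2 * Y| := by
            rw [abs_mul, abs_of_nonneg (show (0 : ℝ) ≤ n ^ 2 by positivity)]
        _ = |b * t + a * y| := by rw [hf2]
        _ ≤ |b * t| + |a * y| := abs_add_le _ _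
        _ ≤ s0 * a * t + a * β := by rw [hay]; gcongr
        _ = _ := by ring
    have hX1 : a * t - s0 * a * β ≤ n ^ 2 * X := by
      rw [hf1]
      have := (abs_le.1 hby).2
      linarith
    have hat : 0 ≤ a * t := mul_nonneg ha0 ht0
    have haβ : a * β ≤ n * β := by gcongr
    have haβ0 : 0 ≤ a * β := by positivity
    have h1 : s1 * (n ^ 2 * X) < n ^ 2 * |Y| := by
      have : 0 < n ^ 2 := by positivity
      calc s1 * (n ^ 2 * X) = n ^ 2 * (s1 * X) := by ring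
        _ < n ^ 2 * |Y| := by gcongr
    have hss : s0 * s1 ≤ 1 / 2 := by nlinarith
    have h2 : s1 * (a * t) - s0 * s1 * (a * β) < s0 * (a * t) + a * β := by
      calc s1 * (a * t) - s0 * s1 * (a * β) = s1 * (a * t - s0 * a * β) := by ring
        _ ≤ s1 * (n ^ 2 * X) := by gcongr
        _ < n ^ 2 * |Y| := h1
        _ ≤ _ := hY1
    have h3 : s0 * s1 * (a * β) ≤ 1 / 2 * (a * β) := by gcongr
    have h4 : s0 * (a * t) ≤ s1 / 2 * (a * t) := by
      apply mul_le_mul_of_nonneg_right _ hat; linarith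
    have h5 : s1 * (a * t) < 3 * (n * β) := by nlinarith
    have h6 : n ^ 2 * |Y| ≤ 5 / 2 * (n * β) := by nlinarith
    have h7 : n * |Y| ≤ 5 / 2 * β := by
      have : n * (n * |Y|) ≤ n * (5 / 2 * β) := by nlinarith
      exact le_of_mul_le_mul_left this hn0
    have hYb : |Y| ≤ 3 * β / ρ := by
      rw [le_div_iff₀ hρ]
      have : ρ * |Y| ≤ n * |Y| := by gcongr
      linarith
    have h8 : s1 * (n ^ 2 * |X|) ≤ 7 / 2 * (n * β) := by
      have e : n ^ 2 * |X| = |n ^ 2 * X| := by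
        rw [abs_mul, abs_of_nonneg (show (0 : ℝ) ≤ n ^ 2 by positivity)]
      have e2 : n ^ 2 * |X| ≤ a * t + s0 * a * β := by
        rw [e, hf1]
        calc |a * t - b * y| ≤ |a * t| + |b * y| := abs_sub _ _
          _ ≤ a * t + s0 * a * β := by rw [abs_of_nonneg hat]; gcongr
      calc s1 * (n ^ 2 * |X|) ≤ s1 * (a * t + s0 * a * β) := by gcongr
        _ = s1 * (a * t) + s0 * s1 * (a * β) := by ring
        _ ≤ _ := by nlinarith
    have h9 : s1 * (n * |X|) ≤ 7 / 2 * β := by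
      have : n * (s1 * (n * |X|)) ≤ n * (7 / 2 * β) := by nlinarith
      exact le_of_mul_le_mul_left this hn0
    have hXb : |X| ≤ 7 / 2 * β / (s1 * ρ) := by
      rw [le_div_iff₀ (by positivity)]
      have : ρ * |X| ≤ n * |X| := by gcongr
      have h10 : s1 * (ρ * |X|) ≤ s1 * (n * |X|) := by gcongr
      linarith
    refine ⟨x, ne_zero_of_dt hx, ?_, ?_⟩
    · rw [← hN]
      calc N ≤ |X| + |Y| := hnx
        _ ≤ 7 / 2 * β / (s1 * ρ) + 3 * β / ρ := by gcongr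
        _ ≤ 7 / 2 * β / (s1 * ρ) + 3 * β / (s1 * ρ) := by
            gcongr
            exact mul_le_of_le_one_left hρ.le hs1
        _ ≤ 8 * β / (s1 * ρ) := by
            rw [← add_div]; gcongr; linarith
    · rw [← hY]; exact hYb

theorem exists_parents (hD : B ^ 2 < 4 * C) {p : ℂ} (hp : ‖p‖ = 1) {s0 s1 ρ R0 R1 : ℝ}
    (hs0 : 0 < s0) (h01 : 2 * s0 ≤ s1) (hs1 : s1 ≤ 1) (hρ : 0 < ρ) {v : ℤ × ℤ}
    (hv : v ∈ NearSet B C p s0 R0) (hvρ : ρ ≤ ‖cv B C v‖) (hvc : IsCoprime v.1 v.2)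
    (hR : R0 + bt B C / ρ ≤ R1)
    (hns : ¬ Short B C p (8 * bt B C / (s1 * ρ)) (3 * bt B C / ρ)) :
    ∃ x ∈ NearSet B C p s1 R1, ∃ y ∈ NearSet B C p s1 R1,
      dt x v = 1 ∧ dt v y = 1 ∧ dt x y = 1 := by
  obtain ⟨w, hw⟩ := exists_partner hvc
  have hn0 : 0 < ‖cv B C v‖ := by linarith
  have hn2 : 0 < ‖cv B C v‖ ^ 2 := by positivity
  obtain ⟨t0, ht0⟩ : ∃ t0 : ℝ, t0 = (conj (cv B C v) * cv B C (-w)).re := ⟨_, rfl⟩
  obtain ⟨j, hj⟩ : ∃ j : ℤ, j = -⌊t0 / ‖cv B C v‖ ^ 2⌋ := ⟨_, rfl⟩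
  obtain ⟨x, hx⟩ : ∃ x : ℤ × ℤ, x = -w + j • v := ⟨_, rfl⟩
  obtain ⟨y, hy⟩ : ∃ y : ℤ × ℤ, y = v + (-1 : ℤ) • x := ⟨_, rfl⟩
  have hself : (conj (cv B C v) * cv B C v).re = ‖cv B C v‖ ^ 2 := by
    rw [← normSq_eq_norm_sq, mul_comm, mul_conj, ofReal_re]
  have hdw : dt v (-w) = -1 := by
    have : dt v (-w) = - dt v w := by simp only [dt, Prod.fst_neg, Prod.snd_neg]; ring
    rw [this, hw]
  have hvx : dt v x = -1 := by
    rw [hx, dt_add_smul_right, dt_self, hdw]; ring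
  have hxv : dt x v = 1 := by rw [dt_swap, hvx]; norm_num
  have hvy : dt v y = 1 := by rw [hy, dt_add_smul_right, dt_self, hvx]; norm_num
  have hxy : dt x y = 1 := by rw [hy, dt_add_smul_right, dt_self, hxv]; norm_num
  have htx : (conj (cv B C v) * cv B C x).re = t0 + j * ‖cv B C v‖ ^ 2 := by
    rw [hx, cv_add, cv_smul, mul_add, add_re, ← ht0]
    have : conj (cv B C v) * ((j : ℂ) * cv B C v) = (j : ℂ) * (conj (cv B C v) * cv B C v) := by
      ring
    rw [this]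
    have e : ((j : ℂ) * (conj (cv B C v) * cv B C v)).re
        = j * (conj (cv B C v) * cv B C v).re := by simp
    rw [e, hself]
  have hty : (conj (cv B C v) * cv B C y).re
      = ‖cv B C v‖ ^ 2 - (conj (cv B C v) * cv B C x).re := by
    rw [hy, cv_add, cv_smul, mul_add, add_re, hself]
    have : conj (cv B C v) * (((-1 : ℤ) : ℂ) * cv B C x) = -(conj (cv B C v) * cv B C x) := by
      push_cast; ring
    rw [this, neg_re]; ring
  have hfl : t0 + j * ‖cv B C v‖ ^ 2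
      = Int.fract (t0 / ‖cv B C v‖ ^ 2) * ‖cv B C v‖ ^ 2 := by
    rw [hj, Int.fract]; push_cast; field_simp; ring
  have hx0 : 0 ≤ (conj (cv B C v) * cv B C x).re := by
    rw [htx, hfl]; exact mul_nonneg (Int.fract_nonneg _) hn2.le
  have hx1 : (conj (cv B C v) * cv B C x).re ≤ ‖cv B C v‖ ^ 2 := by
    rw [htx, hfl]; exact mul_le_of_le_one_left hn2.le (Int.fract_lt_one _).le
  refine ⟨x, ?_, y, ?_, hxv, hvy, hxy⟩
  · exact parent_mem hD hp hs0 h01 hs1 hρ hv hvρ (Or.inr hvx) hx0 hx1 hR hns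
  · exact parent_mem hD hp hs0 h01 hs1 hρ hv hvρ (Or.inl hvy) (by rw [hty]; linarith)
      (by rw [hty]; linarith) hR hns

theorem cone_add {p : ℂ} {s R1 R2 R : ℝ} {v w : ℤ × ℤ} (hv : v ∈ NearSet B C p s R1)
    (hw : w ∈ NearSet B C p s R2) (hR : R1 + R2 ≤ R) : v + w ∈ NearSet B C p s R := by
  refine ⟨?_, ?_⟩
  · rw [cv_add]
    exact (norm_add_le _ _).trans ((add_le_add hv.1 hw.1).trans hR)
  · rw [cv_add, mul_add, add_im, add_re, mul_add]
    exact (abs_add_le _ _).trans (add_le_add hv.2 hw.2)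

/-- a unimodular triangle in the narrow cone -/
theorem exists_triple (hD : B ^ 2 < 4 * C) {p : ℂ} (hp : ‖p‖ = 1) {s0 ρ K R : ℝ}
    (hs0 : 0 < s0) (hs1 : s0 ≤ 1) (hK : 1 ≤ K) (hρ : cB B C ≤ ρ)
    (hρK : 8 * cB B C ^ 2 * K ≤ s0 * ρ ^ 2)
    (hR : 2 * ρ + 4 * bt B C * K / (s0 * ρ) ≤ R)
    (hns : ¬ Short B C p (ρ / K) (cB B C ^ 2 / ρ)) :
    ∃ v w : ℤ × ℤ, dt v w = 1 ∧ v ∈ NearSet B C p s0 R ∧ w ∈ NearSet B C p s0 R ∧
      v + w ∈ NearSet B C p s0 R := by
  have hc := cB_ge hD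
  have hβ := bt_pos hD
  have hρ0 : 0 < ρ := by linarith
  have hK0 : 0 < K := by linarith
  obtain ⟨v0, hv00, hv0n, hv0i, hv0r⟩ := dirichlet_dir hD hp hρ
  obtain ⟨k, v, hk, hkv, hvc⟩ := exists_primitive hv00
  have hk1 : (1 : ℝ) ≤ k := by exact_mod_cast hk
  have hk0 : (0 : ℝ) < k := by linarith
  have hv0 : v ≠ 0 := by rintro rfl; simp [hkv] at hv00
  have ecv : cv B C v0 = (k : ℂ) * cv B C v := by rw [hkv, cv_smul]
  have enorm : ‖cv B C v0‖ = k * ‖cv B C v‖ := by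
    rw [ecv, norm_mul, Complex.norm_intCast, abs_of_pos hk0]
  have eim : (conj p * cv B C v0).im = k * (conj p * cv B C v).im := by
    rw [ecv]
    have : conj p * ((k : ℂ) * cv B C v) = (k : ℂ) * (conj p * cv B C v) := by ring
    rw [this]; simp
  have ere : (conj p * cv B C v0).re = k * (conj p * cv B C v).re := by
    rw [ecv]
    have : conj p * ((k : ℂ) * cv B C v) = (k : ℂ) * (conj p * cv B C v) := by ring
    rw [this]; simp
  have hvn : ‖cv B C v‖ ≤ ρ := by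
    have := norm_nonneg (cv B C v)
    have h1 : ‖cv B C v‖ ≤ k * ‖cv B C v‖ := le_mul_of_one_le_left this hk1
    linarith
  have hvi : |(conj p * cv B C v).im| ≤ cB B C ^ 2 / ρ := by
    rw [eim, abs_mul, abs_of_pos hk0] at hv0i
    have := abs_nonneg (conj p * cv B C v).im
    have h1 : |(conj p * cv B C v).im| ≤ k * |(conj p * cv B C v).im| :=
      le_mul_of_one_le_left this hk1
    linarith
  have hvr : 0 ≤ (conj p * cv B C v).re := by
    rw [ere] at hv0r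
    by_contra hneg
    push Not at hneg
    have := mul_neg_of_pos_of_neg hk0 hneg
    linarith
  have hvlow : ρ / K < ‖cv B C v‖ := by
    by_contra hcon
    push Not at hcon
    exact hns ⟨v, hv0, hcon, hvi⟩
  obtain ⟨w0, hw0⟩ := exists_partner hvc
  obtain ⟨n, hn⟩ : ∃ n : ℝ, n = ‖cv B C v‖ := ⟨_, rfl⟩
  have hn0 : 0 < n := by rw [hn]; exact lt_trans (by positivity) hvlow
  obtain ⟨T, hT⟩ : ∃ T : ℝ, T = 3 * bt B C / s0 := ⟨_, rfl⟩
  have hT0 : 0 < T := by rw [hT]; positivity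
  obtain ⟨t0, ht0⟩ : ∃ t0 : ℝ, t0 = (conj (cv B C v) * cv B C w0).re := ⟨_, rfl⟩
  obtain ⟨j, hj⟩ : ∃ j : ℤ, j = ⌈(T - t0) / n ^ 2⌉ := ⟨_, rfl⟩
  obtain ⟨w, hw⟩ : ∃ w : ℤ × ℤ, w = w0 + j • v := ⟨_, rfl⟩
  have hvw : dt v w = 1 := by rw [hw, dt_add_smul_right, dt_self, hw0]; ring
  have hself : (conj (cv B C v) * cv B C v).re = n ^ 2 := by
    rw [hn, ← normSq_eq_norm_sq, mul_comm, mul_conj, ofReal_re]
  obtain ⟨t, ht⟩ : ∃ t : ℝ, t = (conj (cv B C v) * cv B C w).re := ⟨_, rfl⟩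
  have htw : t = t0 + j * n ^ 2 := by
    rw [ht, hw, cv_add, cv_smul, mul_add, add_re, ← ht0]
    have : conj (cv B C v) * ((j : ℂ) * cv B C v) = (j : ℂ) * (conj (cv B C v) * cv B C v) := by
      ring
    rw [this]
    have e : ((j : ℂ) * (conj (cv B C v) * cv B C v)).re
        = j * (conj (cv B C v) * cv B C v).re := by simp
    rw [e, hself]
  have hn2 : 0 < n ^ 2 := by positivity
  have htT : T ≤ t := by
    have h1 := Int.le_ceil ((T - t0) / n ^ 2)
    rw [← hj, div_le_iff₀ hn2] at h1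
    linarith
  have htT2 : t ≤ T + n ^ 2 := by
    have h1 := Int.ceil_lt_add_one ((T - t0) / n ^ 2)
    rw [← hj] at h1
    have h2 : ((j : ℝ) - 1) * n ^ 2 < T - t0 := by
      rw [← lt_div_iff₀ hn2]; linarith
    linarith
  have him : (conj (cv B C v) * cv B C w).im = bt B C := by
    rw [im_conj_mul hD, hvw]; simp
  obtain ⟨hf1, hf2⟩ := frame p (cv B C v) (cv B C w)
  have hnt : n * ‖cv B C w‖ ≤ t + bt B C := by
    calc n * ‖cv B C w‖ = ‖conj (cv B C v) * cv B C w‖ := by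
          rw [norm_mul, norm_conj, hn]
      _ ≤ |(conj (cv B C v) * cv B C w).re| + |(conj (cv B C v) * cv B C w).im| :=
          norm_le_abs_re_add_abs_im _
      _ = _ := by rw [← ht, abs_of_nonneg (by linarith), him, abs_of_pos hβ]
  have han := norm_le_re_im hp (cv B C v)
  rw [abs_of_nonneg hvr] at han
  obtain ⟨a, ha⟩ : ∃ a : ℝ, a = (conj p * cv B C v).re := ⟨_, rfl⟩
  obtain ⟨b, hb⟩ : ∃ b : ℝ, b = (conj p * cv B C v).im := ⟨_, rfl⟩
  obtain ⟨β, hβe⟩ : ∃ β : ℝ, β = bt B C := ⟨_, rfl⟩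
  obtain ⟨c, hce⟩ : ∃ c : ℝ, c = cB B C := ⟨_, rfl⟩
  rw [← ha, ← hb, ← hn] at han
  rw [← hb, ← hce] at hvi
  rw [← ha] at hvr
  rw [← hn] at hvlow hvn
  rw [← ha, ← hb, ← hn, ← ht, him, ← hβe] at hf1 hf2
  rw [← hβe] at hβ hR hnt hT
  rw [← hce] at hρ hρK hc
  have hbn : |b| ≤ s0 / 8 * n := by
    have h1 : c ^ 2 / ρ ≤ s0 / 8 * (ρ / K) := by
      rw [div_le_iff₀ hρ0]
      have : s0 / 8 * (ρ / K) * ρ = s0 * ρ ^ 2 / (8 * K) := by field_simp
      rw [this, le_div_iff₀ (by positivity)]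
      linarith
    calc |b| ≤ c ^ 2 / ρ := hvi
      _ ≤ s0 / 8 * (ρ / K) := h1
      _ ≤ s0 / 8 * n := by gcongr
  have han2 : n ≤ 2 * a := by nlinarith
  have hba : |b| ≤ s0 / 4 * a := by
    calc |b| ≤ s0 / 8 * n := hbn
      _ ≤ s0 / 8 * (2 * a) := by gcongr
      _ = _ := by ring
  have ha0 : 0 < a := by linarith
  have hvmem : v ∈ NearSet B C p s0 ρ := by
    refine ⟨by rw [← hn]; exact hvn, ?_⟩
    rw [← ha, ← hb]
    calc |b| ≤ s0 / 4 * a := hba
      _ ≤ s0 * a := by gcongr; linarith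
  have hwmem : w ∈ NearSet B C p s0 (ρ + 4 * β * K / (s0 * ρ)) := by
    refine ⟨?_, ?_⟩
    · have h1 : n * ‖cv B C w‖ ≤ n * (n + (T + β) / n) := by
        have : n * (n + (T + β) / n) = n ^ 2 + (T + β) := by field_simp
        rw [this]; linarith
      have h2 := le_of_mul_le_mul_left h1 hn0
      have h3 : (T + β) / n ≤ 4 * β * K / (s0 * ρ) := by
        have h4 : T + β ≤ 4 * β / s0 := by
          rw [hT]
          have : β ≤ β / s0 := by
            rw [le_div_iff₀ hs0]; exact mul_le_of_le_one_right hβ.le hs1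
          calc 3 * β / s0 + β ≤ 3 * β / s0 + β / s0 := by gcongr
            _ = _ := by ring
        calc (T + β) / n ≤ (4 * β / s0) / (ρ / K) := by gcongr
          _ = _ := by field_simp
      linarith
    · obtain ⟨X, hX⟩ : ∃ X : ℝ, X = (conj p * cv B C w).re := ⟨_, rfl⟩
      obtain ⟨Y, hY⟩ : ∃ Y : ℝ, Y = (conj p * cv B C w).im := ⟨_, rfl⟩
      rw [← hX, ← hY]
      rw [← hX] at hf1
      rw [← hY] at hf2
      have ht0' : 0 < t := by linarith
      have h1 : n ^ 2 * |Y| ≤ s0 / 4 * (a * t) + a * β := by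
        calc n ^ 2 * |Y| = |n ^ 2 * Y| := by rw [abs_mul, abs_of_pos hn2]
          _ = |b * t + a * β| := by rw [hf2]
          _ ≤ |b * t| + |a * β| := abs_add_le _ _
          _ = |b| * t + a * β := by
              rw [abs_mul, abs_mul, abs_of_pos ht0', abs_of_pos ha0, abs_of_pos hβ]
          _ ≤ s0 / 4 * a * t + a * β := by gcongr
          _ = _ := by ring
      have h2 : a * t - s0 / 4 * (a * β) ≤ n ^ 2 * X := by
        rw [hf1]
        have : b * β ≤ s0 / 4 * a * β := by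
          gcongr; exact (le_abs_self b).trans hba
        linarith
      have h3 : 3 * β ≤ s0 * t := by
        have : T * s0 = 3 * β := by rw [hT]; field_simp
        nlinarith
      have h4 : a * (3 * β) ≤ a * (s0 * t) := by gcongr
      have haβ : 0 < a * β := by positivity
      have h5 : n ^ 2 * |Y| ≤ n ^ 2 * (s0 * X) := by
        have h6 : s0 * (a * t - s0 / 4 * (a * β)) ≤ s0 * (n ^ 2 * X) := by gcongr
        have h7 : s0 * s0 * (a * β) ≤ 1 * (a * β) := by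
          gcongr; nlinarith
        nlinarith
      exact le_of_mul_le_mul_left h5 hn2
  refine ⟨v, w, hvw, ?_, ?_, ?_⟩
  · refine ⟨hvmem.1.trans ?_, hvmem.2⟩
    have : 0 < 4 * β * K / (s0 * ρ) := by positivity
    linarith
  · refine ⟨hwmem.1.trans ?_, hwmem.2⟩
    linarith
  · exact cone_add hvmem hwmem (by linarith)

/-- measure of the directions close to short vectors -/
theorem volume_short (hD : B ^ 2 < 4 * C) {q : ℂ} (hq : ‖q‖ = 1) {V μ : ℝ} (hV : 0 ≤ V)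
    (hμ : 0 ≤ μ) :
    volume {θ : ℝ | θ ∈ Set.Icc 0 (2 * Real.pi) ∧ Short B C (exp (θ * I) * q) V μ} ≤
      ENNReal.ofReal (40 * Real.pi * mB B C ^ 2 * (V * μ)) := by
  have hπ := Real.pi_pos
  have hsub : {θ : ℝ | θ ∈ Set.Icc 0 (2 * Real.pi) ∧ Short B C (exp (θ * I) * q) V μ} ⊆
      ⋃ v ∈ ballF B C V, {θ : ℝ | θ ∈ Set.Icc 0 (2 * Real.pi) ∧
        |(conj (exp (θ * I)) * (conj q * cv B C v)).im| ≤
          (μ / ‖cv B C v‖) * ‖conj q * cv B C v‖} := by
    intro θ hθ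
    obtain ⟨hθ1, v, hv0, hvV, hvi⟩ := hθ
    simp only [Set.mem_iUnion]
    refine ⟨v, mem_ballF hD hv0 hvV, hθ1, ?_⟩
    have h1 := one_le_norm_cv hD hv0
    rw [norm_mul, norm_conj, hq, one_mul]
    have e : conj (exp (θ * I)) * (conj q * cv B C v) = conj (exp (θ * I) * q) * cv B C v := by
      rw [map_mul]; ring
    rw [e]
    have : ‖cv B C v‖ ≠ 0 := by positivity
    rw [div_mul_cancel₀ _ this]; exact hvi
  calc volume {θ : ℝ | θ ∈ Set.Icc 0 (2 * Real.pi) ∧ Short B C (exp (θ * I) * q) V μ}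
      ≤ volume (⋃ v ∈ ballF B C V, {θ : ℝ | θ ∈ Set.Icc 0 (2 * Real.pi) ∧
        |(conj (exp (θ * I)) * (conj q * cv B C v)).im| ≤
          (μ / ‖cv B C v‖) * ‖conj q * cv B C v‖}) := measure_mono hsub
    _ ≤ ∑ v ∈ ballF B C V, volume {θ : ℝ | θ ∈ Set.Icc 0 (2 * Real.pi) ∧
        |(conj (exp (θ * I)) * (conj q * cv B C v)).im| ≤
          (μ / ‖cv B C v‖) * ‖conj q * cv B C v‖} := measure_biUnion_finset_le _ _
    _ ≤ ∑ v ∈ ballF B C V, ENNReal.ofReal (5 * Real.pi * (μ / ‖cv B C v‖)) := by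
        apply Finset.sum_le_sum
        intro v hv
        apply volume_close
        · intro h0
          have h1 := one_le_norm_cv hD (ne_zero_of_mem_ballF hv)
          have h2 : ‖conj q * cv B C v‖ = ‖cv B C v‖ := by
            rw [norm_mul, norm_conj, hq, one_mul]
          rw [h0, norm_zero] at h2
          linarith
        · positivity
    _ = ENNReal.ofReal (∑ v ∈ ballF B C V, 5 * Real.pi * (μ / ‖cv B C v‖)) := by
        rw [ENNReal.ofReal_sum_of_nonneg]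
        intro v _; positivity
    _ ≤ ENNReal.ofReal (40 * Real.pi * mB B C ^ 2 * (V * μ)) := by
        apply ENNReal.ofReal_le_ofReal
        have e : ∑ v ∈ ballF B C V, 5 * Real.pi * (μ / ‖cv B C v‖)
            = 5 * Real.pi * μ * ∑ v ∈ ballF B C V, 1 / ‖cv B C v‖ := by
          rw [Finset.mul_sum]; apply Finset.sum_congr rfl; intro v _; ring
        rw [e]
        calc 5 * Real.pi * μ * ∑ v ∈ ballF B C V, 1 / ‖cv B C v‖
            ≤ 5 * Real.pi * μ * (8 * mB B C ^ 2 * V) := by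
              gcongr; exact sum_ballF hD hV
          _ = _ := by ring

end Pool.Agent.FareyParity
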