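import Mathlib
import Pool.Agent.FareyParity.Mod3Geom

set_option autoImplicit false

/-!
# Many edges with prescribed colour sum mod 3
-/

namespace Pool.Agent.FareyParity

open Complex ComplexConjugate MeasureTheory

variable {B C : ℤ}

/-- the type of a direction -/
theorem exists_type (hD : B ^ 2 < 4 * C) {g : ℕ → ZMod 3} (hg : IsAdd3 g) {r : ZMod 3}
    {p : ℂ} (hp : ‖p‖ = 1) {s0 s1 ρ ρ' K Rt R0 R1 : ℝ}
    (hs0 : 0 < s0) (h01 : 2 * s0 ≤ s1) (hs1 : s1 ≤ 1) (hρ : 0 < ρ) (hK : 1 ≤ K)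
    (hρ' : cB B C ≤ ρ') (hρK : 8 * cB B C ^ 2 * K ≤ s0 * ρ' ^ 2)
    (hRt : 2 * ρ' + 4 * bt B C * K / (s0 * ρ') ≤ Rt) (hRt0 : Rt ≤ R0)
    (hR1 : R0 + bt B C / ρ ≤ R1)
    (hn1 : ¬ Short B C p ρ (s0 * ρ))
    (hn2 : ¬ Short B C p (8 * bt B C / (s1 * ρ)) (3 * bt B C / ρ))
    (hn3 : ¬ Short B C p (ρ' / K) (cB B C ^ 2 / ρ'))
    (hno : ∀ z ∈ NearSet B C p s1 R1, ∀ w ∈ NearSet B C p s1 R1, dt z w = 1 →
      g (nf B C (ip B C z w, 1)).natAbs ≠ r)
    {u : ℤ × ℤ} {q : ℕ} (hq : q.Prime) (hu : nf B C u = q) :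
    ∃ t : ZMod 3, t ≠ 0 ∧
      (∃ z ∈ NearSet B C p s0 Rt, IsCoprime z.1 z.2 ∧ dcol g B C r z = t ∧
        ¬ Dv2 q (mulv B C u z)) ∧
      ∀ y ∈ NearSet B C p s0 R0, IsCoprime y.1 y.2 → dcol g B C r y = 0 ∨ dcol g B C r y = t := by
  have hβ := bt_pos hD
  have hc := cB_ge hD
  have hρ'0 : 0 < ρ' := by linarith
  have hK0 : 0 < K := by linarith
  have hRt1 : 0 ≤ Rt := by
    have : 0 < 2 * ρ' + 4 * bt B C * K / (s0 * ρ') := by positivity
    linarith
  have hR00 : 0 ≤ R0 := by linarith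
  have hR01 : R0 ≤ R1 := by
    have : 0 < bt B C / ρ := by positivity
    linarith
  have hR10 : 0 ≤ R1 := by linarith
  have hsub : NearSet B C p s0 R0 ⊆ NearSet B C p s1 R1 := by
    intro v hv
    refine ⟨hv.1.trans hR01, hv.2.trans ?_⟩
    have : 0 ≤ (conj p * cv B C v).re := by
      by_contra hneg
      push Not at hneg
      have h1 := abs_nonneg (conj p * cv B C v).im
      have h2 := hv.2
      nlinarith
    gcongr; linarith
  have hno' : ∀ z ∈ NearSet B C p s1 R1, ∀ w ∈ NearSet B C p s1 R1, dt z w = 1 →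
      dcol g B C r z + dcol g B C r w ≠ 0 := by
    intro z hz w hw hzw h0
    apply hno z hz w hw hzw
    have hz0 : z ≠ 0 := by rintro rfl; simp [dt] at hzw
    have hw0 : w ≠ 0 := by rintro rfl; simp [dt] at hzw
    rw [dcol_edge hD hg hz0 hw0 hzw, h0, zero_add]
  have hlong : ∀ v ∈ NearSet B C p s0 R0, v ≠ 0 → ρ ≤ ‖cv B C v‖ := by
    intro v hv hv0
    by_contra hcon
    push Not at hcon
    apply hn1
    refine ⟨v, hv0, hcon.le, ?_⟩
    calc |(conj p * cv B C v).im| ≤ s0 * (conj p * cv B C v).re := hv.2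
      _ ≤ s0 * ρ := by
          gcongr; exact (re_le_norm' hp _).trans hcon.le
  have hpar : ∀ v ∈ NearSet B C p s0 R0, IsCoprime v.1 v.2 → ∃ x ∈ NearSet B C p s1 R1,
      ∃ y ∈ NearSet B C p s1 R1, dt x v = 1 ∧ dt v y = 1 ∧ dt x y = 1 := by
    intro v hv hvc
    have hv0 : v ≠ 0 := by
      rintro rfl
      obtain ⟨a, b, hab⟩ := hvc
      simp at hab
    exact exists_parents hD hp hs0 h01 hs1 hρ hv (hlong v hv hv0) hvc hR1 hn2
  have hs0' : s0 ≤ 1 := by linarith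
  obtain ⟨v, w, hvw, hv, hw, hvw'⟩ := exists_triple hD hp hs0 hs0' hK hρ' hρK hRt hn3
  have hsubt : NearSet B C p s0 Rt ⊆ NearSet B C p s0 R0 := nearSet_mono hRt0
  have h1 : dt v (v + w) = 1 := by
    have : dt v (v + w) = dt v w := by simp only [dt, Prod.fst_add, Prod.snd_add]; ring
    rw [this, hvw]
  have h2 : dt (v + w) w = 1 := by
    have : dt (v + w) w = dt v w := by simp only [dt, Prod.fst_add, Prod.snd_add]; ring
    rw [this, hvw]
  have e1 := hno' v (hsub (hsubt hv)) w (hsub (hsubt hw)) hvw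
  have e2 := hno' v (hsub (hsubt hv)) (v + w) (hsub (hsubt hvw')) h1
  have e3 := hno' (v + w) (hsub (hsubt hvw')) w (hsub (hsubt hw)) h2
  obtain ⟨t, ht, z, hz, w', hw', hzw, hdz, hdw⟩ : ∃ t : ZMod 3, t ≠ 0 ∧
      ∃ z ∈ NearSet B C p s0 Rt, ∃ w' ∈ NearSet B C p s0 Rt, dt z w' = 1 ∧
        dcol g B C r z = t ∧ dcol g B C r w' = t := by
    by_cases ha : dcol g B C r v = 0
    · rw [ha, zero_add] at e1 e2
      exact ⟨_, e1, v + w, hvw', w, hw, h2, zmod3_eq _ _ e2 e1 e3, rfl⟩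
    · by_cases hb : dcol g B C r w = 0
      · rw [hb, add_zero] at e3
        exact ⟨_, ha, v, hv, v + w, hvw', h1, rfl, (zmod3_eq _ _ ha e3 e2).symm⟩
      · exact ⟨_, ha, v, hv, w, hw, hvw, rfl, (zmod3_eq _ _ ha hb e1).symm⟩
  obtain ⟨z', hz', hz'c, hz't, hz'n⟩ : ∃ z ∈ NearSet B C p s0 Rt, IsCoprime z.1 z.2 ∧
      dcol g B C r z = t ∧ ¬ Dv2 q (mulv B C u z) := by
    rcases ndvd_or (B := B) (C := C) hq hu hzw with h | h
    · exact ⟨z, hz, coprime_of_dt' hzw, hdz, h⟩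
    · exact ⟨w', hw', coprime_of_dt hzw, hdw, h⟩
  refine ⟨t, ht, ⟨z', hz', hz'c, hz't, hz'n⟩, ?_⟩
  intro y hy hyc
  by_cases hy0 : dcol g B C r y = 0
  · exact Or.inl hy0
  · right
    rw [← hz't]
    exact type_eq (triClosed_nearSet p hR00) hsub (nearSet_seg p hR10) hno' (dcol_neg g r) hpar hy
      (hsubt hz') hyc hz'c hy0 (by rw [hz't]; exact ht)

/-- one of five rotated directions is exceptional or has an edge of sum `r` -/
theorem exists_rot (hD : B ^ 2 < 4 * C) {g : ℕ → ZMod 3} (hg : IsAdd3 g) {r : ZMod 3}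
    {s0 s1 ρ ρ' K Rt R0 R1 A : ℝ}
    (hs0 : 0 < s0) (h01 : 2 * s0 ≤ s1) (hs1 : s1 ≤ 1) (hρ : 0 < ρ) (hK : 1 ≤ K)
    (hρ' : cB B C ≤ ρ') (hρK : 8 * cB B C ^ 2 * K ≤ s0 * ρ' ^ 2)
    (hRt : 2 * ρ' + 4 * bt B C * K / (s0 * ρ') ≤ Rt) (hRt0 : A ^ 2 * Rt ≤ R0)
    (hR1 : R0 + bt B C / ρ ≤ R1)
    {u : ℤ × ℤ} {q : ℕ} (hq : q.Prime) (hu : nf B C u = q) (huA : ‖cv B C u‖ ≤ A)
    (htr : ¬ (q : ℤ) ∣ 2 * u.1 + B * u.2) (hgq : g q ≠ 0)
    {p : ℂ} (hp : ‖p‖ = 1) :
    ∃ j : ℕ, j < 5 ∧ (Short B C (p * un B C u ^ j) ρ (s0 * ρ) ∨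
      Short B C (p * un B C u ^ j) (8 * bt B C / (s1 * ρ)) (3 * bt B C / ρ) ∨
      Short B C (p * un B C u ^ j) (ρ' / K) (cB B C ^ 2 / ρ') ∨
      ∃ z ∈ NearSet B C (p * un B C u ^ j) s1 R1, ∃ w ∈ NearSet B C (p * un B C u ^ j) s1 R1,
        dt z w = 1 ∧ g (nf B C (ip B C z w, 1)).natAbs = r) := by
  by_contra hcon
  push Not at hcon
  have hu0 : u ≠ 0 := by
    rintro rfl
    have : nf B C 0 = 0 := by simp [nf]
    rw [this] at hu
    exact hq.ne_zero (by exact_mod_cast hu.symm)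
  have hun := norm_un (B := B) (C := C) hD hu0
  have hpj : ∀ j : ℕ, ‖p * un B C u ^ j‖ = 1 := by
    intro j; rw [norm_mul, norm_pow, hun, hp]; simp
  have hA1 : 1 ≤ A := (one_le_norm_cv hD hu0).trans huA
  have hβ := bt_pos hD
  have hc := cB_ge hD
  have hρ'0 : 0 < ρ' := by linarith
  have hK0 : 0 < K := by linarith
  have hRt1 : 0 ≤ Rt := by
    have : 0 < 2 * ρ' + 4 * bt B C * K / (s0 * ρ') := by positivity
    linarith
  have hA2 : 1 ≤ A ^ 2 := one_le_pow₀ hA1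
  have hRt2 : Rt ≤ R0 := (le_mul_of_one_le_left hRt1 hA2).trans hRt0
  have hex : ∀ j : ℕ, ∃ t : ZMod 3, j < 5 → (t ≠ 0 ∧
      (∃ z ∈ NearSet B C (p * un B C u ^ j) s0 Rt, IsCoprime z.1 z.2 ∧ dcol g B C r z = t ∧
        ¬ Dv2 q (mulv B C u z)) ∧
      ∀ y ∈ NearSet B C (p * un B C u ^ j) s0 R0, IsCoprime y.1 y.2 →
        dcol g B C r y = 0 ∨ dcol g B C r y = t) := by
    intro j
    by_cases hj : j < 5
    · obtain ⟨c1, c2, c3, c4⟩ := hcon j hj
      obtain ⟨t, ht⟩ := exists_type hD hg (r := r) (hpj j) hs0 h01 hs1 hρ hK hρ' hρK hRt hRt2 hR1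
        c1 c2 c3 c4 hq hu
      exact ⟨t, fun _ => ht⟩
    · exact ⟨0, fun h => absurd h hj⟩
  choose t ht using hex
  have hτ : g (nf B C u).natAbs = g q := by rw [hu]; simp
  apply five_types hgq t (fun i hi => (ht i hi).1)
  · intro i hi
    obtain ⟨-, ⟨z, hz, hzc, hzt, hzn⟩, -⟩ := ht i (by omega)
    obtain ⟨-, -, hall⟩ := ht (i + 1) (by omega)
    have hz0 : z ≠ 0 := by
      rintro rfl
      obtain ⟨a, b, hab⟩ := hzc
      simp at hab
    have hmem : mulv B C u z ∈ NearSet B C (p * un B C u ^ (i + 1)) s0 R0 := by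
      rw [pow_succ, ← mul_assoc]
      apply mulv_mem_nearSet hD hu0 huA _ hz
      calc A * Rt ≤ A ^ 2 * Rt := by
            gcongr; nlinarith
        _ ≤ R0 := hRt0
    have h1 := hall _ hmem (coprime_mulv hq hu hzc hzn)
    rw [dcol_mulv hD hg hu0 hz0, hzt, hτ] at h1
    exact h1
  · intro i hi
    obtain ⟨-, ⟨z, hz, hzc, hzt, hzn⟩, -⟩ := ht i (by omega)
    obtain ⟨-, -, hall⟩ := ht (i + 2) (by omega)
    have hz0 : z ≠ 0 := by
      rintro rfl
      obtain ⟨a, b, hab⟩ := hzc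
      simp at hab
    have hyc := coprime_mulv hq hu hzc hzn
    have hy0 : mulv B C u z ≠ 0 := by
      intro h0
      rw [h0] at hyc
      obtain ⟨a, b, hab⟩ := hyc
      simp at hab
    have hmem : mulv B C u (mulv B C u z) ∈ NearSet B C (p * un B C u ^ (i + 2)) s0 R0 := by
      have h1 : mulv B C u z ∈ NearSet B C (p * un B C u ^ i * un B C u) s0 (A * Rt) :=
        mulv_mem_nearSet hD hu0 huA le_rfl hz
      have e : p * un B C u ^ (i + 2) = p * un B C u ^ i * un B C u * un B C u := by ring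
      rw [e]
      apply mulv_mem_nearSet hD hu0 huA _ h1
      calc A * (A * Rt) = A ^ 2 * Rt := by ring
        _ ≤ R0 := hRt0
    have h1 := hall _ hmem (coprime_mulv hq hu hyc (ndvd_mulv hq hu htr hzn))
    rw [dcol_mulv hD hg hu0 hy0, dcol_mulv hD hg hu0 hz0, hzt, hτ] at h1
    rcases h1 with h1 | h1
    · left; linear_combination h1
    · right; linear_combination h1

/-- first members of unimodular pairs of norm `≤ R` with `g (F n) = r` -/
noncomputable def edgeF (g : ℕ → ZMod 3) (B C : ℤ) (R : ℝ) (r : ZMod 3) : Finset (ℤ × ℤ) := by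
  classical
  exact (ballF B C R).filter (fun z => ‖cv B C z‖ ≤ R ∧
    ∃ w : ℤ × ℤ, ‖cv B C w‖ ≤ R ∧ dt z w = 1 ∧ g (nf B C (ip B C z w, 1)).natAbs = r)

theorem many_edges (hD : B ^ 2 < 4 * C) {g : ℕ → ZMod 3} (hg : IsAdd3 g) {r : ZMod 3}
    {s0 s1 ρ ρ' K Rt R0 R1 A : ℝ}
    (hs0 : 0 < s0) (h01 : 2 * s0 ≤ s1) (hs1 : s1 ≤ 1) (hρ : 0 < ρ) (hK : 1 ≤ K)
    (hρ' : cB B C ≤ ρ') (hρK : 8 * cB B C ^ 2 * K ≤ s0 * ρ' ^ 2)
    (hRt : 2 * ρ' + 4 * bt B C * K / (s0 * ρ') ≤ Rt) (hRt0 : A ^ 2 * Rt ≤ R0)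
    (hR1 : R0 + bt B C / ρ ≤ R1)
    {u : ℤ × ℤ} {q : ℕ} (hq : q.Prime) (hu : nf B C u = q) (huA : ‖cv B C u‖ ≤ A)
    (htr : ¬ (q : ℤ) ∣ 2 * u.1 + B * u.2) (hgq : g q ≠ 0)
    (hm1 : 600 * mB B C ^ 2 * (ρ * (s0 * ρ)) ≤ 1)
    (hm2 : 600 * mB B C ^ 2 * (8 * bt B C / (s1 * ρ) * (3 * bt B C / ρ)) ≤ 1)
    (hm3 : 600 * mB B C ^ 2 * (ρ' / K * (cB B C ^ 2 / ρ')) ≤ 1) :
    1 ≤ 25 * s1 * (edgeF g B C R1 r).card := by
  classical
  have hu0 : u ≠ 0 := by
    rintro rfl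
    have : nf B C 0 = 0 := by simp [nf]
    rw [this] at hu
    exact hq.ne_zero (by exact_mod_cast hu.symm)
  have hun := norm_un (B := B) (C := C) hD hu0
  have hunj : ∀ j : ℕ, ‖un B C u ^ j‖ = 1 := by
    intro j; rw [norm_pow, hun]; simp
  have hβ := bt_pos hD
  have hc := cB_ge hD
  have hm := mB_ge hD
  have hρ'0 : 0 < ρ' := by linarith
  have hK0 : 0 < K := by linarith
  have hs1' : 0 < s1 := by linarith
  have hπ := Real.pi_pos
  obtain ⟨E, hE⟩ : ∃ E, E = edgeF g B C R1 r := ⟨_, rfl⟩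
  rw [← hE]
  -- the four families
  obtain ⟨S1, hS1⟩ : ∃ S1 : ℕ → Set ℝ, S1 = fun j => {θ : ℝ | θ ∈ Set.Icc 0 (2 * Real.pi) ∧
      Short B C (exp (θ * I) * un B C u ^ j) ρ (s0 * ρ)} := ⟨_, rfl⟩
  obtain ⟨S2, hS2⟩ : ∃ S2 : ℕ → Set ℝ, S2 = fun j => {θ : ℝ | θ ∈ Set.Icc 0 (2 * Real.pi) ∧
      Short B C (exp (θ * I) * un B C u ^ j) (8 * bt B C / (s1 * ρ)) (3 * bt B C / ρ)} := ⟨_, rfl⟩
  obtain ⟨S3, hS3⟩ : ∃ S3 : ℕ → Set ℝ, S3 = fun j => {θ : ℝ | θ ∈ Set.Icc 0 (2 * Real.pi) ∧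
      Short B C (exp (θ * I) * un B C u ^ j) (ρ' / K) (cB B C ^ 2 / ρ')} := ⟨_, rfl⟩
  obtain ⟨S4, hS4⟩ : ∃ S4 : ℕ → Set ℝ, S4 = fun j => ⋃ z ∈ E,
      {θ : ℝ | θ ∈ Set.Icc 0 (2 * Real.pi) ∧
        |(conj (exp (θ * I)) * (conj (un B C u ^ j) * cv B C z)).im| ≤
          s1 * ‖conj (un B C u ^ j) * cv B C z‖} := ⟨_, rfl⟩
  have v1 : ∀ j, volume (S1 j) ≤ ENNReal.ofReal (Real.pi / 15) := by
    intro j
    rw [hS1]
    refine (volume_short hD (hunj j) hρ.le (by positivity)).trans (ENNReal.ofReal_le_ofReal ?_)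
    calc 40 * Real.pi * mB B C ^ 2 * (ρ * (s0 * ρ))
        = Real.pi / 15 * (600 * mB B C ^ 2 * (ρ * (s0 * ρ))) := by ring
      _ ≤ Real.pi / 15 * 1 := by gcongr
      _ = _ := by ring
  have v2 : ∀ j, volume (S2 j) ≤ ENNReal.ofReal (Real.pi / 15) := by
    intro j
    rw [hS2]
    refine (volume_short hD (hunj j) (by positivity) (by positivity)).trans
      (ENNReal.ofReal_le_ofReal ?_)
    calc 40 * Real.pi * mB B C ^ 2 * (8 * bt B C / (s1 * ρ) * (3 * bt B C / ρ))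
        = Real.pi / 15 * (600 * mB B C ^ 2 * (8 * bt B C / (s1 * ρ) * (3 * bt B C / ρ))) := by ring
      _ ≤ Real.pi / 15 * 1 := by gcongr
      _ = _ := by ring
  have v3 : ∀ j, volume (S3 j) ≤ ENNReal.ofReal (Real.pi / 15) := by
    intro j
    rw [hS3]
    refine (volume_short hD (hunj j) (by positivity) (by positivity)).trans
      (ENNReal.ofReal_le_ofReal ?_)
    calc 40 * Real.pi * mB B C ^ 2 * (ρ' / K * (cB B C ^ 2 / ρ'))
        = Real.pi / 15 * (600 * mB B C ^ 2 * (ρ' / K * (cB B C ^ 2 / ρ'))) := by ring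
      _ ≤ Real.pi / 15 * 1 := by gcongr
      _ = _ := by ring
  have hEne : ∀ z ∈ E, z ≠ 0 := by
    intro z hz
    rw [hE, edgeF, Finset.mem_filter] at hz
    exact ne_zero_of_mem_ballF hz.1
  have v4 : ∀ j, volume (S4 j) ≤ ENNReal.ofReal (E.card * (5 * Real.pi * s1)) := by
    intro j
    rw [hS4]
    calc _ ≤ ∑ z ∈ E, volume {θ : ℝ | θ ∈ Set.Icc 0 (2 * Real.pi) ∧
        |(conj (exp (θ * I)) * (conj (un B C u ^ j) * cv B C z)).im| ≤
          s1 * ‖conj (un B C u ^ j) * cv B C z‖} := measure_biUnion_finset_le _ _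
      _ ≤ ∑ z ∈ E, ENNReal.ofReal (5 * Real.pi * s1) := by
          apply Finset.sum_le_sum
          intro z hz
          apply volume_close _ _ hs1'.le
          intro h0
          have h1 := one_le_norm_cv hD (hEne z hz)
          have h2 : ‖conj (un B C u ^ j) * cv B C z‖ = ‖cv B C z‖ := by
            rw [norm_mul, norm_conj, hunj, one_mul]
          rw [h0, norm_zero] at h2
          linarith
      _ = ENNReal.ofReal (E.card * (5 * Real.pi * s1)) := by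
          rw [Finset.sum_const, nsmul_eq_mul, ← ENNReal.ofReal_natCast,
            ← ENNReal.ofReal_mul (by positivity)]
  have hcov : Set.Icc 0 (2 * Real.pi) ⊆
      ⋃ j ∈ Finset.range 5, (((S1 j ∪ S2 j) ∪ S3 j) ∪ S4 j) := by
    intro θ hθ
    have hp : ‖exp ((θ : ℂ) * I)‖ = 1 := norm_exp_ofReal_mul_I θ
    obtain ⟨j, hj, hcase⟩ := exists_rot hD hg (r := r) hs0 h01 hs1 hρ hK hρ' hρK hRt hRt0 hR1
      hq hu huA htr hgq hp
    simp only [Set.mem_iUnion, Finset.mem_range]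
    refine ⟨j, hj, ?_⟩
    rcases hcase with h | h | h | ⟨z, hz, w, hw, hzw, hr⟩
    · left; left; left; rw [hS1]; exact ⟨hθ, h⟩
    · left; left; right; rw [hS2]; exact ⟨hθ, h⟩
    · left; right; rw [hS3]; exact ⟨hθ, h⟩
    · right
      rw [hS4]
      simp only [Set.mem_iUnion]
      have hz0 : z ≠ 0 := by rintro rfl; simp [dt] at hzw
      refine ⟨z, ?_, hθ, ?_⟩
      · rw [hE, edgeF, Finset.mem_filter]
        exact ⟨mem_ballF hD hz0 hz.1, hz.1, w, hw.1, hzw, hr⟩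
      · have e : conj (exp (θ * I)) * (conj (un B C u ^ j) * cv B C z)
            = conj (exp (θ * I) * un B C u ^ j) * cv B C z := by
          rw [map_mul]; ring
        rw [e]
        calc |(conj (exp (θ * I) * un B C u ^ j) * cv B C z).im|
            ≤ s1 * (conj (exp (θ * I) * un B C u ^ j) * cv B C z).re := hz.2
          _ ≤ s1 * ‖cv B C z‖ := by
              gcongr
              apply re_le_norm'
              rw [norm_mul, hp, hunj, one_mul]
          _ = _ := by rw [norm_mul, norm_conj, hunj, one_mul]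
  have hvol : ENNReal.ofReal (2 * Real.pi) ≤
      ENNReal.ofReal (Real.pi + 25 * Real.pi * s1 * E.card) := by
    calc ENNReal.ofReal (2 * Real.pi) = volume (Set.Icc 0 (2 * Real.pi)) := by
          rw [Real.volume_Icc, sub_zero]
      _ ≤ volume (⋃ j ∈ Finset.range 5, (((S1 j ∪ S2 j) ∪ S3 j) ∪ S4 j)) := measure_mono hcov
      _ ≤ ∑ j ∈ Finset.range 5, volume (((S1 j ∪ S2 j) ∪ S3 j) ∪ S4 j) :=
          measure_biUnion_finset_le _ _
      _ ≤ ∑ j ∈ Finset.range 5, ENNReal.ofReal (Real.pi / 5 + E.card * (5 * Real.pi * s1)) := by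
          apply Finset.sum_le_sum
          intro j _
          calc volume (((S1 j ∪ S2 j) ∪ S3 j) ∪ S4 j)
              ≤ volume (S1 j) + volume (S2 j) + volume (S3 j) + volume (S4 j) := by
                refine (measure_union_le _ _).trans ?_
                gcongr
                refine (measure_union_le _ _).trans ?_
                gcongr
                exact measure_union_le _ _
            _ ≤ ENNReal.ofReal (Real.pi / 15) + ENNReal.ofReal (Real.pi / 15)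
                + ENNReal.ofReal (Real.pi / 15) + ENNReal.ofReal (E.card * (5 * Real.pi * s1)) := by
                gcongr
                · exact v1 j
                · exact v2 j
                · exact v3 j
                · exact v4 j
            _ = ENNReal.ofReal (Real.pi / 5 + E.card * (5 * Real.pi * s1)) := by
                rw [← ENNReal.ofReal_add (by positivity) (by positivity),
                  ← ENNReal.ofReal_add (by positivity) (by positivity),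
                  ← ENNReal.ofReal_add (by positivity) (by positivity)]
                congr 1; ring
      _ = ENNReal.ofReal (Real.pi + 25 * Real.pi * s1 * E.card) := by
          rw [Finset.sum_const, Finset.card_range, nsmul_eq_mul, ← ENNReal.ofReal_natCast,
            ← ENNReal.ofReal_mul (by positivity)]
          congr 1; push_cast; ring
  have hfin := (ENNReal.ofReal_le_ofReal_iff (by positivity)).1 hvol
  have h7 : Real.pi * 1 ≤ Real.pi * (25 * s1 * E.card) := by linarith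
  exact le_of_mul_le_mul_left h7 hπ

end Pool.Agent.FareyParity
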