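import Mathlib
import Pool.Agent.FareyParity.Mod3Cover
import Pool.Agent.FareyParity.Minus
import Pool.Agent.FareyParity.GaussSum

set_option autoImplicit false

/-!
# Values of completely additive functions mod 3 at `a ^ 2 + 1`
-/

namespace Pool.Agent.FareyParity

open Complex ComplexConjugate

theorem many_edges_const {B C : ℤ} (hD : B ^ 2 < 4 * C) : ∃ K1 K5 : ℝ, 1 ≤ K1 ∧ 1 ≤ K5 ∧
    ∀ (g : ℕ → ZMod 3), IsAdd3 g → ∀ (r : ZMod 3) (u : ℤ × ℤ) (q : ℕ), q.Prime →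
      nf B C u = q → ¬ (q : ℤ) ∣ 2 * u.1 + B * u.2 → g q ≠ 0 →
      ∀ ρ : ℝ, 1 ≤ ρ → K1 ≤ ρ ^ 2 → ρ ^ 2 ≤ 25 * K1 * (edgeF g B C (q * K5 * ρ) r).card := by
  have hc := cB_ge hD
  have hm := mB_ge hD
  have hβ := bt_pos hD
  have hβc : bt B C ≤ cB B C := by
    unfold cB
    have := abs_nonneg (B : ℝ)
    linarith
  obtain ⟨c, hce⟩ : ∃ c, c = cB B C := ⟨_, rfl⟩
  obtain ⟨m, hme⟩ : ∃ m, m = mB B C := ⟨_, rfl⟩
  obtain ⟨β, hβe⟩ : ∃ β, β = bt B C := ⟨_, rfl⟩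
  rw [← hce] at hc hβc
  rw [← hme] at hm
  rw [← hβe] at hβ hβc
  have hc0 : 0 < c := by linarith
  have hm0 : 0 < m := by linarith
  have hm2 : 1 ≤ m ^ 2 := one_le_pow₀ hm
  have hc2 : 1 ≤ c ^ 2 := one_le_pow₀ hc
  obtain ⟨κ, hκ⟩ : ∃ κ : ℝ, κ = 1 / (600 * m ^ 2) := ⟨_, rfl⟩
  have hκ0 : 0 < κ := by rw [hκ]; positivity
  have hκ1 : κ ≤ 1 := by
    rw [hκ, div_le_one (by positivity)]; linarith
  have hκm : 600 * m ^ 2 * κ = 1 := by rw [hκ]; field_simp
  obtain ⟨K, hK⟩ : ∃ K : ℝ, K = 600 * m ^ 2 * c ^ 2 := ⟨_, rfl⟩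
  have hK1 : 1 ≤ K := by rw [hK]; nlinarith
  have hK0 : 0 < K := by linarith
  obtain ⟨K1, hK1e⟩ : ∃ K1 : ℝ, K1 = 24 * K := ⟨_, rfl⟩
  obtain ⟨K4, hK4⟩ : ∃ K4 : ℝ, K4 = 4 * c * K / κ := ⟨_, rfl⟩
  have hK40 : 0 < K4 := by rw [hK4]; positivity
  have hK4κ : κ * K4 = 4 * c * K := by rw [hK4]; field_simp
  have hcK4 : c ≤ K4 := by
    have h1 : c * 1 ≤ c * (4 * K) := by gcongr; linarith
    have h2 : κ * K4 ≤ 1 * K4 := by gcongr
    nlinarith
  refine ⟨K1, 2 * K4 + 1 + c, by linarith, by linarith, ?_⟩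
  intro g hg r u q hq hu htr hgq ρ hρ hρK
  have hρ0 : 0 < ρ := by linarith
  obtain ⟨A, hA⟩ : ∃ A : ℝ, A = ‖cv B C u‖ := ⟨_, rfl⟩
  have hA2 : A ^ 2 = q := by
    rw [hA, norm_cv_sq hD, hu]; simp
  have hq1 : (1 : ℝ) ≤ q := by exact_mod_cast hq.one_lt.le
  have hmain := many_edges hD hg (r := r) (s0 := κ / ρ ^ 2) (s1 := K1 / ρ ^ 2) (ρ := ρ)
    (ρ' := K4 * ρ) (K := K) (Rt := (2 * K4 + 1) * ρ) (R0 := A ^ 2 * ((2 * K4 + 1) * ρ))
    (R1 := q * (2 * K4 + 1 + c) * ρ) (A := A) (by positivity)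
    (by
      rw [← mul_div_assoc]; gcongr; linarith)
    (by rw [div_le_one (by positivity)]; exact hρK) hρ0 hK1
    (by rw [← hce]; calc c ≤ K4 * 1 := by linarith
          _ ≤ K4 * ρ := by gcongr)
    (by
      rw [← hce]
      have e : κ / ρ ^ 2 * (K4 * ρ) ^ 2 = (κ * K4) * K4 := by field_simp
      rw [e, hK4κ]
      have h1 : 2 * c ≤ K4 := by
        have h2 : κ * K4 ≤ 1 * K4 := by gcongr
        have h3 : c * 1 ≤ c * K := by gcongr
        nlinarith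
      calc 8 * c ^ 2 * K = 4 * c * K * (2 * c) := by ring
        _ ≤ 4 * c * K * K4 := by gcongr)
    (by
      rw [← hβe]
      have e : κ / ρ ^ 2 * (K4 * ρ) = κ * K4 / ρ := by field_simp
      rw [e, hK4κ]
      have e2 : 4 * β * K / (4 * c * K / ρ) = β / c * ρ := by field_simp
      rw [e2]
      have : β / c ≤ 1 := by rw [div_le_one hc0]; exact hβc
      calc 2 * (K4 * ρ) + β / c * ρ ≤ 2 * (K4 * ρ) + 1 * ρ := by gcongr
        _ = _ := by ring)
    le_rfl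
    (by
      rw [hA2, ← hβe]
      have h1 : β / ρ ≤ c * ρ := by
        rw [div_le_iff₀ hρ0]
        have : c * 1 ≤ c * (ρ * ρ) := by gcongr; nlinarith
        nlinarith
      have h2 : c * ρ ≤ q * (c * ρ) := le_mul_of_one_le_left (by positivity) hq1
      calc (q : ℝ) * ((2 * K4 + 1) * ρ) + β / ρ ≤ q * ((2 * K4 + 1) * ρ) + q * (c * ρ) := by
            linarith
        _ = _ := by ring)
    hq hu hA.ge htr hgq
    (by
      rw [← hme]
      have e : ρ * (κ / ρ ^ 2 * ρ) = κ := by field_simp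
      rw [e, hκm])
    (by
      rw [← hme, ← hβe, hK1e, hK]
      have e : 600 * m ^ 2 * (8 * β / (24 * (600 * m ^ 2 * c ^ 2) / ρ ^ 2 * ρ) * (3 * β / ρ))
          = (β / c) ^ 2 := by field_simp; ring
      rw [e]
      apply pow_le_one₀ (by positivity)
      rw [div_le_one hc0]; exact hβc)
    (by
      rw [← hme, ← hce, hK]
      have e : 600 * m ^ 2 * (K4 * ρ / (600 * m ^ 2 * c ^ 2) * (c ^ 2 / (K4 * ρ))) = 1 := by
        field_simp
      rw [e])
  have h2 : ρ ^ 2 * 1 ≤ ρ ^ 2 * (25 * (K1 / ρ ^ 2) *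
      (edgeF g B C (q * (2 * K4 + 1 + c) * ρ) r).card) := by gcongr
  calc ρ ^ 2 = ρ ^ 2 * 1 := by ring
    _ ≤ _ := h2
    _ = _ := by field_simp

/-- the Gaussian integer of a lattice vector -/
def gi (v : ℤ × ℤ) : GaussianInt := ⟨v.1, v.2⟩

theorem gi_inj {v w : ℤ × ℤ} (h : gi v = gi w) : v = w := by
  have h1 := congrArg Zsqrtd.re h
  have h2 := congrArg Zsqrtd.im h
  exact Prod.ext h1 h2

theorem gi_mulv (v w : ℤ × ℤ) : gi (mulv 0 1 v w) = gi v * gi w := by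
  apply Zsqrtd.ext
  · simp only [gi, mulv, Zsqrtd.re_mul]; ring
  · simp only [gi, mulv, Zsqrtd.im_mul]; ring

theorem gi_norm (v : ℤ × ℤ) : (gi v).norm = nf 0 1 v := by
  rw [gnorm_eq]; simp only [gi, nf]; ring

theorem gi_ne_zero {v : ℤ × ℤ} (h : v ≠ 0) : gi v ≠ 0 := by
  intro h0
  apply h
  exact gi_inj (h0.trans (by rfl))

theorem mulv_cj (B C : ℤ) (v w : ℤ × ℤ) : mulv B C (cj B v) w = (ip B C v w, dt v w) := by
  ext
  · simp only [mulv, cj, ip]; ring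
  · simp only [mulv, cj, dt]; ring

theorem hD01 : (0 : ℤ) ^ 2 < 4 * 1 := by norm_num

/-- number of left neighbours -/
theorem card_nbr {w : ℤ × ℤ} {R : ℝ} (S : Finset (ℤ × ℤ)) (hw : w ≠ 0)
    (hwR : ‖cv 0 1 w‖ ≤ R)
    (hS : ∀ z ∈ S, dt z w = 1 ∧ ‖cv 0 1 z‖ ≤ R) : (S.card : ℝ) ≤ 5 * R / ‖cv 0 1 w‖ := by
  classical
  have hw1 := one_le_norm_cv hD01 hw
  have hw0 : 0 < ‖cv 0 1 w‖ := by linarith
  have hR0 : 0 < R := by linarith
  rcases S.eq_empty_or_nonempty with h0 | ⟨z1, hz1⟩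
  · rw [h0]; simp; positivity
  obtain ⟨hz1w, hz1R⟩ := hS z1 hz1
  have hwc : IsCoprime w.1 w.2 := coprime_of_dt hz1w
  have hex : ∀ z : ℤ × ℤ, ∃ e : ℤ, z ∈ S → z = z1 + e • w := by
    intro z
    by_cases hz : z ∈ S
    · obtain ⟨hzw, hzR⟩ := hS z hz
      obtain ⟨e, he⟩ : ∃ e : ℤ, z - z1 = e • w := by
        apply eq_smul_of_dt_eq_zero hwc
        have : dt w (z - z1) = dt z1 w - dt z w := by
          simp only [dt, Prod.fst_sub, Prod.snd_sub]; ring
        rw [this, hzw, hz1w]; ring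
      exact ⟨e, fun _ => by rw [← he]; abel⟩
    · exact ⟨0, fun h => absurd h hz⟩
  choose e he using hex
  obtain ⟨L, hL⟩ : ∃ L : ℕ, L = ⌊2 * R / ‖cv 0 1 w‖⌋₊ := ⟨_, rfl⟩
  have hL1 : (L : ℝ) ≤ 2 * R / ‖cv 0 1 w‖ := by rw [hL]; exact Nat.floor_le (by positivity)
  have hmaps : ∀ z ∈ S, e z ∈ Finset.Icc (-(L : ℤ)) L := by
    intro z hz
    obtain ⟨hzw, hzR⟩ := hS z hz
    have h1 : |(e z : ℝ)| * ‖cv 0 1 w‖ ≤ 2 * R := by
      have h2 : cv 0 1 z - cv 0 1 z1 = (e z : ℂ) * cv 0 1 w := by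
        nth_rewrite 1 [he z hz]
        rw [cv_add, cv_smul]; ring
      calc |(e z : ℝ)| * ‖cv 0 1 w‖ = ‖(e z : ℂ) * cv 0 1 w‖ := by
            rw [norm_mul, Complex.norm_intCast]
        _ = ‖cv 0 1 z - cv 0 1 z1‖ := by rw [h2]
        _ ≤ ‖cv 0 1 z‖ + ‖cv 0 1 z1‖ := norm_sub_le _ _
        _ ≤ 2 * R := by linarith
    have h3 : ((e z).natAbs : ℝ) ≤ 2 * R / ‖cv 0 1 w‖ := by
      rw [le_div_iff₀ hw0, Nat.cast_natAbs]; push_cast; exact h1
    have h4 : (e z).natAbs ≤ L := by rw [hL]; exact Nat.le_floor h3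
    rw [Finset.mem_Icc]; omega
  have hcard : S.card ≤ (Finset.Icc (-(L : ℤ)) L).card := by
    apply Finset.card_le_card_of_injOn e hmaps
    intro a ha b hb hab
    rw [he a ha, he b hb, hab]
  have h5 : (Finset.Icc (-(L : ℤ)) L).card = 2 * L + 1 := by
    rw [Int.card_Icc]; omega
  rw [h5] at hcard
  have h6 : (1 : ℝ) ≤ R / ‖cv 0 1 w‖ := by rw [le_div_iff₀ hw0]; linarith
  calc (S.card : ℝ) ≤ 2 * L + 1 := by exact_mod_cast hcard
    _ ≤ 2 * (2 * R / ‖cv 0 1 w‖) + R / ‖cv 0 1 w‖ := by gcongr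
    _ = _ := by ring

/-- integers `n`, `|n| ≤ X`, with `g (n ^ 2 + 1) = r` -/
noncomputable def val3 (g : ℕ → ZMod 3) (X : ℕ) (r : ZMod 3) : Finset ℤ := by
  classical
  exact (Finset.Icc (-(X : ℤ)) X).filter (fun n => g (n ^ 2 + 1).natAbs = r)

/-- from edges to values: Cauchy-Schwarz -/
theorem edges_to_val (g : ℕ → ZMod 3) (r : ZMod 3) {X : ℕ} (hX : 1 ≤ X) :
    ((edgeF g 0 1 (√X) r).card : ℝ) ^ 2 ≤
      (val3 g X r).card * (3 * X * (8 * (1 + Real.log X)) ^ 4) := by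
  classical
  obtain ⟨E, hE⟩ : ∃ E, E = edgeF g 0 1 (√X) r := ⟨_, rfl⟩
  rw [← hE]
  have hX0 : (0 : ℝ) < X := by exact_mod_cast hX
  have hRX : √(X : ℝ) ^ 2 = X := Real.sq_sqrt hX0.le
  have hR0 : 0 < √(X : ℝ) := Real.sqrt_pos.2 hX0
  have hex : ∀ z : ℤ × ℤ, ∃ w : ℤ × ℤ, z ∈ E → (z ≠ 0 ∧ ‖cv 0 1 z‖ ≤ √X ∧ ‖cv 0 1 w‖ ≤ √X ∧
      dt z w = 1 ∧ g (nf 0 1 (ip 0 1 z w, 1)).natAbs = r) := by
    intro z
    by_cases hz : z ∈ E
    · have hz' := hz
      rw [hE, edgeF, Finset.mem_filter] at hz'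
      obtain ⟨h1, h2, w, hw⟩ := hz'
      exact ⟨w, fun _ => ⟨ne_zero_of_mem_ballF h1, h2, hw⟩⟩
    · exact ⟨0, fun h => absurd h hz⟩
  choose W hW using hex
  have hWne : ∀ z ∈ E, W z ≠ 0 := by
    intro z hz h0
    have := (hW z hz).2.2.2.1
    rw [h0] at this
    simp [dt] at this
  have hball : ∀ v : ℤ × ℤ, v ≠ 0 → ‖cv 0 1 v‖ ≤ √X → gi v ∈ gball X := by
    intro v hv h
    rw [mem_gball]
    refine ⟨gi_ne_zero hv, ?_⟩
    rw [gi_norm]
    have h1 := norm_cv_sq hD01 v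
    have h2 : ‖cv 0 1 v‖ ^ 2 ≤ √X ^ 2 := by gcongr
    rw [h1, hRX] at h2
    exact_mod_cast h2
  obtain ⟨N, hN⟩ : ∃ N : ℤ × ℤ → ℤ, N = fun z => ip 0 1 z (W z) := ⟨_, rfl⟩
  have hmaps : ∀ z ∈ E, N z ∈ val3 g X r := by
    intro z hz
    obtain ⟨hz0, hzR, hwR, hdt, hgr⟩ := hW z hz
    rw [val3, Finset.mem_filter, Finset.mem_Icc]
    constructor
    · have h1 := abs_ip_le (B := 0) (C := 1) hD01 hdt
      have h2 : |(ip 0 1 z (W z) : ℝ)| ≤ X := by
        calc _ ≤ ‖cv 0 1 z‖ * ‖cv 0 1 (W z)‖ + |((0 : ℤ) : ℝ)| := h1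
          _ ≤ √X * √X + 0 := by
              gcongr
              simp
          _ = X := by rw [add_zero, ← pow_two, hRX]
      have h3 : |ip 0 1 z (W z)| ≤ X := by exact_mod_cast h2
      rw [hN]; exact abs_le.1 h3
    · rw [← hgr, hN]; congr 2; simp only [nf]; ring
  -- multiplicities
  obtain ⟨mu, hmu⟩ : ∃ mu : ℤ → ℝ, mu = fun n => ((E.filter (fun z => N z = n)).card : ℝ) :=
    ⟨_, rfl⟩
  have hmult : ∀ z ∈ E, mu (N z) ≤ gD (gi (cj 0 z)) * gD (gi (W z)) := by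
    intro z hz
    obtain ⟨hz0, hzR, hwR, hdt, hgr⟩ := hW z hz
    have hprod : ∀ y ∈ E, gi (cj 0 y) * gi (W y) = gi (N y, 1) := by
      intro y hy
      rw [← gi_mulv, mulv_cj, (hW y hy).2.2.2.1, hN]
    have hne : gi (N z, 1) ≠ 0 := gi_ne_zero (by intro h; simpa using congrArg Prod.snd h)
    have h1 : (E.filter (fun y => N y = N z)).card ≤ (gdivs (gi (N z, 1))).card := by
      apply Finset.card_le_card_of_injOn (fun y => gi (cj 0 y))
      · intro y hy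
        rw [Finset.mem_coe, Finset.mem_filter] at hy
        rw [Finset.mem_coe, mem_gdivs hne, ← hy.2, ← hprod y hy.1]
        exact Dvd.intro _ rfl
      · intro a _ b _ hab
        have h2 := gi_inj hab
        have h3 := congrArg Prod.fst h2
        have h4 := congrArg Prod.snd h2
        simp only [cj, zero_mul, add_zero, neg_inj] at h3 h4
        exact Prod.ext h3 h4
    calc mu (N z) ≤ gD (gi (N z, 1)) := by
          simp only [hmu]; unfold gD; exact_mod_cast h1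
      _ = gD (gi (cj 0 z) * gi (W z)) := by rw [hprod z hz]
      _ ≤ _ := gD_mul (gi_ne_zero (cj_ne_zero hz0)) (gi_ne_zero (hWne z hz))
  -- Cauchy-Schwarz
  have hsum1 : (E.card : ℝ) = ∑ n ∈ val3 g X r, mu n := by
    rw [hmu, Finset.card_eq_sum_card_fiberwise hmaps]; push_cast; rfl
  have hsum2 : ∑ n ∈ val3 g X r, mu n ^ 2 = ∑ z ∈ E, mu (N z) := by
    rw [← Finset.sum_fiberwise_of_maps_to hmaps]
    apply Finset.sum_congr rfl
    intro n _
    have : ∑ z ∈ E.filter (fun z => N z = n), mu (N z)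
        = ∑ z ∈ E.filter (fun z => N z = n), mu n := by
      apply Finset.sum_congr rfl
      intro z hz
      rw [Finset.mem_filter] at hz
      rw [hz.2]
    rw [this, Finset.sum_const, nsmul_eq_mul, pow_two, hmu]
  have hCS : (E.card : ℝ) ^ 2 ≤ (val3 g X r).card * ∑ z ∈ E, mu (N z) := by
    rw [hsum1, ← hsum2]
    exact sq_sum_le_card_mul_sum_sq
  -- the two second moments
  have hS2 := sum_gD_sq_le hX
  obtain ⟨F, hF⟩ : ∃ F : ℝ, F = ∑ z ∈ gball X, gD z ^ 2 / z.norm := ⟨_, rfl⟩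
  rw [← hF] at hS2
  have hnormpos : ∀ y ∈ gball X, (0 : ℝ) < (y.norm : ℤ) := by
    intro y hy
    exact_mod_cast gnorm_pos (mem_gball.1 hy).1
  have hnormle : ∀ y ∈ gball X, ((y.norm : ℤ) : ℝ) ≤ X := by
    intro y hy
    exact_mod_cast (mem_gball.1 hy).2
  have hfirst : ∑ z ∈ E, gD (gi (cj 0 z)) ^ 2 ≤ X * F := by
    calc ∑ z ∈ E, gD (gi (cj 0 z)) ^ 2 = ∑ y ∈ E.image (fun z => gi (cj 0 z)), gD y ^ 2 := by
          rw [Finset.sum_image]
          intro a _ b _ hab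
          have h2 := gi_inj hab
          have h3 := congrArg Prod.fst h2
          have h4 := congrArg Prod.snd h2
          simp only [cj, zero_mul, add_zero, neg_inj] at h3 h4
          exact Prod.ext h3 h4
      _ ≤ ∑ y ∈ gball X, gD y ^ 2 := by
          apply Finset.sum_le_sum_of_subset_of_nonneg
          · intro y hy
            rw [Finset.mem_image] at hy
            obtain ⟨z, hz, rfl⟩ := hy
            apply hball _ (cj_ne_zero (hW z hz).1)
            rw [cv_cj, norm_conj]; exact (hW z hz).2.1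
          · intro y _ _; positivity
      _ ≤ ∑ y ∈ gball X, X * (gD y ^ 2 / y.norm) := by
          apply Finset.sum_le_sum
          intro y hy
          have h1 := hnormpos y hy
          have h2 := hnormle y hy
          rw [← mul_div_assoc, le_div_iff₀ h1, mul_comm]
          gcongr
      _ = X * F := by rw [← Finset.mul_sum, hF]
  have hmapsW : ∀ z ∈ E, gi (W z) ∈ gball X := fun z hz =>
    hball _ (hWne z hz) (hW z hz).2.2.1
  have hsecond : ∑ z ∈ E, gD (gi (W z)) ^ 2 ≤ 5 * X * F := by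
    rw [← Finset.sum_fiberwise_of_maps_to hmapsW]
    calc ∑ y ∈ gball X, ∑ z ∈ E.filter (fun z => gi (W z) = y), gD (gi (W z)) ^ 2
        ≤ ∑ y ∈ gball X, (5 * X / y.norm) * gD y ^ 2 := by
          apply Finset.sum_le_sum
          intro y hy
          have h1 : ∑ z ∈ E.filter (fun z => gi (W z) = y), gD (gi (W z)) ^ 2
              = ∑ z ∈ E.filter (fun z => gi (W z) = y), gD y ^ 2 := by
            apply Finset.sum_congr rfl
            intro z hz
            rw [Finset.mem_filter] at hz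
            rw [hz.2]
          rw [h1, Finset.sum_const, nsmul_eq_mul]
          apply mul_le_mul_of_nonneg_right _ (by positivity)
          have hyn := hnormpos y hy
          rcases (E.filter (fun z => gi (W z) = y)).eq_empty_or_nonempty with h0 | ⟨z1, hz1⟩
          · rw [h0, Finset.card_empty, Nat.cast_zero]
            exact div_nonneg (by positivity) hyn.le
          rw [Finset.mem_filter] at hz1
          obtain ⟨hz1E, hz1y⟩ := hz1
          have h2 := card_nbr (w := W z1) (R := √X) (E.filter (fun z => gi (W z) = y))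
            (hWne z1 hz1E) (hW z1 hz1E).2.2.1 (by
              intro z hz
              rw [Finset.mem_filter] at hz
              have h3 : W z = W z1 := gi_inj (hz.2.trans hz1y.symm)
              rw [← h3]
              exact ⟨(hW z hz.1).2.2.2.1, (hW z hz.1).2.1⟩)
          have h4 : ‖cv 0 1 (W z1)‖ ^ 2 = (y.norm : ℤ) := by
            rw [norm_cv_sq hD01, ← gi_norm, hz1y]
          have h5 := one_le_norm_cv hD01 (hWne z1 hz1E)
          have h6 : 0 < ‖cv 0 1 (W z1)‖ := by linarith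
          calc ((E.filter (fun z => gi (W z) = y)).card : ℝ) ≤ 5 * √X / ‖cv 0 1 (W z1)‖ := h2
            _ = 5 * (√X * ‖cv 0 1 (W z1)‖) / ‖cv 0 1 (W z1)‖ ^ 2 := by field_simp
            _ ≤ 5 * (√X * √X) / ‖cv 0 1 (W z1)‖ ^ 2 := by
                gcongr; exact (hW z1 hz1E).2.2.1
            _ = 5 * X / y.norm := by rw [← pow_two, hRX, h4]
      _ = 5 * X * F := by
          rw [hF, Finset.mul_sum]
          apply Finset.sum_congr rfl
          intro y _; ring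
  have htot : ∑ z ∈ E, mu (N z) ≤ 3 * X * F := by
    calc ∑ z ∈ E, mu (N z)
        ≤ ∑ z ∈ E, (gD (gi (cj 0 z)) ^ 2 + gD (gi (W z)) ^ 2) / 2 := by
          apply Finset.sum_le_sum
          intro z hz
          refine (hmult z hz).trans ?_
          nlinarith [sq_nonneg (gD (gi (cj 0 z)) - gD (gi (W z)))]
      _ = (∑ z ∈ E, gD (gi (cj 0 z)) ^ 2 + ∑ z ∈ E, gD (gi (W z)) ^ 2) / 2 := by
          rw [← Finset.sum_div, Finset.sum_add_distrib]
      _ ≤ (X * F + 5 * X * F) / 2 := by gcongr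
      _ = _ := by ring
  calc (E.card : ℝ) ^ 2 ≤ (val3 g X r).card * ∑ z ∈ E, mu (N z) := hCS
    _ ≤ (val3 g X r).card * (3 * X * F) := by gcongr
    _ ≤ _ := by gcongr

end Pool.Agent.FareyParity
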