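import Mathlib
import Pool.Agent.FareyParity.Mod3Main

set_option autoImplicit false

/-!
# Unimodular pairs both of whose colours have a prescribed sign
-/

namespace Pool.Agent.FareyParity

open Complex ComplexConjugate MeasureTheory

variable {B C : ℤ} {f : ℕ → ℤ}

theorem dt_cj_mulv (u x w : ℤ × ℤ) :
    dt (mulv B C (cj B u) x) w = dt x (mulv B C u w) := by
  simp only [dt, mulv, cj]; ring

theorem dt_neg_right (v w : ℤ × ℤ) : dt v (-w) = dt w v := by
  simp only [dt, Prod.fst_neg, Prod.snd_neg]; ring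

theorem col_neg (v : ℤ × ℤ) : col f B C (-v) = col f B C v := by
  simp only [col]
  congr 2
  simp only [nf, Prod.fst_neg, Prod.snd_neg]; ring

/-- first members of unimodular pairs of norm `≤ R` with both colours `s` -/
noncomputable def sameF (f : ℕ → ℤ) (B C : ℤ) (R : ℝ) (s : ℤ) : Finset (ℤ × ℤ) := by
  classical
  exact (ballF B C R).filter (fun z => ‖cv B C z‖ ≤ R ∧ col f B C z = s ∧
    ∃ w : ℤ × ℤ, ‖cv B C w‖ ≤ R ∧ dt z w = 1 ∧ col f B C w = s)

theorem mem_sameF (hD : B ^ 2 < 4 * C) {R : ℝ} {s : ℤ} {z w : ℤ × ℤ} (hz : ‖cv B C z‖ ≤ R)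
    (hzs : col f B C z = s) (hw : ‖cv B C w‖ ≤ R) (hzw : dt z w = 1) (hws : col f B C w = s) :
    z ∈ sameF f B C R s := by
  classical
  rw [sameF, Finset.mem_filter]
  have hz0 : z ≠ 0 := by rintro rfl; simp [dt] at hzw
  exact ⟨mem_ballF hD hz0 hz, hz, hzs, w, hw, hzw, hws⟩

theorem nearSet_slope_mono {p : ℂ} {s0 s1 R : ℝ} (h0 : 0 < s0) (h01 : s0 ≤ s1) :
    NearSet B C p s0 R ⊆ NearSet B C p s1 R := by
  intro v hv
  refine ⟨hv.1, hv.2.trans ?_⟩
  have : 0 ≤ (conj p * cv B C v).re := by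
    by_contra hneg
    push Not at hneg
    have h1 := abs_nonneg (conj p * cv B C v).im
    have h2 := hv.2
    nlinarith
  gcongr

/-- every typical direction has a pair close to one of three rotated directions -/
theorem exists_same (hD : B ^ 2 < 4 * C) (hf : IsSign f) {s : ℤ} (hs : s = 1 ∨ s = -1)
    {s0 s1 ρ ρ' K Rt R1 R A : ℝ}
    (hs0 : 0 < s0) (h01 : 2 * s0 ≤ s1) (hs1 : s1 ≤ 1) (hρ : 0 < ρ) (hK : 1 ≤ K)
    (hρ' : cB B C ≤ ρ') (hρK : 8 * cB B C ^ 2 * K ≤ s0 * ρ' ^ 2)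
    (hRt : 2 * ρ' + 4 * bt B C * K / (s0 * ρ') ≤ Rt)
    (hR1 : A ^ 2 * Rt + bt B C / ρ ≤ R1) (hR : A * R1 ≤ R)
    {u : ℤ × ℤ} {q : ℕ} (hq : q.Prime) (hu : nf B C u = q) (huA : ‖cv B C u‖ ≤ A)
    (htr : ¬ (q : ℤ) ∣ 2 * u.1 + B * u.2) (hfq : f q = -1)
    {p : ℂ} (hp : ‖p‖ = 1) :
    Short B C p ρ (s0 * ρ) ∨ Short B C p (ρ' / K) (cB B C ^ 2 / ρ') ∨
      Short B C (p * un B C u ^ 2) (8 * bt B C / (s1 * ρ)) (3 * bt B C / ρ) ∨
      ∃ j : ℕ, j < 3 ∧ ∃ z ∈ sameF f B C R s, z ∈ NearSet B C (p * un B C u ^ j) s1 R := by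
  by_contra hcon
  push Not at hcon
  obtain ⟨hn1, hn3, hn2, hE⟩ := hcon
  have hu0 : u ≠ 0 := by
    rintro rfl
    have : nf B C 0 = 0 := by simp [nf]
    rw [this] at hu
    exact hq.ne_zero (by exact_mod_cast hu.symm)
  have hun := norm_un (B := B) (C := C) hD hu0
  have hA1 : 1 ≤ A := (one_le_norm_cv hD hu0).trans huA
  have hA0 : 0 < A := by linarith
  have hβ := bt_pos hD
  have hc := cB_ge hD
  have hρ'0 : 0 < ρ' := by linarith
  have hK0 : 0 < K := by linarith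
  have hRt1 : 0 ≤ Rt := by
    have : 0 < 2 * ρ' + 4 * bt B C * K / (s0 * ρ') := by positivity
    linarith
  have hA2 : 1 ≤ A ^ 2 := one_le_pow₀ hA1
  have hRt2 : Rt ≤ A ^ 2 * Rt := le_mul_of_one_le_left hRt1 hA2
  have hR11 : A ^ 2 * Rt ≤ R1 := by
    have : 0 < bt B C / ρ := by positivity
    linarith
  have hR10 : 0 ≤ R1 := by linarith
  have hR1R : R1 ≤ R := (le_mul_of_one_le_left hR10 hA1).trans hR
  have hRtR : Rt ≤ R := by linarith
  have hs0' : s0 ≤ 1 := by linarith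
  have hs01 : s0 ≤ s1 := by linarith
  -- a triangle
  obtain ⟨v, w, hvw, hv, hw, hvw'⟩ := exists_triple hD hp hs0 hs0' hK hρ' hρK hRt hn3
  have h1 : dt v (v + w) = 1 := by
    have : dt v (v + w) = dt v w := by simp only [dt, Prod.fst_add, Prod.snd_add]; ring
    rw [this, hvw]
  have h2 : dt (v + w) w = 1 := by
    have : dt (v + w) w = dt v w := by simp only [dt, Prod.fst_add, Prod.snd_add]; ring
    rw [this, hvw]
  have hnear : ∀ x ∈ NearSet B C p s0 Rt, x ∈ NearSet B C (p * un B C u ^ 0) s1 R := by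
    intro x hx
    rw [pow_zero, mul_one]
    exact nearSet_mono hRtR (nearSet_slope_mono hs0 hs01 hx)
  have hnoss : ∀ x ∈ NearSet B C p s0 Rt, ∀ y ∈ NearSet B C p s0 Rt, dt x y = 1 →
      ¬ (col f B C x = s ∧ col f B C y = s) := by
    rintro x hx y hy hxy ⟨hxs, hys⟩
    exact hE 0 (by norm_num) x (mem_sameF hD (hx.1.trans hRtR) hxs (hy.1.trans hRtR) hxy hys)
      (hnear x hx)
  have hval : ∀ x y : ℤ × ℤ, dt x y = 1 → (col f B C x = s ∨ col f B C x = -s) ∧
      (col f B C y = s ∨ col f B C y = -s) := by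
    intro x y hxy
    have hx0 : x ≠ 0 := by rintro rfl; simp [dt] at hxy
    have hy0 : y ≠ 0 := by rintro rfl; simp [dt] at hxy
    have hx := col_val (B := B) (C := C) hf hD hx0
    have hy := col_val (B := B) (C := C) hf hD hy0
    rcases hs with rfl | rfl
    · exact ⟨hx, hy⟩
    · refine ⟨?_, ?_⟩
      · rcases hx with h | h
        · right; rw [h]; norm_num
        · left; exact h
      · rcases hy with h | h
        · right; rw [h]; norm_num
        · left; exact h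
  obtain ⟨z, hz, w', hw', hzw, hcz, hcw⟩ : ∃ z ∈ NearSet B C p s0 Rt,
      ∃ w' ∈ NearSet B C p s0 Rt, dt z w' = 1 ∧ col f B C z = -s ∧ col f B C w' = -s := by
    have e1 := hnoss v hv w hw hvw
    have e2 := hnoss v hv (v + w) hvw' h1
    have e3 := hnoss (v + w) hvw' w hw h2
    obtain ⟨a1, a2⟩ := hval v w hvw
    obtain ⟨-, a3⟩ := hval v (v + w) h1
    rcases a1 with b1 | b1
    · have b2 : col f B C w = -s := a2.resolve_left (fun h => e1 ⟨b1, h⟩)
      have b3 : col f B C (v + w) = -s := a3.resolve_left (fun h => e2 ⟨b1, h⟩)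
      exact ⟨v + w, hvw', w, hw, h2, b3, b2⟩
    · rcases a2 with b2 | b2
      · have b3 : col f B C (v + w) = -s := a3.resolve_left (fun h => e3 ⟨h, b2⟩)
        exact ⟨v, hv, v + w, hvw', h1, b1, b3⟩
      · exact ⟨v, hv, w, hw, hvw, b1, b2⟩
  obtain ⟨z', hz', hz'c, hz't, hz'n⟩ : ∃ z ∈ NearSet B C p s0 Rt, IsCoprime z.1 z.2 ∧
      col f B C z = -s ∧ ¬ Dv2 q (mulv B C u z) := by
    rcases ndvd_or (B := B) (C := C) hq hu hzw with h | h
    · exact ⟨z, hz, coprime_of_dt' hzw, hcz, h⟩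
    · exact ⟨w', hw', coprime_of_dt hzw, hcw, h⟩
  have hz'0 : z' ≠ 0 := by
    rintro rfl
    obtain ⟨a, b, hab⟩ := hz'c
    simp at hab
  have hlong : ρ ≤ ‖cv B C z'‖ := by
    by_contra hcon
    push Not at hcon
    apply hn1
    refine ⟨z', hz'0, hcon.le, ?_⟩
    calc |(conj p * cv B C z').im| ≤ s0 * (conj p * cv B C z').re := hz'.2
      _ ≤ s0 * ρ := by
          gcongr; exact (re_le_norm' hp _).trans hcon.le
  have hcu : col f B C u = -1 := by simp only [col]; rw [hu]; simpa using hfq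
  -- the vector u z
  obtain ⟨x1, hx1⟩ : ∃ x1, x1 = mulv B C u z' := ⟨_, rfl⟩
  have hx1c : IsCoprime x1.1 x1.2 := by rw [hx1]; exact coprime_mulv hq hu hz'c hz'n
  have hx1s : col f B C x1 = s := by
    rw [hx1, col_mulv hf, hcu, hz't]; ring
  have hx1m : x1 ∈ NearSet B C (p * un B C u) s0 (A * Rt) := by
    rw [hx1]; exact mulv_mem_nearSet hD hu0 huA le_rfl hz'
  have hARt : A * Rt ≤ R := by
    calc A * Rt ≤ A ^ 2 * Rt := by gcongr; nlinarith
      _ ≤ R := by linarith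
  -- the vector u u z
  obtain ⟨y, hy⟩ : ∃ y, y = mulv B C u x1 := ⟨_, rfl⟩
  have hyn : ¬ Dv2 q (mulv B C u x1) := by rw [hx1]; exact ndvd_mulv hq hu htr hz'n
  have hyc : IsCoprime y.1 y.2 := by rw [hy]; exact coprime_mulv hq hu hx1c hyn
  have hym : y ∈ NearSet B C (p * un B C u ^ 2) s0 (A ^ 2 * Rt) := by
    have e : p * un B C u ^ 2 = p * un B C u * un B C u := by ring
    rw [e, hy]
    apply mulv_mem_nearSet hD hu0 huA _ hx1m
    exact le_of_eq (by ring)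
  have hylong : ρ ≤ ‖cv B C y‖ := by
    rw [hy, hx1, cv_mulv hD, cv_mulv hD, norm_mul, norm_mul]
    have h3 := one_le_norm_cv hD hu0
    have h4 := norm_nonneg (cv B C z')
    calc ρ ≤ ‖cv B C z'‖ := hlong
      _ ≤ ‖cv B C u‖ * ‖cv B C z'‖ := le_mul_of_one_le_left h4 h3
      _ ≤ ‖cv B C u‖ * (‖cv B C u‖ * ‖cv B C z'‖) := le_mul_of_one_le_left (by positivity) h3
  have hp2 : ‖p * un B C u ^ 2‖ = 1 := by rw [norm_mul, norm_pow, hun, hp]; norm_num
  obtain ⟨a, ha, b, hb, hay, hyb, hab⟩ := exists_parents hD hp2 hs0 h01 hs1 hρ hym hylong hyc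
    hR1 hn2
  have hnear2 : a ∈ NearSet B C (p * un B C u ^ 2) s1 R := nearSet_mono hR1R ha
  have hnear1 : x1 ∈ NearSet B C (p * un B C u ^ 1) s1 R := by
    rw [pow_one]
    exact nearSet_mono hARt (nearSet_slope_mono hs0 hs01 hx1m)
  have hcj0 : cj B u ≠ 0 := by
    intro h0
    have h5 := congrArg Prod.snd h0
    have h6 := congrArg Prod.fst h0
    simp only [cj, Prod.snd_zero, Prod.fst_zero, neg_eq_zero] at h5 h6
    rw [h5, mul_zero, add_zero] at h6
    exact hu0 (Prod.ext h6 h5)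
  have hnormc : ∀ x : ℤ × ℤ, ‖cv B C x‖ ≤ R1 → ‖cv B C (mulv B C (cj B u) x)‖ ≤ R := by
    intro x hx
    rw [cv_mulv hD, norm_mul, cv_cj, norm_conj]
    calc ‖cv B C u‖ * ‖cv B C x‖ ≤ A * R1 := by gcongr
      _ ≤ R := hR
  have hcc : ∀ x : ℤ × ℤ, col f B C x = -s → col f B C (mulv B C (cj B u) x) = s := by
    intro x hx
    rw [col_mulv hf, col_cj, hcu, hx]; ring
  obtain ⟨c1, c2⟩ := hval a b hab
  rcases c1 with c1 | c1
  · rcases c2 with c2 | c2
    · exact hE 2 (by norm_num) a (mem_sameF hD (ha.1.trans hR1R) c1 (hb.1.trans hR1R) hab c2)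
        hnear2
    · -- pair (u z, ū b)
      have h7 : dt x1 (mulv B C (cj B u) b) = 1 := by
        rw [dt_swap, dt_cj_mulv, ← hy, dt_swap, neg_neg]; exact hyb
      exact hE 1 (by norm_num) x1 (mem_sameF hD (hx1m.1.trans hARt) hx1s (hnormc b hb.1) h7
        (hcc b c2)) hnear1
  · -- pair (u z, - ū a)
    have h7 : dt x1 (-(mulv B C (cj B u) a)) = 1 := by
      rw [dt_neg_right, dt_cj_mulv, ← hy]; exact hay
    refine hE 1 (by norm_num) x1 (mem_sameF hD (hx1m.1.trans hARt) hx1s ?_ h7 ?_) hnear1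
    · rw [cv_neg, norm_neg]; exact hnormc a ha.1
    · rw [col_neg]; exact hcc a c1

end Pool.Agent.FareyParity
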