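import Mathlib
import Pool.Agent.FareyParity.BothSign

set_option autoImplicit false

/-!
# Counting unimodular pairs both of whose colours have a prescribed sign
-/

namespace Pool.Agent.FareyParity

open Complex ComplexConjugate MeasureTheory

variable {B C : ℤ} {f : ℕ → ℤ}

theorem many_same (hD : B ^ 2 < 4 * C) (hf : IsSign f) {s : ℤ} (hs : s = 1 ∨ s = -1)
    {s0 s1 ρ ρ' K Rt R1 R A : ℝ}
    (hs0 : 0 < s0) (h01 : 2 * s0 ≤ s1) (hs1 : s1 ≤ 1) (hρ : 0 < ρ) (hK : 1 ≤ K)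
    (hρ' : cB B C ≤ ρ') (hρK : 8 * cB B C ^ 2 * K ≤ s0 * ρ' ^ 2)
    (hRt : 2 * ρ' + 4 * bt B C * K / (s0 * ρ') ≤ Rt)
    (hR1 : A ^ 2 * Rt + bt B C / ρ ≤ R1) (hR : A * R1 ≤ R)
    {u : ℤ × ℤ} {q : ℕ} (hq : q.Prime) (hu : nf B C u = q) (huA : ‖cv B C u‖ ≤ A)
    (htr : ¬ (q : ℤ) ∣ 2 * u.1 + B * u.2) (hfq : f q = -1)
    (hm1 : 600 * mB B C ^ 2 * (ρ * (s0 * ρ)) ≤ 1)
    (hm2 : 600 * mB B C ^ 2 * (8 * bt B C / (s1 * ρ) * (3 * bt B C / ρ)) ≤ 1)
    (hm3 : 600 * mB B C ^ 2 * (ρ' / K * (cB B C ^ 2 / ρ')) ≤ 1) :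
    1 ≤ 25 * s1 * (sameF f B C R s).card := by
  classical
  have hu0 : u ≠ 0 := by
    rintro rfl
    have : nf B C 0 = 0 := by simp [nf]
    rw [this] at hu
    exact hq.ne_zero (by exact_mod_cast hu.symm)
  have hun := norm_un (B := B) (C := C) hD hu0
  have hunj : ∀ j : ℕ, ‖un B C u ^ j‖ = 1 := by
    intro j; rw [norm_pow, hun]; simp
  have hβ := bt_pos hD
  have hc := cB_ge hD
  have hm := mB_ge hD
  have hρ'0 : 0 < ρ' := by linarith
  have hK0 : 0 < K := by linarith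
  have hs1' : 0 < s1 := by linarith
  have hπ := Real.pi_pos
  obtain ⟨E, hE⟩ : ∃ E, E = sameF f B C R s := ⟨_, rfl⟩
  rw [← hE]
  obtain ⟨S1, hS1⟩ : ∃ S1 : Set ℝ, S1 = {θ : ℝ | θ ∈ Set.Icc 0 (2 * Real.pi) ∧
      Short B C (exp (θ * I) * un B C u ^ 0) ρ (s0 * ρ)} := ⟨_, rfl⟩
  obtain ⟨S2, hS2⟩ : ∃ S2 : Set ℝ, S2 = {θ : ℝ | θ ∈ Set.Icc 0 (2 * Real.pi) ∧
      Short B C (exp (θ * I) * un B C u ^ 2) (8 * bt B C / (s1 * ρ)) (3 * bt B C / ρ)} := ⟨_, rfl⟩
  obtain ⟨S3, hS3⟩ : ∃ S3 : Set ℝ, S3 = {θ : ℝ | θ ∈ Set.Icc 0 (2 * Real.pi) ∧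
      Short B C (exp (θ * I) * un B C u ^ 0) (ρ' / K) (cB B C ^ 2 / ρ')} := ⟨_, rfl⟩
  obtain ⟨S4, hS4⟩ : ∃ S4 : ℕ → Set ℝ, S4 = fun j => ⋃ z ∈ E,
      {θ : ℝ | θ ∈ Set.Icc 0 (2 * Real.pi) ∧
        |(conj (exp (θ * I)) * (conj (un B C u ^ j) * cv B C z)).im| ≤
          s1 * ‖conj (un B C u ^ j) * cv B C z‖} := ⟨_, rfl⟩
  have v1 : volume S1 ≤ ENNReal.ofReal (Real.pi / 15) := by
    rw [hS1]
    refine (volume_short hD (hunj 0) hρ.le (by positivity)).trans (ENNReal.ofReal_le_ofReal ?_)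
    calc 40 * Real.pi * mB B C ^ 2 * (ρ * (s0 * ρ))
        = Real.pi / 15 * (600 * mB B C ^ 2 * (ρ * (s0 * ρ))) := by ring
      _ ≤ Real.pi / 15 * 1 := by gcongr
      _ = _ := by ring
  have v2 : volume S2 ≤ ENNReal.ofReal (Real.pi / 15) := by
    rw [hS2]
    refine (volume_short hD (hunj 2) (by positivity) (by positivity)).trans
      (ENNReal.ofReal_le_ofReal ?_)
    calc 40 * Real.pi * mB B C ^ 2 * (8 * bt B C / (s1 * ρ) * (3 * bt B C / ρ))
        = Real.pi / 15 * (600 * mB B C ^ 2 * (8 * bt B C / (s1 * ρ) * (3 * bt B C / ρ))) := by ring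
      _ ≤ Real.pi / 15 * 1 := by gcongr
      _ = _ := by ring
  have v3 : volume S3 ≤ ENNReal.ofReal (Real.pi / 15) := by
    rw [hS3]
    refine (volume_short hD (hunj 0) (by positivity) (by positivity)).trans
      (ENNReal.ofReal_le_ofReal ?_)
    calc 40 * Real.pi * mB B C ^ 2 * (ρ' / K * (cB B C ^ 2 / ρ'))
        = Real.pi / 15 * (600 * mB B C ^ 2 * (ρ' / K * (cB B C ^ 2 / ρ'))) := by ring
      _ ≤ Real.pi / 15 * 1 := by gcongr
      _ = _ := by ring
  have hEne : ∀ z ∈ E, z ≠ 0 := by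
    intro z hz
    rw [hE, sameF, Finset.mem_filter] at hz
    exact ne_zero_of_mem_ballF hz.1
  have v4 : ∀ j, volume (S4 j) ≤ ENNReal.ofReal (E.card * (5 * Real.pi * s1)) := by
    intro j
    rw [hS4]
    calc _ ≤ ∑ z ∈ E, volume {θ : ℝ | θ ∈ Set.Icc 0 (2 * Real.pi) ∧
        |(conj (exp (θ * I)) * (conj (un B C u ^ j) * cv B C z)).im| ≤
          s1 * ‖conj (un B C u ^ j) * cv B C z‖} := measure_biUnion_finset_le _ _
      _ ≤ ∑ z ∈ E, ENNReal.ofReal (5 * Real.pi * s1) := by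
          apply Finset.sum_le_sum
          intro z hz
          apply volume_close _ _ hs1'.le
          intro h0
          have h1 := one_le_norm_cv hD (hEne z hz)
          have h2 : ‖conj (un B C u ^ j) * cv B C z‖ = ‖cv B C z‖ := by
            rw [norm_mul, norm_conj, hunj, one_mul]
          rw [h0, norm_zero] at h2
          linarith
      _ = ENNReal.ofReal (E.card * (5 * Real.pi * s1)) := by
          rw [Finset.sum_const, nsmul_eq_mul, ← ENNReal.ofReal_natCast,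
            ← ENNReal.ofReal_mul (by positivity)]
  have hcov : Set.Icc 0 (2 * Real.pi) ⊆
      ((S1 ∪ S2) ∪ S3) ∪ ⋃ j ∈ Finset.range 3, S4 j := by
    intro θ hθ
    have hp : ‖exp ((θ : ℂ) * I)‖ = 1 := norm_exp_ofReal_mul_I θ
    rcases exists_same hD hf hs hs0 h01 hs1 hρ hK hρ' hρK hRt hR1 hR hq hu huA htr hfq hp with
      h | h | h | ⟨j, hj, z, hz, hzj⟩
    · left; left; left; rw [hS1]; exact ⟨hθ, by rw [pow_zero, mul_one]; exact h⟩
    · left; right; rw [hS3]; exact ⟨hθ, by rw [pow_zero, mul_one]; exact h⟩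
    · left; left; right; rw [hS2]; exact ⟨hθ, h⟩
    · right
      simp only [Set.mem_iUnion, Finset.mem_range]
      refine ⟨j, hj, ?_⟩
      rw [hS4]
      simp only [Set.mem_iUnion]
      refine ⟨z, by rw [hE]; exact hz, hθ, ?_⟩
      have e : conj (exp (θ * I)) * (conj (un B C u ^ j) * cv B C z)
            = conj (exp (θ * I) * un B C u ^ j) * cv B C z := by
        rw [map_mul]; ring
      rw [e]
      calc |(conj (exp (θ * I) * un B C u ^ j) * cv B C z).im|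
          ≤ s1 * (conj (exp (θ * I) * un B C u ^ j) * cv B C z).re := hzj.2
        _ ≤ s1 * ‖cv B C z‖ := by
            gcongr
            apply re_le_norm'
            rw [norm_mul, hp, hunj, one_mul]
        _ = _ := by rw [norm_mul, norm_conj, hunj, one_mul]
  have hvol : ENNReal.ofReal (2 * Real.pi) ≤
      ENNReal.ofReal (Real.pi / 5 + 15 * Real.pi * s1 * E.card) := by
    calc ENNReal.ofReal (2 * Real.pi) = volume (Set.Icc 0 (2 * Real.pi)) := by
          rw [Real.volume_Icc, sub_zero]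
      _ ≤ volume (((S1 ∪ S2) ∪ S3) ∪ ⋃ j ∈ Finset.range 3, S4 j) := measure_mono hcov
      _ ≤ volume S1 + volume S2 + volume S3 + ∑ j ∈ Finset.range 3, volume (S4 j) := by
          refine (measure_union_le _ _).trans ?_
          gcongr
          · refine (measure_union_le _ _).trans ?_
            gcongr
            exact measure_union_le _ _
          · exact measure_biUnion_finset_le _ _
      _ ≤ ENNReal.ofReal (Real.pi / 15) + ENNReal.ofReal (Real.pi / 15)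
          + ENNReal.ofReal (Real.pi / 15)
          + ∑ j ∈ Finset.range 3, ENNReal.ofReal (E.card * (5 * Real.pi * s1)) := by
          gcongr
          exact v4 _
      _ = ENNReal.ofReal (Real.pi / 5 + 15 * Real.pi * s1 * E.card) := by
          rw [Finset.sum_const, Finset.card_range, nsmul_eq_mul, ← ENNReal.ofReal_natCast,
            ← ENNReal.ofReal_mul (by positivity), ← ENNReal.ofReal_add (by positivity)
            (by positivity), ← ENNReal.ofReal_add (by positivity) (by positivity),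
            ← ENNReal.ofReal_add (by positivity) (by positivity)]
          congr 1; push_cast; ring
  have hfin := (ENNReal.ofReal_le_ofReal_iff (by positivity)).1 hvol
  have h7 : Real.pi * (9 / 5) ≤ Real.pi * (15 * s1 * E.card) := by linarith
  have h8 := le_of_mul_le_mul_left h7 hπ
  have h9 : 0 ≤ s1 * (E.card : ℝ) := by positivity
  linarith

theorem many_same_const {B C : ℤ} (hD : B ^ 2 < 4 * C) : ∃ K1 K5 : ℝ, 1 ≤ K1 ∧ 1 ≤ K5 ∧
    ∀ (f : ℕ → ℤ), IsSign f → ∀ (s : ℤ), s = 1 ∨ s = -1 → ∀ (u : ℤ × ℤ) (q : ℕ), q.Prime →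
      nf B C u = q → ¬ (q : ℤ) ∣ 2 * u.1 + B * u.2 → f q = -1 →
      ∀ ρ : ℝ, 1 ≤ ρ → K1 ≤ ρ ^ 2 →
        ρ ^ 2 ≤ 25 * K1 * (sameF f B C (‖cv B C u‖ ^ 3 * K5 * ρ) s).card := by
  have hc := cB_ge hD
  have hm := mB_ge hD
  have hβ := bt_pos hD
  have hβc : bt B C ≤ cB B C := by
    unfold cB
    have := abs_nonneg (B : ℝ)
    linarith
  obtain ⟨c, hce⟩ : ∃ c, c = cB B C := ⟨_, rfl⟩
  obtain ⟨m, hme⟩ : ∃ m, m = mB B C := ⟨_, rfl⟩
  obtain ⟨β, hβe⟩ : ∃ β, β = bt B C := ⟨_, rfl⟩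
  rw [← hce] at hc hβc
  rw [← hme] at hm
  rw [← hβe] at hβ hβc
  have hc0 : 0 < c := by linarith
  have hm0 : 0 < m := by linarith
  have hm2 : 1 ≤ m ^ 2 := one_le_pow₀ hm
  have hc2 : 1 ≤ c ^ 2 := one_le_pow₀ hc
  obtain ⟨κ, hκ⟩ : ∃ κ : ℝ, κ = 1 / (600 * m ^ 2) := ⟨_, rfl⟩
  have hκ0 : 0 < κ := by rw [hκ]; positivity
  have hκ1 : κ ≤ 1 := by
    rw [hκ, div_le_one (by positivity)]; linarith
  have hκm : 600 * m ^ 2 * κ = 1 := by rw [hκ]; field_simp
  obtain ⟨K, hK⟩ : ∃ K : ℝ, K = 600 * m ^ 2 * c ^ 2 := ⟨_, rfl⟩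
  have hK1 : 1 ≤ K := by rw [hK]; nlinarith
  have hK0 : 0 < K := by linarith
  obtain ⟨K1, hK1e⟩ : ∃ K1 : ℝ, K1 = 24 * K := ⟨_, rfl⟩
  obtain ⟨K4, hK4⟩ : ∃ K4 : ℝ, K4 = 4 * c * K / κ := ⟨_, rfl⟩
  have hK40 : 0 < K4 := by rw [hK4]; positivity
  have hK4κ : κ * K4 = 4 * c * K := by rw [hK4]; field_simp
  have hcK4 : c ≤ K4 := by
    have h1 : c * 1 ≤ c * (4 * K) := by gcongr; linarith
    have h2 : κ * K4 ≤ 1 * K4 := by gcongr
    nlinarith
  refine ⟨K1, 2 * K4 + 1 + c, by linarith, by linarith, ?_⟩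
  intro f hf s hs u q hq hu htr hfq ρ hρ hρK
  have hρ0 : 0 < ρ := by linarith
  have hu0 : u ≠ 0 := by
    rintro rfl
    have : nf B C 0 = 0 := by simp [nf]
    rw [this] at hu
    exact hq.ne_zero (by exact_mod_cast hu.symm)
  obtain ⟨A, hA⟩ : ∃ A : ℝ, A = ‖cv B C u‖ := ⟨_, rfl⟩
  have hA1 : 1 ≤ A := by rw [hA]; exact one_le_norm_cv hD hu0
  have hA2 : 1 ≤ A ^ 2 := one_le_pow₀ hA1
  rw [← hA]
  have hmain := many_same hD hf hs (s0 := κ / ρ ^ 2) (s1 := K1 / ρ ^ 2) (ρ := ρ)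
    (ρ' := K4 * ρ) (K := K) (Rt := (2 * K4 + 1) * ρ) (R1 := A ^ 2 * ((2 * K4 + 1 + c) * ρ))
    (R := A ^ 3 * (2 * K4 + 1 + c) * ρ) (A := A) (by positivity)
    (by
      rw [← mul_div_assoc]; gcongr; linarith)
    (by rw [div_le_one (by positivity)]; exact hρK) hρ0 hK1
    (by rw [← hce]; calc c ≤ K4 * 1 := by linarith
          _ ≤ K4 * ρ := by gcongr)
    (by
      rw [← hce]
      have e : κ / ρ ^ 2 * (K4 * ρ) ^ 2 = (κ * K4) * K4 := by field_simp
      rw [e, hK4κ]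
      have h1 : 2 * c ≤ K4 := by
        have h2 : κ * K4 ≤ 1 * K4 := by gcongr
        have h3 : c * 1 ≤ c * K := by gcongr
        nlinarith
      calc 8 * c ^ 2 * K = 4 * c * K * (2 * c) := by ring
        _ ≤ 4 * c * K * K4 := by gcongr)
    (by
      rw [← hβe]
      have e : κ / ρ ^ 2 * (K4 * ρ) = κ * K4 / ρ := by field_simp
      rw [e, hK4κ]
      have e2 : 4 * β * K / (4 * c * K / ρ) = β / c * ρ := by field_simp
      rw [e2]
      have : β / c ≤ 1 := by rw [div_le_one hc0]; exact hβc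
      calc 2 * (K4 * ρ) + β / c * ρ ≤ 2 * (K4 * ρ) + 1 * ρ := by gcongr
        _ = _ := by ring)
    (by
      rw [← hβe]
      have h1 : β / ρ ≤ c * ρ := by
        rw [div_le_iff₀ hρ0]
        have : c * 1 ≤ c * (ρ * ρ) := by gcongr; nlinarith
        nlinarith
      have h2 : c * ρ ≤ A ^ 2 * (c * ρ) := le_mul_of_one_le_left (by positivity) hA2
      calc A ^ 2 * ((2 * K4 + 1) * ρ) + β / ρ ≤ A ^ 2 * ((2 * K4 + 1) * ρ) + A ^ 2 * (c * ρ) := by
            linarith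
        _ = _ := by ring)
    (le_of_eq (by ring))
    hq hu hA.ge htr hfq
    (by
      rw [← hme]
      have e : ρ * (κ / ρ ^ 2 * ρ) = κ := by field_simp
      rw [e, hκm])
    (by
      rw [← hme, ← hβe, hK1e, hK]
      have e : 600 * m ^ 2 * (8 * β / (24 * (600 * m ^ 2 * c ^ 2) / ρ ^ 2 * ρ) * (3 * β / ρ))
          = (β / c) ^ 2 := by field_simp; ring
      rw [e]
      apply pow_le_one₀ (by positivity)
      rw [div_le_one hc0]; exact hβc)
    (by
      rw [← hme, ← hce, hK]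
      have e : 600 * m ^ 2 * (K4 * ρ / (600 * m ^ 2 * c ^ 2) * (c ^ 2 / (K4 * ρ))) = 1 := by
        field_simp
      rw [e])
  have h2 : ρ ^ 2 * 1 ≤ ρ ^ 2 * (25 * (K1 / ρ ^ 2) *
      (sameF f B C (A ^ 3 * (2 * K4 + 1 + c) * ρ) s).card) := by gcongr
  calc ρ ^ 2 = ρ ^ 2 * 1 := by ring
    _ ≤ _ := h2
    _ = _ := by field_simp

/-- from unimodular pairs to integers: Cauchy-Schwarz with the divisor bound -/
theorem card_sq_le_of_pairs {X : ℕ} (hX : 1 ≤ X) (E : Finset (ℤ × ℤ)) (W : ℤ × ℤ → ℤ × ℤ)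
    (V : Finset ℤ)
    (hW : ∀ z ∈ E, z ≠ 0 ∧ ‖cv 0 1 z‖ ≤ √X ∧ ‖cv 0 1 (W z)‖ ≤ √X ∧ dt z (W z) = 1)
    (hmaps : ∀ z ∈ E, ip 0 1 z (W z) ∈ V) :
    (E.card : ℝ) ^ 2 ≤ V.card * (3 * X * (8 * (1 + Real.log X)) ^ 4) := by
  classical
  have hX0 : (0 : ℝ) < X := by exact_mod_cast hX
  have hRX : √(X : ℝ) ^ 2 = X := Real.sq_sqrt hX0.le
  have hR0 : 0 < √(X : ℝ) := Real.sqrt_pos.2 hX0
  have hWne : ∀ z ∈ E, W z ≠ 0 := by
    intro z hz h0
    have := (hW z hz).2.2.2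
    rw [h0] at this
    simp [dt] at this
  have hball : ∀ v : ℤ × ℤ, v ≠ 0 → ‖cv 0 1 v‖ ≤ √X → gi v ∈ gball X := by
    intro v hv h
    rw [mem_gball]
    refine ⟨gi_ne_zero hv, ?_⟩
    rw [gi_norm]
    have h1 := norm_cv_sq hD01 v
    have h2 : ‖cv 0 1 v‖ ^ 2 ≤ √X ^ 2 := by gcongr
    rw [h1, hRX] at h2
    exact_mod_cast h2
  obtain ⟨N, hN⟩ : ∃ N : ℤ × ℤ → ℤ, N = fun z => ip 0 1 z (W z) := ⟨_, rfl⟩
  have hmaps' : ∀ z ∈ E, N z ∈ V := by intro z hz; rw [hN]; exact hmaps z hz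
  obtain ⟨mu, hmu⟩ : ∃ mu : ℤ → ℝ, mu = fun n => ((E.filter (fun z => N z = n)).card : ℝ) :=
    ⟨_, rfl⟩
  have hmult : ∀ z ∈ E, mu (N z) ≤ gD (gi (cj 0 z)) * gD (gi (W z)) := by
    intro z hz
    obtain ⟨hz0, hzR, hwR, hdt⟩ := hW z hz
    have hprod : ∀ y ∈ E, gi (cj 0 y) * gi (W y) = gi (N y, 1) := by
      intro y hy
      rw [← gi_mulv, mulv_cj, (hW y hy).2.2.2, hN]
    have hne : gi (N z, 1) ≠ 0 := gi_ne_zero (by intro h; simpa using congrArg Prod.snd h)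
    have h1 : (E.filter (fun y => N y = N z)).card ≤ (gdivs (gi (N z, 1))).card := by
      apply Finset.card_le_card_of_injOn (fun y => gi (cj 0 y))
      · intro y hy
        rw [Finset.mem_coe, Finset.mem_filter] at hy
        rw [Finset.mem_coe, mem_gdivs hne, ← hy.2, ← hprod y hy.1]
        exact Dvd.intro _ rfl
      · intro a _ b _ hab
        have h2 := gi_inj hab
        have h3 := congrArg Prod.fst h2
        have h4 := congrArg Prod.snd h2
        simp only [cj, zero_mul, add_zero, neg_inj] at h3 h4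
        exact Prod.ext h3 h4
    calc mu (N z) ≤ gD (gi (N z, 1)) := by
          simp only [hmu]; unfold gD; exact_mod_cast h1
      _ = gD (gi (cj 0 z) * gi (W z)) := by rw [hprod z hz]
      _ ≤ _ := gD_mul (gi_ne_zero (cj_ne_zero hz0)) (gi_ne_zero (hWne z hz))
  have hsum1 : (E.card : ℝ) = ∑ n ∈ V, mu n := by
    rw [hmu, Finset.card_eq_sum_card_fiberwise hmaps']; push_cast; rfl
  have hsum2 : ∑ n ∈ V, mu n ^ 2 = ∑ z ∈ E, mu (N z) := by
    rw [← Finset.sum_fiberwise_of_maps_to hmaps']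
    apply Finset.sum_congr rfl
    intro n _
    have : ∑ z ∈ E.filter (fun z => N z = n), mu (N z)
        = ∑ z ∈ E.filter (fun z => N z = n), mu n := by
      apply Finset.sum_congr rfl
      intro z hz
      rw [Finset.mem_filter] at hz
      rw [hz.2]
    rw [this, Finset.sum_const, nsmul_eq_mul, pow_two, hmu]
  have hCS : (E.card : ℝ) ^ 2 ≤ V.card * ∑ z ∈ E, mu (N z) := by
    rw [hsum1, ← hsum2]
    exact sq_sum_le_card_mul_sum_sq
  have hS2 := sum_gD_sq_le hX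
  obtain ⟨F, hF⟩ : ∃ F : ℝ, F = ∑ z ∈ gball X, gD z ^ 2 / z.norm := ⟨_, rfl⟩
  rw [← hF] at hS2
  have hnormpos : ∀ y ∈ gball X, (0 : ℝ) < (y.norm : ℤ) := by
    intro y hy
    exact_mod_cast gnorm_pos (mem_gball.1 hy).1
  have hnormle : ∀ y ∈ gball X, ((y.norm : ℤ) : ℝ) ≤ X := by
    intro y hy
    exact_mod_cast (mem_gball.1 hy).2
  have hfirst : ∑ z ∈ E, gD (gi (cj 0 z)) ^ 2 ≤ X * F := by
    calc ∑ z ∈ E, gD (gi (cj 0 z)) ^ 2 = ∑ y ∈ E.image (fun z => gi (cj 0 z)), gD y ^ 2 := by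
          rw [Finset.sum_image]
          intro a _ b _ hab
          have h2 := gi_inj hab
          have h3 := congrArg Prod.fst h2
          have h4 := congrArg Prod.snd h2
          simp only [cj, zero_mul, add_zero, neg_inj] at h3 h4
          exact Prod.ext h3 h4
      _ ≤ ∑ y ∈ gball X, gD y ^ 2 := by
          apply Finset.sum_le_sum_of_subset_of_nonneg
          · intro y hy
            rw [Finset.mem_image] at hy
            obtain ⟨z, hz, rfl⟩ := hy
            apply hball _ (cj_ne_zero (hW z hz).1)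
            rw [cv_cj, norm_conj]; exact (hW z hz).2.1
          · intro y _ _; positivity
      _ ≤ ∑ y ∈ gball X, X * (gD y ^ 2 / y.norm) := by
          apply Finset.sum_le_sum
          intro y hy
          have h1 := hnormpos y hy
          have h2 := hnormle y hy
          rw [← mul_div_assoc, le_div_iff₀ h1, mul_comm]
          gcongr
      _ = X * F := by rw [← Finset.mul_sum, hF]
  have hmapsW : ∀ z ∈ E, gi (W z) ∈ gball X := fun z hz =>
    hball _ (hWne z hz) (hW z hz).2.2.1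
  have hsecond : ∑ z ∈ E, gD (gi (W z)) ^ 2 ≤ 5 * X * F := by
    rw [← Finset.sum_fiberwise_of_maps_to hmapsW]
    calc ∑ y ∈ gball X, ∑ z ∈ E.filter (fun z => gi (W z) = y), gD (gi (W z)) ^ 2
        ≤ ∑ y ∈ gball X, (5 * X / y.norm) * gD y ^ 2 := by
          apply Finset.sum_le_sum
          intro y hy
          have h1 : ∑ z ∈ E.filter (fun z => gi (W z) = y), gD (gi (W z)) ^ 2
              = ∑ z ∈ E.filter (fun z => gi (W z) = y), gD y ^ 2 := by
            apply Finset.sum_congr rfl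
            intro z hz
            rw [Finset.mem_filter] at hz
            rw [hz.2]
          rw [h1, Finset.sum_const, nsmul_eq_mul]
          apply mul_le_mul_of_nonneg_right _ (by positivity)
          have hyn := hnormpos y hy
          rcases (E.filter (fun z => gi (W z) = y)).eq_empty_or_nonempty with h0 | ⟨z1, hz1⟩
          · rw [h0, Finset.card_empty, Nat.cast_zero]
            exact div_nonneg (by positivity) hyn.le
          rw [Finset.mem_filter] at hz1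
          obtain ⟨hz1E, hz1y⟩ := hz1
          have h2 := card_nbr (w := W z1) (R := √X) (E.filter (fun z => gi (W z) = y))
            (hWne z1 hz1E) (hW z1 hz1E).2.2.1 (by
              intro z hz
              rw [Finset.mem_filter] at hz
              have h3 : W z = W z1 := gi_inj (hz.2.trans hz1y.symm)
              rw [← h3]
              exact ⟨(hW z hz.1).2.2.2, (hW z hz.1).2.1⟩)
          have h4 : ‖cv 0 1 (W z1)‖ ^ 2 = (y.norm : ℤ) := by
            rw [norm_cv_sq hD01, ← gi_norm, hz1y]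
          have h5 := one_le_norm_cv hD01 (hWne z1 hz1E)
          have h6 : 0 < ‖cv 0 1 (W z1)‖ := by linarith
          calc ((E.filter (fun z => gi (W z) = y)).card : ℝ) ≤ 5 * √X / ‖cv 0 1 (W z1)‖ := h2
            _ = 5 * (√X * ‖cv 0 1 (W z1)‖) / ‖cv 0 1 (W z1)‖ ^ 2 := by field_simp
            _ ≤ 5 * (√X * √X) / ‖cv 0 1 (W z1)‖ ^ 2 := by
                gcongr; exact (hW z1 hz1E).2.2.1
            _ = 5 * X / y.norm := by rw [← pow_two, hRX, h4]
      _ = 5 * X * F := by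
          rw [hF, Finset.mul_sum]
          apply Finset.sum_congr rfl
          intro y _; ring
  have htot : ∑ z ∈ E, mu (N z) ≤ 3 * X * F := by
    calc ∑ z ∈ E, mu (N z)
        ≤ ∑ z ∈ E, (gD (gi (cj 0 z)) ^ 2 + gD (gi (W z)) ^ 2) / 2 := by
          apply Finset.sum_le_sum
          intro z hz
          refine (hmult z hz).trans ?_
          nlinarith [sq_nonneg (gD (gi (cj 0 z)) - gD (gi (W z)))]
      _ = (∑ z ∈ E, gD (gi (cj 0 z)) ^ 2 + ∑ z ∈ E, gD (gi (W z)) ^ 2) / 2 := by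
          rw [← Finset.sum_div, Finset.sum_add_distrib]
      _ ≤ (X * F + 5 * X * F) / 2 := by gcongr
      _ = _ := by ring
  calc (E.card : ℝ) ^ 2 ≤ V.card * ∑ z ∈ E, mu (N z) := hCS
    _ ≤ V.card * (3 * X * F) := by gcongr
    _ ≤ _ := by gcongr

end Pool.Agent.FareyParity
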