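import Mathlib
import Pool.Agent.FareyParity.Cover
import Pool.Agent.FareyParity.Approx

set_option autoImplicit false

/-!
# Vectors of odd norm: the case `T^2 + C`, `C` odd, `n` even
-/

namespace Pool.Agent.FareyParity

open Complex ComplexConjugate MeasureTheory

variable {B C : ℤ}

/-- vectors whose coordinate sum is odd -/
def od (v : ℤ × ℤ) : Prop := (v.1 + v.2) % 2 = 1

theorem od_ne_zero {v : ℤ × ℤ} (h : od v) : v ≠ 0 := by
  rintro rfl; simp [od] at h

/-- between two vectors of odd norm of different colours there is a bicoloured unimodular pair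
of odd norm whose sum or difference lies between them -/
theorem exists_bad_pair_odd {S : Set (ℤ × ℤ)} (hS : TriClosed S) {R : ℝ}
    (hSR : ∀ v ∈ S, ‖cv B C v‖ ≤ R) {g : ℤ × ℤ → ℤ}
    (hg : ∀ (k : ℤ) (v : ℤ × ℤ), k ≠ 0 → g (k • v) = g v) :
    ∀ (n : ℕ) (P Q : ℤ × ℤ), P ∈ S → Q ∈ S → od P → od Q → g P ≠ g Q → dt P Q = n →
      ∃ p q v : ℤ × ℤ, od p ∧ od q ∧ ‖cv B C p‖ ≤ R ∧ ‖cv B C q‖ ≤ R ∧ dt p q = 1 ∧
        g p ≠ g q ∧ v ≠ 0 ∧ ((v = p + q ∧ p ∈ S ∧ q ∈ S) ∨ (v = q - p ∧ v ∈ S)) := by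
  intro n
  induction n using Nat.strong_induction_on with
  | _ n ih =>
    intro P Q hPS hQS hPo hQo hne hdt
    have hP := od_ne_zero hPo
    have hQ := od_ne_zero hQo
    obtain ⟨k, P0, hk, hPk, hP0⟩ := exists_primitive hP
    obtain ⟨l, Q0, hl, hQl, hQ0⟩ := exists_primitive hQ
    have hP00 : P0 ≠ 0 := by rintro rfl; simp [hPk] at hP
    have hQ00 : Q0 ≠ 0 := by rintro rfl; simp [hQl] at hQ
    have hodd : ∀ (k : ℤ) (v : ℤ × ℤ), od (k • v) → od v := by
      intro k v hv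
      simp only [od, Prod.smul_fst, Prod.smul_snd, smul_eq_mul, ← mul_add] at hv ⊢
      rcases Int.emod_two_eq_zero_or_one (v.1 + v.2) with h | h
      · exfalso
        have : (k * (v.1 + v.2)) % 2 = 0 := by rw [Int.mul_emod, h]; simp
        omega
      · exact h
    have hP0o : od P0 := hodd k P0 (hPk ▸ hPo)
    have hQ0o : od Q0 := hodd l Q0 (hQl ▸ hQo)
    have hP0S : P0 ∈ S := hS P hPS P hPS P0 hP00 k 1 0 hk (by norm_num) le_rfl (by omega)
      (by simp [← hPk])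
    have hQ0S : Q0 ∈ S := hS Q hQS Q hQS Q0 hQ00 l 1 0 hl (by norm_num) le_rfl (by omega)
      (by simp [← hQl])
    have hne0 : g P0 ≠ g Q0 := by
      rw [hPk, hQl, hg k _ hk.ne', hg l _ hl.ne'] at hne; exact hne
    have hdt0 : dt P Q = k * l * dt P0 Q0 := by
      rw [hPk, hQl]; simp only [dt, Prod.smul_fst, Prod.smul_snd, smul_eq_mul]; ring
    have hd0 : 0 ≤ dt P0 Q0 := by
      by_contra hneg
      push Not at hneg
      have : k * l * dt P0 Q0 < 0 := mul_neg_of_pos_of_neg (mul_pos hk hl) hneg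
      omega
    have hdle : dt P0 Q0 ≤ n := by
      rw [← hdt, hdt0]
      have : 1 ≤ k * l := by nlinarith
      nlinarith
    have hd1 : dt P0 Q0 ≠ 0 := by
      intro h0
      obtain ⟨e, he⟩ := eq_smul_of_dt_eq_zero hP0 h0
      have he0 : e ≠ 0 := by rintro rfl; simp at he; exact hQ00 he
      rw [he, hg e _ he0] at hne0
      exact hne0 rfl
    have hne_of_dt : ∀ {a b : ℤ × ℤ}, dt a b = 1 → a + b ≠ 0 := by
      intro a b hab h
      have h1 : dt a (a + b) = dt a b := by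
        simp only [dt, Prod.fst_add, Prod.snd_add]; ring
      rw [h, hab] at h1
      simp [dt] at h1
    obtain ⟨w0, hw0⟩ := exists_partner hP0
    obtain ⟨D, hD⟩ : ∃ D : ℤ, D = dt P0 Q0 := ⟨_, rfl⟩
    have hDpos : 0 < D := by omega
    rcases eq_or_lt_of_le (show (1 : ℤ) ≤ D by omega) with h1 | h1
    · have hd : dt P0 Q0 = 1 := by omega
      exact ⟨P0, Q0, P0 + Q0, hP0o, hQ0o, hSR _ hP0S, hSR _ hQ0S, hd, hne0, hne_of_dt hd,
        Or.inl ⟨rfl, hP0S, hQ0S⟩⟩
    · obtain ⟨e, he⟩ : ∃ e : ℤ, Q0 - D • w0 = e • P0 := by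
        apply eq_smul_of_dt_eq_zero hP0
        have : dt P0 (Q0 - D • w0) = dt P0 Q0 - D * dt P0 w0 := by
          simp only [dt, Prod.fst_sub, Prod.snd_sub, Prod.smul_fst, Prod.smul_snd, smul_eq_mul]
          ring
        rw [this, hw0, hD]; ring
      have hQe : Q0 = e • P0 + D • w0 := by rw [← he]; abel
      obtain ⟨e0, he0⟩ : ∃ e0 : ℤ, e0 = e % D := ⟨_, rfl⟩
      have he0n : 0 ≤ e0 := by rw [he0]; exact Int.emod_nonneg _ hDpos.ne'
      have he0l : e0 < D := by rw [he0]; exact Int.emod_lt_of_pos _ hDpos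
      obtain ⟨w1, hw1⟩ : ∃ w1 : ℤ × ℤ, w1 = w0 + (e / D) • P0 := ⟨_, rfl⟩
      have hediv : e = e0 + D * (e / D) := by rw [he0]; exact (Int.emod_add_mul_ediv e D).symm
      have hQ1 : Q0 = e0 • P0 + D • w1 := by
        rw [hw1, hQe, smul_add, smul_smul]
        nth_rewrite 1 [hediv]
        rw [add_smul]; abel
      have he0pos : e0 ≠ 0 := by
        intro h0
        rw [h0, zero_smul, zero_add] at hQ1
        obtain ⟨a, b, hab⟩ := hQ0
        rw [hQ1] at hab
        simp only [Prod.smul_fst, Prod.smul_snd, smul_eq_mul] at hab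
        have : D ∣ 1 := ⟨a * w1.1 + b * w1.2, by linarith⟩
        have := Int.le_of_dvd one_pos this
        omega
      obtain ⟨v, hv⟩ : ∃ v : ℤ × ℤ, v = w1 + P0 := ⟨_, rfl⟩
      have hDv : D • v = (D - e0) • P0 + (1 : ℤ) • Q0 := by
        rw [hv, hQ1, smul_add, sub_smul, one_smul]; abel
      have hdPw1 : dt P0 w1 = 1 := by
        rw [hw1]
        have : dt P0 (w0 + (e / D) • P0) = dt P0 w0 := by
          simp only [dt, Prod.fst_add, Prod.snd_add, Prod.smul_fst, Prod.smul_snd, smul_eq_mul]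
          ring
        rw [this, hw0]
      have hdPv : dt P0 v = 1 := by
        rw [hv]
        have : dt P0 (w1 + P0) = dt P0 w1 := by
          simp only [dt, Prod.fst_add, Prod.snd_add]; ring
        rw [this, hdPw1]
      have hdvQ : dt v Q0 = D - e0 := by
        have h : dt v Q0 = D * dt P0 w1 - e0 * dt P0 w1 := by
          rw [hv, hQ1]
          simp only [dt, Prod.fst_add, Prod.snd_add, Prod.smul_fst, Prod.smul_snd, smul_eq_mul]
          ring
        rw [h, hdPw1]; ring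
      have hv0 : v ≠ 0 := by rintro rfl; simp [dt] at hdPv
      have hvS : v ∈ S := hS P0 hP0S Q0 hQ0S v hv0 D (D - e0) 1 hDpos (by omega) (by norm_num)
        (by omega) hDv
      rcases Int.emod_two_eq_zero_or_one (v.1 + v.2) with hve | hvo
      · -- `v` has even norm
        obtain ⟨m, hm⟩ : ∃ m : ℤ, m = D - e0 := ⟨_, rfl⟩
        have hmpos : 0 < m := by omega
        have hmD : m < D := by omega
        obtain ⟨j, hj⟩ : ∃ j : ℤ, j = (D + m - 1) / m := ⟨_, rfl⟩
        have hj1 : D ≤ j * m := by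
          have h2 := Int.emod_add_mul_ediv (D + m - 1) m
          have h3 := Int.emod_lt_of_pos (D + m - 1) hmpos
          rw [← hj] at h2
          nlinarith
        have hj2 : j * m ≤ D + m - 1 := by
          have h2 := Int.emod_add_mul_ediv (D + m - 1) m
          have h3 := Int.emod_nonneg (D + m - 1) hmpos.ne'
          rw [← hj] at h2
          nlinarith
        have hjpos : 0 < j := by
          by_contra hcon
          push Not at hcon
          nlinarith
        obtain ⟨Pj, hPj⟩ : ∃ Pj : ℤ × ℤ, Pj = j • v - P0 := ⟨_, rfl⟩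
        have hmPj : m • Pj = (j * m - D) • v + (1 : ℤ) • Q0 := by
          have h2 : Q0 = D • v - m • P0 := by
            rw [hDv, ← hm, one_smul]; abel
          rw [hPj, h2, smul_sub, smul_smul, sub_smul, one_smul, mul_comm m j]; abel
        have hPjo : od Pj := by
          simp only [od, hPj, Prod.fst_sub, Prod.snd_sub, Prod.smul_fst, Prod.smul_snd,
            smul_eq_mul] at hP0o ⊢
          have h2 : (j * v.1 - P0.1 + (j * v.2 - P0.2)) = j * (v.1 + v.2) - (P0.1 + P0.2) := by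
            ring
          rw [h2, Int.sub_emod, Int.mul_emod, hve, hP0o]; simp
        have hPj0 := od_ne_zero hPjo
        have hPjS : Pj ∈ S := hS v hvS Q0 hQ0S Pj hPj0 m (j * m - D) 1 hmpos (by omega)
          (by norm_num) (by omega) hmPj
        have hdPjQ : dt Pj Q0 = j * m - D := by
          have h2 : dt Pj Q0 = j * dt v Q0 - dt P0 Q0 := by
            rw [hPj]; simp only [dt, Prod.fst_sub, Prod.snd_sub, Prod.smul_fst, Prod.smul_snd,
              smul_eq_mul]; ring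
          rw [h2, hdvQ, ← hm, hD]
        by_cases hgj : g Pj = g Q0
        · -- go around `v`
          have hgP : g P0 ≠ g (P0 - j • v) := by
            have h2 : P0 - j • v = (-1 : ℤ) • Pj := by rw [hPj]; simp
            rw [h2, hg (-1) _ (by norm_num), hgj]; exact hne0
          obtain ⟨J, hJ⟩ : ∃ J : ℕ, (J : ℤ) = j := ⟨j.toNat, by omega⟩
          have hex : ∃ i : ℕ, i < J ∧
              g (P0 - (i : ℤ) • v) ≠ g (P0 - ((i + 1 : ℕ) : ℤ) • v) := by
            by_contra hcon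
            push Not at hcon
            have : ∀ i : ℕ, i ≤ J → g (P0 - (i : ℤ) • v) = g P0 := by
              intro i
              induction i with
              | zero => intro _; simp
              | succ i ih2 =>
                intro hi
                rw [← hcon i (by omega), ih2 (by omega)]
            apply hgP
            rw [← hJ, this J le_rfl]
          obtain ⟨i, hiJ, hi⟩ := hex
          obtain ⟨q, hq⟩ : ∃ q : ℤ × ℤ, q = P0 - (i : ℤ) • v := ⟨_, rfl⟩
          obtain ⟨p, hp⟩ : ∃ p : ℤ × ℤ, p = P0 - ((i + 1 : ℕ) : ℤ) • v := ⟨_, rfl⟩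
          have hnorm : ∀ i' : ℕ, i' ≤ J → ‖cv B C (P0 - (i' : ℤ) • v)‖ ≤ R := by
            intro i' hi'
            have hJ0 : (0 : ℝ) < J := by
              have : 0 < J := by omega
              exact_mod_cast this
            have e1 : (J : ℂ) * cv B C (P0 - (i' : ℤ) • v)
                = ((J : ℂ) - i') * cv B C P0 + i' * (-(cv B C Pj)) := by
              have h2 : ∀ i'' : ℤ, cv B C (P0 - i'' • v) = cv B C P0 - i'' * cv B C v := by
                intro i''
                have : P0 - i'' • v = P0 + (-i'') • v := by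
                  rw [neg_smul, sub_eq_add_neg]
                rw [this, cv_add, cv_smul]; push_cast; ring
              have h3 : -(cv B C Pj) = cv B C P0 - (J : ℂ) * cv B C v := by
                have : Pj = (-1 : ℤ) • (P0 - (J : ℤ) • v) := by rw [hPj, hJ]; simp
                rw [this, cv_smul, h2]; push_cast; ring
              rw [h3, h2]; push_cast; ring
            have h4 : (J : ℝ) * ‖cv B C (P0 - (i' : ℤ) • v)‖ ≤ J * R := by
              have hi'' : (i' : ℝ) ≤ J := by exact_mod_cast hi'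
              calc (J : ℝ) * ‖cv B C (P0 - (i' : ℤ) • v)‖
                  = ‖(J : ℂ) * cv B C (P0 - (i' : ℤ) • v)‖ := by
                    rw [norm_mul, Complex.norm_natCast]
                _ = ‖((J : ℂ) - i') * cv B C P0 + i' * (-(cv B C Pj))‖ := by rw [e1]
                _ ≤ ‖((J : ℂ) - i') * cv B C P0‖ + ‖(i' : ℂ) * (-(cv B C Pj))‖ :=
                    norm_add_le _ _
                _ = (J - i') * ‖cv B C P0‖ + i' * ‖cv B C Pj‖ := by
                    rw [norm_mul, norm_mul, norm_neg, Complex.norm_natCast]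
                    have : ((J : ℂ) - i') = (((J : ℝ) - i' : ℝ) : ℂ) := by push_cast; rfl
                    rw [this, Complex.norm_real, Real.norm_eq_abs,
                      abs_of_nonneg (by linarith)]
                _ ≤ (J - i') * R + i' * R := by
                    have a1 := hSR _ hP0S
                    have a2 := hSR _ hPjS
                    have a3 : (0 : ℝ) ≤ J - i' := by linarith
                    gcongr
                _ = J * R := by ring
            exact le_of_mul_le_mul_left h4 hJ0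
          have hodi : ∀ i' : ℤ, od (P0 - i' • v) := by
            intro i'
            simp only [od, Prod.fst_sub, Prod.snd_sub, Prod.smul_fst, Prod.smul_snd,
              smul_eq_mul] at hP0o ⊢
            have h2 : (P0.1 - i' * v.1 + (P0.2 - i' * v.2))
                = (P0.1 + P0.2) - i' * (v.1 + v.2) := by ring
            rw [h2, Int.sub_emod, Int.mul_emod, hve, hP0o]; simp
          refine ⟨p, q, v, ?_, ?_, ?_, ?_, ?_, ?_, hv0, Or.inr ⟨?_, hvS⟩⟩
          · rw [hp]; exact hodi _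
          · rw [hq]; exact hodi _
          · rw [hp]; exact hnorm _ (by omega)
          · rw [hq]; exact hnorm _ (by omega)
          · have h2 : dt p q = dt P0 v := by
              rw [hp, hq]
              simp only [dt, Prod.fst_sub, Prod.snd_sub, Prod.smul_fst, Prod.smul_snd,
                smul_eq_mul]
              push_cast; ring
            rw [h2, hdPv]
          · rw [hp, hq]; exact fun h => hi h.symm
          · rw [hp, hq]; push_cast; rw [add_smul, one_smul]; abel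
        · exact ih (j * m - D).toNat (by omega) Pj Q0 hPjS hQ0S hPjo hQ0o hgj (by
            rw [hdPjQ]; omega)
      · by_cases hgv : g P0 = g v
        · have hgv' : g v ≠ g Q0 := by rw [← hgv]; exact hne0
          have hlt : (D - e0).toNat < n := by omega
          exact ih _ hlt v Q0 hvS hQ0S hvo hQ0o hgv' (by rw [hdvQ]; omega)
        · exact ⟨P0, v, P0 + v, hP0o, hvo, hSR _ hP0S, hSR _ hvS, hdPv, hgv, hne_of_dt hdPv,
            Or.inl ⟨rfl, hP0S, hvS⟩⟩

/-- in the cone around `p` there is the sum or difference of a bicoloured unimodular pair of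
vectors of odd norm -/
def HasBadE (f : ℕ → ℤ) (B C : ℤ) (p : ℂ) (s R : ℝ) : Prop :=
  ∃ a b v : ℤ × ℤ, od a ∧ od b ∧ ‖cv B C a‖ ≤ R ∧ ‖cv B C b‖ ≤ R ∧ dt a b = 1 ∧
    col f B C a ≠ col f B C b ∧ v ≠ 0 ∧ (v = a + b ∨ v = b - a) ∧ v ∈ NearSet B C p s (2 * R)

/-- there is a vector of odd norm in the cone -/
def GoodE (B C : ℤ) (p : ℂ) (s ρ : ℝ) : Prop := ∃ u : ℤ × ℤ, od u ∧ u ∈ NearSet B C p s ρ

theorem nearSet_add {p : ℂ} {s R : ℝ} {a b : ℤ × ℤ} (ha : a ∈ NearSet B C p s R)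
    (hb : b ∈ NearSet B C p s R) : a + b ∈ NearSet B C p s (2 * R) := by
  constructor
  · rw [cv_add]
    calc _ ≤ ‖cv B C a‖ + ‖cv B C b‖ := norm_add_le _ _
      _ ≤ 2 * R := by linarith [ha.1, hb.1]
  · rw [cv_add, mul_add, add_im, add_re]
    calc _ ≤ |(conj p * cv B C a).im| + |(conj p * cv B C b).im| := abs_add_le _ _
      _ ≤ s * ((conj p * cv B C a).re + (conj p * cv B C b).re) := by
          rw [mul_add]; exact add_le_add ha.2 hb.2

theorem mono_of_not_hasBadE {f : ℕ → ℤ} (hf : IsSign f) {p : ℂ} {s R : ℝ} (hR : 0 ≤ R)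
    (h : ¬ HasBadE f B C p s R) {P Q : ℤ × ℤ} (hP : P ∈ NearSet B C p s R)
    (hQ : Q ∈ NearSet B C p s R) (hPo : od P) (hQo : od Q) : col f B C P = col f B C Q := by
  by_contra hne
  apply h
  have hg : ∀ (k : ℤ) (v : ℤ × ℤ), k ≠ 0 → col f B C (k • v) = col f B C v :=
    fun k v hk => col_smul hf hk v
  have key : ∀ P Q : ℤ × ℤ, P ∈ NearSet B C p s R → Q ∈ NearSet B C p s R → od P → od Q →
      col f B C P ≠ col f B C Q → 0 ≤ dt P Q → HasBadE f B C p s R := by
    intro P Q hP hQ hPo hQo hne h0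
    obtain ⟨a, b, v, ha, hb, haR, hbR, hd, hc, hv0, hv⟩ :=
      exists_bad_pair_odd (triClosed_nearSet p hR) (fun v hv => hv.1) hg (dt P Q).toNat P Q hP hQ
        hPo hQo hne (by omega)
    refine ⟨a, b, v, ha, hb, haR, hbR, hd, hc, hv0, ?_, ?_⟩
    · rcases hv with ⟨h1, -⟩ | ⟨h1, -⟩
      · exact Or.inl h1
      · exact Or.inr h1
    · rcases hv with ⟨h1, h2, h3⟩ | ⟨h1, h2⟩
      · rw [h1]; exact nearSet_add h2 h3
      · exact nearSet_mono (by linarith) h2
  rcases le_total 0 (dt P Q) with h1 | h1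
  · exact key P Q hP hQ hPo hQo hne h1
  · exact key Q P hQ hP hQo hPo (fun h => hne h.symm) (by rw [dt_swap]; omega)

theorem od_mulv {C : ℤ} (hC : C % 2 = 1) {u v : ℤ × ℤ} (hu : od u) (hv : od v) :
    od (mulv 0 C u v) := by
  simp only [od, mulv] at *
  have h : (u.1 * v.1 - C * u.2 * v.2 + (u.1 * v.2 + v.1 * u.2 + 0 * u.2 * v.2))
      = (u.1 + u.2) * (v.1 + v.2) - (C + 1) * (u.2 * v.2) := by ring
  have h2 : (C + 1) % 2 = 0 := by omega
  rw [h, Int.sub_emod, Int.mul_emod, hu, hv, Int.mul_emod (C + 1), h2]; simp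

theorem chainE {C : ℤ} (hD : (0 : ℤ) ^ 2 < 4 * C) (hC : C % 2 = 1) {f : ℕ → ℤ} (hf : IsSign f)
    {s ρ A R : ℝ} (hAρ : A * ρ ≤ R) (hρ : 0 ≤ ρ) (hρR : ρ ≤ R) :
    ∀ (L : List (ℤ × ℤ)), (∀ v ∈ L, od v ∧ ‖cv 0 C v‖ ≤ A) → ∀ p : ℂ,
      (∀ q ∈ offs 0 C L, GoodE 0 C (p * q) s ρ ∧ ¬ HasBadE f 0 C (p * q) s R) →
      ∀ u ∈ NearSet 0 C p s ρ, od u →
      ∀ u' ∈ NearSet 0 C (p * (L.map (un 0 C)).prod) s R, od u' →
        col f 0 C u' = col f 0 C u * (L.map (col f 0 C)).prod := by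
  intro L
  induction L with
  | nil =>
    intro _ p hq u hu hu0 u' hu' hu0'
    have h1 := hq 1 (by simp [offs])
    rw [mul_one] at h1
    simp only [List.map_nil, List.prod_nil, mul_one] at hu' ⊢
    exact mono_of_not_hasBadE hf (hρ.trans hρR) h1.2 hu' (nearSet_mono hρR hu) hu0' hu0
  | cons α L ih =>
    intro hL p hq u hu hu0 u' hu' hu0'
    have hα := hL α (by simp)
    have h1 := hq (un 0 C α) (by
      simp only [offs, List.mem_cons, List.mem_map]
      exact Or.inr ⟨1, one_mem_offs L, by rw [mul_one]⟩)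
    obtain ⟨u1, hu10, hu1⟩ := h1.1
    have hm := mono_of_not_hasBadE hf (hρ.trans hρR) h1.2 (nearSet_mono hρR hu1)
      (mulv_mem_nearSet hD (od_ne_zero hα.1) hα.2 hAρ hu) hu10 (od_mulv hC hα.1 hu0)
    have := ih (fun v hv => hL v (by simp [hv])) (p * un 0 C α) (by
        intro q hq'
        rw [mul_assoc]
        apply hq
        simp only [offs, List.mem_cons, List.mem_map]
        exact Or.inr ⟨q, hq', rfl⟩) u1 hu1 hu10 u' (by
        rw [mul_assoc]; simpa using hu') hu0'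
    rw [this, hm, col_mulv hf]
    simp only [List.map_cons, List.prod_cons]
    ring

theorem exists_offE {C : ℤ} (hD : (0 : ℤ) ^ 2 < 4 * C) (hC : C % 2 = 1) {f : ℕ → ℤ}
    (hf : IsSign f) {s ρ A R η : ℝ}
    (hs : 0 < s) (hs4 : s ≤ 1 / 4) (hη : |η| ≤ s)
    (hAρ : A * ρ ≤ R) (hρ : 0 ≤ ρ) (hρR : ρ ≤ R) {L : List (ℤ × ℤ)}
    (hL : ∀ v ∈ L, od v ∧ ‖cv 0 C v‖ ≤ A) (hprod : (L.map (un 0 C)).prod = exp (η * I))
    (hcol : (L.map (col f 0 C)).prod = -1) (p : ℂ) :
    ∃ q ∈ offs 0 C L, ¬ GoodE 0 C (p * q) s ρ ∨ HasBadE f 0 C (p * q) (4 * s) R := by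
  by_contra hcon
  push Not at hcon
  have hnb : ∀ q ∈ offs 0 C L, GoodE 0 C (p * q) s ρ ∧ ¬ HasBadE f 0 C (p * q) s R := by
    intro q hq
    refine ⟨(hcon q hq).1, fun ⟨a, b, v, h1, h2, h3, h4, h5, h6, h7, h8, h9⟩ =>
      (hcon q hq).2 ⟨a, b, v, h1, h2, h3, h4, h5, h6, h7, h8, nearSet_slope hs h9⟩⟩
  obtain ⟨u, hu0, hu⟩ := (hcon 1 (one_mem_offs L)).1
  rw [mul_one] at hu
  have hend : (L.map (un 0 C)).prod ∈ offs 0 C L := by
    clear hnb hcon hcol hprod hL
    induction L with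
    | nil => simp [offs]
    | cons v l ih =>
      simp only [offs, List.map_cons, List.prod_cons, List.mem_cons, List.mem_map]
      exact Or.inr ⟨_, ih, rfl⟩
  obtain ⟨u', hu0', hu'⟩ := (hcon _ hend).1
  have h1 := chainE hD hC hf hAρ hρ hρR L hL p hnb u hu hu0 u' (nearSet_mono hρR hu') hu0'
  rw [hprod] at hu'
  have h2 : u' ∈ NearSet 0 C p (4 * s) R := nearSet_turn hs hs4 hη (nearSet_mono hρR hu')
  have h3 := hcon 1 (one_mem_offs L)
  rw [mul_one] at h3
  have h4 := mono_of_not_hasBadE hf (hρ.trans hρR) h3.2 h2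
    (nearSet_slope hs (nearSet_mono hρR hu)) hu0' hu0
  rw [hcol, h4] at h1
  rcases col_val hf hD (od_ne_zero hu0) with h | h <;> rw [h] at h1 <;> norm_num at h1

/-- product of a small slope and a pair with small `Im` -/
theorem slope_mul {a b : ℂ} {s t : ℝ} (hs : 0 ≤ s) (ht : 0 ≤ t) (hst : s * t ≤ 1 / 2)
    (ha : |a.im| ≤ s * a.re) (hb : |b.im| ≤ t * b.re) (ha0 : 0 ≤ a.re) (hb0 : 0 ≤ b.re) :
    |(a * b).im| ≤ 2 * (s + t) * (a * b).re := by
  have h1 : (a * b).re = a.re * b.re - a.im * b.im := mul_re a b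
  have h2 : (a * b).im = a.re * b.im + a.im * b.re := mul_im a b
  have h3 : |a.im * b.im| ≤ 1 / 2 * (a.re * b.re) := by
    rw [abs_mul]
    calc |a.im| * |b.im| ≤ (s * a.re) * (t * b.re) := by gcongr
      _ = (s * t) * (a.re * b.re) := by ring
      _ ≤ 1 / 2 * (a.re * b.re) := by gcongr
  have h4 : a.re * b.re / 2 ≤ (a * b).re := by
    rw [h1]; linarith [le_abs_self (a.im * b.im)]
  calc |(a * b).im| ≤ |a.re * b.im| + |a.im * b.re| := by rw [h2]; exact abs_add_le _ _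
    _ = a.re * |b.im| + |a.im| * b.re := by
        rw [abs_mul, abs_mul, abs_of_nonneg ha0, abs_of_nonneg hb0]
    _ ≤ a.re * (t * b.re) + (s * a.re) * b.re := by gcongr
    _ = 2 * (s + t) * (a.re * b.re / 2) := by ring
    _ ≤ 2 * (s + t) * (a * b).re := by gcongr

/-- a direction is good for odd vectors unless it is very close to a very short vector -/
theorem goodE_or_short {C : ℤ} (hD : (0 : ℤ) ^ 2 < 4 * C) {p : ℂ} (hp : ‖p‖ = 1) {ρ K s : ℝ}
    (hρ : cB 0 C ≤ ρ) (hK : 1 ≤ K) (hρK : 16 * cB 0 C ^ 2 * K ^ 2 ≤ ρ ^ 2)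
    (hs : s = 8 * cB 0 C ^ 2 * K ^ 2 / ρ ^ 2) :
    GoodE 0 C p s (4 * ρ) ∨
      ∃ v : ℤ × ℤ, v ≠ 0 ∧ ‖cv 0 C v‖ < ρ / K ∧
        |(conj p * cv 0 C v).im| ≤ cB 0 C ^ 2 / ρ := by
  obtain ⟨u, hu0, hun, hui, hur⟩ := dirichlet_dir hD hp hρ
  have hc := cB_ge hD
  have hb := bt_pos hD
  have hbc : bt 0 C ≤ cB 0 C := by
    unfold cB
    have := abs_nonneg (((0 : ℤ) : ℝ))
    linarith
  have hρ0 : 0 < ρ := by linarith
  have hK0 : 0 < K := by linarith
  obtain ⟨k, v, hk, huk, hcop⟩ := exists_primitive hu0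
  have hv0 : v ≠ 0 := by rintro rfl; simp [huk] at hu0
  have hk1 : (1 : ℝ) ≤ k := by exact_mod_cast hk
  have hcvu : cv 0 C u = (k : ℂ) * cv 0 C v := by rw [huk, cv_smul]
  have hmulk : conj p * cv 0 C u = (((k : ℝ)) : ℂ) * (conj p * cv 0 C v) := by
    rw [hcvu]; push_cast; ring
  have hvn : ‖cv 0 C v‖ ≤ ρ := by
    calc ‖cv 0 C v‖ ≤ k * ‖cv 0 C v‖ := le_mul_of_one_le_left (norm_nonneg _) hk1
      _ = ‖cv 0 C u‖ := by
          rw [hcvu, norm_mul, Complex.norm_intCast, abs_of_pos (by linarith)]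
      _ ≤ ρ := hun
  have hvi : |(conj p * cv 0 C v).im| ≤ cB 0 C ^ 2 / ρ := by
    rw [hmulk, im_ofReal_mul, abs_mul, abs_of_pos (by linarith : (0 : ℝ) < k)] at hui
    calc _ ≤ k * |(conj p * cv 0 C v).im| := le_mul_of_one_le_left (abs_nonneg _) hk1
      _ ≤ _ := hui
  have hvr : 0 ≤ (conj p * cv 0 C v).re := by
    rw [hmulk, re_ofReal_mul] at hur
    exact nonneg_of_mul_nonneg_right hur (by linarith)
  by_cases hlt : ‖cv 0 C v‖ < ρ / K
  · exact Or.inr ⟨v, hv0, hlt, hvi⟩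
  left
  push Not at hlt
  have hv1 := one_le_norm_cv hD hv0
  have hsq : (conj p * cv 0 C v).re ^ 2 + (conj p * cv 0 C v).im ^ 2 = ‖cv 0 C v‖ ^ 2 := by
    have h1 : ‖conj p * cv 0 C v‖ = ‖cv 0 C v‖ := by
      rw [norm_mul, norm_conj, hp, one_mul]
    rw [← h1, ← normSq_eq_norm_sq, normSq_apply]; ring
  have h2 : (ρ / K) ^ 2 ≤ ‖cv 0 C v‖ ^ 2 := by gcongr
  have h3 : (conj p * cv 0 C v).im ^ 2 ≤ (cB 0 C ^ 2 / ρ) ^ 2 := by
    rw [← sq_abs]; gcongr
  have hKK : K ≤ K ^ 2 := by nlinarith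
  have h4 : (cB 0 C ^ 2 / ρ) ^ 2 ≤ (ρ / K) ^ 2 / 4 := by
    have : cB 0 C ^ 2 / ρ ≤ ρ / K / 2 := by
      rw [div_div, div_le_div_iff₀ hρ0 (by positivity)]
      nlinarith [sq_nonneg (cB 0 C)]
    calc (cB 0 C ^ 2 / ρ) ^ 2 ≤ (ρ / K / 2) ^ 2 := by gcongr
      _ = _ := by ring
  have h5 : (ρ / K / 2) ^ 2 ≤ (conj p * cv 0 C v).re ^ 2 := by nlinarith [sq_nonneg (ρ / K)]
  have h6 : ρ / K / 2 ≤ (conj p * cv 0 C v).re :=
    (pow_le_pow_iff_left₀ (by positivity) hvr two_ne_zero).1 h5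
  obtain ⟨s1, hs1⟩ : ∃ s1, s1 = 2 * cB 0 C ^ 2 * K / ρ ^ 2 := ⟨_, rfl⟩
  obtain ⟨t1, ht1⟩ : ∃ t1, t1 = 2 * cB 0 C ^ 2 * K ^ 2 / ρ ^ 2 := ⟨_, rfl⟩
  have hslope : |(conj p * cv 0 C v).im| ≤ s1 * (conj p * cv 0 C v).re := by
    calc |(conj p * cv 0 C v).im| ≤ cB 0 C ^ 2 / ρ := hvi
      _ = s1 * (ρ / K / 2) := by rw [hs1]; field_simp
      _ ≤ _ := by gcongr; rw [hs1]; positivity
  have hs1t1 : s1 ≤ t1 := by rw [hs1, ht1]; gcongr
  have hs10 : 0 ≤ s1 := by rw [hs1]; positivity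
  have ht10 : 0 ≤ t1 := by rw [ht1]; positivity
  have ht11 : t1 ≤ 1 / 8 := by
    rw [ht1, div_le_iff₀ (by positivity)]; linarith
  have hs_eq : s = 4 * t1 := by rw [hs, ht1]; ring
  rcases Int.emod_two_eq_zero_or_one (v.1 + v.2) with hve | hvo
  · -- even: use a partner
    obtain ⟨w0, hw0⟩ := exists_partner hcop
    obtain ⟨a, ha⟩ : ∃ a : ℂ, a = conj (cv 0 C v) * cv 0 C w0 := ⟨_, rfl⟩
    have hn2 : 1 ≤ ‖cv 0 C v‖ ^ 2 := one_le_pow₀ hv1
    obtain ⟨j, hj⟩ : ∃ j : ℤ, j = round (a.re / ‖cv 0 C v‖ ^ 2) - 1 := ⟨_, rfl⟩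
    obtain ⟨w, hw⟩ : ∃ w : ℤ × ℤ, w = w0 - j • v := ⟨_, rfl⟩
    have hdt : dt v w = 1 := by
      rw [hw, ← hw0]
      simp only [dt, Prod.fst_sub, Prod.snd_sub, Prod.smul_fst, Prod.smul_snd, smul_eq_mul]
      ring
    have hwo : od w := by
      simp only [dt] at hdt
      simp only [od]
      rcases Int.emod_two_eq_zero_or_one (w.1 + w.2) with h | h
      · exfalso
        have e1 : ∃ c, v.1 + v.2 = 2 * c := ⟨(v.1 + v.2) / 2, by omega⟩
        have e2 : ∃ c, w.1 + w.2 = 2 * c := ⟨(w.1 + w.2) / 2, by omega⟩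
        obtain ⟨c1, hc1⟩ := e1
        obtain ⟨c2, hc2⟩ := e2
        have e3 : v.2 = 2 * c1 - v.1 := by linarith
        have e4 : w.2 = 2 * c2 - w.1 := by linarith
        rw [e3, e4] at hdt
        have : 2 * (v.1 * c2 - w.1 * c1) = 1 := by linarith
        omega
      · exact h
    have e1 : conj (cv 0 C v) * cv 0 C w = a - j * (‖cv 0 C v‖ ^ 2 : ℝ) := by
      have h1 : cv 0 C w = cv 0 C w0 - (j : ℂ) * cv 0 C v := by
        have : w = w0 + (-j) • v := by rw [hw, neg_smul, sub_eq_add_neg]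
        rw [this, cv_add, cv_smul]; push_cast; ring
      rw [h1, ha, mul_sub]
      have h2 : conj (cv 0 C v) * ((j : ℂ) * cv 0 C v) = j * (‖cv 0 C v‖ ^ 2 : ℝ) := by
        have : (cv 0 C v) * conj (cv 0 C v) = ((‖cv 0 C v‖ ^ 2 : ℝ) : ℂ) := by
          rw [mul_conj, normSq_eq_norm_sq]
        rw [← this]; ring
      rw [h2]
    have hre : ‖cv 0 C v‖ ^ 2 / 2 ≤ (conj (cv 0 C v) * cv 0 C w).re ∧
        (conj (cv 0 C v) * cv 0 C w).re ≤ 3 * ‖cv 0 C v‖ ^ 2 / 2 := by
      have h1 := abs_sub_round (a.re / ‖cv 0 C v‖ ^ 2)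
      have hjr : ((round (a.re / ‖cv 0 C v‖ ^ 2) : ℤ) : ℝ) = j + 1 := by
        rw [hj]; push_cast; ring
      rw [hjr, abs_le] at h1
      have h2 : (conj (cv 0 C v) * cv 0 C w).re
          = ‖cv 0 C v‖ ^ 2 * (a.re / ‖cv 0 C v‖ ^ 2 - j) := by
        rw [e1, sub_re]
        have : ((j : ℂ) * ((‖cv 0 C v‖ ^ 2 : ℝ) : ℂ)).re = j * ‖cv 0 C v‖ ^ 2 := by
          have : (j : ℂ) = ((j : ℝ) : ℂ) := by push_cast; rfl
          rw [this, ← ofReal_mul, ofReal_re]
        rw [this]; field_simp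
      rw [h2]
      constructor
      · nlinarith
      · nlinarith
    have him : (conj (cv 0 C v) * cv 0 C w).im = bt 0 C := by
      rw [conj_cv_mul hD, hdt, cv_im]; simp
    have hv2pos : 0 < ‖cv 0 C v‖ ^ 2 := by linarith
    have hbslope : |(conj (cv 0 C v) * cv 0 C w).im| ≤
        t1 * (conj (cv 0 C v) * cv 0 C w).re := by
      rw [him, abs_of_pos hb]
      calc bt 0 C ≤ cB 0 C ^ 2 := by nlinarith
        _ = t1 * ((ρ / K) ^ 2 / 2) := by rw [ht1]; field_simp
        _ ≤ t1 * (‖cv 0 C v‖ ^ 2 / 2) := by gcongr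
        _ ≤ t1 * (conj (cv 0 C v) * cv 0 C w).re := by gcongr; exact hre.1
    have hprod : conj p * cv 0 C w
        = ((1 / ‖cv 0 C v‖ ^ 2 : ℝ) : ℂ) *
          ((conj p * cv 0 C v) * (conj (cv 0 C v) * cv 0 C w)) := by
      have h1 : cv 0 C v * conj (cv 0 C v) = ((‖cv 0 C v‖ ^ 2 : ℝ) : ℂ) := by
        rw [mul_conj, normSq_eq_norm_sq]
      have h2 : ((‖cv 0 C v‖ ^ 2 : ℝ) : ℂ) ≠ 0 := by exact_mod_cast hv2pos.ne'
      calc conj p * cv 0 C w = ((1 / ‖cv 0 C v‖ ^ 2 : ℝ) : ℂ) * ((‖cv 0 C v‖ ^ 2 : ℝ) : ℂ)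
            * (conj p * cv 0 C w) := by
            rw [← ofReal_mul, one_div_mul_cancel hv2pos.ne']; simp
        _ = ((1 / ‖cv 0 C v‖ ^ 2 : ℝ) : ℂ) * (cv 0 C v * conj (cv 0 C v))
            * (conj p * cv 0 C w) := by rw [h1]
        _ = _ := by ring
    refine ⟨w, hwo, ?_, ?_⟩
    · have h1 : ‖cv 0 C v‖ * ‖cv 0 C w‖ ≤ ‖cv 0 C v‖ * (4 * ρ) := by
        calc ‖cv 0 C v‖ * ‖cv 0 C w‖ = ‖conj (cv 0 C v) * cv 0 C w‖ := by
              rw [norm_mul, norm_conj]
          _ ≤ |(conj (cv 0 C v) * cv 0 C w).re| + |(conj (cv 0 C v) * cv 0 C w).im| :=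
              norm_le_abs_re_add_abs_im _
          _ ≤ 3 * ‖cv 0 C v‖ ^ 2 / 2 + bt 0 C := by
              rw [him, abs_of_pos hb, abs_of_nonneg (by linarith [hre.1])]
              linarith [hre.2]
          _ ≤ ‖cv 0 C v‖ * (4 * ρ) := by nlinarith
      exact le_of_mul_le_mul_left h1 (by linarith)
    · rw [hprod, im_ofReal_mul, re_ofReal_mul, abs_mul, abs_of_pos (by positivity)]
      have h1 := slope_mul hs10 ht10 (by nlinarith) hslope hbslope hvr
        (by linarith [hre.1])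
      have h2 : 0 ≤ ((conj p * cv 0 C v) * (conj (cv 0 C v) * cv 0 C w)).re := by
        rcases eq_or_lt_of_le ht10 with h0 | h0
        · exfalso
          have : 0 < t1 := by rw [ht1]; positivity
          linarith
        · have h3 := (abs_nonneg _).trans h1
          exact nonneg_of_mul_nonneg_right h3 (by linarith)
      calc 1 / ‖cv 0 C v‖ ^ 2 * |((conj p * cv 0 C v) * (conj (cv 0 C v) * cv 0 C w)).im|
          ≤ 1 / ‖cv 0 C v‖ ^ 2 * (2 * (s1 + t1) *
            ((conj p * cv 0 C v) * (conj (cv 0 C v) * cv 0 C w)).re) := by gcongr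
        _ ≤ 1 / ‖cv 0 C v‖ ^ 2 * (s *
            ((conj p * cv 0 C v) * (conj (cv 0 C v) * cv 0 C w)).re) := by
            gcongr; linarith
        _ = _ := by ring
  · refine ⟨v, hvo, by linarith, ?_⟩
    calc _ ≤ s1 * (conj p * cv 0 C v).re := hslope
      _ ≤ s * (conj p * cv 0 C v).re := by gcongr; linarith

end Pool.Agent.FareyParity
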