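import Mathlib
import Pool.Agent.FareyParity.EvenChain

set_option autoImplicit false

/-!
# Approximation of angles by products of vectors of odd norm
-/

namespace Pool.Agent.FareyParity

open Complex ComplexConjugate

variable {C : ℤ}

/-- `ψ` is the angle of a product of at most `k` vectors of odd norm, of norm `≤ A`. -/
def IsAngE (C : ℤ) (A : ℝ) (k : ℕ) (ψ : ℝ) : Prop :=
  ∃ l : List (ℤ × ℤ), l.length ≤ k ∧ (∀ v ∈ l, od v ∧ ‖cv 0 C v‖ ≤ A) ∧
    (l.map (un 0 C)).prod = exp (ψ * I)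

theorem IsAngE.mono {A : ℝ} {k k' : ℕ} {ψ : ℝ} (h : IsAngE C A k ψ) (hk : k ≤ k') :
    IsAngE C A k' ψ := by
  obtain ⟨l, h1, h2, h3⟩ := h
  exact ⟨l, h1.trans hk, h2, h3⟩

theorem IsAngE.zero (A : ℝ) : IsAngE C A 0 0 := ⟨[], by simp, by simp, by simp⟩

theorem IsAngE.add {A : ℝ} {k k' : ℕ} {ψ ψ' : ℝ} (h : IsAngE C A k ψ)
    (h' : IsAngE C A k' ψ') : IsAngE C A (k + k') (ψ + ψ') := by
  obtain ⟨l, h1, h2, h3⟩ := h
  obtain ⟨l', h1', h2', h3'⟩ := h'
  refine ⟨l ++ l', by rw [List.length_append]; omega, ?_, ?_⟩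
  · intro v hv
    rcases List.mem_append.1 hv with h | h
    · exact h2 v h
    · exact h2' v h
  · rw [List.map_append, List.prod_append, h3, h3', ← Complex.exp_add]
    congr 1; push_cast; ring

theorem IsAngE.neg {A : ℝ} {k : ℕ} {ψ : ℝ} (h : IsAngE C A k ψ) : IsAngE C A k (-ψ) := by
  obtain ⟨l, h1, h2, h3⟩ := h
  refine ⟨l.map (cj 0), by simpa using h1, ?_, ?_⟩
  · intro v hv
    rw [List.mem_map] at hv
    obtain ⟨w, hw, rfl⟩ := hv
    refine ⟨?_, ?_⟩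
    · have := (h2 w hw).1
      simp only [od, cj] at this ⊢
      omega
    · rw [cv_cj, norm_conj]; exact (h2 w hw).2
  · have : (l.map (cj 0)).map (un 0 C) = (l.map (un 0 C)).map conj := by
      rw [List.map_map, List.map_map]
      apply List.map_congr_left
      intro v _
      simp only [Function.comp, un, cv_cj, norm_conj, map_div₀, conj_ofReal]
    rw [this, List.prod_hom, h3, ← exp_conj, map_mul, conj_I, conj_ofReal]
    push_cast; ring_nf

theorem IsAngE.sub {A : ℝ} {k k' : ℕ} {ψ ψ' : ℝ} (h : IsAngE C A k ψ)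
    (h' : IsAngE C A k' ψ') : IsAngE C A (k + k') (ψ - ψ') := by
  rw [sub_eq_add_neg]; exact h.add h'.neg

theorem IsAngE.nsmul {A : ℝ} {k : ℕ} {ψ : ℝ} (h : IsAngE C A k ψ) (n : ℕ) :
    IsAngE C A (n * k) (n * ψ) := by
  induction n with
  | zero => simpa using IsAngE.zero A
  | succ n ih =>
    have := ih.add h
    have e1 : (n + 1) * k = n * k + k := by ring
    have e2 : ((n + 1 : ℕ) : ℝ) * ψ = n * ψ + ψ := by push_cast; ring
    rw [e1, e2]; exact this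

/-- the vector `(2 n, 1)` has direction `arctan ((β / 2) / n)` -/
theorem isAngE_single (hD : (0 : ℤ) ^ 2 < 4 * C) {A : ℝ} {n : ℤ} (hn : (0 : ℝ) < n)
    (hA : ‖cv 0 C (2 * n, 1)‖ ≤ A) : IsAngE C A 1 (aF (bt 0 C / 2) 0 (n : ℝ)) := by
  have hb := bt_pos hD
  refine ⟨[(2 * n, 1)], by simp, ?_, ?_⟩
  · intro v hv
    rw [List.mem_singleton] at hv
    subst hv
    exact ⟨by simp only [od]; omega, hA⟩
  · simp only [List.map_cons, List.map_nil, List.prod_cons, List.prod_nil, mul_one]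
    obtain ⟨t, ht⟩ : ∃ t : ℝ, t = 2 * n := ⟨_, rfl⟩
    have ht0 : 0 < t := by rw [ht]; positivity
    show un 0 C (2 * n, 1) = exp ((Real.arctan (bt 0 C / 2 / (n : ℝ)) : ℝ) * I)
    have e0 : bt 0 C / 2 / (n : ℝ) = bt 0 C / t := by rw [ht]; field_simp
    rw [e0]
    have hcv : cv 0 C (2 * n, 1) = ⟨t, bt 0 C⟩ := by
      apply Complex.ext
      · rw [cv_re, ht]; push_cast; ring
      · rw [cv_im]; push_cast; ring
    have hnorm : ‖cv 0 C (2 * n, 1)‖ = √(t ^ 2 + bt 0 C ^ 2) := by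
      rw [hcv, norm_def, normSq_apply]; congr 1; ring
    have hsq : 0 < t ^ 2 + bt 0 C ^ 2 := by positivity
    have hsqrt : √(1 + (bt 0 C / t) ^ 2) = √(t ^ 2 + bt 0 C ^ 2) / t := by
      rw [eq_div_iff ht0.ne']
      nth_rewrite 2 [← Real.sqrt_sq ht0.le]
      rw [← Real.sqrt_mul (by positivity)]
      congr 1
      field_simp
    have hs0 : √(t ^ 2 + bt 0 C ^ 2) ≠ 0 := (Real.sqrt_pos.2 hsq).ne'
    apply Complex.ext
    · rw [exp_ofReal_mul_I_re, Real.cos_arctan, hsqrt, un, hnorm, hcv, div_ofReal_re]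
      field_simp
    · rw [exp_ofReal_mul_I_im, Real.sin_arctan, hsqrt, un, hnorm, hcv, div_ofReal_im]
      field_simp

theorem isAngE_fd (hD : (0 : ℤ) ^ 2 < 4 * C) {A : ℝ} (m : ℕ) : ∀ {n : ℤ}, (0 : ℝ) < n →
    2 * ((n : ℝ) + m) + bt 0 C ≤ A →
    IsAngE C A (2 ^ m) (fd m (aF (bt 0 C / 2) 0) (n : ℝ)) := by
  have hb := bt_pos hD
  induction m with
  | zero =>
    intro n hn hA
    rw [pow_zero]
    apply isAngE_single hD hn
    calc ‖cv 0 C (2 * n, 1)‖ ≤ |(cv 0 C (2 * n, 1)).re| + |(cv 0 C (2 * n, 1)).im| :=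
          norm_le_abs_re_add_abs_im _
      _ = 2 * n + bt 0 C := by
          rw [cv_re, cv_im]; push_cast
          have : (0 : ℝ) < 2 * n + 0 / 2 * 1 := by linarith
          rw [mul_one (bt 0 C), abs_of_pos this, abs_of_pos hb]; ring
      _ ≤ A := by simpa using hA
  | succ m ih =>
    intro n hn hA
    have h1 := ih hn (by push_cast at hA; linarith)
    have h2 := ih (n := n + 1) (by push_cast; linarith) (by push_cast at hA ⊢; linarith)
    have h3 := h1.sub h2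
    have e : fd (m + 1) (aF (bt 0 C / 2) 0) (n : ℝ)
        = fd m (aF (bt 0 C / 2) 0) (n : ℝ)
          - fd m (aF (bt 0 C / 2) 0) ((n + 1 : ℤ) : ℝ) := by
      simp only [fd]; push_cast; ring_nf
    rw [e]
    exact h3.mono (by rw [pow_succ]; omega)

theorem net_levelE (hD : (0 : ℤ) ^ 2 < 4 * C) (m : ℕ) : ∃ c c' A0 : ℝ, 0 < c ∧ 0 < c' ∧ 1 ≤ A0 ∧
    ∀ A, A0 ≤ A → ∀ e, 0 ≤ e → e ≤ c / A ^ (m + 1) →
      ∃ ψ, IsAngE C A (2 ^ m + 2 ^ m) ψ ∧ |e - ψ| ≤ c' / A ^ (m + 2) := by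
  have hb := bt_pos hD
  obtain ⟨c, c', T, hc, hc', hT, hbd⟩ := aF_bounds (β := bt 0 C / 2) (by positivity) m
  refine ⟨c / 16, c' * 16 ^ (m + 2), 16 * T + 16 * m + 16 * bt 0 C + 64,
    by positivity, by positivity, ?_, ?_⟩
  · have : (0 : ℝ) ≤ m := by positivity
    linarith
  intro A hA e he0 he
  have hm0 : (0 : ℝ) ≤ m := by positivity
  have hA0 : 0 < A := by linarith
  obtain ⟨N, hN⟩ : ∃ N : ℕ, N = ⌊A / 8⌋₊ := ⟨_, rfl⟩
  have hN1 : (N : ℝ) ≤ A / 8 := by rw [hN]; exact Nat.floor_le (by positivity)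
  have hN2 : A / 8 < N + 1 := by rw [hN]; exact Nat.lt_floor_add_one _
  obtain ⟨H, hH⟩ : ∃ H : ℕ → ℝ, ∀ j, H j
      = fd m (aF (bt 0 C / 2) 0) (((N : ℤ) : ℝ))
        - fd m (aF (bt 0 C / 2) 0) (((N + j : ℤ) : ℝ)) := ⟨fun j => _, fun j => rfl⟩
  have hH0 : H 0 = 0 := by rw [hH]; simp
  have hstep : ∀ j < N, c / A ^ (m + 2) ≤ H (j + 1) - H j ∧
      H (j + 1) - H j ≤ c' * 16 ^ (m + 2) / A ^ (m + 2) := by
    intro j hj
    have hjN : (j : ℝ) + 1 ≤ N := by exact_mod_cast hj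
    have hj0 : (0 : ℝ) ≤ j := by positivity
    have e1 : H (j + 1) - H j = fd (m + 1) (aF (bt 0 C / 2) 0) (((N + j : ℤ) : ℝ)) := by
      rw [hH, hH]
      simp only [fd]
      push_cast
      ring_nf
    have ht0 : (0 : ℝ) < ((N + j : ℤ) : ℝ) := by push_cast; linarith
    obtain ⟨ξ, hξ1, hξ2, hξ3⟩ := fd_eq (β := bt 0 C / 2) (m + 1) 0 ht0
    rw [e1, hξ3, zero_add]
    push_cast at hξ1 hξ2
    have hξT : T ≤ ξ := by linarith
    have hξ8 : A / 16 ≤ ξ := by linarith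
    have hξA : ξ ≤ A := by linarith
    have hξ0 : 0 < ξ := by linarith
    obtain ⟨b1, b2⟩ := hbd ξ hξT
    constructor
    · calc c / A ^ (m + 2) ≤ c / ξ ^ (m + 2) := by gcongr
        _ ≤ _ := b1
    · calc aF (bt 0 C / 2) (m + 1) ξ ≤ c' / ξ ^ (m + 2) := b2
        _ ≤ c' / (A / 16) ^ (m + 2) := by gcongr
        _ = c' * 16 ^ (m + 2) / A ^ (m + 2) := by rw [div_pow]; field_simp
  have hHN : ∀ j ≤ N, (j : ℝ) * (c / A ^ (m + 2)) ≤ H j := by
    intro j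
    induction j with
    | zero => intro _; rw [hH0]; simp
    | succ j ih =>
      intro hj
      have h1 := ih (by omega)
      have h2 := (hstep j (by omega)).1
      push_cast
      linarith
  have heN : e ≤ H N := by
    calc e ≤ c / 16 / A ^ (m + 1) := he
      _ = (A / 16) * (c / A ^ (m + 2)) := by rw [pow_succ A (m + 1)]; field_simp
      _ ≤ N * (c / A ^ (m + 2)) := by
          gcongr; linarith
      _ ≤ H N := hHN N le_rfl
  obtain ⟨j, hjN, hj⟩ := exists_step H hH0 N e (c' * 16 ^ (m + 2) / A ^ (m + 2)) he0 heN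
    (by positivity) (fun j hj => (hstep j hj).2)
  refine ⟨H j, ?_, hj⟩
  rw [hH]
  have hjN' : (j : ℝ) ≤ N := by exact_mod_cast hjN
  have hj0 : (0 : ℝ) ≤ j := by positivity
  apply IsAngE.sub
  · apply isAngE_fd hD
    · push_cast; linarith
    · push_cast; linarith
  · apply isAngE_fd hD
    · push_cast; linarith
    · push_cast; linarith

theorem approxE_base (hD : (0 : ℤ) ^ 2 < 4 * C) : ∃ c A0 : ℝ, 0 < c ∧ 1 ≤ A0 ∧
    ∀ A, A0 ≤ A → ∀ φ : ℝ, ∃ ψ, IsAngE C A 1 ψ ∧ |φ - ψ| ≤ c / A := by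
  have hb := bt_pos hD
  refine ⟨Real.pi / 2 * (4 * (1 + bt 0 C)), 8 * (1 + bt 0 C), by positivity, by linarith, ?_⟩
  intro A hA φ
  have hA0 : 0 < A := by linarith
  obtain ⟨T, hT⟩ : ∃ T : ℝ, T = A / 2 := ⟨_, rfl⟩
  obtain ⟨y, hy⟩ : ∃ y : ℤ, y = round (T * Real.sin φ / bt 0 C) := ⟨_, rfl⟩
  obtain ⟨e, he⟩ : ∃ e : ℤ, (e + y) % 2 = 1 := ⟨1 - y, by omega⟩
  obtain ⟨m, hm⟩ : ∃ m : ℤ, m = round ((T * Real.cos φ - e) / 2) := ⟨_, rfl⟩
  obtain ⟨x, hx⟩ : ∃ x : ℤ, x = 2 * m + e := ⟨_, rfl⟩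
  have hod : od (x, y) := by simp only [od, hx]; omega
  have hy1 : |T * Real.sin φ - bt 0 C * y| ≤ bt 0 C / 2 := by
    have h1 := abs_sub_round (T * Real.sin φ / bt 0 C)
    rw [← hy] at h1
    have h2 : T * Real.sin φ - bt 0 C * y = bt 0 C * (T * Real.sin φ / bt 0 C - y) := by
      field_simp
    rw [h2, abs_mul, abs_of_pos hb]
    calc _ ≤ bt 0 C * (1 / 2) := by gcongr
      _ = _ := by ring
  have hx1 : |T * Real.cos φ - x| ≤ 1 := by
    have h1 := abs_sub_round ((T * Real.cos φ - e) / 2)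
    rw [← hm] at h1
    have h2 : T * Real.cos φ - x = 2 * ((T * Real.cos φ - e) / 2 - m) := by
      rw [hx]; push_cast; ring
    rw [h2, abs_mul]
    calc |(2 : ℝ)| * |(T * Real.cos φ - e) / 2 - m| ≤ 2 * (1 / 2) := by
          have : |(2 : ℝ)| = 2 := by norm_num
          rw [this]; gcongr
      _ = 1 := by norm_num
  have hdiff : ‖cv 0 C (x, y) - T * exp (φ * I)‖ ≤ 1 + bt 0 C := by
    calc _ ≤ |(cv 0 C (x, y) - T * exp (φ * I)).re| + |(cv 0 C (x, y) - T * exp (φ * I)).im| :=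
          norm_le_abs_re_add_abs_im _
      _ = |x - T * Real.cos φ| + |bt 0 C * y - T * Real.sin φ| := by
          rw [sub_re, sub_im, re_ofReal_mul, im_ofReal_mul, exp_ofReal_mul_I_re,
            exp_ofReal_mul_I_im, cv_re, cv_im]
          simp
      _ ≤ 1 + bt 0 C / 2 := by
          rw [abs_sub_comm] at hx1 hy1; linarith
      _ ≤ _ := by linarith
  have hp : ‖exp ((φ : ℂ) * I)‖ = 1 := norm_exp_ofReal_mul_I φ
  have hTn : ‖(T : ℂ) * exp ((φ : ℂ) * I)‖ = T := by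
    rw [norm_mul, hp, mul_one, Complex.norm_real, Real.norm_eq_abs, abs_of_pos (by linarith)]
  have hnorm_le : ‖cv 0 C (x, y)‖ ≤ A := by
    calc ‖cv 0 C (x, y)‖ = ‖(cv 0 C (x, y) - T * exp (φ * I)) + T * exp (φ * I)‖ := by ring_nf
      _ ≤ ‖cv 0 C (x, y) - T * exp (φ * I)‖ + ‖(T : ℂ) * exp (φ * I)‖ := norm_add_le _ _
      _ ≤ (1 + bt 0 C) + T := by rw [hTn]; linarith
      _ ≤ A := by rw [hT]; linarith
  obtain ⟨w, hw⟩ : ∃ w : ℂ, w = conj (exp (φ * I)) * cv 0 C (x, y) := ⟨_, rfl⟩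
  have hwn : ‖w‖ = ‖cv 0 C (x, y)‖ := by rw [hw, norm_mul, norm_conj, hp, one_mul]
  have hwT : ‖w - T‖ ≤ 1 + bt 0 C := by
    have h1 : w - T = conj (exp (φ * I)) * (cv 0 C (x, y) - T * exp (φ * I)) := by
      have h2 : conj (exp (φ * I)) * exp (φ * I) = 1 := by
        rw [mul_comm, mul_conj, normSq_eq_norm_sq, hp]; norm_num
      rw [hw, mul_sub]
      have : conj (exp (φ * I)) * (T * exp (φ * I)) = T * (conj (exp (φ * I)) * exp (φ * I)) := by
        ring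
      rw [this, h2, mul_one]
    rw [h1, norm_mul, norm_conj, hp, one_mul]; exact hdiff
  have hwim : |w.im| ≤ 1 + bt 0 C := by
    calc |w.im| = |(w - T).im| := by simp
      _ ≤ ‖w - T‖ := abs_im_le_norm _
      _ ≤ _ := hwT
  have hwre : A / 4 ≤ w.re := by
    have h1 : |(w - T).re| ≤ 1 + bt 0 C := (abs_re_le_norm _).trans hwT
    rw [sub_re, ofReal_re, abs_le] at h1
    rw [hT] at h1
    linarith [h1.1]
  have hwn4 : A / 4 ≤ ‖w‖ := hwre.trans (re_le_norm w)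
  have hvr : 0 ≤ w.re := by linarith
  have hw0 : 0 < ‖w‖ := by linarith
  refine ⟨φ + arg w, ⟨[(x, y)], by simp, ?_, ?_⟩, ?_⟩
  · intro u hu
    rw [List.mem_singleton] at hu
    subst hu
    exact ⟨hod, hnorm_le⟩
  · simp only [List.map_cons, List.map_nil, List.prod_cons, List.prod_nil, mul_one]
    have h2 : cv 0 C (x, y) = exp (φ * I) * w := by
      rw [hw, ← mul_assoc, mul_conj, normSq_eq_norm_sq, hp]; simp
    rw [un, ← hwn, h2]
    push_cast
    rw [add_mul, Complex.exp_add]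
    have h3 := norm_mul_exp_arg_mul_I w
    have h4 : (‖w‖ : ℂ) ≠ 0 := by exact_mod_cast hw0.ne'
    nth_rewrite 1 [← h3]
    field_simp
  · have h5 : |arg w| ≤ Real.pi / 2 * |w.im / ‖w‖| := by
      rw [arg_of_re_nonneg hvr]
      have hx : |Real.arcsin (w.im / ‖w‖)| ≤ Real.pi / 2 := by
        rw [abs_le]
        exact ⟨by have := Real.neg_pi_div_two_le_arcsin (w.im / ‖w‖); linarith,
          Real.arcsin_le_pi_div_two _⟩
      have h6 := Real.mul_abs_le_abs_sin hx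
      have h7 : |w.im / ‖w‖| ≤ 1 := by
        rw [abs_div, abs_norm]; exact div_le_one_of_le₀ (abs_im_le_norm w) (norm_nonneg _)
      rw [abs_le] at h7
      rw [Real.sin_arcsin h7.1 h7.2] at h6
      calc |Real.arcsin (w.im / ‖w‖)|
          = Real.pi / 2 * (2 / Real.pi * |Real.arcsin (w.im / ‖w‖)|) := by
            field_simp
        _ ≤ Real.pi / 2 * |w.im / ‖w‖| := by gcongr
    have e : φ - (φ + arg w) = - arg w := by ring
    rw [e, abs_neg]
    calc |arg w| ≤ Real.pi / 2 * |w.im / ‖w‖| := h5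
      _ ≤ Real.pi / 2 * (4 * (1 + bt 0 C) / A) := by
          gcongr
          rw [abs_div, abs_norm]
          calc |w.im| / ‖w‖ ≤ (1 + bt 0 C) / (A / 4) := by gcongr
            _ = _ := by field_simp
      _ = _ := by ring

theorem approxE (hD : (0 : ℤ) ^ 2 < 4 * C) (r : ℕ) : ∃ (k : ℕ) (c A0 : ℝ), 0 < c ∧ 1 ≤ A0 ∧
    ∀ A, A0 ≤ A → ∀ φ : ℝ, ∃ ψ, IsAngE C A k ψ ∧ |φ - ψ| ≤ c / A ^ (r + 1) := by
  induction r with
  | zero =>
    obtain ⟨c, A0, hc, hA0, h⟩ := approxE_base hD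
    refine ⟨1, c, A0, hc, hA0, fun A hA φ => ?_⟩
    obtain ⟨ψ, h1, h2⟩ := h A hA φ
    exact ⟨ψ, h1, by simpa using h2⟩
  | succ r ih =>
    obtain ⟨k, c, A0, hc, hA0, h⟩ := ih
    obtain ⟨a, a', A1, ha, ha', hA1, h'⟩ := net_levelE hD r
    obtain ⟨M, hM⟩ : ∃ M : ℕ, M = ⌈c / a⌉₊ := ⟨_, rfl⟩
    have hMge : c / a ≤ M := by rw [hM]; exact Nat.le_ceil _
    have hM0 : (0 : ℝ) < M := lt_of_lt_of_le (by positivity) hMge
    refine ⟨k + M * (2 ^ r + 2 ^ r), M * a', max A0 A1, by positivity, le_max_of_le_left hA0, ?_⟩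
    intro A hA φ
    have hA0' : 0 < A := by linarith [le_max_left A0 A1]
    obtain ⟨ψ, h1, h2⟩ := h A ((le_max_left _ _).trans hA) φ
    obtain ⟨ψ', h3, h4⟩ := h' A ((le_max_right _ _).trans hA) (|φ - ψ| / M) (by positivity) (by
      rw [div_le_iff₀ hM0]
      calc |φ - ψ| ≤ c / A ^ (r + 1) := h2
        _ = a / A ^ (r + 1) * (c / a) := by field_simp
        _ ≤ a / A ^ (r + 1) * M := by gcongr)
    have h5 : |(|φ - ψ|) - M * ψ'| ≤ M * a' / A ^ (r + 1 + 1) := by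
      have : |φ - ψ| - M * ψ' = M * (|φ - ψ| / M - ψ') := by field_simp
      rw [this, abs_mul, abs_of_pos hM0]
      calc M * |(|φ - ψ|) / M - ψ'| ≤ M * (a' / A ^ (r + 2)) := by gcongr
        _ = _ := by ring
    rcases le_total 0 (φ - ψ) with h0 | h0
    · rw [abs_of_nonneg h0] at h5
      refine ⟨ψ + M * ψ', h1.add (h3.nsmul M), ?_⟩
      have : φ - (ψ + M * ψ') = φ - ψ - M * ψ' := by ring
      rw [this]; exact h5
    · rw [abs_of_nonpos h0] at h5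
      refine ⟨ψ - M * ψ', h1.sub (h3.nsmul M), ?_⟩
      have : φ - (ψ - M * ψ') = -(-(φ - ψ) - M * ψ') := by ring
      rw [this, abs_neg]; exact h5

end Pool.Agent.FareyParity
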