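import Mathlib
import Pool.Agent.FareyParity.EvenApprox
import Pool.Agent.FareyParity.Minus

set_option autoImplicit false

/-!
# Even arguments: `T^2 + C`, `C` odd
-/

namespace Pool.Agent.FareyParity

open Complex ComplexConjugate MeasureTheory Filter

variable {C : ℤ}

/-- sums and differences of unimodular pairs of vectors of odd norm -/
noncomputable def pairFE (f : ℕ → ℤ) (C : ℤ) (R : ℝ) (e : ℤ) : Finset (ℤ × ℤ) := by
  classical
  exact (ballF 0 C (2 * R)).filter (fun v => ∃ a b : ℤ × ℤ, od a ∧ od b ∧ ‖cv 0 C a‖ ≤ R ∧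
    ‖cv 0 C b‖ ≤ R ∧ dt a b = 1 ∧ col f 0 C a * col f 0 C b = e ∧ (v = a + b ∨ v = b - a))

theorem many_badE (hD : (0 : ℤ) ^ 2 < 4 * C) (hC : C % 2 = 1) {f : ℕ → ℤ} (hf : IsSign f)
    {s ρ A R K η : ℝ} {L : List (ℤ × ℤ)} (hρ : cB 0 C ≤ ρ) (hK : 1 ≤ K)
    (hρK : 32 * cB 0 C ^ 2 * K ^ 2 ≤ ρ ^ 2)
    (hsdef : s = 8 * cB 0 C ^ 2 * K ^ 2 / ρ ^ 2) (hη : |η| ≤ s)
    (hAρ : A * (4 * ρ) ≤ R) (hρR : 4 * ρ ≤ R)
    (hL : ∀ v ∈ L, od v ∧ ‖cv 0 C v‖ ≤ A) (hprod : (L.map (un 0 C)).prod = exp (η * I))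
    (hcol : (L.map (col f 0 C)).prod = -1)
    (hKL : (L.length + 1) * (40 * cB 0 C ^ 2 * mB 0 C ^ 2) ≤ K) :
    1 ≤ (L.length + 1) * (20 * s) * (pairFE f C R (-1)).card := by
  classical
  have hc := cB_ge hD
  have hm := mB_ge hD
  have hρ0 : 0 < ρ := by linarith
  have hs : 0 < s := by rw [hsdef]; positivity
  have hs4 : s ≤ 1 / 4 := by
    rw [hsdef, div_le_iff₀ (by positivity)]; linarith
  have hπ := Real.pi_pos
  obtain ⟨Q, hQ⟩ : ∃ Q : Finset ℂ, Q = (offs 0 C L).toFinset := ⟨_, rfl⟩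
  have hQcard : (Q.card : ℝ) ≤ L.length + 1 := by
    have : Q.card ≤ (offs 0 C L).length := by rw [hQ]; exact List.toFinset_card_le _
    rw [length_offs] at this
    exact_mod_cast this
  have hQn : ∀ q ∈ Q, ‖q‖ = 1 := by
    intro q hq
    rw [hQ, List.mem_toFinset] at hq
    exact norm_offs hD L (fun v hv => od_ne_zero (hL v hv).1) q hq
  obtain ⟨V, hV⟩ : ∃ V : Finset (ℤ × ℤ), V = ballF 0 C (ρ / K) := ⟨_, rfl⟩
  have hmul : ∀ (θ : ℝ) (q : ℂ) (v : ℤ × ℤ), conj (exp (θ * I) * q) * cv 0 C v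
      = conj (exp (θ * I)) * (conj q * cv 0 C v) := by
    intro θ q v; rw [map_mul]; ring
  have hnq : ∀ q ∈ Q, ∀ v : ℤ × ℤ, ‖conj q * cv 0 C v‖ = ‖cv 0 C v‖ := by
    intro q hq v; rw [norm_mul, norm_conj, hQn q hq, one_mul]
  have main := real_of_measure_cover Q V (pairFE f C R (-1))
    (fun q v => {θ : ℝ | θ ∈ Set.Icc 0 (2 * Real.pi) ∧
      |(conj (exp (θ * I)) * (conj q * cv 0 C v)).im| ≤
        (cB 0 C ^ 2 / ρ / ‖cv 0 C v‖) * ‖conj q * cv 0 C v‖})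
    (fun q z => {θ : ℝ | θ ∈ Set.Icc 0 (2 * Real.pi) ∧
      |(conj (exp (θ * I)) * (conj q * cv 0 C z)).im| ≤ (4 * s) * ‖conj q * cv 0 C z‖})
    (fun v => 5 * Real.pi * (cB 0 C ^ 2 / ρ / ‖cv 0 C v‖)) (5 * Real.pi * (4 * s))
    (by intro v _; positivity) (by positivity)
    (by
      intro q hq v hv
      rw [hV] at hv
      have hv0 := ne_zero_of_mem_ballF hv
      apply volume_close
      · intro h0
        have := hnq q hq v
        rw [h0, norm_zero] at this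
        have := one_le_norm_cv hD hv0
        linarith
      · positivity)
    (by
      intro q hq z hz
      simp only [pairFE, Finset.mem_filter] at hz
      have hv0 := ne_zero_of_mem_ballF hz.1
      apply volume_close
      · intro h0
        have := hnq q hq z
        rw [h0, norm_zero] at this
        have := one_le_norm_cv hD hv0
        linarith
      · positivity)
    (by
      intro θ hθ
      have hp : ‖exp ((θ : ℂ) * I)‖ = 1 := norm_exp_ofReal_mul_I θ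
      obtain ⟨q, hq, hcase⟩ := exists_offE hD hC hf hs hs4 hη hAρ (by positivity) hρR hL hprod
        hcol (exp (θ * I))
      have hqQ : q ∈ Q := by rw [hQ, List.mem_toFinset]; exact hq
      simp only [Set.mem_iUnion]
      refine ⟨q, hqQ, ?_⟩
      rcases hcase with hbad | hbad
      · left
        have hpq : ‖exp ((θ : ℂ) * I) * q‖ = 1 := by rw [norm_mul, hp, hQn q hqQ, one_mul]
        rcases goodE_or_short hD hpq hρ hK (by linarith [sq_nonneg ρ]) hsdef with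
          hg | ⟨v, hv0, hvn, hvi⟩
        · exact absurd hg hbad
        · simp only [Set.mem_iUnion]
          refine ⟨v, by rw [hV]; exact mem_ballF hD hv0 hvn.le, hθ, ?_⟩
          rw [hnq q hqQ, ← hmul]
          have h1 := one_le_norm_cv hD hv0
          calc |(conj (exp (θ * I) * q) * cv 0 C v).im| ≤ cB 0 C ^ 2 / ρ := hvi
            _ = _ := by
                have : ‖cv 0 C v‖ ≠ 0 := by positivity
                field_simp
      · right
        obtain ⟨a, b, z, ha, hb, haR, hbR, hdt, hne, hz0, hzab, hz⟩ := hbad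
        simp only [Set.mem_iUnion]
        refine ⟨z, ?_, hθ, ?_⟩
        · simp only [pairFE, Finset.mem_filter]
          refine ⟨mem_ballF hD hz0 hz.1, a, b, ha, hb, haR, hbR, hdt, ?_, hzab⟩
          rcases col_val hf hD (od_ne_zero ha) with h | h <;>
            rcases col_val hf hD (od_ne_zero hb) with h' | h' <;>
            rw [h, h'] at hne ⊢ <;> simp_all
        · rw [hnq q hqQ, ← hmul]
          calc |(conj (exp (θ * I) * q) * cv 0 C z).im|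
              ≤ 4 * s * (conj (exp (θ * I) * q) * cv 0 C z).re := hz.2
            _ ≤ 4 * s * ‖conj (exp (θ * I) * q) * cv 0 C z‖ := by
                gcongr; exact re_le_norm _
            _ = 4 * s * ‖cv 0 C z‖ := by
                rw [norm_mul, norm_conj, norm_mul, hp, hQn q hqQ]; ring)
  have hsum : ∑ v ∈ V, 5 * Real.pi * (cB 0 C ^ 2 / ρ / ‖cv 0 C v‖)
      ≤ 5 * Real.pi * (cB 0 C ^ 2 / ρ) * (8 * mB 0 C ^ 2 * (ρ / K)) := by
    have : ∑ v ∈ V, 5 * Real.pi * (cB 0 C ^ 2 / ρ / ‖cv 0 C v‖)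
        = 5 * Real.pi * (cB 0 C ^ 2 / ρ) * ∑ v ∈ V, 1 / ‖cv 0 C v‖ := by
      rw [Finset.mul_sum]; apply Finset.sum_congr rfl; intro v _; ring
    rw [this, hV]
    have h := sum_ballF hD (V := ρ / K) (by positivity)
    gcongr
  have hK0 : 0 < K := by linarith
  have e1 : 5 * Real.pi * (cB 0 C ^ 2 / ρ) * (8 * mB 0 C ^ 2 * (ρ / K))
      = Real.pi * (40 * cB 0 C ^ 2 * mB 0 C ^ 2 / K) := by field_simp; ring
  rw [e1] at hsum
  have h5 : (L.length + 1 : ℝ) * (Real.pi * (40 * cB 0 C ^ 2 * mB 0 C ^ 2 / K)) ≤ Real.pi := by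
    calc (L.length + 1 : ℝ) * (Real.pi * (40 * cB 0 C ^ 2 * mB 0 C ^ 2 / K))
        = Real.pi * (((L.length + 1) * (40 * cB 0 C ^ 2 * mB 0 C ^ 2)) / K) := by ring
      _ ≤ Real.pi * 1 := by
          gcongr; rw [div_le_one hK0]; exact hKL
      _ = Real.pi := mul_one _
  have h6 : 2 * Real.pi ≤ (L.length + 1) * (Real.pi * (40 * cB 0 C ^ 2 * mB 0 C ^ 2 / K)
      + (pairFE f C R (-1)).card * (5 * Real.pi * (4 * s))) := by
    calc 2 * Real.pi ≤ _ := main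
      _ ≤ (L.length + 1) * (Real.pi * (40 * cB 0 C ^ 2 * mB 0 C ^ 2 / K)
          + (pairFE f C R (-1)).card * (5 * Real.pi * (4 * s))) := by
          gcongr
  have h7 : Real.pi * 1 ≤ Real.pi * ((L.length + 1) * (20 * s) * (pairFE f C R (-1)).card) := by
    have e2 : (L.length + 1 : ℝ) * (Real.pi * (40 * cB 0 C ^ 2 * mB 0 C ^ 2 / K)
      + (pairFE f C R (-1)).card * (5 * Real.pi * (4 * s)))
      = (L.length + 1 : ℝ) * (Real.pi * (40 * cB 0 C ^ 2 * mB 0 C ^ 2 / K))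
        + Real.pi * ((L.length + 1) * (20 * s) * (pairFE f C R (-1)).card) := by ring
    rw [e2] at h6
    linarith
  exact le_of_mul_le_mul_left h7 hπ

/-- even `n`, `|n| ≤ X`, with `f (n^2 + C) = e` -/
noncomputable def valFE (f : ℕ → ℤ) (C : ℤ) (X : ℕ) (e : ℤ) : Finset ℤ :=
  (Finset.Icc (-(X : ℤ)) X).filter (fun n => Even n ∧ f (n ^ 2 + C).natAbs = e)

theorem even_ip (hC : C % 2 = 1) {a b : ℤ × ℤ} (ha : od a) (hb : od b) (h : dt a b = 1) :
    Even (ip 0 C a b) := by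
  simp only [od, dt, ip] at *
  obtain ⟨c, hc⟩ : ∃ c, C = 2 * c + 1 := ⟨C / 2, by omega⟩
  obtain ⟨x, hx⟩ : ∃ x, a.1 + a.2 = 2 * x + 1 := ⟨(a.1 + a.2) / 2, by omega⟩
  obtain ⟨y, hy⟩ : ∃ y, b.1 + b.2 = 2 * y + 1 := ⟨(b.1 + b.2) / 2, by omega⟩
  have hx' : a.1 = 2 * x + 1 - a.2 := by linarith
  have hy' : b.1 = 2 * y + 1 - b.2 := by linarith
  -- `(a1 + a2)(b1 + b2) = ip + dt + 2 (...)`
  have key : (a.1 + a.2) * (b.1 + b.2)
      = (a.1 * b.1 + C * a.2 * b.2) + (a.1 * b.2 - b.1 * a.2) + 2 * (b.1 * a.2 - c * a.2 * b.2) := by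
    rw [hc]; ring
  rw [h, hx, hy] at key
  refine ⟨x * y + x + y + x * y - (b.1 * a.2 - c * a.2 * b.2) , ?_⟩
  have : a.1 * b.1 + 0 * b.1 * a.2 + C * a.2 * b.2 = a.1 * b.1 + C * a.2 * b.2 := by ring
  rw [this]
  linarith

theorem pair_to_valE (hD : (0 : ℤ) ^ 2 < 4 * C) (hC : C % 2 = 1) {f : ℕ → ℤ} (hf : IsSign f)
    {R : ℝ} {X D : ℕ} {e : ℤ} (hR0 : 0 ≤ R) (hR : R ^ 2 ≤ X)
    (hDiv : ∀ n : ℤ, |n| ≤ X → (n ^ 2 + 0 * n + C).natAbs.divisors.card ≤ D) :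
    (pairFE f C R e).card ≤ 2 * (15 * D) * (valFE f C X e).card := by
  classical
  have hex : ∀ v : ℤ × ℤ, ∃ a b : ℤ × ℤ, v ∈ pairFE f C R e → (od a ∧ od b ∧ ‖cv 0 C a‖ ≤ R ∧
      ‖cv 0 C b‖ ≤ R ∧ dt a b = 1 ∧ col f 0 C a * col f 0 C b = e ∧ (v = a + b ∨ v = b - a)) := by
    intro v
    by_cases hv : v ∈ pairFE f C R e
    · have hv' := hv
      simp only [pairFE, Finset.mem_filter] at hv'
      obtain ⟨-, a, b, h⟩ := hv'
      exact ⟨a, b, fun _ => h⟩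
    · exact ⟨0, 0, fun h => absurd h hv⟩
  choose a b hab using hex
  have hbound : ∀ z ∈ pairFE f C R e, |ip 0 C (a z) (b z)| ≤ X := by
    intro z hz
    obtain ⟨ha0, hb0, haR, hbR, hdt, hc, -⟩ := hab z hz
    have h1 := abs_ip_le (B := 0) (C := C) hD hdt
    have h2 : |(ip 0 C (a z) (b z) : ℝ)| ≤ X := by
      calc _ ≤ ‖cv 0 C (a z)‖ * ‖cv 0 C (b z)‖ + |((0 : ℤ) : ℝ)| := h1
        _ ≤ R * R + 0 := by
            have := mul_le_mul haR hbR (norm_nonneg _) hR0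
            simpa using this
        _ = R ^ 2 := by ring
        _ ≤ X := hR
    exact_mod_cast h2
  apply Finset.card_le_mul_card_image_of_maps_to (f := fun z => ip 0 C (a z) (b z))
  · intro z hz
    obtain ⟨ha0, hb0, haR, hbR, hdt, hc, -⟩ := hab z hz
    rw [valFE, Finset.mem_filter, Finset.mem_Icc]
    refine ⟨abs_le.1 (hbound z hz), even_ip hC ha0 hb0 hdt, ?_⟩
    rw [← hc, col_mul_col hf hdt]
    congr 2
    simp only [nf]; ring
  · intro n hn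
    rw [valFE, Finset.mem_filter, Finset.mem_Icc] at hn
    obtain ⟨S, hS⟩ : ∃ S, S = (pairFE f C R e).filter (fun z => ip 0 C (a z) (b z) = n) :=
      ⟨_, rfl⟩
    have hSa : (S.image a).card ≤ 15 * D := by
      calc (S.image a).card ≤ 15 * (n ^ 2 + 0 * n + C).natAbs.divisors.card := by
            apply mult_card hD n
            intro y hy
            rw [Finset.mem_image] at hy
            obtain ⟨z, hz, rfl⟩ := hy
            rw [hS, Finset.mem_filter] at hz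
            obtain ⟨ha0, hb0, haR, hbR, hdt, hc, -⟩ := hab z hz.1
            exact ⟨od_ne_zero ha0, b z, hdt, hz.2⟩
        _ ≤ 15 * D := by
            have := hDiv n (abs_le.2 hn.1)
            omega
    have hfib : S.card ≤ 2 * (S.image a).card := by
      apply Finset.card_le_mul_card_image_of_maps_to (f := a)
      · intro z hz; exact Finset.mem_image_of_mem a hz
      · intro y _
        rcases (S.filter (fun z => a z = y)).eq_empty_or_nonempty with h0 | ⟨z1, hz1⟩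
        · rw [h0]; simp
        · rw [hS, Finset.mem_filter, Finset.mem_filter] at hz1
          obtain ⟨⟨hz1p, hz1n⟩, hz1a⟩ := hz1
          have hsub : S.filter (fun z => a z = y) ⊆ {y + b z1, b z1 - y} := by
            intro z hz
            rw [hS, Finset.mem_filter, Finset.mem_filter] at hz
            obtain ⟨⟨hzp, hzn⟩, hza⟩ := hz
            obtain ⟨ha0, hb0, haR, hbR, hdt, hc, hor⟩ := hab z hzp
            obtain ⟨ha0', hb0', haR', hbR', hdt', hc', hor'⟩ := hab z1 hz1p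
            have hbb : b z = b z1 := by
              have e1 := mulv_ip 0 C (a z) (b z)
              have e2 := mulv_ip 0 C (a z1) (b z1)
              rw [hdt, hzn, hza] at e1
              rw [hdt', hz1n, hz1a] at e2
              rw [e1] at e2
              have hy0 : y ≠ 0 := by rw [← hza]; exact od_ne_zero ha0
              have hpos := nf_pos hD hy0
              have e3 := congrArg Prod.fst e2
              have e4 := congrArg Prod.snd e2
              simp only [Prod.smul_fst, Prod.smul_snd, smul_eq_mul] at e3 e4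
              exact Prod.ext (mul_left_cancel₀ hpos.ne' e3) (mul_left_cancel₀ hpos.ne' e4)
            rw [Finset.mem_insert, Finset.mem_singleton, ← hbb, ← hza]
            exact hor
          exact (Finset.card_le_card hsub).trans Finset.card_le_two
    rw [← hS]
    omega

theorem exists_listE (hD : (0 : ℤ) ^ 2 < 4 * C) (r : ℕ) : ∃ (k : ℕ) (c A0 : ℝ), 0 < c ∧ 1 ≤ A0 ∧
    ∀ A, A0 ≤ A → ∀ f, IsSign f → ∀ γ : ℤ × ℤ, od γ → ‖cv 0 C γ‖ ≤ A → col f 0 C γ = -1 →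
      ∃ (L : List (ℤ × ℤ)) (η : ℝ), L.length ≤ 2 * k + 1 ∧ (∀ v ∈ L, od v ∧ ‖cv 0 C v‖ ≤ A) ∧
        (L.map (un 0 C)).prod = exp (η * I) ∧ (L.map (col f 0 C)).prod = -1 ∧
        |η| ≤ c / A ^ (r + 1) := by
  obtain ⟨k, c, A0, hc, hA0, h⟩ := approxE hD r
  refine ⟨k, 2 * c, A0, by positivity, hA0, ?_⟩
  intro A hA f hf γ hγo hγA hγ
  have hγ0 := od_ne_zero hγo
  obtain ⟨ψ, ⟨l, hlk, hl, hlp⟩, hψ⟩ := h A hA (-(arg (cv 0 C γ)) / 2)
  have hunγ : un 0 C γ = exp ((arg (cv 0 C γ) : ℝ) * I) := by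
    have h1 := norm_mul_exp_arg_mul_I (cv 0 C γ)
    have h2 : (‖cv 0 C γ‖ : ℂ) ≠ 0 := by
      have := one_le_norm_cv hD hγ0
      have : ‖cv 0 C γ‖ ≠ 0 := by positivity
      exact_mod_cast this
    rw [un]
    nth_rewrite 1 [← h1]
    field_simp
  refine ⟨γ :: (l ++ l), arg (cv 0 C γ) + 2 * ψ, ?_, ?_, ?_, ?_, ?_⟩
  · simp only [List.length_cons, List.length_append]; omega
  · intro v hv
    simp only [List.mem_cons, List.mem_append, or_self] at hv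
    rcases hv with rfl | hv
    · exact ⟨hγo, hγA⟩
    · exact hl v hv
  · simp only [List.map_cons, List.map_append, List.prod_cons, List.prod_append]
    rw [hlp, hunγ, ← Complex.exp_add, ← Complex.exp_add]
    congr 1; push_cast; ring
  · simp only [List.map_cons, List.map_append, List.prod_cons, List.prod_append]
    rw [prod_col_sq hf hD l (fun v hv => od_ne_zero (hl v hv).1), hγ]; norm_num
  · have e : arg (cv 0 C γ) + 2 * ψ = -2 * (-(arg (cv 0 C γ)) / 2 - ψ) := by ring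
    rw [e, abs_mul]
    calc |(-2 : ℝ)| * |-(arg (cv 0 C γ)) / 2 - ψ| ≤ 2 * (c / A ^ (r + 1)) := by
          have : |(-2 : ℝ)| = 2 := by norm_num
          rw [this]; gcongr
      _ = _ := by ring

theorem minus_sideE_aux (hD : (0 : ℤ) ^ 2 < 4 * C) (hC : C % 2 = 1) {ε : ℝ} (hε : 0 < ε)
    (hε1 : ε ≤ 1) :
    ∀ᶠ X : ℕ in atTop, ∀ f : ℕ → ℤ, IsSign f →
      (∃ v : ℤ × ℤ, od v ∧ ‖cv 0 C v‖ ≤ (X : ℝ) ^ (ε / 8) ∧ col f 0 C v = -1) →
      (X : ℝ) ^ (1 - ε) ≤ (valFE f C X (-1)).card := by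
  obtain ⟨r, hr⟩ : ∃ r : ℕ, r = ⌈16 / ε⌉₊ := ⟨_, rfl⟩
  have hr1 : 16 / ε ≤ r := by rw [hr]; exact Nat.le_ceil _
  obtain ⟨k, c, A0, hc, hA0, hlist⟩ := exists_listE hD r
  obtain ⟨cτ, hcτ, hτ⟩ := div_F_le 0 C (show 0 < ε / 8 by positivity)
  have hcB := cB_ge hD
  have hmB := mB_ge hD
  obtain ⟨K, hK⟩ : ∃ K : ℝ, K = (2 * k + 2) * (40 * cB 0 C ^ 2 * mB 0 C ^ 2) := ⟨_, rfl⟩
  have hK1 : 1 ≤ K := by
    have h1 : (1 : ℝ) ≤ cB 0 C ^ 2 := one_le_pow₀ hcB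
    have h2 : (1 : ℝ) ≤ mB 0 C ^ 2 := one_le_pow₀ hmB
    have h3 : (1 : ℝ) ≤ cB 0 C ^ 2 * mB 0 C ^ 2 := one_le_mul_of_one_le_of_one_le h1 h2
    have h4 : (0 : ℝ) ≤ k := by positivity
    rw [hK]; nlinarith
  obtain ⟨M, hM⟩ : ∃ M : ℝ, M = (2 * k + 2) * (20 * (512 * cB 0 C ^ 2 * K ^ 2)) * (30 * cτ) :=
    ⟨_, rfl⟩
  have hM0 : 0 < M := by rw [hM]; positivity
  filter_upwards [eventually_rpow_ge A0 (show 0 < ε / 8 by positivity),
    eventually_rpow_ge (2048 * cB 0 C ^ 2 * K ^ 2) (show 0 < 1 - ε / 4 by linarith),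
    eventually_rpow_ge M (show 0 < ε / 2 by positivity),
    eventually_rpow_ge (max c 1) (show (0 : ℝ) < 1 by norm_num)]
    with X h1 h2 h3 h4
  intro f hf ⟨γ, hγ0, hγA, hγ⟩
  rw [Real.rpow_one] at h4
  have hXc : c ≤ X := (le_max_left _ _).trans h4
  have hX1 : (1 : ℝ) ≤ X := (le_max_right _ _).trans h4
  have hX1' : 1 ≤ X := by exact_mod_cast hX1
  have hX0 : (0 : ℝ) < X := by linarith
  obtain ⟨A, hA⟩ : ∃ A : ℝ, A = (X : ℝ) ^ (ε / 8) := ⟨_, rfl⟩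
  have hA1 : 1 ≤ A := by rw [hA]; linarith
  have hApos : 0 < A := by linarith
  have hA2 : A ^ 2 = (X : ℝ) ^ (ε / 4) := by
    rw [hA, ← Real.rpow_natCast, ← Real.rpow_mul hX0.le]; push_cast; ring_nf
  have hAr : (X : ℝ) ^ 2 ≤ A ^ (r + 1) := by
    rw [hA, ← Real.rpow_natCast ((X : ℝ) ^ (ε / 8)), ← Real.rpow_mul hX0.le, ← Real.rpow_natCast]
    apply Real.rpow_le_rpow_of_exponent_le hX1
    push_cast
    rw [div_le_iff₀ hε] at hr1
    nlinarith
  obtain ⟨L, η, hLk, hL, hprod, hcol, hη⟩ := hlist A (by rw [hA]; exact h1) f hf γ hγ0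
    (by rw [hA]; exact hγA) hγ
  obtain ⟨R, hR⟩ : ∃ R : ℝ, R = √X / 2 := ⟨_, rfl⟩
  have hR0 : 0 < R := by rw [hR]; positivity
  have hR2 : R ^ 2 = X / 4 := by rw [hR, div_pow, Real.sq_sqrt hX0.le]; norm_num
  obtain ⟨ρ, hρ⟩ : ∃ ρ : ℝ, ρ = R / (4 * A) := ⟨_, rfl⟩
  have hρ0 : 0 < ρ := by rw [hρ]; positivity
  have hρ2 : ρ ^ 2 = X / (64 * A ^ 2) := by rw [hρ, div_pow, hR2]; field_simp; ring
  obtain ⟨s, hs⟩ : ∃ s : ℝ, s = 8 * cB 0 C ^ 2 * K ^ 2 / ρ ^ 2 := ⟨_, rfl⟩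
  have hs' : s = 512 * cB 0 C ^ 2 * K ^ 2 * A ^ 2 / X := by rw [hs, hρ2]; field_simp; ring
  have hK0 : 0 < K := by linarith
  have hcB0 : 0 < cB 0 C := by linarith
  have hs4 : s ≤ 1 / 4 := by
    rw [hs', div_le_iff₀ hX0, hA2]
    have h5 : (X : ℝ) = (X : ℝ) ^ (1 - ε / 4) * (X : ℝ) ^ (ε / 4) := by
      rw [← Real.rpow_add hX0]; ring_nf; rw [Real.rpow_one]
    have h6 : 2048 * cB 0 C ^ 2 * K ^ 2 * (X : ℝ) ^ (ε / 4) ≤ X := by
      nth_rewrite 2 [h5]; gcongr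
    linarith
  have hρK : 32 * cB 0 C ^ 2 * K ^ 2 ≤ ρ ^ 2 := by
    have : 8 * cB 0 C ^ 2 * K ^ 2 ≤ 1 / 4 * ρ ^ 2 := by
      rw [hs, div_le_iff₀ (by positivity)] at hs4; exact hs4
    linarith
  have hK2 : 1 ≤ K ^ 2 := one_le_pow₀ hK1
  have hcρ : cB 0 C ≤ ρ := by
    have h7 : cB 0 C ^ 2 ≤ ρ ^ 2 := by nlinarith [sq_nonneg (cB 0 C)]
    exact (pow_le_pow_iff_left₀ hcB0.le hρ0.le two_ne_zero).1 h7
  have hηs : |η| ≤ s := by
    have h8 : 1 ≤ cB 0 C ^ 2 := one_le_pow₀ hcB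
    have h9 : 1 ≤ A ^ 2 := one_le_pow₀ hA1
    calc |η| ≤ c / A ^ (r + 1) := hη
      _ ≤ X / (X : ℝ) ^ 2 := by gcongr
      _ = 1 / X := by field_simp
      _ ≤ 512 * cB 0 C ^ 2 * K ^ 2 * A ^ 2 / X := by
          gcongr
          have h10 : 1 ≤ cB 0 C ^ 2 * K ^ 2 := one_le_mul_of_one_le_of_one_le h8 hK2
          have h11 : 1 ≤ cB 0 C ^ 2 * K ^ 2 * A ^ 2 := one_le_mul_of_one_le_of_one_le h10 h9
          nlinarith
      _ = s := hs'.symm
  have hAρ : A * (4 * ρ) ≤ R := by rw [hρ]; field_simp; exact le_rfl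
  have hρR : 4 * ρ ≤ R := by
    have : 4 * ρ = R / A := by rw [hρ]; field_simp
    rw [this]; exact div_le_self hR0.le hA1
  have hLlen : (L.length + 1 : ℝ) ≤ 2 * k + 2 := by
    have : L.length + 1 ≤ 2 * k + 2 := by omega
    exact_mod_cast this
  have hmany := many_badE hD hC hf hcρ hK1 hρK hs hηs hAρ hρR hL hprod hcol
    (by rw [hK]; gcongr)
  have hpair := pair_to_valE hD hC hf (R := R) (X := X) (D := ⌊cτ * (X : ℝ) ^ (2 * (ε / 8))⌋₊)
    (e := -1) hR0.le (by rw [hR2]; linarith) (hτ X hX1')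
  have hs0 : 0 < s := by rw [hs]; positivity
  have hpair' : ((pairFE f C R (-1)).card : ℝ) ≤
      30 * (cτ * (X : ℝ) ^ (ε / 4)) * (valFE f C X (-1)).card := by
    have hfl : ((⌊cτ * (X : ℝ) ^ (2 * (ε / 8))⌋₊ : ℕ) : ℝ) ≤ cτ * (X : ℝ) ^ (ε / 4) := by
      calc _ ≤ cτ * (X : ℝ) ^ (2 * (ε / 8)) := Nat.floor_le (by positivity)
        _ = _ := by ring_nf
    calc ((pairFE f C R (-1)).card : ℝ)
        ≤ ((2 * (15 * ⌊cτ * (X : ℝ) ^ (2 * (ε / 8))⌋₊) * (valFE f C X (-1)).card : ℕ) : ℝ) := by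
          exact_mod_cast hpair
      _ = 30 * ((⌊cτ * (X : ℝ) ^ (2 * (ε / 8))⌋₊ : ℕ) : ℝ) * (valFE f C X (-1)).card := by
          push_cast; ring
      _ ≤ _ := by gcongr
  have hfin : 1 ≤ M * (X : ℝ) ^ (ε / 2) / X * (valFE f C X (-1)).card := by
    calc (1 : ℝ) ≤ (L.length + 1) * (20 * s) * (pairFE f C R (-1)).card := hmany
      _ ≤ (2 * k + 2) * (20 * s) *
          (30 * (cτ * (X : ℝ) ^ (ε / 4)) * (valFE f C X (-1)).card) := by gcongr
      _ = M * ((X : ℝ) ^ (ε / 4) * (X : ℝ) ^ (ε / 4)) / X * (valFE f C X (-1)).card := by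
          rw [hs', hA2, hM]; ring
      _ = M * (X : ℝ) ^ (ε / 2) / X * (valFE f C X (-1)).card := by
          rw [← Real.rpow_add hX0]; ring_nf
  have hfin2 : (X : ℝ) / (X : ℝ) ^ (ε / 2) ≤ M * (valFE f C X (-1)).card := by
    rw [div_le_iff₀ (by positivity)]
    have h12 : (X : ℝ) * 1 ≤ X * (M * (X : ℝ) ^ (ε / 2) / X * (valFE f C X (-1)).card) := by
      gcongr
    calc (X : ℝ) = X * 1 := by ring
      _ ≤ _ := h12
      _ = _ := by field_simp
  have h13 : (X : ℝ) ^ (1 - ε) * M ≤ (X : ℝ) / (X : ℝ) ^ (ε / 2) := by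
    calc (X : ℝ) ^ (1 - ε) * M ≤ (X : ℝ) ^ (1 - ε) * (X : ℝ) ^ (ε / 2) := by gcongr
      _ = (X : ℝ) ^ (1 - ε / 2) := by rw [← Real.rpow_add hX0]; ring_nf
      _ = (X : ℝ) / (X : ℝ) ^ (ε / 2) := by rw [Real.rpow_sub hX0, Real.rpow_one]
  have h14 : M * (X : ℝ) ^ (1 - ε) ≤ M * (valFE f C X (-1)).card := by
    linarith
  exact le_of_mul_le_mul_left h14 hM0

/-- the value `-1` is taken often at even arguments, uniformly in `f` -/
theorem minus_sideE (hD : (0 : ℤ) ^ 2 < 4 * C) (hC : C % 2 = 1) {ε : ℝ} (hε : 0 < ε) :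
    ∃ δ : ℝ, 0 < δ ∧ ∀ᶠ X : ℕ in atTop, ∀ f : ℕ → ℤ, IsSign f →
      (∃ n : ℤ, Even n ∧ |(n : ℝ)| ≤ (X : ℝ) ^ δ ∧ f (n ^ 2 + C).natAbs = -1) →
      (X : ℝ) ^ (1 - ε) ≤ (valFE f C X (-1)).card := by
  obtain ⟨ε', hε'⟩ : ∃ ε', ε' = min ε 1 := ⟨_, rfl⟩
  have h1 : 0 < ε' := by rw [hε']; positivity
  have hcB := cB_ge hD
  refine ⟨ε' / 16, by positivity, ?_⟩
  filter_upwards [minus_sideE_aux hD hC h1 (by rw [hε']; exact min_le_right _ _),
    eventually_rpow_ge (cB 0 C) (show 0 < ε' / 16 by positivity),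
    eventually_ge_atTop 1] with X hX h2 hX1
  intro f hf ⟨n, hne, hn, hfn⟩
  have hX1' : (1 : ℝ) ≤ X := by exact_mod_cast hX1
  have hX0 : (0 : ℝ) < X := by linarith
  have h3 := hX f hf ⟨(n, 1), ?_, ?_, ?_⟩
  · calc (X : ℝ) ^ (1 - ε) ≤ (X : ℝ) ^ (1 - ε') := by
          apply Real.rpow_le_rpow_of_exponent_le hX1'
          have : ε' ≤ ε := by rw [hε']; exact min_le_left _ _
          linarith
      _ ≤ _ := h3
  · simp only [od]; obtain ⟨m, hm⟩ := hne; omega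
  · have h4 : (1 : ℝ) ≤ (X : ℝ) ^ (ε' / 16) := Real.one_le_rpow hX1' (by positivity)
    calc ‖cv 0 C (n, 1)‖ ≤ (X : ℝ) ^ (ε' / 16) * cB 0 C :=
          norm_cv_le hD (n, 1) hn (by simpa using h4)
      _ ≤ (X : ℝ) ^ (ε' / 16) * (X : ℝ) ^ (ε' / 16) := by gcongr
      _ = (X : ℝ) ^ (ε' / 8) := by rw [← Real.rpow_add hX0]; ring_nf
  · rw [col]; rw [← hfn]; congr 2; simp only [nf]; ring

end Pool.Agent.FareyParity
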