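import Mathlib
import Pool.Agent.FareyParity.EvenMain

set_option autoImplicit false

/-!
# Even arguments, with explicit dependence on the vector of colour `-1`
-/

namespace Pool.Agent.FareyParity

open Complex ComplexConjugate MeasureTheory Filter

variable {C : ℤ}

/-- approximation by short vectors of bounded norm, `γ` arbitrary -/
theorem exists_listE' (hD : (0 : ℤ) ^ 2 < 4 * C) (r : ℕ) :
    ∃ (k : ℕ) (c A0 : ℝ), 0 < c ∧ 1 ≤ A0 ∧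
    ∀ A, A0 ≤ A → ∀ f, IsSign f → ∀ γ : ℤ × ℤ, od γ → col f 0 C γ = -1 →
      ∃ (L : List (ℤ × ℤ)) (η : ℝ), L.length ≤ 2 * k + 1 ∧
        (∀ v ∈ L, od v ∧ ‖cv 0 C v‖ ≤ max A ‖cv 0 C γ‖) ∧
        (L.map (un 0 C)).prod = exp (η * I) ∧ (L.map (col f 0 C)).prod = -1 ∧
        |η| ≤ c / A ^ (r + 1) := by
  obtain ⟨k, c, A0, hc, hA0, h⟩ := approxE hD r
  refine ⟨k, 2 * c, A0, by positivity, hA0, ?_⟩
  intro A hA f hf γ hγo hγ
  have hγ0 := od_ne_zero hγo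
  obtain ⟨ψ, ⟨l, hlk, hl, hlp⟩, hψ⟩ := h A hA (-(arg (cv 0 C γ)) / 2)
  have hunγ : un 0 C γ = exp ((arg (cv 0 C γ) : ℝ) * I) := by
    have h1 := norm_mul_exp_arg_mul_I (cv 0 C γ)
    have h2 : (‖cv 0 C γ‖ : ℂ) ≠ 0 := by
      have := one_le_norm_cv hD hγ0
      have : ‖cv 0 C γ‖ ≠ 0 := by positivity
      exact_mod_cast this
    rw [un]
    nth_rewrite 1 [← h1]
    field_simp
  refine ⟨γ :: (l ++ l), arg (cv 0 C γ) + 2 * ψ, ?_, ?_, ?_, ?_, ?_⟩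
  · simp only [List.length_cons, List.length_append]; omega
  · intro v hv
    simp only [List.mem_cons, List.mem_append, or_self] at hv
    rcases hv with rfl | hv
    · exact ⟨hγo, le_max_right _ _⟩
    · exact ⟨(hl v hv).1, (hl v hv).2.trans (le_max_left _ _)⟩
  · simp only [List.map_cons, List.map_append, List.prod_cons, List.prod_append]
    rw [hlp, hunγ, ← Complex.exp_add, ← Complex.exp_add]
    congr 1; push_cast; ring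
  · simp only [List.map_cons, List.map_append, List.prod_cons, List.prod_append]
    rw [prod_col_sq hf hD l (fun v hv => od_ne_zero (hl v hv).1), hγ]; norm_num
  · have e : arg (cv 0 C γ) + 2 * ψ = -2 * (-(arg (cv 0 C γ)) / 2 - ψ) := by ring
    rw [e, abs_mul]
    calc |(-2 : ℝ)| * |-(arg (cv 0 C γ)) / 2 - ψ| ≤ 2 * (c / A ^ (r + 1)) := by
          have : |(-2 : ℝ)| = 2 := by norm_num
          rw [this]; gcongr
      _ = _ := by ring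

theorem minus_sideE_gen (hD : (0 : ℤ) ^ 2 < 4 * C) (hC : C % 2 = 1) {ε : ℝ} (hε : 0 < ε) :
    ∀ᶠ X : ℕ in atTop, ∀ f : ℕ → ℤ, IsSign f →
      ∀ v : ℤ × ℤ, od v → ‖cv 0 C v‖ ^ 2 ≤ (X : ℝ) ^ (1 - ε) → col f 0 C v = -1 →
      (X : ℝ) ^ (1 - ε) / ‖cv 0 C v‖ ^ 2 ≤ (valFE f C X (-1)).card := by
  obtain ⟨r, hr⟩ : ∃ r : ℕ, r = ⌈16 / ε⌉₊ := ⟨_, rfl⟩
  have hr1 : 16 / ε ≤ r := by rw [hr]; exact Nat.le_ceil _
  obtain ⟨k, c, A0, hc, hA0, hlist⟩ := exists_listE' hD r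
  obtain ⟨cτ, hcτ, hτ⟩ := div_F_le 0 C (show 0 < ε / 8 by positivity)
  have hcB := cB_ge hD
  have hmB := mB_ge hD
  obtain ⟨K, hK⟩ : ∃ K : ℝ, K = (2 * k + 2) * (40 * cB 0 C ^ 2 * mB 0 C ^ 2) := ⟨_, rfl⟩
  have hK1 : 1 ≤ K := by
    have h1 : (1 : ℝ) ≤ cB 0 C ^ 2 := one_le_pow₀ hcB
    have h2 : (1 : ℝ) ≤ mB 0 C ^ 2 := one_le_pow₀ hmB
    have h3 : (1 : ℝ) ≤ cB 0 C ^ 2 * mB 0 C ^ 2 := one_le_mul_of_one_le_of_one_le h1 h2
    have h4 : (0 : ℝ) ≤ k := by positivity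
    rw [hK]; nlinarith
  obtain ⟨M, hM⟩ : ∃ M : ℝ, M = (2 * k + 2) * (20 * (512 * cB 0 C ^ 2 * K ^ 2)) * (30 * cτ) :=
    ⟨_, rfl⟩
  have hM0 : 0 < M := by rw [hM]; positivity
  filter_upwards [eventually_rpow_ge A0 (show 0 < ε / 8 by positivity),
    eventually_rpow_ge (2048 * cB 0 C ^ 2 * K ^ 2) (show 0 < ε / 2 by linarith),
    eventually_rpow_ge M (show 0 < ε / 2 by positivity),
    eventually_rpow_ge (max c 1) (show (0 : ℝ) < 1 by norm_num)]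
    with X h1 h2 h3 h4
  intro f hf γ hγ0 hγA hγ
  rw [Real.rpow_one] at h4
  have hXc : c ≤ X := (le_max_left _ _).trans h4
  have hX1 : (1 : ℝ) ≤ X := (le_max_right _ _).trans h4
  have hX1' : 1 ≤ X := by exact_mod_cast hX1
  have hX0 : (0 : ℝ) < X := by linarith
  have hγ1 : 1 ≤ ‖cv 0 C γ‖ := one_le_norm_cv hD (od_ne_zero hγ0)
  obtain ⟨a, ha⟩ : ∃ a : ℝ, a = (X : ℝ) ^ (ε / 8) := ⟨_, rfl⟩
  have ha1 : 1 ≤ a := by rw [ha]; linarith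
  have ha0 : 0 < a := by linarith
  have ha2 : a ^ 2 = (X : ℝ) ^ (ε / 4) := by
    rw [ha, ← Real.rpow_natCast, ← Real.rpow_mul hX0.le]; push_cast; ring_nf
  have har : (X : ℝ) ^ 2 ≤ a ^ (r + 1) := by
    rw [ha, ← Real.rpow_natCast ((X : ℝ) ^ (ε / 8)), ← Real.rpow_mul hX0.le, ← Real.rpow_natCast]
    apply Real.rpow_le_rpow_of_exponent_le hX1
    push_cast
    rw [div_le_iff₀ hε] at hr1
    nlinarith
  obtain ⟨A, hA⟩ : ∃ A : ℝ, A = max a ‖cv 0 C γ‖ := ⟨_, rfl⟩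
  have hA1 : 1 ≤ A := by rw [hA]; exact le_max_of_le_left ha1
  have hApos : 0 < A := by linarith
  have hA2 : A ^ 2 ≤ (X : ℝ) ^ (ε / 4) * ‖cv 0 C γ‖ ^ 2 := by
    have h5 : A ≤ a * ‖cv 0 C γ‖ := by
      rw [hA]
      exact max_le (le_mul_of_one_le_right ha0.le hγ1)
        (le_mul_of_one_le_left (by linarith) ha1)
    calc A ^ 2 ≤ (a * ‖cv 0 C γ‖) ^ 2 := by gcongr
      _ = _ := by rw [mul_pow, ha2]
  have hA2X : 2048 * cB 0 C ^ 2 * K ^ 2 * A ^ 2 ≤ X := by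
    calc 2048 * cB 0 C ^ 2 * K ^ 2 * A ^ 2
        ≤ (X : ℝ) ^ (ε / 2) * ((X : ℝ) ^ (ε / 4) * (X : ℝ) ^ (1 - ε)) := by
          have h6 : A ^ 2 ≤ (X : ℝ) ^ (ε / 4) * (X : ℝ) ^ (1 - ε) := hA2.trans (by gcongr)
          gcongr
      _ = (X : ℝ) ^ (1 - ε / 4) := by
          rw [← Real.rpow_add hX0, ← Real.rpow_add hX0]; ring_nf
      _ ≤ (X : ℝ) ^ (1 : ℝ) := Real.rpow_le_rpow_of_exponent_le hX1 (by linarith)
      _ = X := Real.rpow_one _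
  obtain ⟨L, η, hLk, hL, hprod, hcol, hη⟩ := hlist a (by rw [ha]; exact h1) f hf γ hγ0 hγ
  rw [← hA] at hL
  obtain ⟨R, hR⟩ : ∃ R : ℝ, R = √X / 2 := ⟨_, rfl⟩
  have hR0 : 0 < R := by rw [hR]; positivity
  have hR2 : R ^ 2 = X / 4 := by rw [hR, div_pow, Real.sq_sqrt hX0.le]; norm_num
  obtain ⟨ρ, hρ⟩ : ∃ ρ : ℝ, ρ = R / (4 * A) := ⟨_, rfl⟩
  have hρ0 : 0 < ρ := by rw [hρ]; positivity
  have hρ2 : ρ ^ 2 = X / (64 * A ^ 2) := by rw [hρ, div_pow, hR2]; field_simp; ring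
  obtain ⟨s, hs⟩ : ∃ s : ℝ, s = 8 * cB 0 C ^ 2 * K ^ 2 / ρ ^ 2 := ⟨_, rfl⟩
  have hs' : s = 512 * cB 0 C ^ 2 * K ^ 2 * A ^ 2 / X := by rw [hs, hρ2]; field_simp; ring
  have hK0 : 0 < K := by linarith
  have hcB0 : 0 < cB 0 C := by linarith
  have hs4 : s ≤ 1 / 4 := by
    rw [hs', div_le_iff₀ hX0]
    linarith
  have hρK : 32 * cB 0 C ^ 2 * K ^ 2 ≤ ρ ^ 2 := by
    have : 8 * cB 0 C ^ 2 * K ^ 2 ≤ 1 / 4 * ρ ^ 2 := by
      rw [hs, div_le_iff₀ (by positivity)] at hs4; exact hs4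
    linarith
  have hK2 : 1 ≤ K ^ 2 := one_le_pow₀ hK1
  have hcρ : cB 0 C ≤ ρ := by
    have h7 : cB 0 C ^ 2 ≤ ρ ^ 2 := by nlinarith [sq_nonneg (cB 0 C)]
    exact (pow_le_pow_iff_left₀ hcB0.le hρ0.le two_ne_zero).1 h7
  have hηs : |η| ≤ s := by
    have h8 : 1 ≤ cB 0 C ^ 2 := one_le_pow₀ hcB
    have h9 : 1 ≤ A ^ 2 := one_le_pow₀ hA1
    calc |η| ≤ c / a ^ (r + 1) := hη
      _ ≤ X / (X : ℝ) ^ 2 := by gcongr
      _ = 1 / X := by field_simp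
      _ ≤ 512 * cB 0 C ^ 2 * K ^ 2 * A ^ 2 / X := by
          gcongr
          have h10 : 1 ≤ cB 0 C ^ 2 * K ^ 2 := one_le_mul_of_one_le_of_one_le h8 hK2
          have h11 : 1 ≤ cB 0 C ^ 2 * K ^ 2 * A ^ 2 := one_le_mul_of_one_le_of_one_le h10 h9
          nlinarith
      _ = s := hs'.symm
  have hAρ : A * (4 * ρ) ≤ R := by rw [hρ]; field_simp; exact le_rfl
  have hρR : 4 * ρ ≤ R := by
    have : 4 * ρ = R / A := by rw [hρ]; field_simp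
    rw [this]; exact div_le_self hR0.le hA1
  have hLlen : (L.length + 1 : ℝ) ≤ 2 * k + 2 := by
    have : L.length + 1 ≤ 2 * k + 2 := by omega
    exact_mod_cast this
  have hmany := many_badE hD hC hf hcρ hK1 hρK hs hηs hAρ hρR hL hprod hcol
    (by rw [hK]; gcongr)
  have hpair := pair_to_valE hD hC hf (R := R) (X := X) (D := ⌊cτ * (X : ℝ) ^ (2 * (ε / 8))⌋₊)
    (e := -1) hR0.le (by rw [hR2]; linarith) (hτ X hX1')
  have hs0 : 0 < s := by rw [hs]; positivity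
  have hpair' : ((pairFE f C R (-1)).card : ℝ) ≤
      30 * (cτ * (X : ℝ) ^ (ε / 4)) * (valFE f C X (-1)).card := by
    have hfl : ((⌊cτ * (X : ℝ) ^ (2 * (ε / 8))⌋₊ : ℕ) : ℝ) ≤ cτ * (X : ℝ) ^ (ε / 4) := by
      calc _ ≤ cτ * (X : ℝ) ^ (2 * (ε / 8)) := Nat.floor_le (by positivity)
        _ = _ := by ring_nf
    calc ((pairFE f C R (-1)).card : ℝ)
        ≤ ((2 * (15 * ⌊cτ * (X : ℝ) ^ (2 * (ε / 8))⌋₊) * (valFE f C X (-1)).card : ℕ) : ℝ) := by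
          exact_mod_cast hpair
      _ = 30 * ((⌊cτ * (X : ℝ) ^ (2 * (ε / 8))⌋₊ : ℕ) : ℝ) * (valFE f C X (-1)).card := by
          push_cast; ring
      _ ≤ _ := by gcongr
  obtain ⟨G, hG⟩ : ∃ G : ℝ, G = ‖cv 0 C γ‖ ^ 2 := ⟨_, rfl⟩
  have hG1 : 1 ≤ G := by rw [hG]; exact one_le_pow₀ hγ1
  have hG0 : 0 < G := by linarith
  rw [← hG] at hA2 ⊢
  have hfin : 1 ≤ M * (X : ℝ) ^ (ε / 2) * G / X * (valFE f C X (-1)).card := by
    calc (1 : ℝ) ≤ (L.length + 1) * (20 * s) * (pairFE f C R (-1)).card := hmany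
      _ ≤ (2 * k + 2) * (20 * (512 * cB 0 C ^ 2 * K ^ 2 * ((X : ℝ) ^ (ε / 4) * G) / X)) *
          (30 * (cτ * (X : ℝ) ^ (ε / 4)) * (valFE f C X (-1)).card) := by
            rw [hs']; gcongr
      _ = M * ((X : ℝ) ^ (ε / 4) * (X : ℝ) ^ (ε / 4)) * G / X * (valFE f C X (-1)).card := by
          rw [hM]; ring
      _ = M * (X : ℝ) ^ (ε / 2) * G / X * (valFE f C X (-1)).card := by
          rw [← Real.rpow_add hX0]; ring_nf
  have hfin2 : (X : ℝ) / (X : ℝ) ^ (ε / 2) ≤ M * G * (valFE f C X (-1)).card := by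
    rw [div_le_iff₀ (by positivity)]
    have h12 : (X : ℝ) * 1 ≤ X * (M * (X : ℝ) ^ (ε / 2) * G / X * (valFE f C X (-1)).card) := by
      gcongr
    calc (X : ℝ) = X * 1 := by ring
      _ ≤ _ := h12
      _ = _ := by field_simp
  have h13 : (X : ℝ) ^ (1 - ε) * M ≤ (X : ℝ) / (X : ℝ) ^ (ε / 2) := by
    calc (X : ℝ) ^ (1 - ε) * M ≤ (X : ℝ) ^ (1 - ε) * (X : ℝ) ^ (ε / 2) := by gcongr
      _ = (X : ℝ) ^ (1 - ε / 2) := by rw [← Real.rpow_add hX0]; ring_nf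
      _ = (X : ℝ) / (X : ℝ) ^ (ε / 2) := by rw [Real.rpow_sub hX0, Real.rpow_one]
  rw [div_le_iff₀ hG0]
  have h14 : M * (X : ℝ) ^ (1 - ε) ≤ M * ((valFE f C X (-1)).card * G) := by
    linarith
  exact le_of_mul_le_mul_left h14 hM0

end Pool.Agent.FareyParity
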