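import Mathlib
import Pool.Agent.FareyParity.Basic
import Pool.Agent.CoprimeSieve.Mertens

set_option autoImplicit false

/-!
# Large prime factors of `n^2 + 1` for even `n`
-/

namespace Pool.Agent.FareyParity

open Finset Pool.Agent.CoprimeSieve

theorem card_modEq_le (M v : ℕ) {q : ℕ} (_hq : 0 < q) :
    ((Ioc 0 M).filter (fun m => m ≡ v [MOD q])).card ≤ M / q + 1 := by
  calc ((Ioc 0 M).filter (fun m => m ≡ v [MOD q])).card ≤ (range (M / q + 1)).card := by
        apply card_le_card_of_injOn (fun m => m / q)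
        · intro m hm
          simp only [coe_filter, mem_Ioc, Set.mem_ofPred_eq] at hm
          simp only [coe_range, Set.mem_Iio]
          have := Nat.div_le_div_right (c := q) hm.1.2
          omega
        · intro m hm m' hm' h
          simp only [coe_filter, mem_Ioc, Set.mem_ofPred_eq] at hm hm' h
          have h1 : m % q = m' % q := by
            have h2 := hm.2.trans hm'.2.symm
            exact h2
          rw [← Nat.div_add_mod m q, ← Nat.div_add_mod m' q, h, h1]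
    _ = M / q + 1 := card_range _

theorem root_count {p : ℕ} (hp : p.Prime) (hp2 : p ≠ 2) {j : ℕ} (hj : j ≠ 0) (M : ℕ) :
    ((Ioc 0 M).filter (fun m => p ^ j ∣ 4 * m ^ 2 + 1)).card ≤ 2 * (M / p ^ j + 1) := by
  have hq : 0 < p ^ j := pow_pos hp.pos j
  rcases ((Ioc 0 M).filter (fun m => p ^ j ∣ 4 * m ^ 2 + 1)).eq_empty_or_nonempty with h | h
  · rw [h]; simp
  · obtain ⟨m0, hm0⟩ := h
    rw [mem_filter] at hm0
    have hodd : ¬ p ∣ 2 := by
      intro h; exact hp2 ((Nat.prime_dvd_prime_iff_eq hp Nat.prime_two).mp h)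
    have hpZ : Prime (p : ℤ) := Nat.prime_iff_prime_int.mp hp
    have hndvd : ∀ m : ℕ, p ^ j ∣ 4 * m ^ 2 + 1 → ¬ (p : ℤ) ∣ 2 * (m : ℤ) := by
      intro m hm h
      have h1 : (p : ℤ) ∣ ((4 * m ^ 2 + 1 : ℕ) : ℤ) := by
        exact_mod_cast (dvd_pow_self p hj).trans hm
      have h2 : (p : ℤ) ∣ 1 := by
        have h3 : (1 : ℤ) = ((4 * m ^ 2 + 1 : ℕ) : ℤ) - (2 * (m : ℤ)) * (2 * m) := by
          push_cast; ring
        rw [h3]; exact dvd_sub h1 (h.mul_right _)
      exact hpZ.not_isUnit (isUnit_of_dvd_one h2)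
    have hsub : (Ioc 0 M).filter (fun m => p ^ j ∣ 4 * m ^ 2 + 1) ⊆
        (Ioc 0 M).filter (fun m => m ≡ m0 [MOD p ^ j]) ∪
        (Ioc 0 M).filter (fun m => m ≡ (p ^ j - m0 % p ^ j) [MOD p ^ j]) := by
      intro m hm
      rw [mem_filter] at hm
      have h1 : ((p ^ j : ℕ) : ℤ) ∣ ((4 * m ^ 2 + 1 : ℕ) : ℤ) := by exact_mod_cast hm.2
      have h2 : ((p ^ j : ℕ) : ℤ) ∣ ((4 * m0 ^ 2 + 1 : ℕ) : ℤ) := by exact_mod_cast hm0.2
      have h3 : ((p ^ j : ℕ) : ℤ) ∣ (2 * (m : ℤ) - 2 * m0) * (2 * m + 2 * m0) := by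
        have := dvd_sub h1 h2
        push_cast at this ⊢
        have e : (2 * (m : ℤ) - 2 * m0) * (2 * m + 2 * m0) =
            4 * (m : ℤ) ^ 2 + 1 - (4 * (m0 : ℤ) ^ 2 + 1) := by ring
        rw [e]; exact this
      push_cast at h3
      have h2cop : IsCoprime ((p : ℤ) ^ j) 2 := by
        apply IsCoprime.pow_left
        exact (Prime.coprime_iff_not_dvd hpZ).mpr (by exact_mod_cast hodd)
      have hcases : ((p : ℤ) ^ j) ∣ ((m : ℤ) - m0) ∨ ((p : ℤ) ^ j) ∣ ((m : ℤ) + m0) := by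
        by_cases hd : (p : ℤ) ∣ 2 * (m : ℤ) - 2 * m0
        · left
          have hnd : ¬ (p : ℤ) ∣ 2 * (m : ℤ) + 2 * m0 := by
            intro h
            have h4 : (p : ℤ) ∣ 2 * (2 * (m : ℤ)) := by
              have := dvd_add hd h
              have e : 2 * (2 * (m : ℤ)) = 2 * (m : ℤ) - 2 * m0 + (2 * (m : ℤ) + 2 * m0) := by ring
              rw [e]; exact this
            rcases hpZ.dvd_or_dvd h4 with h5 | h5
            · exact hodd (by exact_mod_cast h5)
            · exact hndvd m hm.2 h5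
          have hc : IsCoprime ((p : ℤ) ^ j) (2 * (m : ℤ) + 2 * m0) :=
            IsCoprime.pow_left ((Prime.coprime_iff_not_dvd hpZ).mpr hnd)
          have h5 := hc.dvd_of_dvd_mul_right h3
          have h6 : (p : ℤ) ^ j ∣ 2 * ((m : ℤ) - m0) := by
            have e : 2 * ((m : ℤ) - m0) = 2 * (m : ℤ) - 2 * m0 := by ring
            rw [e]; exact h5
          exact h2cop.dvd_of_dvd_mul_left h6
        · right
          have hc : IsCoprime ((p : ℤ) ^ j) (2 * (m : ℤ) - 2 * m0) :=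
            IsCoprime.pow_left ((Prime.coprime_iff_not_dvd hpZ).mpr hd)
          have h5 := hc.dvd_of_dvd_mul_left h3
          have h6 : (p : ℤ) ^ j ∣ 2 * ((m : ℤ) + m0) := by
            have e : 2 * ((m : ℤ) + m0) = 2 * (m : ℤ) + 2 * m0 := by ring
            rw [e]; exact h5
          exact h2cop.dvd_of_dvd_mul_left h6
      rw [mem_union, mem_filter, mem_filter]
      rcases hcases with h | h
      · left
        refine ⟨hm.1, ?_⟩
        rw [Nat.modEq_iff_dvd]
        push_cast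
        have e : (m0 : ℤ) - m = -((m : ℤ) - m0) := by ring
        rw [e]; exact (dvd_neg).mpr h
      · right
        refine ⟨hm.1, ?_⟩
        rw [Nat.modEq_iff_dvd]
        have hlt : m0 % p ^ j < p ^ j := Nat.mod_lt _ hq
        rw [Nat.cast_sub hlt.le]
        have e2 : ((m0 % p ^ j : ℕ) : ℤ) = m0 - (p ^ j : ℕ) * ((m0 / p ^ j : ℕ) : ℤ) := by
          have := Nat.div_add_mod m0 (p ^ j)
          have h7 : ((p ^ j * (m0 / p ^ j) + m0 % p ^ j : ℕ) : ℤ) = (m0 : ℤ) := by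
            exact_mod_cast this
          push_cast at h7 ⊢
          linarith
        rw [e2]
        push_cast
        have e : (p : ℤ) ^ j - (m0 - (p : ℤ) ^ j * ((m0 / p ^ j : ℕ) : ℤ)) - m =
            (p : ℤ) ^ j * (1 + ((m0 / p ^ j : ℕ) : ℤ)) - ((m : ℤ) + m0) := by ring
        push_cast at e
        rw [e]
        exact dvd_sub (Dvd.intro _ rfl) h
    calc _ ≤ _ := card_le_card hsub
      _ ≤ _ := card_union_le _ _
      _ ≤ (M / p ^ j + 1) + (M / p ^ j + 1) := add_le_add (card_modEq_le M _ hq) (card_modEq_le M _ hq)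
      _ = _ := by ring

/-- geometric sum bound -/
theorem geom_bound {p : ℕ} (hp : 3 ≤ p) (b : ℕ) :
    ∑ i ∈ Ico 1 b, (1 : ℝ) / (p : ℝ) ^ i ≤ 3 / 2 / p := by
  have hp3 : (3 : ℝ) ≤ p := by exact_mod_cast hp
  have hp0 : (0 : ℝ) < p := by linarith
  -- partial sums are `≤ (1 - p^{-(b-1)}) / (p - 1)`
  have h : ∀ n : ℕ, ∑ i ∈ range n, (1 : ℝ) / (p : ℝ) ^ (1 + i) ≤
      (1 - 1 / (p : ℝ) ^ n) / (p - 1) := by
    intro n
    induction n with
    | zero => simp
    | succ n ih =>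
      rw [sum_range_succ]
      have hp1 : (0 : ℝ) < p - 1 := by linarith
      have hpn : (0 : ℝ) < (p : ℝ) ^ n := by positivity
      have e : (1 - 1 / (p : ℝ) ^ (n + 1)) / (p - 1) =
          (1 - 1 / (p : ℝ) ^ n) / (p - 1) + 1 / (p : ℝ) ^ (1 + n) := by
        rw [pow_add, pow_add, pow_one]
        field_simp
        ring
      rw [e]; linarith
  rw [sum_Ico_eq_sum_range]
  refine (h (b - 1)).trans ?_
  have hp1 : (0 : ℝ) < p - 1 := by linarith
  rw [div_div, div_le_div_iff₀ hp1 (by positivity)]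
  have : 0 ≤ 1 / (p : ℝ) ^ (b - 1) := by positivity
  nlinarith

/-- the sum of logarithms when all prime factors are small -/
theorem sum_log_le {M y : ℕ}
    (hy : ∀ m ∈ Ioc 0 M, ∀ p : ℕ, p.Prime → p ∣ 4 * m ^ 2 + 1 → p ≤ y) :
    ∑ m ∈ Ioc 0 M, Real.log ((4 * m ^ 2 + 1 : ℕ) : ℝ) ≤
      3 * M * mE y + 2 * y * Real.log ((4 * M ^ 2 + 1 : ℕ) : ℝ) := by
  obtain ⟨S, hS⟩ : ∃ S : Finset ℕ, S = (pr y).filter (fun p => p ≠ 2) := ⟨_, rfl⟩
  have hmem : ∀ p ∈ S, p.Prime ∧ p ≤ y ∧ 3 ≤ p := by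
    intro p hp
    rw [hS, mem_filter, mem_pr] at hp
    have h2 := hp.1.1.two_le
    exact ⟨hp.1.1, by exact_mod_cast hp.1.2, by have := hp.2; omega⟩
  have h1 : ∀ m ∈ Ioc 0 M, Real.log ((4 * m ^ 2 + 1 : ℕ) : ℝ) =
      ∑ p ∈ S, ((4 * m ^ 2 + 1).factorization p : ℝ) * Real.log p := by
    intro m hm
    rw [Real.log_nat_eq_sum_factorization]
    apply Finsupp.sum_of_support_subset
    · intro p hp
      rw [Nat.support_factorization, Nat.mem_primeFactors] at hp
      rw [hS, mem_filter, mem_pr]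
      refine ⟨⟨hp.1, ?_⟩, ?_⟩
      · exact_mod_cast hy m hm p hp.1 hp.2.1
      · rintro rfl
        have := hp.2.1
        omega
    · intro p _; simp
  rw [sum_congr rfl h1, sum_comm]
  have h2 : ∀ p ∈ S, ∑ m ∈ Ioc 0 M, ((4 * m ^ 2 + 1).factorization p : ℝ) * Real.log p ≤
      3 * M * (Real.log p / p) + 2 * Real.log ((4 * M ^ 2 + 1 : ℕ) : ℝ) := by
    intro p hp
    obtain ⟨hpp, hpy, hp3⟩ := hmem p hp
    obtain ⟨b, hb⟩ : ∃ b : ℕ, b = Nat.log p (4 * M ^ 2 + 1) + 1 := ⟨_, rfl⟩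
    have hfac : ∀ m ∈ Ioc 0 M, (4 * m ^ 2 + 1).factorization p =
        ((Ico 1 b).filter (fun i => p ^ i ∣ 4 * m ^ 2 + 1)).card := by
      intro m hm
      apply Nat.factorization_eq_card_pow_dvd_of_lt hpp (by omega)
      rw [mem_Ioc] at hm
      have hle : 4 * m ^ 2 + 1 ≤ 4 * M ^ 2 + 1 := by
        have := Nat.pow_le_pow_left hm.2 2
        omega
      rw [hb]
      exact lt_of_le_of_lt hle (Nat.lt_pow_succ_log_self hpp.one_lt _)
    have h3 : ∑ m ∈ Ioc 0 M, (4 * m ^ 2 + 1).factorization p ≤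
        ∑ i ∈ Ico 1 b, 2 * (M / p ^ i + 1) := by
      rw [sum_congr rfl hfac]
      have e : ∑ m ∈ Ioc 0 M, ((Ico 1 b).filter (fun i => p ^ i ∣ 4 * m ^ 2 + 1)).card =
          ∑ i ∈ Ico 1 b, ((Ioc 0 M).filter (fun m => p ^ i ∣ 4 * m ^ 2 + 1)).card := by
        simp only [card_filter]
        exact sum_comm
      rw [e]
      apply sum_le_sum
      intro i hi
      rw [mem_Ico] at hi
      exact root_count hpp (by omega) (by omega) M
    have hlogp : 0 ≤ Real.log p := Real.log_natCast_nonneg p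
    rw [← sum_mul]
    have h4 : (∑ m ∈ Ioc 0 M, ((4 * m ^ 2 + 1).factorization p : ℝ)) ≤
        3 * M / p + 2 * (b - 1 : ℝ) := by
      have h5 : ((∑ m ∈ Ioc 0 M, (4 * m ^ 2 + 1).factorization p : ℕ) : ℝ) ≤
          ((∑ i ∈ Ico 1 b, 2 * (M / p ^ i + 1) : ℕ) : ℝ) := by exact_mod_cast h3
      push_cast at h5
      refine h5.trans ?_
      calc ∑ i ∈ Ico 1 b, 2 * (((M / p ^ i : ℕ) : ℝ) + 1)
          ≤ ∑ i ∈ Ico 1 b, (2 * M * (1 / (p : ℝ) ^ i) + 2) := by
            apply sum_le_sum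
            intro i _
            have h6 : ((M / p ^ i : ℕ) : ℝ) ≤ (M : ℝ) / ((p ^ i : ℕ) : ℝ) := Nat.cast_div_le
            push_cast at h6
            have e : 2 * (M : ℝ) * (1 / (p : ℝ) ^ i) = 2 * (M / (p : ℝ) ^ i) := by ring
            rw [e]; linarith
        _ = 2 * M * ∑ i ∈ Ico 1 b, (1 / (p : ℝ) ^ i) + 2 * (b - 1 : ℝ) := by
            rw [sum_add_distrib, ← mul_sum, sum_const, Nat.card_Ico, nsmul_eq_mul]
            have : ((b - 1 : ℕ) : ℝ) = (b : ℝ) - 1 := by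
              rw [Nat.cast_sub (by omega)]; simp
            rw [this]; ring
        _ ≤ 2 * M * (3 / 2 / p) + 2 * (b - 1 : ℝ) := by
            gcongr
            exact geom_bound hp3 b
        _ = 3 * M / p + 2 * (b - 1 : ℝ) := by ring
    have h7 : (b - 1 : ℝ) * Real.log p ≤ Real.log ((4 * M ^ 2 + 1 : ℕ) : ℝ) := by
      rw [hb]
      have e : ((Nat.log p (4 * M ^ 2 + 1) + 1 : ℕ) : ℝ) - 1 = Nat.log p (4 * M ^ 2 + 1) := by
        push_cast; ring
      rw [e, ← Real.log_pow]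
      apply Real.log_le_log (by positivity)
      exact_mod_cast Nat.pow_log_le_self p (by omega)
    calc (∑ m ∈ Ioc 0 M, ((4 * m ^ 2 + 1).factorization p : ℝ)) * Real.log p
        ≤ (3 * M / p + 2 * (b - 1 : ℝ)) * Real.log p := by gcongr
      _ = 3 * M * (Real.log p / p) + 2 * ((b - 1 : ℝ) * Real.log p) := by ring
      _ ≤ _ := by linarith
  refine (sum_le_sum h2).trans ?_
  rw [sum_add_distrib, ← mul_sum, sum_const, nsmul_eq_mul]
  have hlogM : 0 ≤ Real.log ((4 * M ^ 2 + 1 : ℕ) : ℝ) := Real.log_natCast_nonneg _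
  have hcard : (S.card : ℝ) ≤ y := by
    have h8 : S.card ≤ (Icc 1 ⌊(y : ℝ)⌋₊).card := by
      rw [hS]
      exact (card_le_card (filter_subset _ _)).trans (card_le_card (filter_subset _ _))
    rw [Nat.card_Icc, Nat.floor_natCast] at h8
    have : S.card ≤ y := by omega
    exact_mod_cast this
  have hmE : ∑ p ∈ S, Real.log p / p ≤ mE y := by
    rw [hS]
    exact sum_le_sum_of_subset_of_nonneg (filter_subset _ _) (fun p _ _ => logdiv_nonneg p)
  have h9 : 3 * (M : ℝ) * ∑ p ∈ S, Real.log p / p ≤ 3 * M * mE y := by gcongr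
  have h10 : (S.card : ℝ) * (2 * Real.log ((4 * M ^ 2 + 1 : ℕ) : ℝ)) ≤
      y * (2 * Real.log ((4 * M ^ 2 + 1 : ℕ) : ℝ)) := by gcongr
  linarith

theorem sum_log_ge {M : ℕ} (hM : 1 ≤ M) :
    2 * (M : ℝ) * Real.log M - M ≤ ∑ m ∈ Ioc 0 M, Real.log ((4 * m ^ 2 + 1 : ℕ) : ℝ) := by
  have hM0 : (0 : ℝ) < M := by exact_mod_cast hM
  have h1 : ∀ m ∈ Ioc 0 M, 2 * Real.log 2 + 2 * Real.log m ≤
      Real.log ((4 * m ^ 2 + 1 : ℕ) : ℝ) := by
    intro m hm
    rw [mem_Ioc] at hm
    have hm0 : (0 : ℝ) < m := by exact_mod_cast hm.1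
    have e : 2 * Real.log 2 + 2 * Real.log m = Real.log ((2 * (m : ℝ)) ^ 2) := by
      rw [Real.log_pow, Real.log_mul (by norm_num) hm0.ne']; push_cast; ring
    rw [e]
    apply Real.log_le_log (by positivity)
    push_cast; nlinarith
  have h2 := sum_le_sum h1
  rw [sum_add_distrib, sum_const, Nat.card_Ioc, nsmul_eq_mul, ← mul_sum] at h2
  have h3 : ∑ m ∈ Ioc 0 M, Real.log m = Real.log (M.factorial : ℝ) := by
    clear h1 h2 hM hM0
    induction M with
    | zero => simp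
    | succ M ih =>
      rw [sum_Ioc_succ_top (by omega), Nat.factorial_succ]
      have hf : (M.factorial : ℝ) ≠ 0 := by positivity
      rw [ih]
      push_cast
      rw [Real.log_mul (by positivity) hf]
      ring
  have h4 : (M : ℝ) * Real.log M - M ≤ Real.log (M.factorial : ℝ) := by
    have h5 := Real.pow_div_factorial_le_exp (x := (M : ℝ)) hM0.le M
    have hf : (0 : ℝ) < M.factorial := by exact_mod_cast Nat.factorial_pos M
    have h6 : (M : ℝ) ^ M ≤ Real.exp M * M.factorial := by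
      rwa [div_le_iff₀ hf] at h5
    have h7 := Real.log_le_log (by positivity) h6
    rw [Real.log_pow, Real.log_mul (Real.exp_pos _).ne' hf.ne', Real.log_exp] at h7
    linarith
  rw [h3] at h2
  have hl2 : (0.69 : ℝ) < Real.log 2 := by have := Real.log_two_gt_d9; linarith
  have h8 : (M : ℝ) * (2 * 0.69) ≤ M * (2 * Real.log 2) := by gcongr
  simp only [Nat.sub_zero] at h2
  nlinarith

/-- some `4 m^2 + 1` with `m ≤ y^2` has a prime factor above `y` -/
theorem exists_large_prime : ∃ Y : ℕ, 1 ≤ Y ∧ ∀ y : ℕ, Y ≤ y →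
    ∃ m ∈ Ioc 0 (y ^ 2), ∃ p : ℕ, p.Prime ∧ p ∣ 4 * m ^ 2 + 1 ∧ y < p := by
  refine ⟨⌈Real.exp 20⌉₊, ?_, ?_⟩
  · have : 0 < Real.exp 20 := Real.exp_pos _
    exact Nat.one_le_iff_ne_zero.mpr (by positivity)
  · intro y hy
    by_contra hcon
    push Not at hcon
    have hyR : Real.exp 20 ≤ y := (Nat.le_ceil _).trans (by exact_mod_cast hy)
    have hy0 : (0 : ℝ) < y := lt_of_lt_of_le (Real.exp_pos _) hyR
    have hL : 20 ≤ Real.log y := by
      rw [← Real.log_exp 20]; exact Real.log_le_log (Real.exp_pos _) hyR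
    have hy1 : 1 ≤ y := by
      have : 0 < y := by exact_mod_cast hy0
      omega
    have hM : 1 ≤ y ^ 2 := Nat.one_le_pow _ _ hy1
    have h1 := sum_log_le (M := y ^ 2) (y := y) (by
      intro m hm p hp hd
      exact hcon m hm p hp hd)
    have h2 := sum_log_ge hM
    have h3 := mE_upper_nat y hy1
    obtain ⟨L, hLdef⟩ : ∃ L : ℝ, L = Real.log y := ⟨_, rfl⟩
    rw [← hLdef] at hL h3
    have hlog4 : Real.log 4 < 1.4 := by
      have e : (4 : ℝ) = 2 ^ 2 := by norm_num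
      rw [e, Real.log_pow]
      have := Real.log_two_lt_d9
      push_cast; linarith
    have hlog5 : Real.log 5 < 1.7 := by
      have h5 : Real.log 5 ≤ Real.log 4 + 1 / 4 := by
        have e : (5 : ℝ) = 4 * (5 / 4) := by norm_num
        rw [e, Real.log_mul (by norm_num) (by norm_num)]
        have := Real.log_le_sub_one_of_pos (show (0 : ℝ) < 5 / 4 by norm_num)
        linarith
      linarith
    have h4 : Real.log ((4 * (y ^ 2) ^ 2 + 1 : ℕ) : ℝ) ≤ 1.7 + 4 * L := by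
      have h5 : ((4 * (y ^ 2) ^ 2 + 1 : ℕ) : ℝ) ≤ 5 * (y : ℝ) ^ 4 := by
        push_cast
        have : (1 : ℝ) ≤ (y : ℝ) ^ 4 := one_le_pow₀ (by exact_mod_cast hy1)
        nlinarith
      refine (Real.log_le_log (by positivity) h5).trans ?_
      rw [Real.log_mul (by norm_num) (by positivity), Real.log_pow, ← hLdef]
      push_cast; linarith
    have h5 : Real.log ((y ^ 2 : ℕ) : ℝ) = 2 * L := by
      push_cast
      rw [Real.log_pow, hLdef]; push_cast; ring
    rw [h5] at h2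
    have hyL : L ^ 2 / 2 ≤ y := by
      have h6 := Real.quadratic_le_exp_of_nonneg (x := L) (by linarith)
      have h7 : Real.exp L = y := by rw [hLdef]; exact Real.exp_log hy0
      rw [h7] at h6
      nlinarith
    have h8 : 2 * (y : ℝ) * Real.log ((4 * (y ^ 2) ^ 2 + 1 : ℕ) : ℝ) ≤ 2 * y * (1.7 + 4 * L) := by
      gcongr
    push_cast at h1 h2 h8
    have h9 : 3 * ((y : ℝ) ^ 2) * mE y ≤ 3 * (y : ℝ) ^ 2 * (L + 5.4) := by
      gcongr; linarith
    have h10 : 2 * (y : ℝ) ^ 2 * (2 * L) - (y : ℝ) ^ 2 ≤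
        3 * (y : ℝ) ^ 2 * (L + 5.4) + 2 * y * (1.7 + 4 * L) := by linarith
    have h11 : (y : ℝ) * (2 * (1.7 + 4 * L)) < y * (y * (L - 17.2)) := by
      apply mul_lt_mul_of_pos_left _ hy0
      have h12 : (y : ℝ) * 2.8 ≤ y * (L - 17.2) := by
        apply mul_le_mul_of_nonneg_left _ hy0.le
        linarith
      nlinarith
    nlinarith

/-- there is a small even `n` such that `n^2 + 1` has exactly one prime factor above `y` -/
theorem exists_one_large : ∃ Y : ℕ, ∀ y : ℕ, ∃ n : ℕ, 0 < n ∧ Even n ∧ n ≤ 2 * (y + Y) ^ 2 ∧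
    ((n ^ 2 + 1).primeFactorsList.filter (fun p => decide (y < p))).length = 1 := by
  obtain ⟨Y, hY1, hY⟩ := exists_large_prime
  refine ⟨Y, fun y => ?_⟩
  obtain ⟨m, hm, p, hp, hpd, hpy⟩ := hY (y + Y) (by omega)
  rw [mem_Ioc] at hm
  have hex : ∃ n : ℕ, 0 < n ∧ Even n ∧ ∃ p : ℕ, p.Prime ∧ y < p ∧ p ∣ n ^ 2 + 1 := by
    refine ⟨2 * m, by omega, even_two_mul m, p, hp, by omega, ?_⟩
    have : (2 * m) ^ 2 + 1 = 4 * m ^ 2 + 1 := by ring
    rw [this]; exact hpd
  classical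
  obtain ⟨n, hn⟩ : ∃ n, n = Nat.find hex := ⟨_, rfl⟩
  have hspec := Nat.find_spec hex
  rw [← hn] at hspec
  obtain ⟨hn0, hne, q, hq, hyq, hqd⟩ := hspec
  have hmin : ∀ k : ℕ, 0 < k → Even k → (∃ p : ℕ, p.Prime ∧ y < p ∧ p ∣ k ^ 2 + 1) → n ≤ k := by
    intro k h1 h2 h3
    rw [hn]; exact Nat.find_min' hex ⟨h1, h2, h3⟩
  have hnle : n ≤ 2 * (y + Y) ^ 2 := by
    have := hmin (2 * m) (by omega) (even_two_mul m) ⟨p, hp, by omega, by
      have : (2 * m) ^ 2 + 1 = 4 * m ^ 2 + 1 := by ring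
      rw [this]; exact hpd⟩
    omega
  have hlt : ∀ p : ℕ, p.Prime → y < p → p ∣ n ^ 2 + 1 → n + 1 ≤ p := by
    intro p hp hyp hpd
    by_contra hcon
    have hpn : p ≤ n := by omega
    have hr0 : n % p ≠ 0 := by
      intro h
      have h1 : p ∣ n := Nat.dvd_of_mod_eq_zero h
      have h2 : p ∣ n ^ 2 := dvd_pow h1 (by norm_num)
      have h3 : p ∣ 1 := (Nat.dvd_add_right h2).mp hpd
      exact hp.one_lt.ne' (Nat.dvd_one.mp h3)
    have hrlt : n % p < p := Nat.mod_lt _ hp.pos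
    have hpodd : p % 2 = 1 := by
      rcases hp.eq_two_or_odd with h | h
      · exfalso
        rw [h] at hpd
        obtain ⟨k, hk⟩ := hne
        have : n ^ 2 = 2 * (2 * k ^ 2) := by rw [hk]; ring
        omega
      · exact h
    have hdiv : ∀ k : ℕ, ((k : ℤ) - n) % p = 0 ∨ ((k : ℤ) + n) % p = 0 → p ∣ k ^ 2 + 1 := by
      intro k hk
      have h1 : (p : ℤ) ∣ ((n ^ 2 + 1 : ℕ) : ℤ) := by exact_mod_cast hpd
      have h2 : (p : ℤ) ∣ ((k : ℤ) - n) * (k + n) := by
        rcases hk with h | h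
        · exact (Int.dvd_of_emod_eq_zero h).mul_right _
        · exact (Int.dvd_of_emod_eq_zero h).mul_left _
      have h3 : (p : ℤ) ∣ ((k ^ 2 + 1 : ℕ) : ℤ) := by
        have e : ((k ^ 2 + 1 : ℕ) : ℤ) = ((n ^ 2 + 1 : ℕ) : ℤ) + ((k : ℤ) - n) * (k + n) := by
          push_cast; ring
        rw [e]; exact dvd_add h1 h2
      exact_mod_cast h3
    have hmod : (p : ℤ) * ((n / p : ℕ) : ℤ) + ((n % p : ℕ) : ℤ) = n := by
      exact_mod_cast Nat.div_add_mod n p
    rcases Nat.even_or_odd (n % p) with h | h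
    · have := hmin (n % p) (by omega) h ⟨p, hp, hyp, hdiv _ (by
        left
        apply Int.emod_eq_zero_of_dvd
        exact ⟨-((n / p : ℕ) : ℤ), by linarith⟩)⟩
      omega
    · have hev : Even (p - n % p) := by
        rw [Nat.even_sub hrlt.le]
        rw [Nat.odd_iff] at h
        constructor
        · intro h2; rw [Nat.even_iff] at h2; omega
        · intro h2; rw [Nat.even_iff] at h2; omega
      have := hmin (p - n % p) (by omega) hev ⟨p, hp, hyp, hdiv _ (by
        right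
        apply Int.emod_eq_zero_of_dvd
        rw [Nat.cast_sub hrlt.le]
        exact ⟨1 + ((n / p : ℕ) : ℤ), by linarith⟩)⟩
      omega
  refine ⟨n, hn0, hne, hnle, ?_⟩
  obtain ⟨l, hl⟩ : ∃ l, l = (n ^ 2 + 1).primeFactorsList.filter (fun p => decide (y < p)) :=
    ⟨_, rfl⟩
  rw [← hl]
  have hqmem : q ∈ l := by
    rw [hl, List.mem_filter, Nat.mem_primeFactorsList (by positivity)]
    exact ⟨⟨hq, hqd⟩, by simpa using hyq⟩
  have hge : ∀ x ∈ l, n + 1 ≤ x := by
    intro x hx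
    rw [hl, List.mem_filter, Nat.mem_primeFactorsList (by positivity)] at hx
    exact hlt x hx.1.1 (by simpa using hx.2) hx.1.2
  have hprod : l.prod ∣ n ^ 2 + 1 := by
    have h1 : l.prod ∣ (n ^ 2 + 1).primeFactorsList.prod := by
      rw [hl]
      exact List.Sublist.prod_dvd_prod List.filter_sublist
    rwa [Nat.prod_primeFactorsList (by positivity)] at h1
  have hlen1 : 1 ≤ l.length := List.length_pos_of_mem hqmem
  by_contra hne1
  have hlen2 : 2 ≤ l.length := by omega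
  have h2 : (n + 1) ^ l.length ≤ l.prod := List.pow_card_le_prod l (n + 1) hge
  have h3 : (n + 1) ^ 2 ≤ (n + 1) ^ l.length := Nat.pow_le_pow_right (by omega) hlen2
  have h4 : l.prod ≤ n ^ 2 + 1 := Nat.le_of_dvd (by positivity) hprod
  nlinarith

/-- parity of the number of prime factors above `y`, as a sign -/
noncomputable def bigSign (y m : ℕ) : ℤ :=
  if m = 0 then 0 else (-1) ^ (m.primeFactorsList.filter (fun p => decide (y < p))).length

theorem isSign_bigSign (y : ℕ) : IsSign (bigSign y) where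
  mul := by
    intro a b
    unfold bigSign
    by_cases ha : a = 0
    · simp [ha]
    by_cases hb : b = 0
    · simp [hb]
    rw [if_neg ha, if_neg hb, if_neg (mul_ne_zero ha hb), ← pow_add, ← List.length_append,
      ← List.filter_append]
    congr 1
    exact ((Nat.perm_primeFactorsList_mul ha hb).filter _).length_eq
  val := by
    intro a ha
    unfold bigSign
    rw [if_neg ha]
    exact neg_one_pow_eq_or ℤ _

theorem bigSign_eq_neg_one {y m : ℕ} (hm : m ≠ 0) : bigSign y m = -1 ↔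
    Odd (m.primeFactorsList.filter (fun p => decide (y < p))).length := by
  unfold bigSign
  rw [if_neg hm]
  exact neg_one_pow_eq_neg_one_iff_odd (by norm_num)

end Pool.Agent.FareyParity
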