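import Mathlib
import Pool.Agent.FareyParity.Minus

set_option autoImplicit false

/-!
# The value `1` is taken often
-/

namespace Pool.Agent.FareyParity

open Complex ComplexConjugate Filter MeasureTheory

variable {B C : ℤ}

/-- primitive vectors of norm at most `ρ` -/
noncomputable def primF (B C : ℤ) (ρ : ℝ) : Finset (ℤ × ℤ) := by
  classical
  exact (ballF B C ρ).filter (fun z => ‖cv B C z‖ ≤ ρ ∧ IsCoprime z.1 z.2)

/-- many primitive vectors -/
theorem card_primF (hD : B ^ 2 < 4 * C) {ρ K : ℝ} (hρ : cB B C ≤ ρ)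
    (hK : K = 40 * cB B C ^ 2 * mB B C ^ 2) (hρK : 2 * cB B C ^ 2 * K ≤ ρ ^ 2) :
    1 ≤ 5 * (2 * cB B C ^ 2 * K / ρ ^ 2) * (primF B C ρ).card := by
  classical
  have hc := cB_ge hD
  have hm := mB_ge hD
  have hc2 : 1 ≤ cB B C ^ 2 := one_le_pow₀ hc
  have hm2 : 1 ≤ mB B C ^ 2 := one_le_pow₀ hm
  have hK1 : 1 ≤ K := by
    have := one_le_mul_of_one_le_of_one_le hc2 hm2
    rw [hK]; nlinarith
  have hK0 : 0 < K := by linarith
  have hρ0 : 0 < ρ := by linarith
  have hπ := Real.pi_pos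
  obtain ⟨s, hs⟩ : ∃ s, s = 2 * cB B C ^ 2 * K / ρ ^ 2 := ⟨_, rfl⟩
  have hs0 : 0 < s := by rw [hs]; positivity
  have main := real_of_measure_cover ({()} : Finset Unit) (ballF B C (ρ / K)) (primF B C ρ)
    (fun _ v => {θ : ℝ | θ ∈ Set.Icc 0 (2 * Real.pi) ∧
      |(conj (exp (θ * I)) * (cv B C v)).im| ≤ (cB B C ^ 2 / ρ / ‖cv B C v‖) * ‖cv B C v‖})
    (fun _ z => {θ : ℝ | θ ∈ Set.Icc 0 (2 * Real.pi) ∧
      |(conj (exp (θ * I)) * (cv B C z)).im| ≤ s * ‖cv B C z‖})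
    (fun v => 5 * Real.pi * (cB B C ^ 2 / ρ / ‖cv B C v‖)) (5 * Real.pi * s)
    (by intro v _; positivity) (by positivity)
    (by
      intro q _ v hv
      apply volume_close
      · exact cv_ne_zero hD (ne_zero_of_mem_ballF hv)
      · positivity)
    (by
      intro q _ z hz
      simp only [primF, Finset.mem_filter] at hz
      apply volume_close
      · exact cv_ne_zero hD (ne_zero_of_mem_ballF hz.1)
      · positivity)
    (by
      intro θ hθ
      have hp : ‖exp ((θ : ℂ) * I)‖ = 1 := norm_exp_ofReal_mul_I θ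
      simp only [Set.mem_iUnion]
      refine ⟨(), by simp, ?_⟩
      rcases good_or_short hD hp hρ hK1 hρK with ⟨u, hu0, hu⟩ | ⟨v, hv0, hvn, hvi⟩
      · right
        obtain ⟨k, u0, hk, huk, hcop⟩ := exists_primitive hu0
        have hu00 : u0 ≠ 0 := by rintro rfl; simp [huk] at hu0
        have hmem : u0 ∈ NearSet B C (exp (θ * I)) s ρ := by
          rw [hs]
          apply triClosed_nearSet _ hρ0.le u hu u hu u0 hu00 k 1 0 hk (by norm_num) le_rfl
            (by omega)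
          simp [← huk]
        simp only [Set.mem_iUnion]
        refine ⟨u0, ?_, hθ, ?_⟩
        · simp only [primF, Finset.mem_filter]
          exact ⟨mem_ballF hD hu00 hmem.1, hmem.1, hcop⟩
        · calc _ ≤ s * (conj (exp (θ * I)) * cv B C u0).re := hmem.2
            _ ≤ s * ‖conj (exp (θ * I)) * cv B C u0‖ := by gcongr; exact re_le_norm _
            _ = _ := by rw [norm_mul, norm_conj, hp, one_mul]
      · left
        simp only [Set.mem_iUnion]
        refine ⟨v, mem_ballF hD hv0 hvn.le, hθ, ?_⟩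
        have h1 := one_le_norm_cv hD hv0
        have : ‖cv B C v‖ ≠ 0 := by positivity
        rw [div_mul_cancel₀ _ this]; exact hvi)
  have hsum : ∑ v ∈ ballF B C (ρ / K), 5 * Real.pi * (cB B C ^ 2 / ρ / ‖cv B C v‖) ≤ Real.pi := by
    have : ∑ v ∈ ballF B C (ρ / K), 5 * Real.pi * (cB B C ^ 2 / ρ / ‖cv B C v‖)
        = 5 * Real.pi * (cB B C ^ 2 / ρ) * ∑ v ∈ ballF B C (ρ / K), 1 / ‖cv B C v‖ := by
      rw [Finset.mul_sum]; apply Finset.sum_congr rfl; intro v _; ring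
    rw [this]
    have h := sum_ballF hD (V := ρ / K) (by positivity)
    calc 5 * Real.pi * (cB B C ^ 2 / ρ) * ∑ v ∈ ballF B C (ρ / K), 1 / ‖cv B C v‖
        ≤ 5 * Real.pi * (cB B C ^ 2 / ρ) * (8 * mB B C ^ 2 * (ρ / K)) := by gcongr
      _ = Real.pi * ((40 * cB B C ^ 2 * mB B C ^ 2) / K) := by field_simp; ring
      _ = Real.pi := by rw [← hK, div_self hK0.ne', mul_one]
  simp only [Finset.card_singleton, Nat.cast_one, one_mul] at main
  rw [← hs]
  have h7 : Real.pi * 1 ≤ Real.pi * (5 * s * (primF B C ρ).card) := by nlinarith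
  exact le_of_mul_le_mul_left h7 hπ

/-- short unimodular partner -/
theorem exists_short_partner (hD : B ^ 2 < 4 * C) {z : ℤ × ℤ} (hz : IsCoprime z.1 z.2)
    (hz0 : z ≠ 0) : ∃ w : ℤ × ℤ, dt z w = 1 ∧ ‖cv B C w‖ ≤ ‖cv B C z‖ + bt B C := by
  have hb := bt_pos hD
  obtain ⟨w0, hw0⟩ := exists_partner hz
  obtain ⟨a, ha⟩ : ∃ a : ℂ, a = conj (cv B C z) * cv B C w0 := ⟨_, rfl⟩
  have hzn := one_le_norm_cv hD hz0
  have hn2 : 1 ≤ ‖cv B C z‖ ^ 2 := one_le_pow₀ hzn
  obtain ⟨j, hj⟩ : ∃ j : ℤ, j = round (a.re / ‖cv B C z‖ ^ 2) := ⟨_, rfl⟩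
  obtain ⟨w, hw⟩ : ∃ w : ℤ × ℤ, w = w0 - j • z := ⟨_, rfl⟩
  have hdt : dt z w = 1 := by
    rw [hw, ← hw0]
    simp only [dt, Prod.fst_sub, Prod.snd_sub, Prod.smul_fst, Prod.smul_snd, smul_eq_mul]
    ring
  refine ⟨w, hdt, ?_⟩
  have e1 : conj (cv B C z) * cv B C w = a - j * (‖cv B C z‖ ^ 2 : ℝ) := by
    have h1 : cv B C w = cv B C w0 - (j : ℂ) * cv B C z := by
      have : w = w0 + (-j) • z := by rw [hw, neg_smul, sub_eq_add_neg]
      rw [this, cv_add, cv_smul]; push_cast; ring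
    rw [h1, ha, mul_sub]
    have h2 : conj (cv B C z) * ((j : ℂ) * cv B C z) = j * (‖cv B C z‖ ^ 2 : ℝ) := by
      have : (cv B C z) * conj (cv B C z) = ((‖cv B C z‖ ^ 2 : ℝ) : ℂ) := by
        rw [mul_conj, normSq_eq_norm_sq]
      rw [← this]; ring
    rw [h2]
  have hre : |(conj (cv B C z) * cv B C w).re| ≤ ‖cv B C z‖ ^ 2 / 2 := by
    have h1 := abs_sub_round (a.re / ‖cv B C z‖ ^ 2)
    rw [← hj] at h1
    have h2 : (conj (cv B C z) * cv B C w).re
        = ‖cv B C z‖ ^ 2 * (a.re / ‖cv B C z‖ ^ 2 - j) := by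
      rw [e1, sub_re]
      have : ((j : ℂ) * ((‖cv B C z‖ ^ 2 : ℝ) : ℂ)).re = j * ‖cv B C z‖ ^ 2 := by
        have : (j : ℂ) = ((j : ℝ) : ℂ) := by push_cast; rfl
        rw [this, ← ofReal_mul, ofReal_re]
      rw [this]; field_simp
    rw [h2, abs_mul, abs_of_pos (by positivity)]
    calc ‖cv B C z‖ ^ 2 * |a.re / ‖cv B C z‖ ^ 2 - j| ≤ ‖cv B C z‖ ^ 2 * (1 / 2) := by gcongr
      _ = _ := by ring
  have him : |(conj (cv B C z) * cv B C w).im| = bt B C := by
    rw [conj_cv_mul hD, hdt, cv_im]; simp [abs_of_pos hb]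
  have hprod : ‖cv B C z‖ * ‖cv B C w‖ ≤ ‖cv B C z‖ ^ 2 / 2 + bt B C := by
    calc ‖cv B C z‖ * ‖cv B C w‖ = ‖conj (cv B C z) * cv B C w‖ := by
          rw [norm_mul, norm_conj]
      _ ≤ |(conj (cv B C z) * cv B C w).re| + |(conj (cv B C z) * cv B C w).im| :=
          norm_le_abs_re_add_abs_im _
      _ ≤ _ := by rw [him]; gcongr
  have hz1 : 0 < ‖cv B C z‖ := by linarith
  have : ‖cv B C z‖ * ‖cv B C w‖ ≤ ‖cv B C z‖ * (‖cv B C z‖ + bt B C) := by
    nlinarith
  exact le_of_mul_le_mul_left this hz1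

/-- in a unimodular triangle two vertices have the same colour -/
theorem prim_to_val (hD : B ^ 2 < 4 * C) {f : ℕ → ℤ} (hf : IsSign f) {ρ R : ℝ} {X D : ℕ}
    (hρR : 2 * ρ + bt B C ≤ R) (hρ0 : 0 ≤ ρ) (hR : R ^ 2 + |(B : ℝ)| ≤ X)
    (hDiv : ∀ n : ℤ, |n| ≤ X → (n ^ 2 + B * n + C).natAbs.divisors.card ≤ D) :
    (primF B C ρ).card ≤ 2 * (15 * D) * (valF f B C X 1).card := by
  classical
  have hb := bt_pos hD
  have hR0 : 0 ≤ R := by linarith
  have hex : ∀ z : ℤ × ℤ, ∃ a b : ℤ × ℤ, z ∈ primF B C ρ → (a ≠ 0 ∧ b ≠ 0 ∧ ‖cv B C a‖ ≤ R ∧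
      ‖cv B C b‖ ≤ R ∧ dt a b = 1 ∧ col f B C a * col f B C b = 1 ∧ (z = a ∨ z = a - b)) := by
    intro z
    by_cases hz : z ∈ primF B C ρ
    · have hz' := hz
      simp only [primF, Finset.mem_filter] at hz'
      have hz0 := ne_zero_of_mem_ballF hz'.1
      obtain ⟨w, hw, hwn⟩ := exists_short_partner hD hz'.2.2 hz0
      have hw0 : w ≠ 0 := by rintro rfl; simp [dt] at hw
      have hzw0 : z + w ≠ 0 := by
        intro h
        have : dt z (z + w) = 1 := by
          rw [← hw]; simp only [dt, Prod.fst_add, Prod.snd_add]; ring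
        rw [h] at this
        simp [dt] at this
      have n1 : ‖cv B C z‖ ≤ R := by linarith [hz'.2.1]
      have n2 : ‖cv B C w‖ ≤ R := by linarith [hz'.2.1]
      have n3 : ‖cv B C (z + w)‖ ≤ R := by
        rw [cv_add]
        calc _ ≤ ‖cv B C z‖ + ‖cv B C w‖ := norm_add_le _ _
          _ ≤ R := by linarith [hz'.2.1]
      have c1 := col_val hf hD hz0
      have c2 := col_val hf hD hw0
      have c3 := col_val hf hD hzw0
      have d1 : dt z (z + w) = 1 := by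
        rw [← hw]; simp only [dt, Prod.fst_add, Prod.snd_add]; ring
      have d2 : dt (z + w) w = 1 := by
        rw [← hw]; simp only [dt, Prod.fst_add, Prod.snd_add]; ring
      by_cases h1 : col f B C z * col f B C w = 1
      · exact ⟨z, w, fun _ => ⟨hz0, hw0, n1, n2, hw, h1, Or.inl rfl⟩⟩
      · by_cases h2 : col f B C z * col f B C (z + w) = 1
        · exact ⟨z, z + w, fun _ => ⟨hz0, hzw0, n1, n3, d1, h2, Or.inl rfl⟩⟩
        · refine ⟨z + w, w, fun _ => ⟨hzw0, hw0, n3, n2, d2, ?_, Or.inr (by simp)⟩⟩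
          rcases c1 with c1 | c1 <;> rcases c2 with c2 | c2 <;> rcases c3 with c3 | c3 <;>
            rw [c1, c2] at h1 <;> rw [c1, c3] at h2 <;> rw [c2, c3] <;> simp_all
    · exact ⟨0, 0, fun h => absurd h hz⟩
  choose a b hab using hex
  have hbound : ∀ z ∈ primF B C ρ, |ip B C (a z) (b z)| ≤ X := by
    intro z hz
    obtain ⟨ha0, hb0, haR, hbR, hdt, hc, -⟩ := hab z hz
    have h1 := abs_ip_le (B := B) (C := C) hD hdt
    have h2 : |(ip B C (a z) (b z) : ℝ)| ≤ X := by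
      calc _ ≤ ‖cv B C (a z)‖ * ‖cv B C (b z)‖ + |(B : ℝ)| := h1
        _ ≤ R * R + |(B : ℝ)| := by
            have := mul_le_mul haR hbR (norm_nonneg _) hR0
            linarith
        _ = R ^ 2 + |(B : ℝ)| := by ring
        _ ≤ X := hR
    exact_mod_cast h2
  apply Finset.card_le_mul_card_image_of_maps_to (f := fun z => ip B C (a z) (b z))
  · intro z hz
    obtain ⟨ha0, hb0, haR, hbR, hdt, hc, -⟩ := hab z hz
    rw [valF, Finset.mem_filter, Finset.mem_Icc]
    refine ⟨abs_le.1 (hbound z hz), ?_⟩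
    rw [← hc, col_mul_col hf hdt]
    congr 2
    simp only [nf]; ring
  · intro n hn
    rw [valF, Finset.mem_filter, Finset.mem_Icc] at hn
    obtain ⟨S, hS⟩ : ∃ S, S = (primF B C ρ).filter (fun z => ip B C (a z) (b z) = n) := ⟨_, rfl⟩
    have hSa : (S.image a).card ≤ 15 * D := by
      calc (S.image a).card ≤ 15 * (n ^ 2 + B * n + C).natAbs.divisors.card := by
            apply mult_card hD n
            intro y hy
            rw [Finset.mem_image] at hy
            obtain ⟨z, hz, rfl⟩ := hy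
            rw [hS, Finset.mem_filter] at hz
            obtain ⟨ha0, hb0, haR, hbR, hdt, hc, -⟩ := hab z hz.1
            exact ⟨ha0, b z, hdt, hz.2⟩
        _ ≤ 15 * D := by
            have := hDiv n (abs_le.2 hn.1)
            omega
    have hfib : S.card ≤ 2 * (S.image a).card := by
      apply Finset.card_le_mul_card_image_of_maps_to (f := a)
      · intro z hz; exact Finset.mem_image_of_mem a hz
      · intro y _
        rcases (S.filter (fun z => a z = y)).eq_empty_or_nonempty with h0 | ⟨z1, hz1⟩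
        · rw [h0]; simp
        · -- the second member is determined
          rw [hS, Finset.mem_filter, Finset.mem_filter] at hz1
          obtain ⟨⟨hz1p, hz1n⟩, hz1a⟩ := hz1
          have hsub : S.filter (fun z => a z = y) ⊆ {y, y - b z1} := by
            intro z hz
            rw [hS, Finset.mem_filter, Finset.mem_filter] at hz
            obtain ⟨⟨hzp, hzn⟩, hza⟩ := hz
            obtain ⟨ha0, hb0, haR, hbR, hdt, hc, hor⟩ := hab z hzp
            obtain ⟨ha0', hb0', haR', hbR', hdt', hc', hor'⟩ := hab z1 hz1p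
            have hbb : b z = b z1 := by
              have e1 := mulv_ip B C (a z) (b z)
              have e2 := mulv_ip B C (a z1) (b z1)
              rw [hdt, hzn, hza] at e1
              rw [hdt', hz1n, hz1a] at e2
              rw [e1] at e2
              have hy0 : y ≠ 0 := by rw [← hza]; exact ha0
              have hpos := nf_pos hD hy0
              have e3 := congrArg Prod.fst e2
              have e4 := congrArg Prod.snd e2
              simp only [Prod.smul_fst, Prod.smul_snd, smul_eq_mul] at e3 e4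
              exact Prod.ext (mul_left_cancel₀ hpos.ne' e3) (mul_left_cancel₀ hpos.ne' e4)
            rw [Finset.mem_insert, Finset.mem_singleton, ← hbb, ← hza]
            exact hor
          exact (Finset.card_le_card hsub).trans Finset.card_le_two
    rw [← hS]
    omega

theorem plus_side_aux (hD : B ^ 2 < 4 * C) {ε : ℝ} (hε : 0 < ε) :
    ∀ᶠ X : ℕ in atTop, ∀ f : ℕ → ℤ, IsSign f →
      (X : ℝ) ^ (1 - ε) ≤ (valF f B C X 1).card := by
  obtain ⟨cτ, hcτ, hτ⟩ := div_F_le B C (show 0 < ε / 4 by positivity)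
  have hcB := cB_ge hD
  have hmB := mB_ge hD
  have hb := bt_pos hD
  obtain ⟨K, hK⟩ : ∃ K : ℝ, K = 40 * cB B C ^ 2 * mB B C ^ 2 := ⟨_, rfl⟩
  have hK0 : 0 < K := by rw [hK]; positivity
  obtain ⟨M, hM⟩ : ∃ M : ℝ, M = 5 * (2 * cB B C ^ 2 * K) * 64 * (30 * cτ) := ⟨_, rfl⟩
  have hM0 : 0 < M := by rw [hM]; positivity
  filter_upwards [eventually_rpow_ge M (show 0 < ε / 2 by positivity),
    eventually_rpow_ge (max 1 (2 * |(B : ℝ)|)) (show (0 : ℝ) < 1 by norm_num),
    eventually_rpow_ge (16 * bt B C ^ 2) (show (0 : ℝ) < 1 by norm_num),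
    eventually_rpow_ge (64 * cB B C ^ 2) (show (0 : ℝ) < 1 by norm_num),
    eventually_rpow_ge (64 * (2 * cB B C ^ 2 * K)) (show (0 : ℝ) < 1 by norm_num)]
    with X h1 h2 h3 h4 h5
  intro f hf
  rw [Real.rpow_one] at h2 h3 h4 h5
  have hX1 : (1 : ℝ) ≤ X := (le_max_left _ _).trans h2
  have hXB : 2 * |(B : ℝ)| ≤ X := (le_max_right _ _).trans h2
  have hX1' : 1 ≤ X := by exact_mod_cast hX1
  have hX0 : (0 : ℝ) < X := by linarith
  obtain ⟨R, hR⟩ : ∃ R : ℝ, R = √X / 2 := ⟨_, rfl⟩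
  have hR0 : 0 < R := by rw [hR]; positivity
  have hR2 : R ^ 2 = X / 4 := by rw [hR, div_pow, Real.sq_sqrt hX0.le]; norm_num
  obtain ⟨ρ, hρ⟩ : ∃ ρ : ℝ, ρ = R / 4 := ⟨_, rfl⟩
  have hρ0 : 0 < ρ := by rw [hρ]; positivity
  have hρ2 : ρ ^ 2 = X / 64 := by rw [hρ, div_pow, hR2]; ring
  have hbR : bt B C ≤ R / 2 := by
    have : bt B C ^ 2 ≤ (R / 2) ^ 2 := by rw [div_pow, hR2]; linarith
    exact (pow_le_pow_iff_left₀ hb.le (by positivity) two_ne_zero).1 this
  have hcρ : cB B C ≤ ρ := by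
    have : cB B C ^ 2 ≤ ρ ^ 2 := by rw [hρ2]; linarith
    exact (pow_le_pow_iff_left₀ (by linarith) hρ0.le two_ne_zero).1 this
  have hprim := card_primF hD hcρ hK (by rw [hρ2]; linarith)
  have hval := prim_to_val hD hf (ρ := ρ) (R := R) (X := X)
    (D := ⌊cτ * (X : ℝ) ^ (2 * (ε / 4))⌋₊) (by rw [hρ]; linarith) hρ0.le
    (by rw [hR2]; linarith) (hτ X hX1')
  have hval' : ((primF B C ρ).card : ℝ) ≤
      30 * (cτ * (X : ℝ) ^ (ε / 2)) * (valF f B C X 1).card := by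
    have hfl : ((⌊cτ * (X : ℝ) ^ (2 * (ε / 4))⌋₊ : ℕ) : ℝ) ≤ cτ * (X : ℝ) ^ (ε / 2) := by
      calc _ ≤ cτ * (X : ℝ) ^ (2 * (ε / 4)) := Nat.floor_le (by positivity)
        _ = _ := by ring_nf
    calc ((primF B C ρ).card : ℝ)
        ≤ ((2 * (15 * ⌊cτ * (X : ℝ) ^ (2 * (ε / 4))⌋₊) * (valF f B C X 1).card : ℕ) : ℝ) := by
          exact_mod_cast hval
      _ = 30 * ((⌊cτ * (X : ℝ) ^ (2 * (ε / 4))⌋₊ : ℕ) : ℝ) * (valF f B C X 1).card := by
          push_cast; ring
      _ ≤ _ := by gcongr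
  have hfin : 1 ≤ M * (X : ℝ) ^ (ε / 2) / X * (valF f B C X 1).card := by
    calc (1 : ℝ) ≤ 5 * (2 * cB B C ^ 2 * K / ρ ^ 2) * (primF B C ρ).card := hprim
      _ ≤ 5 * (2 * cB B C ^ 2 * K / ρ ^ 2) *
          (30 * (cτ * (X : ℝ) ^ (ε / 2)) * (valF f B C X 1).card) := by gcongr
      _ = M * (X : ℝ) ^ (ε / 2) / X * (valF f B C X 1).card := by
          rw [hρ2, hM]; field_simp
  have hfin2 : (X : ℝ) / (X : ℝ) ^ (ε / 2) ≤ M * (valF f B C X 1).card := by
    rw [div_le_iff₀ (by positivity)]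
    have h12 : (X : ℝ) * 1 ≤ X * (M * (X : ℝ) ^ (ε / 2) / X * (valF f B C X 1).card) := by
      gcongr
    calc (X : ℝ) = X * 1 := by ring
      _ ≤ _ := h12
      _ = _ := by field_simp
  have h13 : (X : ℝ) ^ (1 - ε) * M ≤ (X : ℝ) / (X : ℝ) ^ (ε / 2) := by
    calc (X : ℝ) ^ (1 - ε) * M ≤ (X : ℝ) ^ (1 - ε) * (X : ℝ) ^ (ε / 2) := by gcongr
      _ = (X : ℝ) ^ (1 - ε / 2) := by rw [← Real.rpow_add hX0]; ring_nf
      _ = (X : ℝ) / (X : ℝ) ^ (ε / 2) := by rw [Real.rpow_sub hX0, Real.rpow_one]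
  have h14 : M * (X : ℝ) ^ (1 - ε) ≤ M * (valF f B C X 1).card := by
    linarith
  exact le_of_mul_le_mul_left h14 hM0

end Pool.Agent.FareyParity
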